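import Pool.Agent.Lib.MP_4e4ac8_an.LV.St

/-! Smooth approximate solutions between the barriers. -/

namespace Pool.Agent.Lib.MP_4e4ac8_an.LV

open MeasureTheory Complex Matrix Filter Topology Set
open Pool.Agent.Lib.MP_813db1_ag.HS
open scoped ContDiff Manifold

namespace APX

theorem lap_shift {u v : E → ℝ} {x : E} (h : ∀ᶠ y in 𝓝 x, u y = v y - 1) : lap u x = lap v x := by
  have e : cx u =ᶠ[𝓝 x] fun y => cx v y - 1 := h.mono fun y e => by simp [cx, e]
  have e2 : levi (fun y => cx v y - 1) x = levi (cx v) x := by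
    have : ∀ j, dzb (fun y => cx v y - 1) j = dzb (cx v) j := fun j => funext fun y => by
      simp only [dzb, fderiv_sub_const]
    simp only [levi, this]
  rw [lap, lap, HH, HH, levi_congr e, e2]

theorem dl_le {η : ℝ} {b f : E → ℝ} {x : E} (h : ∀ y, b y ≤ f y + 1) (e : b x = f x + 1) :
    dl η b x ≤ dl η f x :=
  div_le_div_of_nonneg_right (Finset.sum_le_sum fun j _ => by
    linarith [h (x + Pi.single j (η : ℂ)), h (x - Pi.single j (η : ℂ)),
      h (x + Pi.single j (η * I)), h (x - Pi.single j (η * I))]) (by positivity)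

theorem lap_bd (h1 : StAPX1) {f : E → ℝ} (hf : ContDiff ℝ ∞ f) (hc : HasCompactSupport f) :
    ∃ C, ∀ x, lap f x ≤ C := by
  obtain ⟨η, h0, h⟩ := h1.1 f hf hc 1 one_pos
  obtain ⟨C, hC⟩ := hc.exists_bound_of_continuous hf.continuous
  refine ⟨(∑ _j : Fin 3, 8 * C) / (4 * (η / 2) ^ 2) + 1, fun x => ?_⟩
  have a := abs_le.1 (h (η / 2) ⟨by positivity, by linarith⟩ x)
  have k := fun y => abs_le.1 (hC y)
  have b : dl (η / 2) f x ≤ (∑ _j : Fin 3, 8 * C) / (4 * (η / 2) ^ 2) :=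
    div_le_div_of_nonneg_right (Finset.sum_le_sum fun j _ => by
      linarith [(k (x + Pi.single j ((η / 2 : ℝ) : ℂ))).2, (k (x - Pi.single j ((η / 2 : ℝ) : ℂ))).2,
        (k (x + Pi.single j ((η / 2 : ℝ) * I))).2, (k (x - Pi.single j ((η / 2 : ℝ) * I))).2,
        (k x).1]) (by positivity)
  linarith [a.1]

theorem cut {K Ω : Set E} (hK : IsCompact K) (hΩ : IsOpen Ω) (h : K ⊆ Ω) :
    ∃ ζ : E → ℝ, ContDiff ℝ ∞ ζ ∧ HasCompactSupport ζ ∧ tsupport ζ ⊆ Ω ∧
      (∀ x, ζ x ∈ Icc (0 : ℝ) 1) ∧ ∀ x ∈ K, ∀ᶠ y in 𝓝 x, ζ y = 1 := by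
  obtain ⟨L, hL, h1, h2⟩ := exists_compact_between hK hΩ h
  obtain ⟨f, f1, f0, f2⟩ :=
    exists_contMDiffMap_one_nhds_of_subset_interior (n := ⊤) 𝓘(ℝ, E) hK.isClosed h1
  have s : tsupport f ⊆ L :=
    closure_minimal (fun x hx => by_contra fun k => hx (f0 x k)) hL.isClosed
  exact ⟨f, f.contMDiff.contDiff, hL.of_isClosed_subset (isClosed_tsupport _) s, s.trans h2, f2,
    fun x hx => f1.filter_mono (nhds_le_nhdsSet hx)⟩

theorem mul_cd {n : WithTop ℕ∞} {ζ g : E → ℝ} {Ω : Set E} (hΩ : IsOpen Ω) (hζ : ContDiff ℝ n ζ)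
    (hs : tsupport ζ ⊆ Ω) (hg : ContDiffOn ℝ n g Ω) : ContDiff ℝ n fun x => ζ x * g x :=
  contDiff_iff_contDiffAt.2 fun x => by
    by_cases k : x ∈ tsupport ζ
    · exact hζ.contDiffAt.mul (hg.contDiffAt (hΩ.mem_nhds (hs k)))
    · exact (contDiffAt_const (c := (0 : ℝ))).congr_of_eventuallyEq
        ((notMem_tsupport_iff_eventuallyEq.1 k).mono fun y e => by simp [e])

theorem core (h2 : StAPX2) (h3 : StAPX3) {δ Λ B γ : ℝ} {G : E → ℝ → ℝ} {b : E → ℝ} (hδ : 0 < δ)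
    (hγ : 0 < γ) (hb : ∀ x, 0 ≤ b x ∧ b x ≤ B)
    (hG : ∀ x v w, v ≤ w → δ * (w - v) ≤ G x w - G x v ∧ G x w - G x v ≤ Λ * (w - v))
    (hu : ∀ ε > 0, ∃ μ > 0, ∀ h : E, ‖h‖ < μ → ∀ x v, |v| ≤ B → |G (x + h) v - G x v| ≤ ε)
    (hη : ∃ η1 > 0, ∀ η ∈ Ioo (0 : ℝ) η1, ∀ x, dl η b x ≤ G x (b x) ∧ G x (-b x) ≤ -dl η b x) :
    ∃ W : E → ℝ, ContDiff ℝ ∞ W ∧ ∀ x, |W x| ≤ b x + γ ∧ |lap W x - G x (W x)| ≤ γ := by
  have hΛ : δ ≤ Λ := by
    have := hG 0 0 1 zero_le_one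
    linarith [this.1, this.2]
  have Λ0 : 0 < Λ := hδ.trans_le hΛ
  have lip' : ∀ x v w, v ≤ w → |G x w - G x v| ≤ Λ * |w - v| := fun x v w k => by
    have := hG x v w k
    rw [abs_of_nonneg (sub_nonneg.2 k),
      abs_of_nonneg ((mul_nonneg hδ.le (sub_nonneg.2 k)).trans this.1)]
    exact this.2
  have lip : ∀ x v w, |G x w - G x v| ≤ Λ * |w - v| := fun x v w => by
    rcases le_total v w with k | k
    · exact lip' x v w k
    · rw [abs_sub_comm, abs_sub_comm w]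
      exact lip' x w v k
  obtain ⟨ϖ, ϖ0, ϖ1, ϖ2⟩ : ∃ ϖ > 0, ϖ ≤ γ ∧ ϖ * (6 * Λ) ≤ γ :=
    ⟨min γ (γ / (6 * Λ)), by positivity, min_le_left _ _,
      (le_div_iff₀ (by positivity)).1 (min_le_right _ _)⟩
  obtain ⟨μ, μ0, hμ⟩ := hu (δ * ϖ) (by positivity)
  obtain ⟨η0, p0, q0⟩ := h3 μ B (γ / 2) μ0 (by positivity)
  obtain ⟨η1, p1, q1⟩ := hη
  obtain ⟨η, r0, r1, r2⟩ : ∃ η > 0, η < η0 ∧ η < η1 := by
    have := lt_min p0 p1
    exact ⟨min η0 η1 / 2, by positivity, by linarith [min_le_left η0 η1],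
      by linarith [min_le_right η0 η1]⟩
  obtain ⟨V, V1, V2, V3⟩ := h2 η δ Λ B G b r0 hδ hb hG (q1 η ⟨r0, r2⟩)
  have VB : ∀ x, |V x| ≤ B := fun x => (V1 x).trans (hb x).2
  have md : ∀ {ε ν : ℝ}, (∀ h : E, ‖h‖ < ν → ∀ x v, |v| ≤ B → |G (x + h) v - G x v| ≤ δ * ε) →
      ∀ x, ∀ y ∈ Metric.ball x ν, |V y - V x| ≤ ε := fun hh x y hy => by
    have := V3 (y - x) _ (hh _ (mem_ball_iff_norm.1 hy)) x
    rwa [add_sub_cancel, mul_div_cancel_left₀ _ hδ.ne'] at this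
  have Vc : Continuous V := Metric.continuous_iff.2 fun x ε hε => by
    obtain ⟨ν, ν0, hν⟩ := hu (δ * (ε / 2)) (by positivity)
    exact ⟨ν, ν0, fun y hy => (md hν x y hy).trans_lt (by linarith)⟩
  obtain ⟨W, W1, W2⟩ := q0 η ⟨r0, r1⟩ V Vc VB
  refine ⟨W, W1, fun x => ?_⟩
  have a1 := (W2 x ϖ).1 (md hμ x)
  have a2 := (W2 x (2 * Λ * ϖ)).2 fun y hy => by
    rw [V2, V2]
    have b1 := hμ _ (mem_ball_iff_norm.1 hy) x (V y) (VB y)
    rw [add_sub_cancel] at b1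
    linarith [lip x (V x) (V y), mul_le_mul_of_nonneg_left (md hμ x y hy) Λ0.le,
      abs_sub_le (G y (V y)) (G x (V y)) (G x (V x)), mul_le_mul_of_nonneg_right hΛ ϖ0.le]
  rw [V2] at a2
  have a3 := lip x (V x) (W x)
  rw [abs_sub_comm] at a3
  constructor
  · have := abs_add_le (W x - V x) (V x)
    rw [sub_add_cancel] at this
    linarith [V1 x]
  · linarith [abs_sub_le (lap W x) (G x (V x)) (G x (W x)), mul_le_mul_of_nonneg_left a1 Λ0.le]

/-- the truncated nonlinearity -/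
noncomputable def be (T v : ℝ) : ℝ := (Real.exp (2 * min v T) - 1) / 4

theorem be_slope (T : ℝ) {v w : ℝ} (h : v ≤ w) :
    0 ≤ be T w - be T v ∧ be T w - be T v ≤ Real.exp (2 * T) * (w - v) := by
  have a1 : min v T ≤ min w T := min_le_min_right T h
  have a2 : min w T - min v T ≤ w - v := by
    rcases le_total v T with k | k
    · rw [min_eq_left k]
      linarith [min_le_left w T]
    · rw [min_eq_right k]
      linarith [min_le_right w T]
  have a3 : Real.exp (2 * min v T) ≤ Real.exp (2 * min w T) := Real.exp_le_exp.2 (by linarith)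
  have a4 : Real.exp (2 * min w T) ≤ Real.exp (2 * T) :=
    Real.exp_le_exp.2 (by linarith [min_le_right w T])
  have a5 : Real.exp (2 * min v T) =
      Real.exp (2 * min w T) * Real.exp (2 * min v T - 2 * min w T) := by
    rw [← Real.exp_add]
    congr 1
    ring
  have a6 := mul_le_mul_of_nonneg_left (Real.add_one_le_exp (2 * min v T - 2 * min w T))
    (Real.exp_pos (2 * min w T)).le
  have a7 := mul_le_mul a4 a2 (sub_nonneg.2 a1) (Real.exp_pos _).le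
  have a8 := mul_nonneg (Real.exp_pos (2 * T)).le (sub_nonneg.2 h)
  unfold be
  constructor <;> linarith

theorem be_bd {T : ℝ} (hT : 0 ≤ T) (v : ℝ) : |be T v| ≤ Real.exp (2 * T) := by
  have a4 : Real.exp (2 * min v T) ≤ Real.exp (2 * T) :=
    Real.exp_le_exp.2 (by linarith [min_le_right v T])
  have := Real.add_one_le_exp (2 * T)
  have := Real.exp_pos (2 * min v T)
  unfold be
  rw [abs_le]
  constructor <;> linarith

theorem be_eq {T v : ℝ} (h : v ≤ T) : be T v = (Real.exp (2 * v) - 1) / 4 := by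
  rw [be, min_eq_left h]

end APX

open APX

theorem apx_pf (h1 : StAPX1) (h2 : StAPX2) (h3 : StAPX3) : StAPX := by
  intro Ω K κ R φ K0 γ hΩ hK hKΩ hγ hκ hR κ0 hφ φ0 hact
  obtain ⟨ζ, ζ1, ζ2, ζ3, ζ4, ζ5⟩ := cut hK hΩ hKΩ
  obtain ⟨ξ, ξ1, ξ2, ξ3, ξ4, ξ5⟩ := cut ζ2.isCompact hΩ ζ3
  obtain ⟨f, hf⟩ : ∃ f : Fin 3 → E → ℝ, ∀ i, f i = fun x => ξ x * (φ i x - 1) := ⟨_, fun _ => rfl⟩
  have f1 : ∀ i, ContDiff ℝ ∞ (f i) := fun i =>
    hf i ▸ mul_cd hΩ ξ1 ξ3 ((hφ i).sub contDiffOn_const)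
  have f2 : ∀ i, HasCompactSupport (f i) := fun i => hf i ▸ ξ2.mul_right
  have f3 : ∀ x ∈ tsupport ζ, ∀ i, ∀ᶠ y in 𝓝 x, f i y = φ i y - 1 := fun x hx i =>
    (ξ5 x hx).mono fun y e => by simp only [hf, e, one_mul]
  obtain ⟨c, c0, hc⟩ : ∃ c > 0, ∀ i x, c ≤ f i x + 1 := by
    have : ∀ i, ∃ c > 0, ∀ x, c ≤ f i x + 1 := fun i => by
      obtain ⟨c, c0, hc⟩ := ξ2.isCompact.exists_forall_le' (a := 0)
        ((f1 i).continuous.add continuous_const (g := fun _ => 1)).continuousOn fun x hx => by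
          have a := φ0 i x (ξ3 hx)
          simp only [hf, Pi.add_apply]
          rcases (ξ4 x).2.eq_or_lt with k | k
          · rw [k]
            linarith
          · nlinarith [mul_nonneg (ξ4 x).1 a.le]
      refine ⟨min c 1, by positivity, fun x => ?_⟩
      by_cases k : x ∈ tsupport ξ
      · exact (min_le_left _ _).trans (hc x k)
      · simp only [hf, image_eq_zero_of_notMem_tsupport k, zero_mul, zero_add, min_le_right]
    choose c c0 hc using this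
    obtain ⟨i, hi⟩ := Finite.exists_min c
    exact ⟨c i, c0 i, fun j x => (hi j).trans (hc j x)⟩
  obtain ⟨Λ, Λ0, hΛ⟩ : ∃ Λ, 0 ≤ Λ ∧ ∀ i x, lap (f i) x ≤ Λ * c := by
    choose L hL using fun i => lap_bd h1 (f1 i) (f2 i)
    obtain ⟨i, hi⟩ := Finite.exists_max L
    refine ⟨|L i| / c, by positivity, fun j x => ?_⟩
    rw [div_mul_cancel₀ _ c0.ne']
    exact (hL j x).trans ((hi j).trans (le_abs_self _))
  have hm : ∀ x, ∃ i, (∀ j, f i x ≤ f j x) ∧ ζ x * lap (f i) x ≤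
      ζ x * (κ x * (1 - Real.exp (-2 * (f i x + 1))) / 4 - |R x|) := fun x => by
    by_cases k : x ∈ tsupport ζ
    · obtain ⟨i, a1, a2, -⟩ := hact x (ζ3 k)
      have e := fun j => (f3 x k j).self_of_nhds
      refine ⟨i, fun j => by linarith [e i, e j, a1 j], mul_le_mul_of_nonneg_left ?_ (ζ4 x).1⟩
      rwa [lap_shift (f3 x k i), e i, sub_add_cancel]
    · obtain ⟨i, hi⟩ := Finite.exists_min fun i => f i x
      exact ⟨i, hi, by simp only [image_eq_zero_of_notMem_tsupport k, zero_mul, le_refl]⟩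
  choose m m1 m2 using hm
  obtain ⟨C, hC⟩ := (f2 0).exists_bound_of_continuous (f1 0).continuous
  have C0 : 0 ≤ C := (norm_nonneg _).trans (hC 0)
  have hb : ∀ x, 0 ≤ f (m x) x + 1 ∧ f (m x) x + 1 ≤ C + 1 := fun x =>
    ⟨c0.le.trans (hc _ _), by linarith [m1 x 0, (abs_le.1 (hC x)).2]⟩
  have z0 : ContDiff ℝ 0 ζ := contDiff_zero.2 ζ1.continuous
  have k1 : Continuous fun x => ζ x * κ x :=
    (mul_cd hΩ z0 ζ3 (contDiffOn_zero.2 hκ)).continuous
  have k2 : Continuous fun x => ζ x * R x :=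
    (mul_cd hΩ z0 ζ3 (contDiffOn_zero.2 hR)).continuous
  have k3 : HasCompactSupport fun x => ζ x * κ x := ζ2.mul_right
  have k4 : HasCompactSupport fun x => ζ x * R x := ζ2.mul_right
  have k5 : ∀ x, 0 ≤ ζ x * κ x := fun x => by
    by_cases k : x ∈ tsupport ζ
    · exact mul_nonneg (ζ4 x).1 (κ0 x (ζ3 k))
    · rw [image_eq_zero_of_notMem_tsupport k, zero_mul]
  obtain ⟨Q, hQ⟩ := k3.exists_bound_of_continuous k1
  obtain ⟨δ, δ0, hδ⟩ : ∃ δ > 0, δ * (C + 2) = γ / 2 :=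
    ⟨γ / 2 / (C + 2), by positivity, div_mul_cancel₀ _ (by positivity)⟩
  have T0 : 0 ≤ C + 2 := by positivity
  have X0 := Real.exp_pos (2 * (C + 2))
  obtain ⟨W, W1, W2⟩ := core h2 h3 (δ := δ) (Λ := Q * Real.exp (2 * (C + 2)) + Λ + δ) (B := C + 1)
    (γ := min (γ / 2) 1) (b := fun x => f (m x) x + 1)
    (G := fun x v => ζ x * κ x * be (C + 2) v + ζ x * R x + (1 - ζ x) * Λ * v + δ * v)
    δ0 (by positivity) hb
    (fun x v w h => by
      have a := be_slope (C + 2) h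
      have a1 := mul_nonneg (k5 x) a.1
      have a2 := mul_le_mul (le_of_abs_le (hQ x)) a.2 a.1 ((norm_nonneg _).trans (hQ x))
      have a3 := mul_nonneg Λ0 (sub_nonneg.2 h)
      have a4 := mul_nonneg (ζ4 x).1 a3
      have a5 := mul_nonneg (sub_nonneg.2 (ζ4 x).2) a3
      constructor <;> linarith)
    (fun ε ε0 => by
      obtain ⟨ε', e0, e1⟩ : ∃ ε' > 0, ε' * (Real.exp (2 * (C + 2)) + 1 + Λ * (C + 1)) = ε :=
        ⟨ε / (Real.exp (2 * (C + 2)) + 1 + Λ * (C + 1)), by positivity,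
          div_mul_cancel₀ _ (by positivity)⟩
      obtain ⟨μ, μ0, hμ⟩ := Metric.uniformContinuous_iff.1
        ((k3.uniformContinuous_of_continuous k1).prodMk
          ((k4.uniformContinuous_of_continuous k2).prodMk
            (ζ2.uniformContinuous_of_continuous ζ1.continuous))) ε' e0
      refine ⟨μ, μ0, fun h hh x v hv => ?_⟩
      have a := hμ (a := x + h) (b := x) (by rwa [dist_self_add_left])
      simp only [Prod.dist_eq, max_lt_iff, Real.dist_eq] at a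
      have a1 : |(ζ (x + h) * κ (x + h) - ζ x * κ x) * be (C + 2) v| ≤
          ε' * Real.exp (2 * (C + 2)) := by
        rw [abs_mul]
        exact mul_le_mul a.1.le (be_bd T0 v) (abs_nonneg _) e0.le
      have a2 : |(ζ (x + h) - ζ x) * (Λ * v)| ≤ ε' * (Λ * (C + 1)) := by
        rw [abs_mul, abs_mul, abs_of_nonneg Λ0]
        exact mul_le_mul a.2.2.le (mul_le_mul_of_nonneg_left hv Λ0) (by positivity) e0.le
      have a3 := abs_le.1 a.2.1.le
      rw [abs_le] at a1 a2 ⊢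
      constructor <;> linarith [a1.1, a1.2, a2.1, a2.2, a3.1, a3.2])
    (by
      choose η η0 hη using fun i => h1.1 (f i) (f1 i) (f2 i) (δ * c) (by positivity)
      obtain ⟨i, hi⟩ := Finite.exists_min η
      refine ⟨η i, η0 i, fun t ht x => ?_⟩
      have a1 := dl_le (η := t) (b := fun x => f (m x) x + 1) (f := f (m x)) (x := x)
        (fun y => by linarith [m1 y (m x)]) rfl
      have a2 := (abs_le.1 (hη (m x) t ⟨ht.1, ht.2.trans_le (hi _)⟩ x)).2
      have a3 := mul_le_mul_of_nonneg_left ((hΛ (m x) x).trans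
        (mul_le_mul_of_nonneg_left (hc (m x) x) Λ0)) (sub_nonneg.2 (ζ4 x).2)
      have a4 := mul_le_mul_of_nonneg_left (hc (m x) x) δ0.le
      have a5 := m2 x
      have a6 := mul_le_mul_of_nonneg_left (le_abs_self (R x)) (ζ4 x).1
      have a7 := mul_le_mul_of_nonneg_left (neg_abs_le (R x)) (ζ4 x).1
      obtain ⟨p0, p1⟩ := hb x
      generalize f (m x) x + 1 = p at *
      have a8 : 1 - Real.exp (-2 * p) ≤ Real.exp (2 * p) - 1 := by
        linarith [Real.add_one_le_exp (2 * p), Real.add_one_le_exp (-2 * p)]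
      have a9 := mul_le_mul_of_nonneg_left a8 (k5 x)
      rw [be_eq (show p ≤ C + 2 by linarith), be_eq (show -p ≤ C + 2 by linarith),
        show 2 * -p = -2 * p by ring]
      constructor <;> linarith)
  refine ⟨W, W1, fun x hx => ?_⟩
  have e1 : ζ x = 1 := (ζ5 x hx).self_of_nhds
  have e2 : x ∈ tsupport ζ := subset_tsupport _ (by simp [e1])
  obtain ⟨a1, a2⟩ := W2 x
  have a3 := min_le_left (γ / 2) 1
  have a4 : |W x| ≤ C + 2 := by linarith [min_le_right (γ / 2) 1, (hb x).2]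
  refine ⟨fun i => by linarith [m1 x i, (f3 x e2 i).self_of_nhds], ?_⟩
  have a5 : |δ * W x| ≤ γ / 2 := by
    rw [abs_mul, abs_of_pos δ0, ← hδ]
    exact mul_le_mul_of_nonneg_left a4 δ0.le
  rw [e1, be_eq (le_of_abs_le a4)] at a2
  rw [abs_le] at a2 a5 ⊢
  constructor <;> linarith [a2.1, a2.2, a5.1, a5.2]

end Pool.Agent.Lib.MP_4e4ac8_an.LV
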