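import Pool.Agent.Lib.MP_4e4ac8_an.LV.St

/-! Consistency of the difference Laplacian. -/

namespace Pool.Agent.Lib.MP_4e4ac8_an.LV

open Complex Filter Topology Set
open Pool.Agent.Lib.MP_813db1_ag.HS
open scoped ContDiff

namespace APX1

variable {f : E → ℝ}

theorem two (hf : ContDiff ℝ ∞ f) : ContDiff ℝ 2 f := contDiff_infty.1 hf 2

theorem one (hf : ContDiff ℝ ∞ f) : ContDiff ℝ 1 (fderiv ℝ f) :=
  (two hf).fderiv_right (by norm_num)

theorem d2_cx (hf : ContDiff ℝ ∞ f) (x v w : E) :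
    fderiv ℝ (fderiv ℝ (cx f)) x v w = (fderiv ℝ (fderiv ℝ f) x v w : ℝ) := by
  have h := congrArg (fun B => B ![v, w])
    (ofRealCLM.iteratedFDeriv_comp_left (x := x) (two hf).contDiffAt (i := 2) le_rfl)
  simp only [iteratedFDeriv_two_apply, ContinuousLinearMap.compContinuousMultilinearMap_coe,
    Function.comp_apply] at h
  exact h

theorem lap_eq (hf : ContDiff ℝ ∞ f) (x : E) :
    lap f x = (∑ j, (fderiv ℝ (fderiv ℝ f) x (Pi.single j 1) (Pi.single j 1) +
      fderiv ℝ (fderiv ℝ f) x (Pi.single j I) (Pi.single j I))) / 4 := by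
  have h : ContDiffAt ℝ 2 (cx f) x := (ofRealCLM.contDiff.comp (two hf)).contDiffAt
  rw [lap, HH, Matrix.trace, re_sum, Finset.sum_div]
  refine Finset.sum_congr rfl fun j _ => ?_
  rw [Matrix.diag_apply, levi_eq_lvB h, lvB]
  simp only [d2_cx hf]
  simp
  ring

theorem diff2 (hf : ContDiff ℝ ∞ f) {x v : E} {η ε : ℝ} (hη : 0 < η) (hv : ‖v‖ ≤ 1)
    (h : ∀ y, dist y x ≤ η → ‖fderiv ℝ (fderiv ℝ f) y - fderiv ℝ (fderiv ℝ f) x‖ ≤ ε) :
    |f (x + η • v) + f (x - η • v) - 2 * f x - η ^ 2 * fderiv ℝ (fderiv ℝ f) x v v| ≤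
      2 * ε * η ^ 2 := by
  have ε0 : 0 ≤ ε := (ContinuousLinearMap.opNorm_nonneg _).trans (h x (by simpa using hη.le))
  have l1 : ∀ t : ℝ, HasDerivAt (fun t : ℝ => x + t • v) v t := fun t => by
    simpa using ((hasDerivAt_id t).smul_const v).const_add x
  have l2 : ∀ t : ℝ, HasDerivAt (fun t : ℝ => x - t • v) (-v) t := fun t => by
    simpa using ((hasDerivAt_id t).smul_const v).const_sub x
  have d1 : ∀ y, HasFDerivAt f (fderiv ℝ f y) y := fun y =>
    ((two hf).differentiable (by norm_num) y).hasFDerivAt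
  have d2 : ∀ y, HasFDerivAt (fun y => fderiv ℝ f y v)
      ((ContinuousLinearMap.apply ℝ ℝ v).comp (fderiv ℝ (fderiv ℝ f) y)) y := fun y =>
    (ContinuousLinearMap.apply ℝ ℝ v).hasFDerivAt.comp y
      ((one hf).differentiable one_ne_zero y).hasFDerivAt
  have b : ∀ y, dist y x ≤ η →
      |fderiv ℝ (fderiv ℝ f) y v v - fderiv ℝ (fderiv ℝ f) x v v| ≤ ε := fun y hy => by
    have a := (fderiv ℝ (fderiv ℝ f) y - fderiv ℝ (fderiv ℝ f) x).le_opNorm₂ v v
    have c := mul_le_mul (mul_le_mul (h y hy) hv (norm_nonneg _) ε0) hv (norm_nonneg _)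
      (by positivity)
    rw [mul_one, mul_one] at c
    exact a.trans c
  generalize hc : fderiv ℝ (fderiv ℝ f) x v v = c at b ⊢
  have g2 := norm_image_sub_le_of_norm_deriv_le_segment' (a := 0) (b := η) (C := 2 * ε)
    (f := fun t => fderiv ℝ f (x + t • v) v - fderiv ℝ f (x - t • v) v - 2 * t * c)
    (f' := fun t => fderiv ℝ (fderiv ℝ f) (x + t • v) v v +
      fderiv ℝ (fderiv ℝ f) (x - t • v) v v - 2 * c)
    (fun t _ => by
      have := (((d2 _).comp_hasDerivAt t (l1 t)).sub ((d2 _).comp_hasDerivAt t (l2 t))).sub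
        (((hasDerivAt_id t).const_mul 2).mul_const c)
      refine (this.congr_deriv ?_).hasDerivWithinAt
      simp)
    fun t ht => by
      have n : ‖t • v‖ ≤ η := by
        rw [norm_smul, Real.norm_of_nonneg ht.1]
        nlinarith [ht.1, ht.2, norm_nonneg v]
      have a := abs_le.1 (b (x + t • v) (by rwa [dist_self_add_left]))
      have e := abs_le.1 (b (x - t • v) (by rwa [dist_self_sub_left]))
      exact abs_le.2 ⟨by linarith [a.1, e.1], by linarith [a.2, e.2]⟩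
  have g1 := norm_image_sub_le_of_norm_deriv_le_segment' (a := 0) (b := η) (C := 2 * ε * η)
    (f := fun t => f (x + t • v) + f (x - t • v) - 2 * f x - t ^ 2 * c)
    (f' := fun t => fderiv ℝ f (x + t • v) v - fderiv ℝ f (x - t • v) v - 2 * t * c)
    (fun t _ => by
      have := ((((d1 _).comp_hasDerivAt t (l1 t)).add
        ((d1 _).comp_hasDerivAt t (l2 t))).sub_const (2 * f x)).sub
        ((hasDerivAt_pow 2 t).mul_const c)
      refine (this.congr_deriv ?_).hasDerivWithinAt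
      simp [sub_eq_add_neg])
    (fun t ht => by
      have a := g2 t ⟨ht.1, ht.2.le⟩
      simp only [zero_smul, add_zero, sub_zero, sub_self, mul_zero, zero_mul] at a
      exact a.trans (mul_le_mul_of_nonneg_left ht.2.le (by positivity)))
    η ⟨hη.le, le_rfl⟩
  have z : f (x + (0 : ℝ) • v) + f (x - (0 : ℝ) • v) - 2 * f x - 0 ^ 2 * c = 0 := by
    simp [two_mul]
  rw [z, sub_zero, sub_zero, Real.norm_eq_abs] at g1
  linarith

theorem key (hf : ContDiff ℝ ∞ f) {x : E} {η ε : ℝ} (hη : 0 < η)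
    (h : ∀ y, dist y x ≤ η → ‖fderiv ℝ (fderiv ℝ f) y - fderiv ℝ (fderiv ℝ f) x‖ ≤ ε) :
    |dl η f x - lap f x| ≤ 3 * ε := by
  have s1 : ∀ j : Fin 3, (Pi.single j (η : ℂ) : E) = η • (Pi.single j 1 : E) := fun j => by
    rw [← Pi.single_smul, real_smul, mul_one]
  have s2 : ∀ j : Fin 3, (Pi.single j (η * I) : E) = η • (Pi.single j I : E) := fun j => by
    rw [← Pi.single_smul, real_smul]
  have a := fun j : Fin 3 => abs_le.1 (diff2 hf (v := Pi.single j 1) hη (by simp [Pi.norm_single]) h)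
  have b := fun j : Fin 3 => abs_le.1 (diff2 hf (v := Pi.single j I) hη (by simp [Pi.norm_single]) h)
  have p : 0 < 4 * η ^ 2 := by positivity
  rw [lap_eq hf, dl, ← mul_div_mul_left _ (4 : ℝ) (pow_pos hη 2).ne', mul_comm (η ^ 2) 4, ← sub_div,
    abs_div, abs_of_pos p, div_le_iff₀ p]
  simp only [s1, s2, Fin.sum_univ_three]
  exact abs_le.2 ⟨by linarith [(a 0).1, (a 1).1, (a 2).1, (b 0).1, (b 1).1, (b 2).1],
    by linarith [(a 0).2, (a 1).2, (a 2).2, (b 0).2, (b 1).2, (b 2).2]⟩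

theorem cont (hf : ContDiff ℝ ∞ f) : Continuous (fderiv ℝ (fderiv ℝ f)) :=
  (one hf).continuous_fderiv one_ne_zero

end APX1

open APX1 in
theorem apx1_pf : StAPX1 := by
  refine ⟨fun f hf hc γ hγ => ?_, fun f hf x => Metric.tendsto_nhds.2 fun γ hγ => ?_⟩
  · obtain ⟨δ, a, b⟩ := (Metric.uniformContinuous_iff (α := E) (β := E →L[ℝ] E →L[ℝ] ℝ)).1
      (((hc.fderiv ℝ).fderiv ℝ).uniformContinuous_of_continuous (cont hf)) (γ / 3) (by positivity)
    refine ⟨δ, a, fun η hη x => ?_⟩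
    have := key hf (x := x) (ε := γ / 3) hη.1 fun y hy =>
      (dist_eq_norm (E := E →L[ℝ] E →L[ℝ] ℝ) _ _).symm.trans_le (b (hy.trans_lt hη.2)).le
    linarith
  · obtain ⟨δ, a, b⟩ := (Metric.continuousAt_iff (α := E) (β := E →L[ℝ] E →L[ℝ] ℝ) (a := x)).1
      (cont hf).continuousAt (γ / 4) (by positivity)
    filter_upwards [Ioo_mem_nhdsGT a] with η hη
    have := key hf (x := x) (ε := γ / 4) hη.1 fun y hy =>
      (dist_eq_norm (E := E →L[ℝ] E →L[ℝ] ℝ) _ _).symm.trans_le (b (hy.trans_lt hη.2)).le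
    rw [Real.dist_eq]
    linarith

end Pool.Agent.Lib.MP_4e4ac8_an.LV
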