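import Pool.Agent.Lib.MP_4e4ac8_an.LV.St

/-! The discrete equation: a monotone fixed point and a modulus of continuity. -/

namespace Pool.Agent.Lib.MP_4e4ac8_an.LV

open Set Complex

namespace APX2

section

variable {X : Type*} [AddCommGroup X] {ι : Type*} [Fintype ι]

/-- The discrete equation has a solution between the barriers. -/
lemma disc {c Λ : ℝ} (hc : 0 ≤ c) (hΛ : 0 ≤ Λ) (h : ι → X) (G : X → ℝ → ℝ) (b : X → ℝ)
    (hb : ∀ x, 0 ≤ b x) (hG : ∀ x v w, v ≤ w → G x w - G x v ≤ Λ * (w - v))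
    (h1 : ∀ x, c * ∑ i, (b (x + h i) + b (x - h i) - 2 * b x) ≤ G x (b x))
    (h2 : ∀ x, c * ∑ i, (b (x + h i) + b (x - h i) - 2 * b x) ≤ - G x (-b x)) :
    ∃ V : X → ℝ, (∀ x, |V x| ≤ b x) ∧
      ∀ x, c * ∑ i, (V (x + h i) + V (x - h i) - 2 * V x) = G x (V x) := by
  set n : ℝ := (Fintype.card ι : ℝ) with hn
  have hn0 : 0 ≤ n := Nat.cast_nonneg _
  have hM : 0 < 2 * c * n + Λ + 1 := by positivity
  set τ : ℝ := 1 / (2 * c * n + Λ + 1) with hτ
  have hτ0 : 0 < τ := by positivity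
  have hτ1 : τ * (2 * c * n + Λ + 1) = 1 := by rw [hτ]; field_simp
  let T : (X → ℝ) → X → ℝ := fun V x =>
    V x + τ * (c * ∑ i, (V (x + h i) + V (x - h i) - 2 * V x) - G x (V x))
  have hT : Monotone T := by
    intro V V' hV x
    have a1 : ∑ i, (V (x + h i) + V (x - h i) - 2 * V x) - n * (2 * (V' x - V x)) ≤
        ∑ i, (V' (x + h i) + V' (x - h i) - 2 * V' x) := by
      have : n * (2 * (V' x - V x)) = ∑ _i : ι, 2 * (V' x - V x) := by
        rw [Finset.sum_const, Finset.card_univ, nsmul_eq_mul]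
      rw [this, ← Finset.sum_sub_distrib]
      exact Finset.sum_le_sum fun i _ => by linarith [hV (x + h i), hV (x - h i)]
    have a2 := hG x _ _ (hV x)
    have a3 := mul_le_mul_of_nonneg_left a1 hc
    have a4 : 0 ≤ V' x - V x := sub_nonneg.2 (hV x)
    have a5 : -((2 * c * n + Λ + 1) * (V' x - V x)) ≤
        (c * ∑ i, (V' (x + h i) + V' (x - h i) - 2 * V' x) - G x (V' x)) -
        (c * ∑ i, (V (x + h i) + V (x - h i) - 2 * V x) - G x (V x)) := by nlinarith
    have a6 := mul_le_mul_of_nonneg_left a5 hτ0.le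
    rw [mul_neg, ← mul_assoc, hτ1, one_mul] at a6
    show V x + _ ≤ V' x + _
    linarith
  have hle : (fun x => -b x) ≤ b := fun x => by linarith [hb x]
  have hup : T b ≤ b := fun x => by
    have := mul_nonpos_of_nonneg_of_nonpos hτ0.le (sub_nonpos.2 (h1 x))
    show b x + _ ≤ b x
    linarith
  have hlo : (fun x => -b x) ≤ T fun x => -b x := fun x => by
    have e : ∑ i, (-b (x + h i) + -b (x - h i) - 2 * -b x) =
        -∑ i, (b (x + h i) + b (x - h i) - 2 * b x) := by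
      rw [← Finset.sum_neg_distrib]
      exact Finset.sum_congr rfl fun i _ => by ring
    have : 0 ≤ τ * (c * ∑ i, (-b (x + h i) + -b (x - h i) - 2 * -b x) - G x (-b x)) :=
      mul_nonneg hτ0.le (by rw [e]; linarith [h2 x])
    show -b x ≤ -b x + _
    linarith
  have : Fact ((fun x => -b x) ≤ b) := ⟨hle⟩
  let F : Icc (fun x => -b x) b →o Icc (fun x => -b x) b :=
    ⟨fun V => ⟨T V, hlo.trans (hT V.2.1), (hT V.2.2).trans hup⟩, fun _ _ hV => hT hV⟩
  have hfix : T (F.lfp : Icc (fun x => -b x) b) = (F.lfp : Icc (fun x => -b x) b) :=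
    congrArg Subtype.val F.map_lfp
  refine ⟨(F.lfp : Icc (fun x => -b x) b), fun x => abs_le.2 ⟨F.lfp.2.1 x, F.lfp.2.2 x⟩,
    fun x => ?_⟩
  have := congrFun hfix x
  simp only [T, add_eq_left, mul_eq_zero, hτ0.ne', false_or] at this
  exact sub_eq_zero.1 this

/-- A modulus of continuity that does not depend on the mesh. -/
lemma modulus {c δ ω K : ℝ} (hc : 0 ≤ c) (hδ : 0 < δ) (hω : 0 ≤ ω) (h : ι → X)
    (G : X → ℝ → ℝ) (V : X → ℝ) (hK : ∀ x, |V x| ≤ K)
    (hV : ∀ x, c * ∑ i, (V (x + h i) + V (x - h i) - 2 * V x) = G x (V x))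
    (hG : ∀ x v w, v ≤ w → δ * (w - v) ≤ G x w - G x v) (a : X)
    (hGa : ∀ x v, |v| ≤ K → G x v - G (x + a) v ≤ ω) (x : X) : V (x + a) - V x ≤ ω / δ := by
  set n : ℝ := (Fintype.card ι : ℝ) with hn
  have hn0 : 0 ≤ n := Nat.cast_nonneg _
  have hbd : BddAbove (range fun x => V (x + a) - V x) := by
    refine ⟨2 * K, ?_⟩
    rintro _ ⟨y, rfl⟩
    linarith [(abs_le.1 (hK (y + a))).2, (abs_le.1 (hK y)).1]
  set s := ⨆ x, (V (x + a) - V x) with hs
  have hle : ∀ y, V (y + a) - V y ≤ s := fun y => le_ciSup hbd y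
  refine (hle x).trans ?_
  rw [le_div_iff₀ hδ]
  rcases le_total s 0 with h0 | h0
  · nlinarith
  have hM : 0 < δ + 2 * c * n := by positivity
  have key : ∀ y, V (y + a) - V y ≤ (ω + 2 * c * n * s) / (δ + 2 * c * n) := by
    intro y
    rcases le_total (V (y + a)) (V y) with h1 | h1
    · exact le_trans (by linarith) (by positivity : (0 : ℝ) ≤ _)
    rw [le_div_iff₀ hM]
    have a1 : ∑ i, (V (y + a + h i) + V (y + a - h i) - 2 * V (y + a)) ≤
        ∑ i, (V (y + h i) + V (y - h i) - 2 * V y) + n * (2 * (s - (V (y + a) - V y))) := by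
      have : n * (2 * (s - (V (y + a) - V y))) = ∑ _i : ι, 2 * (s - (V (y + a) - V y)) := by
        rw [Finset.sum_const, Finset.card_univ, nsmul_eq_mul]
      rw [this, ← Finset.sum_add_distrib]
      refine Finset.sum_le_sum fun i _ => ?_
      have b1 := hle (y + h i)
      have b2 := hle (y - h i)
      rw [add_right_comm] at b1
      rw [sub_add_eq_add_sub] at b2
      linarith
    have a2 := mul_le_mul_of_nonneg_left a1 hc
    rw [mul_add, hV, hV] at a2
    have a3 := hG (y + a) _ _ h1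
    have a4 := hGa y _ (hK y)
    nlinarith
  have : Nonempty X := ⟨x⟩
  have := ciSup_le key
  rw [← hs, le_div_iff₀ hM] at this
  nlinarith

end

/-- The six step vectors. -/
noncomputable def hv (η : ℝ) (i : Fin 3 × Bool) : E :=
  if i.2 then Pi.single i.1 (η : ℂ) else Pi.single i.1 (η * I)

lemma dl_eq (η : ℝ) (V : E → ℝ) (x : E) :
    dl η V x = 1 / (4 * η ^ 2) * ∑ i, (V (x + hv η i) + V (x - hv η i) - 2 * V x) := by
  rw [dl, Fintype.sum_prod_type, one_div, inv_mul_eq_div]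
  congr 1
  refine Finset.sum_congr rfl fun j _ => ?_
  simp only [Fintype.sum_bool, hv, if_true, Bool.false_eq_true, if_false]
  ring

end APX2

open APX2 in
theorem apx2_pf : StAPX2 := by
  intro η δ Λ B G b hη hδ hb hG hs
  have hc : (0 : ℝ) ≤ 1 / (4 * η ^ 2) := by positivity
  have hΛ : 0 ≤ Λ := by
    have := hG 0 0 1 zero_le_one
    linarith [this.1, this.2]
  obtain ⟨V, hV1, hV2⟩ := disc hc hΛ (hv η) G b (fun x => (hb x).1)
    (fun x v w h => (hG x v w h).2) (fun x => by rw [← dl_eq]; exact (hs x).1)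
    (fun x => by rw [← dl_eq]; linarith [(hs x).2])
  refine ⟨V, hV1, fun x => by rw [dl_eq, hV2], fun h ϖ hϖ x => ?_⟩
  have hK : ∀ x, |V x| ≤ B := fun x => (hV1 x).trans (hb x).2
  have h0 : 0 ≤ ϖ := (abs_nonneg _).trans (hϖ x _ (hK x))
  have a1 := modulus hc hδ h0 (hv η) G V hK hV2 (fun x v w h => (hG x v w h).1) h
    (fun y v hv => by linarith [(abs_le.1 (hϖ y v hv)).1]) x
  have a2 := modulus hc hδ h0 (hv η) G V hK hV2 (fun x v w h => (hG x v w h).1) (-h)
    (fun y v hv => by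
      have := (abs_le.1 (hϖ (y + -h) v hv)).2
      rwa [neg_add_cancel_right] at this) (x + h)
  rw [add_neg_cancel_right] at a2
  exact abs_le.2 ⟨by linarith, a1⟩

end Pool.Agent.Lib.MP_4e4ac8_an.LV
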