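import Pool.Agent.Lib.MP_4e4ac8_an.LV.St

/-! Mollification of solutions of the difference equation. -/

namespace Pool.Agent.Lib.MP_4e4ac8_an.LV

open MeasureTheory Complex Filter Topology Set Metric ContinuousLinearMap
open scoped ContDiff Convolution

namespace APX3

theorem dl_int (η : ℝ) (K : E → E → ℝ) (hK : ∀ y, Integrable (K y)) (x : E) :
    dl η (fun y => ∫ t, K y t) x = ∫ t, dl η (fun y => K y t) x := by
  simp only [dl]
  rw [integral_div, integral_finsetSum]
  · congr 1
    refine Finset.sum_congr rfl fun j _ => ?_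
    rw [integral_sub, integral_add, integral_add, integral_add, integral_const_mul]
    · exact hK _
    · exact hK _
    · exact (hK _).add (hK _)
    · exact hK _
    · exact ((hK _).add (hK _)).add (hK _)
    · exact hK _
    · exact (((hK _).add (hK _)).add (hK _)).add (hK _)
    · exact (hK _).const_mul 4
  · intro j _
    exact ((((hK _).add (hK _)).add (hK _)).add (hK _)).sub ((hK _).const_mul 4)

theorem dl_right (η c : ℝ) (V : E → ℝ) (x t : E) :
    dl η (fun y => c * V (y - t)) x = c * dl η V (x - t) := by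
  simp only [dl, add_sub_right_comm x _ t, sub_right_comm x _ t]
  rw [← mul_div_assoc, Finset.mul_sum]
  congr 1
  exact Finset.sum_congr rfl fun j _ => by ring

theorem cont_dl (η : ℝ) {V : E → ℝ} (hV : Continuous V) : Continuous (dl η V) := by
  unfold dl
  fun_prop

theorem dl_zero {f : E → ℝ} {μ η : ℝ} (hf : ∀ z, μ ≤ ‖z‖ → f z = 0) (h0 : 0 < η) (h1 : η ≤ 1)
    {z : E} (hz : μ + 1 ≤ ‖z‖) : dl η f z = 0 := by
  have a : ∀ w : E, ‖w‖ ≤ 1 → f (z + w) = 0 ∧ f (z - w) = 0 := by
    intro w hw
    have h2 := norm_sub_le (z + w) w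
    have h3 := norm_add_le (z - w) w
    rw [add_sub_cancel_right] at h2
    rw [sub_add_cancel] at h3
    exact ⟨hf _ (by linarith), hf _ (by linarith)⟩
  have n1 : ∀ j : Fin 3, ‖(Pi.single j (η : ℂ) : E)‖ ≤ 1 := by
    intro j
    rw [Pi.norm_single, Complex.norm_real, Real.norm_of_nonneg h0.le]
    exact h1
  have n2 : ∀ j : Fin 3, ‖(Pi.single j (η * I : ℂ) : E)‖ ≤ 1 := by
    intro j
    rw [Pi.norm_single, norm_mul, Complex.norm_real, Real.norm_of_nonneg h0.le, norm_I, mul_one]
    exact h1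
  unfold dl
  rw [Finset.sum_eq_zero, zero_div]
  intro j _
  rw [(a _ (n1 j)).1, (a _ (n1 j)).2, (a _ (n2 j)).1, (a _ (n2 j)).2, hf z (by linarith)]
  ring

end APX3

open APX3 in
theorem apx3_pf (h1 : StAPX1) : StAPX3 := by
  intro μ B γ hμ hγ
  let φ : ContDiffBump (0 : E) := ⟨μ / 2, μ, by linarith, by linarith⟩
  obtain ⟨f, hf⟩ : ∃ f : E → ℝ, f = φ.normed volume := ⟨_, rfl⟩
  have fs : ContDiff ℝ ∞ f := by rw [hf]; exact φ.contDiff_normed
  have fc : HasCompactSupport f := by rw [hf]; exact φ.hasCompactSupport_normed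
  have f0 : ∀ z, μ ≤ ‖z‖ → f z = 0 := by
    intro z hz
    by_contra h
    have : z ∈ Function.support f := h
    rw [hf, φ.support_normed_eq, mem_ball_zero_iff] at this
    exact absurd this (not_lt.2 hz)
  obtain ⟨v, hv⟩ : ∃ v : ℝ, v = volume.real (ball (0 : E) (μ + 1)) := ⟨_, rfl⟩
  have v0 : 0 ≤ v := by rw [hv]; exact measureReal_nonneg
  obtain ⟨g, hg⟩ : ∃ g : ℝ, g = γ / (2 * (|B| + 1) * (v + 1)) := ⟨_, rfl⟩
  have hpos : 0 < 2 * (|B| + 1) * (v + 1) := by positivity
  have g0 : 0 < g := by rw [hg]; positivity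
  obtain ⟨η0, e0, he⟩ := h1.1 f fs fc g g0
  refine ⟨min η0 1, lt_min e0 one_pos, fun η hη V hV hB => ?_⟩
  obtain ⟨W, hW⟩ : ∃ W : E → ℝ, W = f ⋆[lsmul ℝ ℝ, volume] V := ⟨_, rfl⟩
  have Ws : ContDiff ℝ ∞ W := by
    rw [hW]
    exact fc.contDiff_convolution_left _ fs hV.locallyIntegrable
  have W1 : W = fun y => ∫ t, f t * V (y - t) := by
    rw [hW]; rfl
  have W2 : W = fun y => ∫ t, V t * f (y - t) := by
    funext y
    rw [hW, convolution_eq_swap]
    simp only [lsmul_apply, smul_eq_mul, mul_comm]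
  have i1 : ∀ y, Integrable fun t => f t * V (y - t) := fun y =>
    (fs.continuous.mul (hV.comp (continuous_const.sub continuous_id))).integrable_of_hasCompactSupport
      fc.mul_right
  have i2 : ∀ (k : E → ℝ), Continuous k → (∀ z, μ + 1 ≤ ‖z‖ → k z = 0) → ∀ y,
      Integrable fun t => V t * k (y - t) := by
    intro k hk k0 y
    refine (hV.mul (hk.comp (continuous_const.sub continuous_id))).integrable_of_hasCompactSupport
      (HasCompactSupport.intro (isCompact_closedBall y (μ + 1)) fun t ht => ?_)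
    rw [mem_closedBall', dist_eq_norm, not_le] at ht
    show V t * k (y - t) = 0
    rw [k0 _ ht.le, mul_zero]
  have d2 : ∀ θ x, dl θ W x = ∫ t, V t * dl θ f (x - t) := by
    intro θ x
    rw [W2, dl_int θ _ (i2 f fs.continuous fun z hz => f0 z (by linarith))]
    simp only [dl_right]
  refine ⟨W, Ws, fun x ϖ => ⟨fun h => ?_, fun h => ?_⟩⟩
  · rw [hW, hf, ← Real.dist_eq]
    exact φ.dist_normed_convolution_le hV.aestronglyMeasurable
      fun y hy => by rw [Real.dist_eq]; exact h y hy
  · have a1 : |dl η W x - dl η V x| ≤ ϖ := by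
      have e : dl η W x = (f ⋆[lsmul ℝ ℝ, volume] dl η V) x := by
        rw [W1, dl_int η _ i1]
        simp only [dl_right]
        rfl
      rw [e, hf, ← Real.dist_eq]
      exact φ.dist_normed_convolution_le (cont_dl η hV).aestronglyMeasurable
        fun y hy => by rw [Real.dist_eq]; exact h y hy
    have a2 : ∀ θ ∈ Ioo (0 : ℝ) (min η0 1), |dl θ W x - dl η W x| ≤ γ := by
      intro θ hθ
      have z1 : ∀ z, μ + 1 ≤ ‖z‖ → dl θ f z = 0 := fun z hz =>
        dl_zero f0 hθ.1 (hθ.2.le.trans (min_le_right _ _)) hz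
      have z2 : ∀ z, μ + 1 ≤ ‖z‖ → dl η f z = 0 := fun z hz =>
        dl_zero f0 hη.1 (hη.2.le.trans (min_le_right _ _)) hz
      rw [d2, d2, ← integral_sub (i2 _ (cont_dl θ fs.continuous) z1 x)
        (i2 _ (cont_dl η fs.continuous) z2 x),
        ← setIntegral_eq_integral_of_forall_compl_eq_zero (s := ball x (μ + 1))]
      · have b : ∀ t ∈ ball x (μ + 1),
            ‖V t * dl θ f (x - t) - V t * dl η f (x - t)‖ ≤ (|B| + 1) * (2 * g) := by
          intro t _
          rw [← mul_sub, Real.norm_eq_abs, abs_mul]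
          have c1 := he θ ⟨hθ.1, hθ.2.trans_le (min_le_left _ _)⟩ (x - t)
          have c2 := he η ⟨hη.1, hη.2.trans_le (min_le_left _ _)⟩ (x - t)
          have c3 : |dl θ f (x - t) - dl η f (x - t)| ≤ 2 * g := by
            rw [abs_le] at c1 c2 ⊢
            constructor <;> linarith [c1.1, c1.2, c2.1, c2.2]
          have c4 : |V t| ≤ |B| + 1 := by linarith [hB t, le_abs_self B]
          exact mul_le_mul c4 c3 (abs_nonneg _) (by positivity)
        have c := norm_setIntegral_le_of_norm_le_const (μ := volume) measure_ball_lt_top b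
        have ev : volume.real (ball x (μ + 1)) = v := by
          rw [hv, measureReal_def, measureReal_def, Measure.addHaar_ball_center]
        rw [ev, Real.norm_eq_abs] at c
        refine c.trans ?_
        have e : γ = g * (2 * (|B| + 1) * (v + 1)) := by rw [hg]; field_simp
        rw [e]
        have : 0 ≤ (|B| + 1) * (2 * g) := by positivity
        nlinarith
      · intro t ht
        rw [mem_ball', dist_eq_norm, not_lt] at ht
        rw [z1 _ ht, z2 _ ht]
        ring
    have a3 : |lap W x - dl η W x| ≤ γ := by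
      have t1 : Tendsto (fun θ => |dl θ W x - dl η W x|) (𝓝[>] 0) (𝓝 |lap W x - dl η W x|) :=
        ((h1.2 W Ws x).sub_const _).abs
      exact le_of_tendsto t1
        (mem_of_superset (Ioo_mem_nhdsGT (lt_min e0 one_pos)) fun θ hθ => a2 θ hθ)
    rw [abs_le] at a1 a3 ⊢
    constructor <;> linarith [a1.1, a1.2, a3.1, a3.2]

end Pool.Agent.Lib.MP_4e4ac8_an.LV
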