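import Pool.Agent.Lib.MP_4e4ac8_an.LV.St

/-! Barriers for the semilinear equation off the cone. -/

namespace Pool.Agent.Lib.MP_4e4ac8_an.LV

open MeasureTheory Complex Matrix Filter Topology Set
open Pool.Agent.Lib.MP_813db1_ag.HS
open scoped ContDiff

namespace BAR

lemma lap_comp {Φ Φ₁ : ℝ → ℝ} {Φ₂ : ℝ} {u : E → ℝ} {x : E} (h₁ : ∀ t, HasDerivAt Φ (Φ₁ t) t)
    (h₂ : HasDerivAt Φ₁ Φ₂ (u x)) (hu : ContDiffAt ℝ 2 u x) :
    lap (fun y => Φ (u y)) x = Φ₁ (u x) * lap u x + Φ₂ * tt (gr u x) := by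
  have e := fun i => levi_real_comp (Eventually.of_forall h₁) h₂ hu i i
  unfold lap HH cx tt gr cx
  simp only [Matrix.trace, Matrix.diag, e, re_sum, Finset.mul_sum, ← Finset.sum_add_distrib]
  refine Finset.sum_congr rfl fun i _ => ?_
  rw [dzb_ofReal]
  simp [normSq_apply]

lemma lap_add {u v : E → ℝ} {x : E} (hu : ContDiffAt ℝ 2 u x) (hv : ContDiffAt ℝ 2 v x) :
    lap (fun y => u y + v y) x = lap u x + lap v x := by
  have e := levi_add (contDiffAt_ofReal.2 hu) (contDiffAt_ofReal.2 hv)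
  unfold lap HH cx
  simp only [ofReal_add]
  rw [e, Matrix.trace_add, add_re]

lemma lap_aff (a b : ℝ) {u : E → ℝ} {x : E} (hu : ContDiffAt ℝ 2 u x) :
    lap (fun y => a + b * u y) x = b * lap u x := by
  have := lap_comp (Φ := fun t => a + b * t) (Φ₁ := fun _ => b) (Φ₂ := 0)
    (fun t => by simpa using ((hasDerivAt_id t).const_mul b).const_add a)
    (hasDerivAt_const _ _) hu
  simpa using this

lemma lap_hom {u : E → ℝ} {y : E} (c : ℂ) (hu : ContDiffAt ℝ 2 u (c • y))
    (h : ∀ᶠ z in 𝓝 y, u (c • z) = u z) : lap u y = ‖c‖ ^ 2 * lap u (c • y) := by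
  have a : AnalyticAt ℂ (fun z : E => c • z) y := (analyticAt_id (𝕜 := ℂ) (z := y)).const_smul (c := c)
  have e := levi_comp (f := cx u) (τ := fun z : E => c • z) (contDiffAt_ofReal.2 hu) a
  have j : jac (fun z : E => c • z) y = c • (1 : Mx) := by
    ext p i
    have : fderiv ℂ (fun z : E => c • z) y = c • ContinuousLinearMap.id ℂ E :=
      ((hasFDerivAt_id y).const_smul c).fderiv
    simp [jac, this, Pi.single_apply, Matrix.one_apply]
  have m : (c • (1 : Mx)).map star = star c • (1 : Mx) := by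
    ext p i
    by_cases h : p = i <;> simp [h]
  have e2 : levi (cx u ∘ fun z : E => c • z) y = levi (cx u) y :=
    levi_congr (h.mono fun z hz => congrArg ofReal hz)
  unfold lap HH
  rw [← e2, e, j, pull, m]
  simp only [Matrix.transpose_smul, Matrix.transpose_one, Matrix.smul_mul, Matrix.mul_smul,
    Matrix.one_mul, Matrix.mul_one, smul_smul, Matrix.trace_smul, smul_eq_mul]
  rw [show star c * c = ((‖c‖ ^ 2 : ℝ) : ℂ) by
    rw [mul_comm, ← normSq_eq_norm_sq]; exact mul_conj c, re_ofReal_mul]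

lemma tt_nonneg (x : E) : 0 ≤ tt x := Finset.sum_nonneg fun _ _ => normSq_nonneg _

lemma tt_smul (c : ℂ) (x : E) : tt (c • x) = ‖c‖ ^ 2 * tt x := by
  simp [tt, Finset.mul_sum, normSq_eq_norm_sq, mul_pow]

lemma tt_pos {x : E} (h : x ≠ 0) : 0 < tt x := by
  obtain ⟨j, hj⟩ := Function.ne_iff.1 h
  exact Finset.sum_pos' (fun _ _ => normSq_nonneg _) ⟨j, Finset.mem_univ _, normSq_pos.2 hj⟩

lemma norm_pt {x : E} (h : x ≠ 0) : ∃ (c : ℂ) (y : E), c ≠ 0 ∧ y ∈ Ann ∧ x = c • y := by
  have p := tt_pos h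
  have q : 0 < √(tt x) := Real.sqrt_pos.2 p
  have c0 : ((√(tt x) : ℝ) : ℂ) ≠ 0 := ofReal_ne_zero.2 q.ne'
  have e : tt (((√(tt x) : ℝ) : ℂ)⁻¹ • x) = 1 := by
    rw [tt_smul, norm_inv, norm_real, Real.norm_of_nonneg q.le, inv_pow, Real.sq_sqrt p.le,
      inv_mul_cancel₀ p.ne']
  exact ⟨_, _, c0, ⟨by rw [e]; norm_num, by rw [e]; norm_num⟩, (smul_inv_smul₀ c0 x).symm⟩

/-- the inequality for the power barrier -/
lemma ineq_a {C c l κ Λ N : ℝ} (hc : 0 < c) (hC : 1 ≤ C) (hl : l ≤ 0)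
    (hw : 32 * C / c ≤ Real.exp (-l / 2)) (hκ : c * Real.exp (-l) ≤ κ) (hΛ : |Λ + κ / 2| ≤ C)
    (hN : |N - κ| ≤ C * Real.exp (-l / 2)) :
    Real.exp (l / 4) / 4 * Λ + Real.exp (l / 4) / 16 * N ≤ -(c / 32) := by
  set w := Real.exp (-l / 2) with hwd
  have w1 : 1 ≤ w := Real.one_le_exp (by linarith)
  have w2 : Real.exp (-l) = w * w := by rw [hwd, ← Real.exp_add]; congr 1; ring
  have w3 : 1 ≤ Real.exp (l / 4) * (w * w) := by
    rw [← w2, ← Real.exp_add]; exact Real.one_le_exp (by linarith)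
  rw [div_le_iff₀ hc] at hw
  rw [w2] at hκ
  have a := (abs_le.1 hΛ).2
  have b := (abs_le.1 hN).2
  have e0 := Real.exp_pos (l / 4)
  have k1 : 32 * C * w ≤ c * (w * w) := by nlinarith
  have k2 : Λ / 4 + N / 16 ≤ -(c * (w * w) / 32) := by nlinarith
  have k3 := mul_le_mul_of_nonneg_left k2 e0.le
  nlinarith

/-- the inequality for the logarithmic barrier -/
lemma ineq_c {C c l κ Λ N D : ℝ} (hc : 0 < c) (hC : 1 ≤ C) (hl : l ≤ 0)
    (hw : 32 * C / c ≤ Real.exp (-l / 2)) (hκ : c * Real.exp (-l) ≤ κ) (hΛ : |Λ + κ / 2| ≤ C)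
    (hN : |N - κ| ≤ C * Real.exp (-l / 2)) (hD : 32 * C / c ≤ D) {σ : ℝ}
    (hσ : σ = D * Real.exp (7 / 8 * l) / (1 + D * Real.exp (7 / 8 * l))) :
    7 / 8 * σ * Λ + 49 / 64 * (σ * (1 - σ)) * N ≤ κ * (σ * (2 - σ)) / 4 - C := by
  set w := Real.exp (-l / 2) with hwd
  have w1 : 1 ≤ w := Real.one_le_exp (by linarith)
  have w2 : Real.exp (-l) = w * w := by rw [hwd, ← Real.exp_add]; congr 1; ring
  have w3 : 1 ≤ Real.exp (7 / 8 * l) * (w * w) := by
    rw [← w2, ← Real.exp_add]; exact Real.one_le_exp (by linarith)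
  have D0 : 0 < D := lt_of_lt_of_le (by positivity) hD
  rw [div_le_iff₀ hc] at hw hD
  rw [w2] at hκ
  have e0 := Real.exp_pos (7 / 8 * l)
  set s := D * Real.exp (7 / 8 * l) with hs
  have s0 : 0 < s := by positivity
  have σ0 : 0 ≤ σ := by rw [hσ]; positivity
  have σ1 : σ ≤ 1 := by rw [hσ, div_le_one (by positivity)]; linarith
  have k1 : 32 * C * w ≤ c * (w * w) := by nlinarith
  have κ0 : 0 ≤ κ := le_trans (by positivity) hκ
  have k2 : 16 * C ≤ σ * κ := by
    refine le_trans ?_ (mul_le_mul_of_nonneg_left hκ σ0)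
    rw [hσ, div_mul_eq_mul_div, le_div_iff₀ (by positivity)]
    have a1 : 32 * C ≤ c * (w * w) := by nlinarith
    have a2 : 32 * C ≤ s * (c * (w * w)) := by
      have : D * c * 1 ≤ D * c * (Real.exp (7 / 8 * l) * (w * w)) :=
        mul_le_mul_of_nonneg_left w3 (by positivity)
      rw [hs]
      nlinarith
    have a3 := mul_le_mul_of_nonneg_left a1 s0.le
    nlinarith
  have a := mul_le_mul_of_nonneg_left (abs_le.1 hΛ).2 σ0
  have τ0 : 0 ≤ σ * (1 - σ) := mul_nonneg σ0 (sub_nonneg.2 σ1)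
  have b := mul_le_mul_of_nonneg_left (abs_le.1 hN).2 τ0
  have k3 : σ * (32 * C * w) ≤ σ * κ := mul_le_mul_of_nonneg_left (k1.trans hκ) σ0
  have k4 : σ * (1 - σ) * (C * w) ≤ σ * (C * w) := by
    have : 0 ≤ σ * σ * (C * w) := by positivity
    nlinarith
  have k5 : σ * C ≤ σ * (C * w) := mul_le_mul_of_nonneg_left (by nlinarith) σ0
  have k6 : 0 ≤ σ * σ * κ := by positivity
  nlinarith

lemma lap_exp {u : E → ℝ} {x : E} (hu : ContDiffAt ℝ 2 u x) :
    lap (fun y => Real.exp (u y / 4)) x =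
      Real.exp (u x / 4) / 4 * lap u x + Real.exp (u x / 4) / 16 * tt (gr u x) := by
  have h : ∀ t : ℝ, HasDerivAt (fun t => Real.exp (t / 4)) (Real.exp (t / 4) / 4) t := fun t => by
    simpa [div_eq_mul_inv] using ((hasDerivAt_id t).div_const 4).exp
  exact lap_comp h (((h (u x)).div_const 4).congr_deriv (by ring)) hu

lemma lap_log {u : E → ℝ} {x : E} (hu : ContDiffAt ℝ 2 u x) {D σ : ℝ} (hD : 0 < D)
    (hσ : σ = D * Real.exp (7 / 8 * u x) / (1 + D * Real.exp (7 / 8 * u x))) :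
    lap (fun y => Real.log (1 + D * Real.exp (7 / 8 * u y))) x =
      7 / 8 * σ * lap u x + 49 / 64 * (σ * (1 - σ)) * tt (gr u x) := by
  have h : ∀ t : ℝ, HasDerivAt (fun t => D * Real.exp (7 / 8 * t))
      (7 / 8 * (D * Real.exp (7 / 8 * t))) t := fun t =>
    ((((hasDerivAt_id' t).const_mul (7 / 8)).exp).const_mul D).congr_deriv (by ring)
  have p : ∀ t : ℝ, 1 + D * Real.exp (7 / 8 * t) ≠ 0 := fun t => by positivity
  have := lap_comp (Φ := fun t => Real.log (1 + D * Real.exp (7 / 8 * t)))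
    (Φ₁ := fun t => 7 / 8 * (D * Real.exp (7 / 8 * t)) / (1 + D * Real.exp (7 / 8 * t)))
    (Φ₂ := 49 / 64 * (σ * (1 - σ))) (fun t => ((h t).const_add 1).log (p t))
    ((((h (u x)).const_mul (7 / 8)).fun_div ((h (u x)).const_add 1) (p _)).congr_deriv (by
      have := p (u x)
      rw [hσ]
      field_simp
      ring)) hu
  rw [this, hσ]
  ring

end BAR

open BAR in
theorem bar_pf (h1 : StBAR1) : StBAR := by
  intro S d A U C c l0 X
  have hc := X.c0
  have hC := X.C1
  have W0 : 0 < 32 * C / c := by positivity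
  set l1 : ℝ := min l0 (-2 * Real.log (32 * C / c)) with hl1
  have l10 : l1 ≤ l0 := min_le_left _ _
  have l1z : l1 ≤ 0 := l10.trans X.l00
  have hw : ∀ l ≤ l1, 32 * C / c ≤ Real.exp (-l / 2) := fun l h => by
    rw [← Real.log_le_iff_le_exp W0]
    linarith [min_le_right l0 (-2 * Real.log (32 * C / c))]
  obtain ⟨g, G, gs, gh, gb, gl⟩ := h1 S d A U C c l0 X l1
  have G0 : 0 ≤ G := (gb 0).1.trans (gb 0).2
  set c2 : ℝ := 32 * (C * (G + 1)) / c with hc2
  have c20 : 0 < c2 := by positivity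
  set K : ℝ := C * G + 1 + c2 with hK
  set D : ℝ := max (32 * C / c) (Real.exp (K - 7 / 8 * l1)) with hD
  have D1 : 32 * C / c ≤ D := le_max_left _ _
  have D0 : 0 < D := W0.trans_le D1
  have nz : ∀ x ∈ Om S, x ≠ 0 := fun x hx h => hx (by rw [h]; exact mem_insert _ _)
  have gs' : ContDiffOn ℝ ∞ g (Om S) := gs.mono fun x hx => nz x hx
  let fa : E → ℝ := fun x => (C * G + 1 + -C * g x) + (0 + c2 * Real.exp (el d U x / 4))
  let fb : E → ℝ := fun x => (C * G + 1 + c2 * Real.exp (l1 / 4)) + -C * g x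
  let fc : E → ℝ := fun x => Real.log (1 + D * Real.exp (7 / 8 * el d U x))
  have ep : ∀ x, 0 < D * Real.exp (7 / 8 * el d U x) := fun x => by positivity
  have sa : ContDiffOn ℝ ∞ fa (Om S) :=
    (contDiffOn_const.add (contDiffOn_const.mul gs')).add
      (contDiffOn_const.add (contDiffOn_const.mul (X.esm.div_const 4).exp))
  have sb : ContDiffOn ℝ ∞ fb (Om S) := contDiffOn_const.add (contDiffOn_const.mul gs')
  have sc : ContDiffOn ℝ ∞ fc (Om S) :=
    (contDiffOn_const.add (contDiffOn_const.mul (contDiffOn_const.mul X.esm).exp)).log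
      fun x _ => (by linarith [ep x] : 0 < 1 + D * Real.exp (7 / 8 * el d U x)).ne'
  have cg : ∀ x, C * g x ≤ C * G := fun x => mul_le_mul_of_nonneg_left (gb x).2 (by linarith)
  have pa : ∀ x, 0 < fa x := fun x => by
    have := mul_pos c20 (Real.exp_pos (el d U x / 4))
    show 0 < (C * G + 1 + -C * g x) + (0 + c2 * Real.exp (el d U x / 4))
    linarith [cg x]
  have pb : ∀ x, 0 < fb x := fun x => by
    have := mul_pos c20 (Real.exp_pos (l1 / 4))
    show 0 < (C * G + 1 + c2 * Real.exp (l1 / 4)) + -C * g x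
    linarith [cg x]
  have pc : ∀ x, 0 < fc x := fun x => Real.log_pos (by linarith [ep x])
  have bK : ∀ x, fb x ≤ K := fun x => by
    have a : c2 * Real.exp (l1 / 4) ≤ c2 * 1 :=
      mul_le_mul_of_nonneg_left (Real.exp_le_one_iff.2 (by linarith)) c20.le
    have b : 0 ≤ C * g x := mul_nonneg (by linarith) (gb x).1
    show (C * G + 1 + c2 * Real.exp (l1 / 4)) + -C * g x ≤ K
    linarith
  have cD : ∀ x, fc x ≤ D * Real.exp (7 / 8 * el d U x) := fun x => by
    have := Real.log_le_sub_one_of_pos (by linarith [ep x] : 0 < 1 + D * Real.exp (7 / 8 * el d U x))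
    show Real.log _ ≤ _
    linarith
  let φ : Fin 3 → E → ℝ := ![fa, fb, fc]
  have sφ : ∀ i, ContDiffOn ℝ ∞ (φ i) (Om S) := fun i => by
    fin_cases i
    exacts [sa, sb, sc]
  have at2 : ∀ {u : E → ℝ}, ContDiffOn ℝ ∞ u (Om S) → ∀ x ∈ Om S, ContDiffAt ℝ 2 u x :=
    fun h x hx => (h.contDiffAt (X.op.mem_nhds hx)).of_le (WithTop.coe_le_coe.2 (le_top : (2 : ℕ∞) ≤ ⊤))
  have hφ : ∀ i, ∀ x ∈ Om S, ∀ a : ℂ, a ≠ 0 → φ i (a • x) = φ i x := fun i x hx a ha => by
    fin_cases i
    · show fa _ = fa _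
      simp only [fa, gh a x ha, X.eh x hx a ha]
    · show fb _ = fb _
      simp only [fb, gh a x ha]
    · show fc _ = fc _
      simp only [fc, X.eh x hx a ha]
  have core : ∀ x ∈ Om S, x ∈ Ann → ∃ i, (∀ j, φ i x ≤ φ j x) ∧
      lap (φ i) x ≤ ka A U x * (1 - Real.exp (-2 * φ i x)) / 4 - |RR A U x| := by
    intro x hx hA
    have κ0 : 0 ≤ ka A U x := mul_nonneg (Real.exp_pos _).le (tt_nonneg _)
    have pos : ∀ v : ℝ, 0 < v → 0 ≤ ka A U x * (1 - Real.exp (-2 * v)) / 4 := fun v hv =>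
      div_nonneg (mul_nonneg κ0 (sub_nonneg.2 (Real.exp_le_one_iff.2 (by linarith)))) (by norm_num)
    have hR := X.rr x hx hA
    have dg := at2 gs' x hx
    have dl := at2 X.esm x hx
    obtain ⟨g1, g2⟩ := gl x hx hA
    rcases le_total l1 (el d U x) with h | h
    · have ba : fb x ≤ fa x := by
        have : c2 * Real.exp (l1 / 4) ≤ c2 * Real.exp (el d U x / 4) :=
          mul_le_mul_of_nonneg_left (Real.exp_le_exp.2 (by linarith)) c20.le
        show (C * G + 1 + c2 * Real.exp (l1 / 4)) + -C * g x ≤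
          (C * G + 1 + -C * g x) + (0 + c2 * Real.exp (el d U x / 4))
        linarith
      have bc : fb x ≤ fc x := by
        refine (bK x).trans ((Real.le_log_iff_exp_le (by linarith [ep x])).2 ?_)
        have a : Real.exp K ≤ Real.exp (K - 7 / 8 * l1) * Real.exp (7 / 8 * el d U x) := by
          rw [← Real.exp_add]; exact Real.exp_le_exp.2 (by linarith)
        have b := mul_le_mul_of_nonneg_right (le_max_right (32 * C / c) (Real.exp (K - 7 / 8 * l1)))
          (Real.exp_pos (7 / 8 * el d U x)).le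
        linarith
      refine ⟨1, fun j => ?_, ?_⟩
      · fin_cases j
        exacts [ba, le_rfl, bc]
      · show lap fb x ≤ ka A U x * (1 - Real.exp (-2 * fb x)) / 4 - _
        have e : lap fb x = -C * lap g x := lap_aff _ _ dg
        have := mul_le_mul_of_nonneg_left (g2 h) (by linarith : 0 ≤ C)
        linarith [pos _ (pb x)]
    · have ab : fa x ≤ fb x := by
        have : c2 * Real.exp (el d U x / 4) ≤ c2 * Real.exp (l1 / 4) :=
          mul_le_mul_of_nonneg_left (Real.exp_le_exp.2 (by linarith)) c20.le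
        show (C * G + 1 + -C * g x) + (0 + c2 * Real.exp (el d U x / 4)) ≤
          (C * G + 1 + c2 * Real.exp (l1 / 4)) + -C * g x
        linarith
      have hκ := X.kl x hx hA (h.trans l10)
      have hΛ := X.lp x hx hA
      have hN := (X.est x hx hA).d5
      rcases le_total (fa x) (fc x) with k | k
      · refine ⟨0, fun j => ?_, ?_⟩
        · fin_cases j
          exacts [le_rfl, ab, k]
        · show lap fa x ≤ ka A U x * (1 - Real.exp (-2 * fa x)) / 4 - _
          have de : ContDiffAt ℝ 2 (fun y => Real.exp (el d U y / 4)) x := (dl.div_const 4).exp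
          have e : lap fa x = -C * lap g x + c2 * lap (fun y => Real.exp (el d U y / 4)) x := by
            rw [← lap_aff (C * G + 1) (-C) dg, ← lap_aff 0 c2 de]
            exact lap_add (contDiffAt_const.add (contDiffAt_const.mul dg))
              (contDiffAt_const.add (contDiffAt_const.mul de))
          have a := mul_le_mul_of_nonneg_left
            (ineq_a hc hC (h.trans l1z) (hw _ h) hκ hΛ hN) c20.le
          have b : c2 * -(c / 32) = -(C * (G + 1)) := by rw [hc2]; field_simp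
          have f := mul_le_mul_of_nonneg_left g1 (by linarith : 0 ≤ C)
          rw [e, lap_exp dl]
          linarith [pos _ (pa x)]
      · refine ⟨2, fun j => ?_, ?_⟩
        · fin_cases j
          exacts [k, k.trans ab, le_rfl]
        · show lap fc x ≤ ka A U x * (1 - Real.exp (-2 * fc x)) / 4 - _
          have a := ineq_c hc hC (h.trans l1z) (hw _ h) hκ hΛ hN D1 rfl
          have e := lap_log dl D0 rfl
          have p : 0 < 1 + D * Real.exp (7 / 8 * el d U x) := by linarith [ep x]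
          have b : Real.exp (-2 * fc x) = ((1 + D * Real.exp (7 / 8 * el d U x)) ^ 2)⁻¹ := by
            rw [show -2 * fc x = -(fc x + fc x) by ring, Real.exp_neg, Real.exp_add,
              Real.exp_log p, sq]
          have f : 1 - ((1 + D * Real.exp (7 / 8 * el d U x)) ^ 2)⁻¹ =
              D * Real.exp (7 / 8 * el d U x) / (1 + D * Real.exp (7 / 8 * el d U x)) *
                (2 - D * Real.exp (7 / 8 * el d U x) / (1 + D * Real.exp (7 / 8 * el d U x))) := by
            field_simp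
            ring
          rw [b, f, show lap fc x = _ from e]
          linarith
  refine ⟨K, D, φ, sφ, fun i x _ => ?_, fun x hx => ?_⟩
  · fin_cases i
    exacts [pa x, pb x, pc x]
  obtain ⟨a, y, a0, hy, rfl⟩ := norm_pt (nz x hx)
  have hy' : y ∈ Om S := (X.oc a y a0).1 hx
  obtain ⟨i, m, q⟩ := core y hy' hy
  have m' : ∀ j, φ i (a • y) ≤ φ j (a • y) := fun j => by
    rw [hφ i y hy' a a0, hφ j y hy' a a0]; exact m j
  refine ⟨i, m', ?_, (m' 1).trans (bK _), (m' 2).trans (cD _)⟩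
  have n0 : 0 < ‖a‖ ^ 2 := by positivity
  have e := lap_hom a (at2 (sφ i) _ hx)
    (Filter.mem_of_superset (X.op.mem_nhds hy') fun z hz => hφ i z hz a a0)
  have r : RR A U (a • y) = RR A U y / ‖a‖ ^ 2 := by
    unfold RR
    rw [X.kh y hy' a a0, X.lh y hy' a a0]
    ring
  rw [r, X.kh y hy' a a0, hφ i y hy' a a0, abs_div, abs_of_pos n0]
  rw [e] at q
  have : lap (φ i) (a • y) ≤
      (ka A U y * (1 - Real.exp (-2 * φ i y)) / 4 - |RR A U y|) / ‖a‖ ^ 2 := by
    rw [le_div_iff₀ n0]; linarith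
  refine this.trans (le_of_eq ?_)
  ring

end Pool.Agent.Lib.MP_4e4ac8_an.LV
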