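import Pool.Agent.Lib.MP_4e4ac8_an.LV.St

/-! A bounded function of degree zero with positive Laplacian away from the cone. -/

namespace Pool.Agent.Lib.MP_4e4ac8_an.LV

open MeasureTheory Complex Matrix Filter Topology Set
open Pool.Agent.Lib.MP_813db1_ag.HS
open scoped ContDiff

namespace BAR1

theorem tt_nonneg (x : E) : 0 ≤ tt x := Finset.sum_nonneg fun _ _ => normSq_nonneg _

theorem tt_eq_zero {x : E} (h : tt x = 0) : x = 0 := by
  funext j
  exact normSq_eq_zero.1 ((Finset.sum_eq_zero_iff_of_nonneg fun _ _ => normSq_nonneg _).1 h j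
    (Finset.mem_univ j))

theorem tt_pos {x : E} (h : x ≠ 0) : 0 < tt x :=
  (tt_nonneg x).lt_of_ne fun e => h (tt_eq_zero e.symm)

theorem normSq_cx (a : ℂ) : (normSq a : ℂ) = a * star a := (mul_conj a).symm

theorem tt_cx (x : E) : (tt x : ℂ) = ∑ j, x j * star (x j) := by
  simp only [tt, ofReal_sum, normSq_cx]

theorem tt_smul (c : ℂ) (x : E) : tt (c • x) = normSq c * tt x := by
  simp only [tt, Pi.smul_apply, smul_eq_mul, map_mul, Finset.mul_sum]

theorem cd_coord (j : Fin 3) : ContDiff ℝ ∞ fun w : E => w j := contDiff_apply ℝ ℂ j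

theorem cd_star {f : E → ℂ} (h : ContDiff ℝ ∞ f) : ContDiff ℝ ∞ fun w => star (f w) :=
  conjCLE.contDiff.comp h

theorem cd_F (p : E) : ContDiff ℝ ∞ fun w : E => w ⬝ᵥ star p :=
  ContDiff.sum fun j _ => (cd_coord j).mul contDiff_const

theorem cd_N : ContDiff ℝ ∞ fun w : E => (tt w : ℂ) := by
  simp only [tt_cx]
  exact ContDiff.sum fun j _ => (cd_coord j).mul (cd_star (cd_coord j))

theorem cd_tt : ContDiff ℝ ∞ tt :=
  contDiff_iff_contDiffAt.2 fun _ => contDiffAt_ofReal.1 cd_N.contDiffAt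

theorem cd_uu {p x : E} (hp : p ≠ 0) (hx : x ≠ 0) : ContDiffAt ℝ ∞ (uu p) x := by
  have h : ContDiffAt ℝ ∞ (fun w : E => normSq (w ⬝ᵥ star p)) x := by
    refine contDiffAt_ofReal.1 ?_
    simp only [normSq_cx]
    exact ((cd_F p).mul (cd_star (cd_F p))).contDiffAt
  exact h.div (cd_tt.contDiffAt.mul contDiffAt_const) (mul_pos (tt_pos hx) (tt_pos hp)).ne'

theorem df {f : E → ℂ} (h : ContDiff ℝ ∞ f) (x : E) : DifferentiableAt ℝ f x :=
  h.differentiable (by simp) x

theorem dz_F (p x : E) (j : Fin 3) : dz (fun w : E => w ⬝ᵥ star p) j x = star (p j) := by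
  have := dz_sum (z := x) Finset.univ (F := fun i (w : E) => w i * star p i)
    (fun i _ => df ((cd_coord i).mul contDiff_const) x) j
  refine this.trans ?_
  rw [Finset.sum_eq_single j]
  · rw [dz_mul (df (cd_coord j) x) (differentiableAt_const _), dz_coord, dz_const]
    simp
  · intro i _ hi
    rw [dz_mul (df (cd_coord i) x) (differentiableAt_const _), dz_coord, dz_const]
    simp [hi]
  · simp

theorem dzb_F (p x : E) (j : Fin 3) : dzb (fun w : E => w ⬝ᵥ star p) j x = 0 :=
  dzb_hol (DifferentiableAt.fun_sum fun i _ =>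
    (differentiableAt_apply i x).mul (differentiableAt_const _)) j

theorem dzb_N (x : E) (j : Fin 3) : dzb (fun w : E => (tt w : ℂ)) j x = x j := by
  simp only [tt_cx]
  rw [dzb_sum Finset.univ (F := fun i (w : E) => w i * star (w i))
    (fun i _ => df ((cd_coord i).mul (cd_star (cd_coord i))) x) j, Finset.sum_eq_single j]
  · rw [dzb_mul (df (cd_coord j) x) (df (cd_star (cd_coord j)) x), dzb_coord, dzb_star, dz_coord]
    simp
  · intro i _ hi
    rw [dzb_mul (df (cd_coord i) x) (df (cd_star (cd_coord i)) x), dzb_coord, dzb_star, dz_coord]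
    simp [hi]
  · simp

theorem dz_N (x : E) (j : Fin 3) : dz (fun w : E => (tt w : ℂ)) j x = star (x j) := by
  rw [← dzb_N x j, dzb_ofReal, star_star]

theorem levi_N (x : E) (j : Fin 3) : levi (fun w : E => (tt w : ℂ)) x j j = 1 := by
  rw [levi_apply, show dzb (fun w : E => (tt w : ℂ)) j = fun w => w j from
    funext fun w => dzb_N w j, dz_coord, if_pos rfl]

theorem dzb_h (p x : E) (j : Fin 3) :
    dzb (fun w : E => (w ⬝ᵥ star p) * star (w ⬝ᵥ star p)) j x = (x ⬝ᵥ star p) * p j := by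
  rw [dzb_mul (df (cd_F p) x) (df (cd_star (cd_F p)) x), dzb_F, dzb_star, dz_F, star_star]
  ring

theorem dz_h (p x : E) (j : Fin 3) :
    dz (fun w : E => (w ⬝ᵥ star p) * star (w ⬝ᵥ star p)) j x =
      star (p j) * star (x ⬝ᵥ star p) := by
  rw [dz_mul (df (cd_F p) x) (df (cd_star (cd_F p)) x), dz_F, dz_star, dzb_F, star_zero]
  ring

theorem levi_h (p x : E) (j : Fin 3) :
    levi (fun w : E => (w ⬝ᵥ star p) * star (w ⬝ᵥ star p)) x j j = star (p j) * p j := by
  rw [levi_apply, show dzb (fun w : E => (w ⬝ᵥ star p) * star (w ⬝ᵥ star p)) j =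
    fun w => (w ⬝ᵥ star p) * p j from funext fun w => dzb_h p w j,
    dz_mul (df (cd_F p) x) (differentiableAt_const _), dz_F, dz_const]
  ring

theorem uu_mul {p : E} (hp : p ≠ 0) (w : E) :
    (tt p : ℂ) * ((uu p w : ℂ) * (tt w : ℂ)) = (w ⬝ᵥ star p) * star (w ⬝ᵥ star p) := by
  rw [← normSq_cx]
  by_cases hw : w = 0
  · simp [hw, tt]
  · have h1 := (tt_pos hp).ne'
    have h2 := (tt_pos hw).ne'
    have : tt p * (uu p w * tt w) = normSq (w ⬝ᵥ star p) := by
      rw [uu]; field_simp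
    exact_mod_cast this

/-- the two identities for `uu` -/
theorem key {p x : E} (hp : p ≠ 0) (hx : x ≠ 0) :
    (tt x : ℂ) * ∑ j, levi (fun w => (uu p w : ℂ)) x j j = 1 - 3 * uu p x ∧
    (tt x : ℂ) * ∑ j, dz (fun w => (uu p w : ℂ)) j x * dzb (fun w => (uu p w : ℂ)) j x =
      uu p x * (1 - uu p x) := by
  have hu : ContDiffAt ℝ 2 (fun w => (uu p w : ℂ)) x :=
    contDiffAt_ofReal.2 ((cd_uu hp hx).of_le (by norm_cast))
  have hN : ContDiffAt ℝ 2 (fun w : E => (tt w : ℂ)) x := cd_N.contDiffAt.of_le (by norm_cast)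
  have hu1 := hu.differentiableAt two_ne_zero
  have hN1 := hN.differentiableAt two_ne_zero
  have e : (fun w : E => (tt p : ℂ) * ((uu p w : ℂ) * (tt w : ℂ))) =
      fun w => (w ⬝ᵥ star p) * star (w ⬝ᵥ star p) := funext (uu_mul hp)
  have hm1 : DifferentiableAt ℝ (fun w : E => (uu p w : ℂ) * (tt w : ℂ)) x := hu1.mul hN1
  have hm : ContDiffAt ℝ 2 (fun w : E => (uu p w : ℂ) * (tt w : ℂ)) x := hu.mul hN
  have e1 : ∀ j, (tt p : ℂ) * (dz (fun w => (uu p w : ℂ)) j x * tt x + uu p x * star (x j)) =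
      star (p j) * star (x ⬝ᵥ star p) := fun j => by
    rw [← dz_h, ← e, dz_cmul _ hm1, dz_mul hu1 hN1, dz_N]
  have e2 : ∀ j, (tt p : ℂ) * (dzb (fun w => (uu p w : ℂ)) j x * tt x + uu p x * x j) =
      (x ⬝ᵥ star p) * p j := fun j => by
    rw [← dzb_h, ← e, dzb_cmul _ hm1, dzb_mul hu1 hN1, dzb_N]
  have e3 : ∀ j, (tt p : ℂ) * (levi (fun w => (uu p w : ℂ)) x j j * tt x +
      dzb (fun w => (uu p w : ℂ)) j x * star (x j) + dz (fun w => (uu p w : ℂ)) j x * x j +
      uu p x * 1) = star (p j) * p j := fun j => by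
    rw [← levi_h p x, ← e, levi_cmul _ hm, Matrix.smul_apply, smul_eq_mul, levi_mul hu hN, dz_N,
      dzb_N, levi_N]
  have e4 := uu_mul hp x
  have hF : x ⬝ᵥ star p = ∑ j, x j * star (p j) := rfl
  have hF' : star (x ⬝ᵥ star p) = ∑ j, star (x j) * p j := by
    rw [hF, star_sum]; simp only [star_mul', star_star]
  have t1 := tt_cx p
  have t2 := tt_cx x
  have n1 : (tt p : ℂ) ≠ 0 := by exact_mod_cast (tt_pos hp).ne'
  have n2 : (tt x : ℂ) ≠ 0 := by exact_mod_cast (tt_pos hx).ne'
  generalize star (x ⬝ᵥ star p) = Fb at *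
  generalize x ⬝ᵥ star p = F at *
  generalize (uu p x : ℂ) = v at *
  generalize (tt p : ℂ) = P at *
  generalize (tt x : ℂ) = T at *
  simp only [Fin.sum_univ_three] at *
  have a0 := e1 0; have a1 := e1 1; have a2 := e1 2
  have b0 := e2 0; have b1 := e2 1; have b2 := e2 2
  have c0 := e3 0; have c1 := e3 1; have c2 := e3 2
  generalize dz (fun w => (uu p w : ℂ)) = a at *
  generalize dzb (fun w => (uu p w : ℂ)) = b at *
  generalize levi (fun w => (uu p w : ℂ)) x = L at *
  have sa : a 0 x * x 0 + a 1 x * x 1 + a 2 x * x 2 = 0 := by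
    refine mul_left_cancel₀ (mul_ne_zero n1 n2) ?_
    linear_combination x 0 * a0 + x 1 * a1 + x 2 * a2 - e4 + P * v * t2 - Fb * hF
  have sb : b 0 x * star (x 0) + b 1 x * star (x 1) + b 2 x * star (x 2) = 0 := by
    refine mul_left_cancel₀ (mul_ne_zero n1 n2) ?_
    linear_combination star (x 0) * b0 + star (x 1) * b1 + star (x 2) * b2 - e4 + P * v * t2 -
      F * hF'
  constructor
  · refine mul_left_cancel₀ n1 ?_
    linear_combination c0 + c1 + c2 - P * sa - P * sb - t1
  · have sp : P * T * (a 0 x * p 0 + a 1 x * p 1 + a 2 x * p 2) = P * Fb - P * v * Fb := by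
      linear_combination p 0 * a0 + p 1 * a1 + p 2 * a2 - Fb * t1 + P * v * hF'
    refine mul_left_cancel₀ (mul_ne_zero n1 (mul_ne_zero n1 n2)) ?_
    linear_combination P * T * (a 0 x * b0 + a 1 x * b1 + a 2 x * b2) + F * sp -
      P * T * P * v * sa - P * (1 - v) * e4

theorem lap_exp {p x : E} (hp : p ≠ 0) (hx : x ≠ 0) (K : ℝ) :
    tt x * lap (fun w => 16 * Real.exp (K * uu p w)) x =
      16 * Real.exp (K * uu p x) * (K * (1 - 3 * uu p x) + K ^ 2 * (uu p x * (1 - uu p x))) := by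
  have d : ∀ a t : ℝ, HasDerivAt (fun t => a * Real.exp (K * t)) (a * K * Real.exp (K * t)) t :=
    fun a t => by
      have := (((hasDerivAt_id t).const_mul K).exp).const_mul a
      simp only [id, mul_one] at this
      exact this.congr_deriv (by ring)
  have h := levi_real_comp (Φ := fun t => 16 * Real.exp (K * t))
    (Φ₁ := fun t => 16 * K * Real.exp (K * t)) (u := uu p) (z := x)
    (Eventually.of_forall fun t => d 16 t) (d (16 * K) _) ((cd_uu hp hx).of_le (by norm_cast))
  obtain ⟨k1, k2⟩ := key hp hx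
  have : (tt x : ℂ) * (HH (fun w => 16 * Real.exp (K * uu p w)) x).trace =
      ((16 * Real.exp (K * uu p x) *
        (K * (1 - 3 * uu p x) + K ^ 2 * (uu p x * (1 - uu p x))) : ℝ) : ℂ) := by
    have e : (HH (fun w => 16 * Real.exp (K * uu p w)) x).trace = ∑ j, _ :=
      Finset.sum_congr rfl fun j _ => h j j
    rw [e, Finset.sum_add_distrib, ← Finset.mul_sum, ← Finset.mul_sum]
    generalize Real.exp (K * uu p x) = y
    push_cast
    linear_combination 16 * K * y * k1 + 16 * K * K * y * k2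
  have h2 := congrArg Complex.re this
  rwa [re_ofReal_mul, ofReal_re] at h2

theorem proj {p : E} (hp : p ≠ 0) (x : E) :
    tt (x - ((x ⬝ᵥ star p) / tt p) • p) = tt x - uu p x * tt x := by
  have n1 : (tt p : ℂ) ≠ 0 := by exact_mod_cast (tt_pos hp).ne'
  have e4 := uu_mul hp x
  have hF : x ⬝ᵥ star p = ∑ j, x j * star (p j) := rfl
  have hF' : star (x ⬝ᵥ star p) = ∑ j, star (x j) * p j := by
    rw [hF, star_sum]; simp only [star_mul', star_star]
  have t1 := tt_cx p
  have t2 := tt_cx x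
  have hs : star (tt p : ℂ) = tt p := conj_ofReal _
  refine ofReal_injective ?_
  rw [tt_cx]
  push_cast
  simp only [Pi.sub_apply, Pi.smul_apply, smul_eq_mul, star_sub, star_mul', star_div₀, hs]
  generalize star (x ⬝ᵥ star p) = Fb at *
  generalize x ⬝ᵥ star p = F at *
  generalize (uu p x : ℂ) = v at *
  generalize (tt p : ℂ) = P at *
  generalize (tt x : ℂ) = T at *
  simp only [Fin.sum_univ_three] at *
  field_simp
  linear_combination P * e4 - P ^ 2 * t2 + P * Fb * hF + P * F * hF' - F * Fb * t1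

theorem uu_nonneg (p x : E) : 0 ≤ uu p x :=
  div_nonneg (normSq_nonneg _) (mul_nonneg (tt_nonneg _) (tt_nonneg _))

theorem uu_le {p : E} (hp : p ≠ 0) (x : E) : uu p x ≤ 1 := by
  by_cases hx : x = 0
  · simp [hx, uu]
  · have h := tt_nonneg (x - ((x ⬝ᵥ star p) / tt p) • p)
    rw [proj hp] at h
    have := tt_pos hx
    nlinarith

theorem uu_smul (p : E) {c : ℂ} (hc : c ≠ 0) (x : E) : uu p (c • x) = uu p x := by
  rw [uu, uu, tt_smul, smul_dotProduct, smul_eq_mul, map_mul, mul_assoc,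
    mul_div_mul_left _ _ (normSq_pos.2 hc).ne']

end BAR1

open BAR1

theorem bar1_pf : StBAR1 := by
  intro S d A U C c l0 h r
  obtain ⟨p, hpS⟩ := h.ne
  have hp : p ≠ 0 := fun e => h.zero (e ▸ hpS)
  have n0 : ∀ x ∈ Om S, x ≠ 0 := fun x hx e => hx (Or.inl e)
  obtain ⟨δ, hδ, hK⟩ := (h.cpt (1 / 4) 16 r (by norm_num)).exists_forall_le'
    (f := fun x => 1 - uu p x) (a := 0)
    (fun x hx => (continuousAt_const.sub (cd_uu hp (n0 x hx.1)).continuousAt).continuousWithinAt)
    (fun x hx => by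
      refine sub_pos.2 ((uu_le hp x).lt_of_ne fun e => ?_)
      have h1 := proj hp x
      rw [e, one_mul, sub_self] at h1
      have h2 := sub_eq_zero.1 (tt_eq_zero h1)
      refine hx.1 (Or.inr ?_)
      rw [h2]
      refine h.cone p hpS _ fun h3 => n0 x hx.1 ?_
      rw [h2, h3, zero_smul])
  obtain ⟨K, hK1, hK3⟩ : ∃ K : ℝ, 1 ≤ K ∧ 3 ≤ K * δ :=
    ⟨1 + 3 / δ, by linarith [div_pos three_pos hδ], by
      rw [add_mul, div_mul_cancel₀ _ hδ.ne']; linarith⟩
  have hE : ∀ x, Real.exp (K * uu p x) ≤ Real.exp K := fun x =>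
    Real.exp_le_exp.2 (by nlinarith [uu_le hp x])
  refine ⟨fun w => 16 * Real.exp (K * uu p w), 128 * K * Real.exp K, fun x hx => ?_,
    fun c x hc => by simp only [uu_smul p hc], fun x => ⟨by positivity, ?_⟩, fun x hx ha => ?_⟩
  · exact (contDiffAt_const.mul
      (contDiffAt_const.mul (cd_uu hp hx)).exp).contDiffWithinAt
  · nlinarith [hE x, Real.exp_pos K]
  · have e := lap_exp hp (n0 x hx) K
    have u0 := uu_nonneg p x
    have u1 := uu_le hp x
    have y0 := Real.exp_pos (K * uu p x)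
    have y1 : 1 ≤ Real.exp (K * uu p x) := Real.one_le_exp (by positivity)
    have y2 := hE x
    obtain ⟨t1, t2⟩ := ha
    have hd : r ≤ el d U x → δ ≤ 1 - uu p x := fun hr => hK x ⟨hx, t1, t2, hr⟩
    generalize lap (fun w => 16 * Real.exp (K * uu p w)) x = l at *
    generalize Real.exp (K * uu p x) = y at *
    generalize Real.exp K = Y at *
    generalize uu p x = u at *
    generalize tt x = t at *
    constructor
    · have a1 : 0 ≤ K ^ 2 * (u * (1 - u)) := by positivity
      have a2 : -(2 * K) ≤ K * (1 - 3 * u) + K ^ 2 * (u * (1 - u)) := by nlinarith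
      have a3 : -(32 * K * Y) ≤ t * l := by
        have := mul_le_mul_of_nonneg_left a2 (show 0 ≤ 16 * y by positivity)
        nlinarith
      by_contra hc
      have a4 : 0 < K * Y := by nlinarith
      nlinarith
    · intro hr
      have b1 := hd hr
      have b2 : 3 * u ≤ K * (u * (1 - u)) := by
        have : 3 ≤ K * (1 - u) := by nlinarith
        nlinarith
      have b3 : 1 ≤ K * (1 - 3 * u) + K ^ 2 * (u * (1 - u)) := by nlinarith
      have b4 : 16 ≤ t * l := by nlinarith
      by_contra hc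
      nlinarith

end Pool.Agent.Lib.MP_4e4ac8_an.LV
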