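import Pool.Agent.Lib.MP_4e4ac8_an.LV.Fin

/-! From affine charts to the cone. -/

namespace Pool.Agent.Lib.MP_4e4ac8_an.LV.Chart

open Complex Filter Topology Set
open scoped ContDiff

/-- second derivative of a composition with a holomorphic map along a complex line -/
theorem levi_pull {X Y : Type} [NormedAddCommGroup X] [NormedSpace ℂ X] [NormedAddCommGroup Y]
    [NormedSpace ℂ Y] [CompleteSpace Y] {τ : X → Y} {r : Y → ℝ} {q : X} (hτ : AnalyticAt ℂ τ q)
    (hr : ContDiffAt ℝ 2 r (τ q)) (ξ : X) :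
    fderiv ℝ (fderiv ℝ (r ∘ τ)) q ξ ξ + fderiv ℝ (fderiv ℝ (r ∘ τ)) q (I • ξ) (I • ξ) =
      fderiv ℝ (fderiv ℝ r) (τ q) (fderiv ℂ τ q ξ) (fderiv ℂ τ q ξ) +
        fderiv ℝ (fderiv ℝ r) (τ q) (I • fderiv ℂ τ q ξ) (I • fderiv ℂ τ q ξ) := by
  have e : fderiv ℝ (r ∘ τ) =ᶠ[𝓝 q]
      fun x => (fderiv ℝ r (τ x)).comp ((fderiv ℂ τ x).restrictScalars ℝ) := by
    filter_upwards [hτ.eventually_analyticAt,
      hτ.continuousAt.eventually (hr.eventually (by simp))] with x a b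
    exact ((b.differentiableAt two_ne_zero).hasFDerivAt.comp x
      (a.differentiableAt.hasFDerivAt.restrictScalars ℝ)).fderiv
  have d1 : HasFDerivAt (fun x => fderiv ℝ r (τ x))
      ((fderiv ℝ (fderiv ℝ r) (τ q)).comp ((fderiv ℂ τ q).restrictScalars ℝ)) q :=
    ((hr.fderiv_right (m := 1) le_rfl).differentiableAt one_ne_zero).hasFDerivAt.comp q
      (hτ.differentiableAt.hasFDerivAt.restrictScalars ℝ)
  have d2 := (ContinuousLinearMap.restrictScalarsL ℂ X Y ℝ ℝ).hasFDerivAt.comp q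
    (hτ.fderiv.differentiableAt.hasFDerivAt.restrictScalars ℝ)
  have d3 := (d1.clm_comp d2).fderiv
  rw [e.fderiv_eq]
  erw [d3]
  simp [smul_smul]
  abel

end Pool.Agent.Lib.MP_4e4ac8_an.LV.Chart
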