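import Mathlib

set_option autoImplicit false

open Filter Topology

namespace Pool.Agent.Lib.MP_4e4ac8_an.LV

/-- A function whose derivative kills the direction `w` along a segment is constant on it. -/
theorem seg_const {E : Type*} [NormedAddCommGroup E] [NormedSpace ℂ E] {g : E → ℂ} {a w : E}
    (h : ∀ s : ℝ, s ∈ Set.Icc (0 : ℝ) 1 →
      DifferentiableAt ℂ g (a + (s : ℂ) • w) ∧ fderiv ℂ g (a + (s : ℂ) • w) w = 0) :
    g (a + w) = g a := by
  have hd : ∀ s : ℝ, s ∈ Set.Icc (0 : ℝ) 1 →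
      HasDerivAt (fun s : ℝ => g (a + (s : ℂ) • w)) 0 s := fun s hs => by
    have h1 : HasDerivAt (fun z : ℂ => a + z • w) w (s : ℂ) := by
      simpa using ((hasDerivAt_id (s : ℂ)).smul_const w).const_add a
    have h2 := ((h s hs).1.hasFDerivAt.comp_hasDerivAt (s : ℂ) h1).comp_ofReal
    rw [(h s hs).2] at h2
    exact h2
  have := constant_of_has_deriv_right_zero (f := fun s : ℝ => g (a + (s : ℂ) • w)) (a := 0) (b := 1)
    (fun s hs => (hd s hs).continuousAt.continuousWithinAt)
    (fun s hs => (hd s ⟨hs.1, hs.2.le⟩).hasDerivWithinAt) 1 ⟨zero_le_one, le_rfl⟩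
  simpa using this

/-- Local factorisation `G = φ ∘ F` of two holomorphic first integrals of one foliation. -/
theorem fac {E : Type*} [NormedAddCommGroup E] [NormedSpace ℂ E] [CompleteSpace E]
    {F G : E → ℂ} {p : E} (hF : AnalyticAt ℂ F p) (hG : AnalyticAt ℂ G p)
    (hF' : fderiv ℂ F p ≠ 0) (hG' : fderiv ℂ G p ≠ 0)
    (hker : ∀ᶠ x in 𝓝 p, ∀ v, fderiv ℂ F x v = 0 → fderiv ℂ G x v = 0)
    (hre : ∀ᶠ x in 𝓝 p, (F x).im = 0 → (G x).im = 0) :
    ∃ φ : ℂ → ℂ, AnalyticAt ℂ φ (F p) ∧ (∀ᶠ x in 𝓝 p, G x = φ (F x)) ∧ deriv φ (F p) ≠ 0 ∧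
      ∀ᶠ τ in 𝓝 (F p), τ.im = 0 → (φ τ).im = 0 := by
  set L := fderiv ℂ F p with hL
  obtain ⟨v, hv⟩ : ∃ v, L v = 1 := by
    obtain ⟨w, hw⟩ : ∃ w, L w ≠ 0 := by
      by_contra hc
      push Not at hc
      exact hF' (ContinuousLinearMap.ext hc)
    exact ⟨(L w)⁻¹ • w, by simp [hw]⟩
  set Ψ : E → E := fun x => x + (F x - F p - L (x - p)) • v with hΨ
  have hΨa : AnalyticAt ℂ Ψ p :=
    analyticAt_id.add (((hF.sub analyticAt_const).sub
      ((L.analyticAt _).comp (analyticAt_id.sub analyticAt_const))).smul analyticAt_const)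
  have hΨp : Ψ p = p := by simp [hΨ]
  have hΨd : HasFDerivAt Ψ ((ContinuousLinearEquiv.refl ℂ E : E ≃L[ℂ] E) : E →L[ℂ] E) p := by
    have h2 : HasFDerivAt (fun x => L (x - p)) (L.comp (ContinuousLinearMap.id ℂ E)) p :=
      L.hasFDerivAt.comp p ((hasFDerivAt_id p).sub_const p)
    have h1 := (hF.differentiableAt.hasFDerivAt.sub_const (F p)).sub h2
    refine ((hasFDerivAt_id p).add (h1.smul_const v)).congr_fderiv ?_
    ext x; simp [hL]
  have hc : ContDiffAt ℂ ⊤ Ψ p := hΨa.contDiffAt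
  set J := hc.localInverse hΨd (by simp) with hJ
  have hJa : AnalyticAt ℂ J p := by
    have := (hc.to_localInverse hΨd (by simp)).analyticAt
    rwa [hΨp] at this
  have hJp : J p = p := by
    have := hc.localInverse_apply_image hΨd (by simp)
    rwa [hΨp] at this
  have hl : ∀ᶠ x in 𝓝 p, J (Ψ x) = x :=
    (hc.hasStrictFDerivAt' hΨd (by simp)).eventually_left_inverse
  have hr : ∀ᶠ z in 𝓝 p, Ψ (J z) = z := by
    have := (hc.hasStrictFDerivAt' hΨd (by simp)).eventually_right_inverse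
    rwa [hΨp] at this
  have key : ∀ x, F x = F p + L (Ψ x - p) := fun x => by
    have : Ψ x - p = (x - p) + (F x - F p - L (x - p)) • v := by simp only [hΨ]; abel
    rw [this, map_add, map_smul, hv]; simp
  have hFJ : ∀ᶠ z in 𝓝 p, F (J z) = F p + L (z - p) := hr.mono fun z hz => by
    rw [key (J z), hz]
  have hJt : Tendsto J (𝓝 p) (𝓝 p) := by
    have := hJa.continuousAt.tendsto
    rwa [hJp] at this
  have hg : ∀ᶠ z in 𝓝 p, DifferentiableAt ℂ (G ∘ J) z ∧
      ∀ w, L w = 0 → fderiv ℂ (G ∘ J) z w = 0 := by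
    filter_upwards [hJa.eventually_analyticAt, hJt.eventually hF.eventually_analyticAt,
      hJt.eventually hG.eventually_analyticAt, hJt.eventually hker, hFJ.eventually_nhds]
      with z a1 a2 a3 a4 a5
    refine ⟨a3.differentiableAt.comp z a1.differentiableAt, fun w hw => ?_⟩
    rw [fderiv_comp z a3.differentiableAt a1.differentiableAt]
    refine a4 _ ?_
    have e1 : fderiv ℂ (F ∘ J) z = L := by
      have h2 : HasFDerivAt (fun x => F p + L (x - p)) L z :=
        ((L.hasFDerivAt.comp z ((hasFDerivAt_id z).sub_const p)).const_add (F p)).congr_fderiv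
          (by ext; simp)
      exact (h2.congr_of_eventuallyEq a5).fderiv
    rw [fderiv_comp z a2.differentiableAt a1.differentiableAt] at e1
    have := congrArg (fun T : E →L[ℂ] ℂ => T w) e1
    simpa [hw] using this
  obtain ⟨r, hr0, hball⟩ := Metric.eventually_nhds_iff_ball.1 hg
  set c : ℂ → E := fun τ => p + (τ - F p) • v with hcdef
  have hca : AnalyticAt ℂ c (F p) :=
    analyticAt_const.add ((analyticAt_id.sub analyticAt_const).smul analyticAt_const)
  have hcp : c (F p) = p := by simp [hcdef]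
  have hct : Tendsto c (𝓝 (F p)) (𝓝 p) := by
    have := hca.continuousAt.tendsto
    rwa [hcp] at this
  have hφ : AnalyticAt ℂ (fun τ => G (J (c τ))) (F p) := by
    refine AnalyticAt.comp (g := G) (f := fun τ => J (c τ)) (by rw [hcp, hJp]; exact hG) ?_
    exact AnalyticAt.comp (g := J) (f := c) (by rw [hcp]; exact hJa) hca
  have hΨt : Tendsto Ψ (𝓝 p) (𝓝 p) := by
    have := hΨa.continuousAt.tendsto
    rwa [hΨp] at this
  have heq : ∀ᶠ x in 𝓝 p, G x = G (J (c (F x))) := by
    filter_upwards [hl, hΨt.eventually (Metric.ball_mem_nhds p hr0),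
      (hct.comp hF.continuousAt.tendsto).eventually (Metric.ball_mem_nhds p hr0)] with x a1 a2 a3
    have := seg_const (g := G ∘ J) (a := c (F x)) (w := Ψ x - c (F x)) fun s hs => by
      have hm : c (F x) + (s : ℂ) • (Ψ x - c (F x)) ∈ Metric.ball p r := by
        have := (convex_ball p r).add_smul_sub_mem a3 a2 hs
        simpa using this
      refine ⟨(hball _ hm).1, (hball _ hm).2 _ ?_⟩
      have : Ψ x - c (F x) = (Ψ x - p) - (F x - F p) • v := by simp only [hcdef]; abel
      rw [this, map_sub, map_smul, hv, key x]; simp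
    simpa [a1] using this
  refine ⟨_, hφ, heq, fun h0 => hG' ?_, ?_⟩
  · have h1 := (hφ.differentiableAt.hasDerivAt.hasFDerivAt.comp p
      hF.differentiableAt.hasFDerivAt).congr_of_eventuallyEq heq
    rw [h1.fderiv, h0]
    ext w; simp
  · filter_upwards [hct.eventually hFJ, (hJt.comp hct).eventually hre] with τ a1 a2 h
    refine a2 ?_
    have : F (J (c τ)) = τ := by rw [a1]; simp [hcdef, hv]
    simpa [this] using h

end Pool.Agent.Lib.MP_4e4ac8_an.LV
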