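import Pool.Agent.Lib.MP_4e4ac8_an.LV.St
import Pool.Agent.Lib.MP_4e4ac8_an.LV.Fac

/-! Consequences of the holomorphic inverse function theorem. -/

namespace Pool.Agent.Lib.MP_4e4ac8_an.LV

open Filter Topology Set
open Pool.Agent.Lib.MP_813db1_ag.HS

namespace D0

theorem fd_eq {F : E → ℂ} {x : E} (h : DifferentiableAt ℂ F x) (w : E) :
    fderiv ℂ F x w = ∑ k, dF F x k * w k := by
  rw [← fderiv_hol h, fderiv_eq_dz]
  simp [dzb_hol h, dF]

/-- A chart in which `F` is affine. -/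
theorem chart {F : E → ℂ} {p : E} (hF : AnalyticAt ℂ F p) (hF' : dF F p ≠ 0) :
    ∃ (L : E →L[ℂ] ℂ) (v : E) (Ψ J : E → E), L v = 1 ∧ AnalyticAt ℂ J p ∧
      Tendsto Ψ (𝓝 p) (𝓝 p) ∧ Tendsto J (𝓝 p) (𝓝 p) ∧ J p = p ∧ (∀ᶠ x in 𝓝 p, J (Ψ x) = x) ∧
      (∀ x, F x = F p + L (Ψ x - p)) ∧ ∀ᶠ z in 𝓝 p, F (J z) = F p + L (z - p) := by
  set L := fderiv ℂ F p with hL
  obtain ⟨v, hv⟩ : ∃ v, L v = 1 := by
    obtain ⟨w, hw⟩ : ∃ w, L w ≠ 0 := by
      by_contra hc
      push Not at hc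
      exact hF' (funext fun k => (dz_hol hF.differentiableAt k).trans (hc _))
    exact ⟨(L w)⁻¹ • w, by simp [hw]⟩
  set Ψ : E → E := fun x => x + (F x - F p - L (x - p)) • v with hΨ
  have hΨa : AnalyticAt ℂ Ψ p :=
    analyticAt_id.add (((hF.sub analyticAt_const).sub
      ((L.analyticAt _).comp (analyticAt_id.sub analyticAt_const))).smul analyticAt_const)
  have hΨp : Ψ p = p := by simp [hΨ]
  have hΨd : HasFDerivAt Ψ ((ContinuousLinearEquiv.refl ℂ E : E ≃L[ℂ] E) : E →L[ℂ] E) p := by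
    have h2 : HasFDerivAt (fun x => L (x - p)) (L.comp (ContinuousLinearMap.id ℂ E)) p :=
      L.hasFDerivAt.comp p ((hasFDerivAt_id p).sub_const p)
    have h1 := (hF.differentiableAt.hasFDerivAt.sub_const (F p)).sub h2
    refine ((hasFDerivAt_id p).add (h1.smul_const v)).congr_fderiv ?_
    ext x; simp [hL]
  have hc : ContDiffAt ℂ ⊤ Ψ p := hΨa.contDiffAt
  set J := hc.localInverse hΨd (by simp) with hJ
  have hJa : AnalyticAt ℂ J p := by
    have := (hc.to_localInverse hΨd (by simp)).analyticAt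
    rwa [hΨp] at this
  have hJp : J p = p := by
    have := hc.localInverse_apply_image hΨd (by simp)
    rwa [hΨp] at this
  have hr : ∀ᶠ z in 𝓝 p, Ψ (J z) = z := by
    have := (hc.hasStrictFDerivAt' hΨd (by simp)).eventually_right_inverse
    rwa [hΨp] at this
  have key : ∀ x, F x = F p + L (Ψ x - p) := fun x => by
    have : Ψ x - p = (x - p) + (F x - F p - L (x - p)) • v := by simp only [hΨ]; abel
    rw [this, map_add, map_smul, hv]; simp
  refine ⟨L, v, Ψ, J, hv, hJa, ?_, ?_, hJp,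
    (hc.hasStrictFDerivAt' hΨd (by simp)).eventually_left_inverse, key,
    hr.mono fun z hz => by rw [key (J z), hz]⟩
  · have := hΨa.continuousAt.tendsto
    rwa [hΨp] at this
  · have := hJa.continuousAt.tendsto
    rwa [hJp] at this

theorem line_an (F0 : ℂ) (p v : E) (a : ℂ) : AnalyticAt ℂ (fun τ : ℂ => p + (τ - F0) • v) a :=
  analyticAt_const.add ((analyticAt_id.sub analyticAt_const).smul analyticAt_const)

theorem line_t (F0 : ℂ) (p v : E) : Tendsto (fun τ : ℂ => p + (τ - F0) • v) (𝓝 F0) (𝓝 p) := by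
  simpa using (line_an F0 p v F0).continuousAt.tendsto

theorem part1 {F : E → ℂ} {p : E} (hF : AnalyticAt ℂ F p) (hF' : dF F p ≠ 0) :
    𝓝 (F p) ≤ map F (𝓝 p) := by
  obtain ⟨L, v, Ψ, J, hv, -, -, hJt, -, -, -, hFJ⟩ := chart hF hF'
  intro s hs
  filter_upwards [(hJt.comp (line_t (F p) p v)) (mem_map.1 hs), (line_t (F p) p v).eventually hFJ]
    with τ a1 a2
  have e : F (J (p + (τ - F p) • v)) = τ := by rw [a2]; simp [hv]
  simpa [e] using a1

theorem part2 {F G : E → ℂ} {p : E} (hF : AnalyticAt ℂ F p) (hG : AnalyticAt ℂ G p)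
    (hF' : dF F p ≠ 0) (h0 : (F p).im = 0) (hz : ∀ᶠ x in 𝓝 p, (F x).im = 0 → G x = 0) :
    G =ᶠ[𝓝 p] 0 := by
  obtain ⟨L, v, Ψ, J, hv, hJa, hΨt, hJt, -, hl, -, hFJ⟩ := chart hF hF'
  have hg : ∀ᶠ z in 𝓝 p, AnalyticAt ℂ (G ∘ J) z ∧ ((L (z - p)).im = 0 → G (J z) = 0) := by
    filter_upwards [hJa.eventually_analyticAt, hJt.eventually hG.eventually_analyticAt,
      hJt.eventually hz, hFJ] with z a1 a2 a3 a4
    exact ⟨a2.comp a1, fun h => a3 (by rw [a4, Complex.add_im, h0, h, add_zero])⟩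
  have hadd : Tendsto (fun q : E × ℂ => q.1 + q.2 • v) (𝓝 p ×ˢ 𝓝 0) (𝓝 p) := by
    have : Continuous fun q : E × ℂ => q.1 + q.2 • v := by fun_prop
    simpa [nhds_prod_eq] using this.tendsto (p, 0)
  obtain ⟨a, ha, b, hb, hab⟩ := eventually_prod_iff.1 (hadd.eventually hg)
  obtain ⟨r, hr0, hr⟩ := Metric.eventually_nhds_iff_ball.1 hb
  have hLt : Tendsto (fun z => -L (z - p)) (𝓝 p) (𝓝 0) := by
    have : Continuous fun z : E => -L (z - p) := by fun_prop
    simpa using this.tendsto p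
  have hgz : ∀ᶠ z in 𝓝 p, G (J z) = 0 := by
    filter_upwards [ha, hLt.eventually (Metric.ball_mem_nhds 0 hr0)] with z a1 a2
    have han : AnalyticOnNhd ℂ (fun τ : ℂ => G (J (z + τ • v))) (Metric.ball 0 r) := fun τ hτ =>
      AnalyticAt.comp (g := G ∘ J) (f := fun τ : ℂ => z + τ • v) (hab a1 (hr τ hτ)).1
        (analyticAt_const.add (analyticAt_id.smul analyticAt_const))
    have ht : Tendsto (fun ε : ℝ => -L (z - p) + ε) (𝓝[≠] 0) (𝓝[≠] (-L (z - p))) := by
      refine tendsto_nhdsWithin_iff.2 ⟨?_, ?_⟩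
      · have : Continuous fun ε : ℝ => -L (z - p) + ε := by fun_prop
        simpa using (this.tendsto 0).mono_left nhdsWithin_le_nhds
      · filter_upwards [self_mem_nhdsWithin] with ε hε
        simpa using hε
    have hfr : ∃ᶠ τ in 𝓝[≠] (-L (z - p)), G (J (z + τ • v)) = 0 := by
      refine ht.frequently (Eventually.frequently ?_)
      filter_upwards [(ht.mono_right nhdsWithin_le_nhds).eventually
        (Metric.isOpen_ball.mem_nhds a2)] with ε hε
      refine (hab a1 (hr _ hε)).2 ?_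
      have : z + (-L (z - p) + ε) • v - p = (z - p) + (-L (z - p) + ε) • v := by abel
      rw [this, map_add, map_smul, hv]; simp
    simpa using han.eqOn_zero_of_preconnected_of_frequently_eq_zero
      (convex_ball 0 r).isPreconnected a2 hfr (Metric.mem_ball_self hr0)
  filter_upwards [hΨt.eventually hgz, hl] with x a1 a2
  rwa [a2] at a1

theorem part3 {F G : E → ℂ} {p : E} (hF : AnalyticAt ℂ F p) (hG : AnalyticAt ℂ G p)
    (hF' : dF F p ≠ 0) (hk : ∀ᶠ x in 𝓝 p, ∃ h : ℂ, dF G x = h • dF F x) :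
    ∃ φ : ℂ → ℂ, AnalyticAt ℂ φ (F p) ∧ G =ᶠ[𝓝 p] fun x => φ (F x) := by
  obtain ⟨L, v, Ψ, J, hv, hJa, hΨt, hJt, hJp, hl, key, hFJ⟩ := chart hF hF'
  have hg : ∀ᶠ z in 𝓝 p, DifferentiableAt ℂ (G ∘ J) z ∧
      ∀ w, L w = 0 → fderiv ℂ (G ∘ J) z w = 0 := by
    filter_upwards [hJa.eventually_analyticAt, hJt.eventually hF.eventually_analyticAt,
      hJt.eventually hG.eventually_analyticAt, hJt.eventually hk, hFJ.eventually_nhds]
      with z a1 a2 a3 a4 a5
    refine ⟨a3.differentiableAt.comp z a1.differentiableAt, fun w hw => ?_⟩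
    have e1 : fderiv ℂ (F ∘ J) z = L := by
      have h2 : HasFDerivAt (fun x => F p + L (x - p)) L z :=
        ((L.hasFDerivAt.comp z ((hasFDerivAt_id z).sub_const p)).const_add (F p)).congr_fderiv
          (by ext; simp)
      exact (h2.congr_of_eventuallyEq a5).fderiv
    rw [fderiv_comp z a2.differentiableAt a1.differentiableAt] at e1
    have e2 : fderiv ℂ F (J z) (fderiv ℂ J z w) = 0 := by
      simpa [hw] using congrArg (fun T : E →L[ℂ] ℂ => T w) e1
    obtain ⟨h, hh⟩ := a4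
    rw [fderiv_comp z a3.differentiableAt a1.differentiableAt, ContinuousLinearMap.comp_apply,
      fd_eq a3.differentiableAt, hh]
    rw [fd_eq a2.differentiableAt] at e2
    simp only [Pi.smul_apply, smul_eq_mul, mul_assoc, ← Finset.mul_sum, e2, mul_zero]
  obtain ⟨r, hr0, hball⟩ := Metric.eventually_nhds_iff_ball.1 hg
  set c : ℂ → E := fun τ => p + (τ - F p) • v with hcdef
  have hcp : c (F p) = p := by simp [hcdef]
  refine ⟨fun τ => G (J (c τ)), ?_, ?_⟩
  · refine AnalyticAt.comp (g := G) (f := fun τ => J (c τ)) (by rw [hcp, hJp]; exact hG) ?_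
    exact AnalyticAt.comp (g := J) (f := c) (by rw [hcp]; exact hJa) (line_an _ _ _ _)
  · filter_upwards [hl, hΨt.eventually (Metric.ball_mem_nhds p hr0),
      ((line_t (F p) p v).comp hF.continuousAt.tendsto).eventually (Metric.ball_mem_nhds p hr0)]
      with x a1 a2 a3
    have := seg_const (g := G ∘ J) (a := c (F x)) (w := Ψ x - c (F x)) fun s hs => by
      have hm : c (F x) + (s : ℂ) • (Ψ x - c (F x)) ∈ Metric.ball p r := by
        have := (convex_ball p r).add_smul_sub_mem a3 a2 hs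
        simpa using this
      refine ⟨(hball _ hm).1, (hball _ hm).2 _ ?_⟩
      have : Ψ x - c (F x) = (Ψ x - p) - (F x - F p) • v := by simp only [hcdef]; abel
      rw [this, map_sub, map_smul, hv, key x]; simp
    simpa [a1] using this

end D0

theorem d0_pf : StD0 := fun _ _ _ hF hG h =>
  ⟨D0.part1 hF h, D0.part2 hF hG h, D0.part3 hF hG h⟩

end Pool.Agent.Lib.MP_4e4ac8_an.LV
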