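import Pool.Agent.Lib.MP_4e4ac8_an.LV.St
import Pool.Agent.Lib.MP_4e4ac8_an.H3

/-! The foliation and its local first integrals. -/

namespace Pool.Agent.Lib.MP_4e4ac8_an.LV

open Complex Matrix Filter Topology Set
open Pool.Agent.Lib.MP_813db1_ag.HS

namespace D1

theorem hom {B : Pol} {d : ℕ} (h : B.IsHomogeneous d) (c : ℂ) (x : E) :
    MvPolynomial.eval (c • x) B = c ^ d * MvPolynomial.eval x B := by
  rw [MvPolynomial.eval_eq', MvPolynomial.eval_eq', Finset.mul_sum]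
  refine Finset.sum_congr rfl fun m hm => ?_
  have := h (MvPolynomial.mem_support_iff.1 hm)
  rw [Finsupp.weight_apply, Finsupp.sum_fintype _ _ (by simp)] at this
  simp only [Pi.smul_apply, smul_eq_mul, mul_pow, Finset.prod_mul_distrib,
    Finset.prod_pow_eq_pow_sum, Pi.one_apply, mul_one] at this ⊢
  rw [this]
  ring

theorem minor {S : Set E} (hL : LF S) {B : Fin 3 → Pol} (hA : Alg S B) {F : E → ℂ} {x : E}
    (hx : x ∈ S) (aF : AnalyticAt ℂ F x) (hF : ∀ᶠ y in 𝓝 x, y ∈ S → (F y).im = 0) (i j : Fin 3) :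
    Vf B x i * fderiv ℂ F x (Pi.single j 1) - Vf B x j * fderiv ℂ F x (Pi.single i 1) = 0 := by
  obtain ⟨U, r, hU, h⟩ := hL.loc x hx
  obtain ⟨c, hc⟩ := h.lagrange hU hx (imCLM.hasStrictFDerivAt.comp x
    (aF.hasStrictFDerivAt.restrictScalars ℝ)) (hF.mono fun y a b =>
      (show (F x).im ≤ (F y).im by rw [a b, hF.self_of_nhds hx]))
  obtain ⟨ρ, ρ0, hρ⟩ := hL.con hx U r h hU
  have key : ∀ ξ, dot (Vf B x) ξ = 0 → fderiv ℂ F x ξ = 0 := fun ξ hξ => by
    have a := ((hA x hx).2 ξ).1 hξ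
    rw [hρ, mul_eq_zero, or_iff_right (by exact_mod_cast ρ0), cf_eq_zero] at a
    have e := fun w => congrArg (fun L : E →L[ℝ] ℝ => L w) hc
    exact Complex.ext (by simpa [a.2] using e (I • ξ)) (by simpa [a.1] using e ξ)
  have := key (Vf B x i • Pi.single j 1 - Vf B x j • Pi.single i 1) (by
    have e : ∀ k, dotL (Vf B x) (Pi.single k 1) = Vf B x k := fun k => by
      fin_cases k <;> simp [dot]
    rw [← dotL_apply, map_sub, map_smul, map_smul, e, e, smul_eq_mul, smul_eq_mul, mul_comm,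
      sub_self])
  simpa using this

end D1

open D1 in
theorem d1_pf (h0 : StD0) : StD1 := by
  rintro S ⟨hne, hz, hcl, hcone, hloc⟩
  have hl : ∀ p ∈ S, ∃ U r, p ∈ U ∧ LocDef S U r ∧
      ContDiffOn ℝ ((⊤ : ℕ∞) : WithTop ℕ∞) r U := fun p hp => by
    obtain ⟨U, a, b, r, c, d, e⟩ := hloc p hp
    refine ⟨U, r, b, ⟨a, contDiffOn_infty.1 c 3, d, fun q h1 h2 => (e q ⟨h1, h2⟩).1,
      fun q h1 h2 ξ h3 h4 => ?_⟩, c⟩
    simpa [iteratedFDeriv_two_apply] using (e q ⟨h1, h2⟩).2 ξ h3 h4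
  have hL : LF S := ⟨hne, hz, hcl, hcone, fun p hp =>
    (hl p hp).imp fun _ h => h.imp fun _ h => ⟨h.1, h.2.1⟩⟩
  obtain ⟨d, B, h1, h2, h3⟩ := LFs.alg ⟨hL, hl⟩
  have hA : Alg S B := fun x hx => by
    obtain ⟨j, hj⟩ := hL.ch hx
    have e : Vf B x = MvPolynomial.eval x (B j) • gv S j x := funext fun i => by
      simp only [Vf, gv, Pi.smul_apply, smul_eq_mul, h2 x hx j hj i, mul_comm]
    refine ⟨fun h => h3 x hx j hj (congrFun h j), fun ξ => ?_⟩
    rw [e, dot_smul_left, cn_dot hj, mul_eq_zero, mul_eq_zero, or_iff_right (h3 x hx j hj),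
      or_iff_right hj]
  have an : ∀ i x, AnalyticAt ℂ (fun y => Vf B y i) x := fun i x =>
    AnalyticOnNhd.eval_mvPolynomial (B i) x trivial
  have eu := hL.poly_zero (B := ∑ i, MvPolynomial.X i * B i) fun x hx => by
    simpa [dot, Vf, Fin.sum_univ_three, mul_comm] using
      ((hA x hx).2 x).2 ((hL.con hx).self hL hx)
  refine ⟨d, Vf B, ⟨hne, hz, hcl, hcone,
    differentiable_pi.2 fun i x => (an i x).differentiableAt,
    fun c x => funext fun i => hom (h1 i) c x, fun x => ?_, fun p hp => (hA p hp).1⟩,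
    fun p hp => ?_⟩
  · simpa [dotProduct, Vf] using congrArg (MvPolynomial.eval x) eu
  obtain ⟨V, vo, pV, F, aF, hF⟩ := hL.analytic hA hp
  have ap := aF p pV
  have ad : ∀ i, AnalyticAt ℂ (fun x => fderiv ℂ F x (Pi.single i 1)) p := fun i =>
    ((ContinuousLinearMap.apply ℂ ℂ (Pi.single i 1 : E)).analyticAt _).comp ap.fderiv
  obtain ⟨j, hj⟩ : ∃ j, fderiv ℂ F p (Pi.single j 1) ≠ 0 := by
    by_contra! n
    exact (hF p pV).1 (ContinuousLinearMap.ext fun w => by
      rw [← dot_vecf]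
      simp [dot, vecf, n])
  have mi : ∀ x ∈ V, x ∈ S → ∀ i, Vf B x i * fderiv ℂ F x (Pi.single j 1) -
      Vf B x j * fderiv ℂ F x (Pi.single i 1) = 0 := fun x hx hs i =>
    minor hL hA hs (aF x hx) (mem_of_superset (vo.mem_nhds hx) fun y hy => (hF y hy).2.1) i j
  have z := fun i => (h0 F _ p ap (((an i p).mul (ad j)).sub ((an j p).mul (ad i)))
    (fun h => hj ((dz_hol ap.differentiableAt j).symm.trans (congrFun h j)))).2.1
    ((hF p pV).2.1 hp) (mem_of_superset (vo.mem_nhds pV) fun x hx k =>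
      mi x hx ((hF x hx).2.2 k) i)
  refine ⟨F, fun x => Vf B x j / fderiv ℂ F x (Pi.single j 1), ap, (an j p).div (ad j) hj,
    div_ne_zero (fun k => (hA p hp).1 (funext fun i => ?_)) hj, ?_⟩
  · have := mi p pV hp i
    rw [k, zero_mul, sub_zero] at this
    exact (mul_eq_zero.1 this).resolve_right hj
  · filter_upwards [vo.mem_nhds pV, (ad j).continuousAt.eventually_ne hj,
      eventually_all.2 z] with x a b c
    refine ⟨(hF x a).2, funext fun i => ?_⟩
    have := c i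
    simp only [Pi.sub_apply, Pi.mul_apply, Pi.zero_apply] at this
    rw [Pi.smul_apply, smul_eq_mul, dF, dz_hol (aF x a).differentiableAt, div_mul_eq_mul_div,
      eq_div_iff b]
    exact sub_eq_zero.1 this

end Pool.Agent.Lib.MP_4e4ac8_an.LV
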