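import Pool.Agent.Lib.MP_4e4ac8_an.LV.St

/-! Homogeneous charts on cones. -/

namespace Pool.Agent.Lib.MP_4e4ac8_an.LV

open MeasureTheory Complex Matrix Filter Topology Set
open Pool.Agent.Lib.MP_813db1_ag.HS

namespace D2

theorem tt_nn (x : E) : 0 ≤ tt x := Finset.sum_nonneg fun _ _ => normSq_nonneg _

theorem le_tt (x : E) (j : Fin 3) : normSq (x j) ≤ tt x :=
  Finset.single_le_sum (f := fun j => normSq (x j)) (fun _ _ => normSq_nonneg _) (Finset.mem_univ j)

theorem tt_pos {x : E} (h : x ≠ 0) : 0 < tt x := by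
  obtain ⟨j, hj⟩ := Function.ne_iff.1 h
  exact (normSq_pos.2 hj).trans_le (le_tt x j)

theorem tt_sub (a : ℂ) (x p : E) :
    tt (a • x - p) = normSq a * tt x + tt p - 2 * (a * (x ⬝ᵥ star p)).re := by
  simp only [tt, Pi.sub_apply, Pi.smul_apply, smul_eq_mul, normSq_sub, normSq_mul, dotProduct,
    Fin.sum_univ_three, Pi.star_apply, mul_add, add_re, star_def, mul_assoc]
  ring

theorem fd_eq {F : E → ℂ} {y : E} (h : DifferentiableAt ℂ F y) (v : E) :
    fderiv ℂ F y v = v ⬝ᵥ dF F y := by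
  conv_lhs => rw [pi_eq_sum_univ' v]
  rw [map_sum]
  refine Finset.sum_congr rfl fun j _ => ?_
  rw [map_smul, dF, dz_hol h, smul_eq_mul]

/-- the projection to the affine plane through `p` -/
noncomputable def pr (p x : E) : E := ((tt p : ℂ) / (x ⬝ᵥ star p)) • x

theorem an_s (p x : E) : AnalyticAt ℂ (fun y : E => y ⬝ᵥ star p) x := by
  simp only [dotProduct]
  exact Finset.analyticAt_fun_sum _ fun j _ =>
    ((ContinuousLinearMap.proj (R := ℂ) (φ := fun _ : Fin 3 => ℂ) j).analyticAt x).mul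
      analyticAt_const

theorem an_a {p x : E} (h : x ⬝ᵥ star p ≠ 0) :
    AnalyticAt ℂ (fun y : E => (tt p : ℂ) / (y ⬝ᵥ star p)) x :=
  analyticAt_const.div (an_s p x) h

theorem an_pr {p x : E} (h : x ⬝ᵥ star p ≠ 0) : AnalyticAt ℂ (pr p) x :=
  (an_a h).smul analyticAt_id

theorem pr_smul (p x : E) {c : ℂ} (hc : c ≠ 0) : pr p (c • x) = pr p x := by
  rw [pr, pr, smul_smul, smul_dotProduct, smul_eq_mul]
  congr 1
  field_simp

theorem dF_pr {F : E → ℂ} {p z : E} (h : z ⬝ᵥ star p ≠ 0) (hF : DifferentiableAt ℂ F (pr p z))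
    (h0 : z ⬝ᵥ dF F (pr p z) = 0) :
    dF (fun y => F (pr p y)) z = ((tt p : ℂ) / (z ⬝ᵥ star p)) • dF F (pr p z) := by
  have h1 := (an_a h).differentiableAt.hasFDerivAt.smul (hasFDerivAt_id z)
  have h2 : HasFDerivAt (fun y => F (pr p y)) _ z := hF.hasFDerivAt.comp z h1
  funext j
  rw [dF, dz_hol h2.differentiableAt, h2.fderiv]
  simp only [ContinuousLinearMap.comp_apply, _root_.add_apply,
    _root_.smul_apply, ContinuousLinearMap.smulRight_apply, map_add, map_smul,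
    ContinuousLinearMap.id_apply, id, smul_eq_mul, Pi.smul_apply]
  rw [fd_eq hF z, h0, dF, dz_hol hF, mul_zero, add_zero]

theorem near {p x : E} (hp : p ≠ 0) {δ r : ℝ} (hr : 0 < r) (h0 : 0 < δ) (h1 : δ ≤ 1 / 2)
    (h2 : 2 * δ * tt p ≤ r ^ 2) (hx : x ∈ Cn p δ) :
    x ⬝ᵥ star p ≠ 0 ∧ pr p x ∈ Metric.ball p r := by
  have hx' : 1 - δ < normSq (x ⬝ᵥ star p) / (tt x * tt p) := hx
  have hs : x ⬝ᵥ star p ≠ 0 := fun h => by
    rw [h, normSq_zero, zero_div] at hx'
    linarith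
  have hx0 : x ≠ 0 := fun h => hs (by rw [h, zero_dotProduct])
  have t1 := tt_pos hp
  have t2 := tt_pos hx0
  have t3 := normSq_pos.2 hs
  rw [lt_div_iff₀ (by positivity)] at hx'
  have e : tt (pr p x - p) = tt p * (tt x * tt p / normSq (x ⬝ᵥ star p) - 1) := by
    rw [pr, tt_sub, div_mul_cancel₀ _ hs, normSq_div, normSq_ofReal, ofReal_re]
    ring
  have b : tt x * tt p / normSq (x ⬝ᵥ star p) - 1 < 2 * δ := by
    rw [sub_lt_iff_lt_add, div_lt_iff₀ t3]
    have t4 : 0 < tt x * tt p := by positivity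
    have t5 : 0 ≤ δ * (1 - 2 * δ) * (tt x * tt p) :=
      mul_nonneg (mul_nonneg h0.le (by linarith)) t4.le
    nlinarith [mul_lt_mul_of_pos_left hx' (show 0 < 2 * δ + 1 by positivity)]
  refine ⟨hs, ?_⟩
  rw [mem_ball_iff_norm, pi_norm_lt_iff hr]
  intro j
  refine lt_of_pow_lt_pow_left₀ 2 hr.le ?_
  rw [← normSq_eq_norm_sq]
  refine (le_tt _ j).trans_lt ?_
  rw [e]
  nlinarith [mul_lt_mul_of_pos_left b t1]

end D2

open D2 in
theorem d2_pf : StD2 := by
  intro S d A p F l hB hp hG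
  have hp0 : p ≠ 0 := fun h => hB.zero (h ▸ hp)
  have t1 := tt_pos hp0
  have t2 : (tt p : ℂ) ≠ 0 := by exact_mod_cast t1.ne'
  have hW : ∀ᶠ y in 𝓝 p, AnalyticAt ℂ F y ∧ AnalyticAt ℂ l y ∧ l y ≠ 0 ∧
      (y ∈ S ↔ (F y).im = 0) ∧ A y = l y • dF F y :=
    hG.aF.eventually_analyticAt.and (hG.al.eventually_analyticAt.and
      ((hG.al.continuousAt.eventually_ne hG.l0).and hG.ev))
  obtain ⟨r, hr, hb⟩ := Metric.eventually_nhds_iff_ball.1 hW.eventually_nhds
  refine ⟨min (1 / 2) (r ^ 2 / (2 * tt p)), fun y => F (pr p y),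
    fun y => ((y ⬝ᵥ star p) / tt p) ^ (d + 1) * l (pr p y), by positivity,
    (min_le_left _ _).trans_lt (by norm_num), fun x hx => ⟨?_, fun c hc => ?_⟩⟩
  · obtain ⟨hs, hm⟩ := near hp0 hr (by positivity) (min_le_left _ _) (by
      have := (le_div_iff₀ (show 0 < 2 * tt p by positivity)).1
        (min_le_right (1 / 2) (r ^ 2 / (2 * tt p)))
      linarith) hx
    have h1 := hb _ hm
    obtain ⟨a1, a2, a3, -⟩ := h1.self_of_nhds
    refine ⟨a1.comp (an_pr hs), (((an_s p x).div_const).pow _).mul (a2.comp (an_pr hs)),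
      mul_ne_zero (pow_ne_zero _ (div_ne_zero hs t2)) a3, ?_⟩
    filter_upwards [(an_pr hs).continuousAt.eventually h1,
      (an_s p x).continuousAt.eventually_ne hs] with z ⟨b1, _, b3, b4, b5⟩ hz
    have ha : (tt p : ℂ) / (z ⬝ᵥ star p) ≠ 0 := div_ne_zero t2 hz
    refine ⟨Iff.trans ⟨fun h => hB.cone z h _ ha, fun h => ?_⟩ b4, ?_⟩
    · have := hB.cone _ h _ (inv_ne_zero ha)
      exact (inv_smul_smul₀ ha z) ▸ this
    · have e1 := hB.eul (pr p z)
      rw [b5, dotProduct_smul, smul_eq_mul, mul_eq_zero, or_iff_right b3] at e1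
      have e2 : z ⬝ᵥ dF F (pr p z) = 0 := by
        have e3 : ((tt p : ℂ) / (z ⬝ᵥ star p)) * (z ⬝ᵥ dF F (pr p z)) = 0 := by
          rw [← smul_eq_mul, ← smul_dotProduct]
          exact e1
        exact (mul_eq_zero.1 e3).resolve_left ha
      have e4 : ((tt p : ℂ) / (z ⬝ᵥ star p)) ^ d • A z = l (pr p z) • dF F (pr p z) :=
        (hB.hom _ z).symm.trans b5
      rw [dF_pr hz b1.differentiableAt e2, smul_smul,
        (eq_inv_smul_iff₀ (pow_ne_zero d ha)).2 e4, smul_smul]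
      congr 1
      rw [div_pow, div_pow]
      field_simp
      ring
  · beta_reduce
    rw [pr_smul p x hc, smul_dotProduct, smul_eq_mul, mul_div_assoc, mul_pow, mul_assoc]
    exact ⟨rfl, rfl⟩

end Pool.Agent.Lib.MP_4e4ac8_an.LV
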