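import Pool.Agent.Lib.MP_4e4ac8_an.LV.St

/-! The transition between two local first integrals. -/

namespace Pool.Agent.Lib.MP_4e4ac8_an.LV

open MeasureTheory Complex Matrix Filter Topology Set
open Pool.Agent.Lib.MP_813db1_ag.HS
open scoped ContDiff

namespace D3

theorem three {a b c γ : E → ℝ} {x : E} (ha : ContDiffAt ℝ ∞ a x) (hb : ContDiffAt ℝ ∞ b x)
    (hc : ContDiffAt ℝ ∞ c x) (h : γ =ᶠ[𝓝 x] fun y => -a y + b y + c y) :
    ContDiffAt ℝ ∞ γ x ∧ gr γ x = -gr a x + gr b x + gr c x ∧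
      HH γ x = -HH a x + HH b x + HH c x := by
  have e : cx γ =ᶠ[𝓝 x] fun y => -cx a y + cx b y + cx c y := h.mono fun y hy => by
    simp only [cx, hy]; push_cast; ring
  have two : (2 : WithTop ℕ∞) ≤ ∞ := WithTop.coe_le_coe.2 (le_top : (2 : ℕ∞) ≤ ⊤)
  have a2 : ContDiffAt ℝ 2 (cx a) x := contDiffAt_ofReal.2 (ha.of_le two)
  have b2 : ContDiffAt ℝ 2 (cx b) x := contDiffAt_ofReal.2 (hb.of_le two)
  have c2 : ContDiffAt ℝ 2 (cx c) x := contDiffAt_ofReal.2 (hc.of_le two)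
  refine ⟨((ha.neg.add hb).add hc).congr_of_eventuallyEq h, ?_, ?_⟩
  · funext j
    have a1 := a2.differentiableAt two_ne_zero
    have b1 := b2.differentiableAt two_ne_zero
    have c1 := c2.differentiableAt two_ne_zero
    show dz (cx γ) j x = -dz (cx a) j x + dz (cx b) j x + dz (cx c) j x
    rw [dz_congr e, dz_add (a1.fun_neg.fun_add b1) c1, dz_add a1.fun_neg b1, dz_neg]
  · show levi (cx γ) x = -levi (cx a) x + levi (cx b) x + levi (cx c) x
    rw [levi_congr e, levi_add (a2.neg.add b2) c2, levi_add a2.neg b2, levi_neg]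

theorem dcomp {F G : E → ℂ} {φ : ℂ → ℂ} {x : E} (hF : AnalyticAt ℂ F x)
    (hφ : AnalyticAt ℂ φ (F x)) (h : G =ᶠ[𝓝 x] fun y => φ (F y)) :
    dF G x = deriv φ (F x) • dF F x := by
  funext j
  show dz G j x = deriv φ (F x) * dz F j x
  rw [dz_congr h, dz_hol_comp hφ.differentiableAt.hasDerivAt
    (hF.differentiableAt.restrictScalars ℝ)]

theorem oo_smul (c : ℂ) (a : E) : oo (c • a) = ((normSq c : ℝ) : ℂ) • oo a := by
  ext j k
  simp only [oo, vecMulVec_apply, Matrix.smul_apply, Pi.star_apply, Pi.smul_apply, smul_eq_mul,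
    star_mul', normSq_eq_conj_mul_self, star_def]
  ring

end D3

open D3 in
theorem d3_pf (hLG : StLG) (h0 : StD0) (h3 : StD3a) : StD3 := by
  intro S A p F l F' l' hp hA g g'
  have n0 : dF F p ≠ 0 := fun e => hA (by rw [g.ev.self_of_nhds.2, e, smul_zero])
  have n1 : dF F' p ≠ 0 := fun e => hA (by rw [g'.ev.self_of_nhds.2, e, smul_zero])
  have l0 := g.al.continuousAt.eventually_ne g.l0
  have l1 := g'.al.continuousAt.eventually_ne g'.l0
  obtain ⟨m, -, hφ⟩ := h0 F F' p g.aF g'.aF n0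
  obtain ⟨φ, aφ, eφ⟩ := hφ (by
    filter_upwards [g.ev, g'.ev, l1] with x a b c
    exact ⟨(l' x)⁻¹ * l x, by rw [mul_smul, ← a.2, b.2, smul_smul, inv_mul_cancel₀ c, one_smul]⟩)
  have tF := g.aF.continuousAt
  have d0 : deriv φ (F p) ≠ 0 := fun e => n1 (by rw [dcomp g.aF aφ eφ, e, zero_smul])
  obtain ⟨C, hC⟩ := h3 φ (F p) aφ (g.ev.self_of_nhds.1.1 hp) d0 (m (by
    rw [mem_map]
    filter_upwards [g.ev, g'.ev, eφ] with x a b c h
    exact c ▸ b.1.1 (a.1.2 h)))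
  have ne : ∀ᶠ x in 𝓝 p, dF F x ≠ 0 := by
    obtain ⟨j, hj⟩ := Function.ne_iff.1 n0
    have c : ContDiffAt ℝ ∞ F p := (g.aF.contDiffAt (n := ∞)).restrict_scalars ℝ
    exact ((contDiffAt_dz_top c j).continuousAt.eventually_ne hj).mono
      fun x h e => h (congrFun e j)
  have dd : ∀ᶠ x in 𝓝 p, dF F' x = deriv φ (F x) • dF F x := by
    filter_upwards [g.aF.eventually_analyticAt, tF.eventually aφ.eventually_analyticAt,
      eφ.eventuallyEq_nhds] with x a b c using dcomp a b c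
  have d1 := tF.eventually (aφ.deriv.continuousAt.eventually_ne d0)
  have eγ : (fun x => UU F' l' x - UU F l x) =ᶠ[𝓝 p] fun y => -Real.log |(F' y).im| +
      Real.log |(F y).im| + Real.log ‖deriv φ (F y)‖ := by
    filter_upwards [g.ev, g'.ev, l1, ne, dd, d1] with x a b c d e f
    have k : l x = l' x * deriv φ (F x) :=
      smul_left_injective ℂ d (by show _ • _ = _ • _; rw [← a.2, b.2, e, smul_smul])
    rw [UU, UU, k, norm_mul, Real.log_mul (norm_ne_zero_iff.2 c) (norm_ne_zero_iff.2 f)]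
    ring
  refine ⟨C, ?_⟩
  filter_upwards [g.ev, g'.ev, dd, d1, eφ, tF.eventually hC, eγ.eventuallyEq_nhds,
    g.aF.eventually_analyticAt, g'.aF.eventually_analyticAt,
    tF.eventually aφ.deriv.eventually_analyticAt] with x a b e f q hc eg aF aF' aψ hx
  have y0 : (F x).im ≠ 0 := fun h => hx (a.1.2 h)
  have y1 : (F' x).im ≠ 0 := fun h => hx (b.1.2 h)
  obtain ⟨c1, c2, c3⟩ := hc y0 (q ▸ y1)
  obtain ⟨a1, a2, a3⟩ := (hLG F' x aF').1 y1
  obtain ⟨b1, b2, b3⟩ := (hLG F x aF).1 y0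
  obtain ⟨e1, e2, e3⟩ := (hLG (fun y => deriv φ (F y)) x (aψ.comp aF)).2 f
  obtain ⟨t1, t2, t3⟩ := three a1 b1 e1 eg
  refine ⟨t1, ?_, ⟨_, c2, ?_⟩, ⟨((normSq (deriv φ (F x)) / (4 * (φ (F x)).im ^ 2) -
    1 / (4 * (F x).im ^ 2) : ℝ) : ℂ), ?_, ?_⟩⟩
  · rw [← q] at c1
    exact (congrArg abs eg.self_of_nhds).trans_le c1
  · rw [t2, a2, b2, e2, e, dcomp aF aψ EventuallyEq.rfl, q, smul_smul, smul_smul, ← neg_smul,
      ← add_smul, ← add_smul]
    congr 1
    ring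
  · rwa [norm_real, Real.norm_eq_abs]
  · rw [t3, a3, b3, e3, e, oo_smul, q, smul_smul, ← neg_smul, add_zero, ← add_smul]
    congr 1
    push_cast
    ring

end Pool.Agent.Lib.MP_4e4ac8_an.LV
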