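import Pool.Agent.Lib.MP_4e4ac8_an.LV.St

/-! One variable estimates for a holomorphic map which is real on the real line. -/

namespace Pool.Agent.Lib.MP_4e4ac8_an.LV

open Complex Filter Topology Set Metric

namespace D3a

lemma up {g g' : ℂ → ℂ} {B : Set ℂ} (hB : Convex ℝ B) {x : ℂ} (hx : x ∈ B)
    (h : ∀ z ∈ B, HasDerivAt g (g' z) z) (g0 : g x = 0) {M : ℝ} (M0 : 0 ≤ M) (k : ℕ)
    (hb : ∀ z ∈ B, ‖g' z‖ ≤ M * ‖z - x‖ ^ k) : ∀ z ∈ B, ‖g z‖ ≤ M * ‖z - x‖ ^ (k + 1) := by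
  intro z hz
  have := (hB.inter (convex_closedBall x ‖z - x‖)).norm_image_sub_le_of_norm_hasDerivWithin_le
    (f := g) (f' := g') (C := M * ‖z - x‖ ^ k) (x := x) (y := z)
    (fun w hw => (h w hw.1).hasDerivWithinAt)
    (fun w hw => (hb w hw.1).trans (by
      have := mem_closedBall_iff_norm.1 hw.2
      gcongr))
    ⟨hx, mem_closedBall_self (norm_nonneg _)⟩ ⟨hz, mem_closedBall_iff_norm.2 le_rfl⟩
  rw [g0, sub_zero] at this
  rwa [pow_succ, ← mul_assoc]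

lemma real_deriv {f : ℂ → ℂ} {f' x : ℂ} (hx : x.im = 0) (h : HasDerivAt f f' x)
    (hr : ∀ᶠ t in 𝓝 x, t.im = 0 → (f t).im = 0) : f'.im = 0 := by
  have e : ((x.re : ℝ) : ℂ) = x := Complex.ext rfl (by simp [hx])
  rw [← e] at h hr
  have h1 : HasDerivAt (fun s : ℝ => (f s).im) f'.im x.re :=
    imCLM.hasFDerivAt.comp_hasDerivAt x.re h.comp_ofReal
  have h2 : (fun s : ℝ => (f s).im) =ᶠ[𝓝 x.re] fun _ => 0 :=
    (continuous_ofReal.continuousAt.eventually hr).mono fun s hs => hs (ofReal_im s)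
  exact h1.unique ((hasDerivAt_const x.re (0 : ℝ)).congr_of_eventuallyEq h2)

lemma alg3 {p q y u0 M m : ℝ} {u1 : ℂ} (m0 : 0 < m) (y0 : y ≠ 0) (y1 : |y| ≤ 1) (hp : |p| ≤ M)
    (hq : |q| ≤ M) (h0 : |u0| ≤ M) (h1 : ‖u1‖ ≤ M) (hm : m / 2 ≤ |p + y ^ 2 * u0|) :
    |normSq (p + I * q * y + y ^ 2 * u1) / (4 * (y * (p + y ^ 2 * u0)) ^ 2) - 1 / (4 * y ^ 2)| ≤
      10 * M ^ 2 / m ^ 2 := by
  have w0 : p + y ^ 2 * u0 ≠ 0 := abs_pos.1 (by linarith)
  have M0 : 0 ≤ M := (abs_nonneg _).trans hp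
  have a1 := (abs_re_le_norm u1).trans h1
  have a2 := (abs_im_le_norm u1).trans h1
  have e : normSq (p + I * q * y + y ^ 2 * u1) / (4 * (y * (p + y ^ 2 * u0)) ^ 2) -
      1 / (4 * y ^ 2) = (2 * (p * u1.re) + (y * u1.re) * (y * u1.re) +
        (q + y * u1.im) * (q + y * u1.im) - 2 * (p * u0) - (y * u0) * (y * u0)) /
        (4 * (p + y ^ 2 * u0) ^ 2) := by
    have : normSq (p + I * q * y + y ^ 2 * u1) =
        (p + y ^ 2 * u1.re) ^ 2 + (q * y + y ^ 2 * u1.im) ^ 2 := by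
      simp [normSq_apply, pow_two]
    rw [this]
    field_simp
    ring
  have b : ∀ {s t A B : ℝ}, |s| ≤ A → |t| ≤ B → |s * t| ≤ A * B := fun hs ht => by
    rw [abs_mul]; exact mul_le_mul hs ht (abs_nonneg _) ((abs_nonneg _).trans hs)
  have c1 := abs_le.1 (b hp a1)
  have c2 := abs_le.1 (b (b y1 a1) (b y1 a1))
  have c3' : |q + y * u1.im| ≤ M + 1 * M := (abs_add_le _ _).trans (add_le_add hq (b y1 a2))
  have c3 := abs_le.1 (b c3' c3')
  have c4 := abs_le.1 (b hp h0)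
  have c5 := abs_le.1 (b (b y1 h0) (b y1 h0))
  rw [e, abs_div]
  refine div_le_div₀ (by positivity) (abs_le.2 ⟨by nlinarith, by nlinarith⟩) (by positivity) ?_
  rw [abs_mul, abs_pow, abs_of_pos (by norm_num : (0 : ℝ) < 4)]
  nlinarith

lemma alg2 {p q y u0 M m : ℝ} {u1 u2 f1 : ℂ} (m0 : 0 < m) (y0 : y ≠ 0) (y1 : |y| ≤ 1)
    (hp : |p| ≤ M) (hq : |q| ≤ M) (h0 : |u0| ≤ M) (h1 : ‖u1‖ ≤ M) (h2 : ‖u2‖ ≤ M)
    (hm : m / 2 ≤ |p + y ^ 2 * u0|) (hf : f1 = p + I * q * y + y ^ 2 * u1) (f0 : m ≤ ‖f1‖)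
    (fM : ‖f1‖ ≤ M) (gM : ‖q + y * u2‖ ≤ M) :
    ‖-(f1 / (2 * I * (y * (p + y ^ 2 * u0) : ℝ))) + 1 / (2 * I * y) + (q + y * u2) / (2 * f1)‖ ≤
      6 * M ^ 2 / m ^ 2 * |y| := by
  have w0 : ((p + y ^ 2 * u0 : ℝ) : ℂ) ≠ 0 := ofReal_ne_zero.2 (abs_pos.1 (by linarith))
  have M0 : 0 ≤ M := (abs_nonneg _).trans hp
  have f0' : f1 ≠ 0 := norm_pos_iff.1 (m0.trans_le f0)
  have y0' : (y : ℂ) ≠ 0 := ofReal_ne_zero.2 y0
  have e : -(f1 / (2 * I * (y * (p + y ^ 2 * u0) : ℝ))) + 1 / (2 * I * y) +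
      (q + y * u2) / (2 * f1) = (f1 * u0 - f1 * u1 + q * q - I * (q * (y * u1)) + I * (p * u2) +
        I * (y * u0 * (q + y * u2))) / (2 * I * (p + y ^ 2 * u0 : ℝ) * f1) * y := by
    rw [ofReal_mul]
    have := I_ne_zero
    field_simp
    push_cast
    linear_combination (-(f1 + I * q * y)) * hf - (q : ℂ) ^ 2 * y ^ 2 * I_sq
  have b : ∀ {s t : ℂ} {A B : ℝ}, ‖s‖ ≤ A → ‖t‖ ≤ B → ‖s * t‖ ≤ A * B := fun hs ht => by
    rw [norm_mul]; exact mul_le_mul hs ht (norm_nonneg _) ((norm_nonneg _).trans hs)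
  have r : ∀ {s A : ℝ}, |s| ≤ A → ‖(s : ℂ)‖ ≤ A := fun hs => by
    rwa [norm_real, Real.norm_eq_abs]
  have i1 : ‖I‖ ≤ 1 := norm_I.le
  have c1 := b fM (r h0)
  have c2 := b fM h1
  have c3 := b (r hq) (r hq)
  have c4 := b i1 (b (r hq) (b (r y1) h1))
  have c5 := b i1 (b (r hp) h2)
  have c6 := b i1 (b (b (r y1) (r h0)) gM)
  rw [e, norm_mul, norm_real, Real.norm_eq_abs, norm_div]
  refine mul_le_mul_of_nonneg_right (div_le_div₀ (by positivity) ?_ (by positivity) ?_)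
    (abs_nonneg _)
  · refine ((norm_add_le _ _).trans (add_le_add ((norm_add_le _ _).trans (add_le_add
      ((norm_sub_le _ _).trans (add_le_add ((norm_add_le _ _).trans (add_le_add
      ((norm_sub_le _ _).trans (add_le_add c1 c2)) c3)) c4)) c5)) c6)).trans (le_of_eq ?_)
    ring
  · rw [norm_mul, norm_mul, norm_mul, norm_I, norm_real, Real.norm_eq_abs, Complex.norm_two]
    nlinarith [mul_le_mul hm f0 m0.le (abs_nonneg _)]

lemma alg1 {b y K : ℝ} {f1 : ℂ} (b0 : b ≠ 0) (y0 : y ≠ 0) (f0 : f1 ≠ 0)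
    (h : |normSq f1 / (4 * b ^ 2) - 1 / (4 * y ^ 2)| ≤ K) (hy : 8 * K * y ^ 2 ≤ 1) :
    |-Real.log |b| + Real.log |y| + Real.log ‖f1‖| ≤ 4 * K * y ^ 2 := by
  have n0 : 0 < ‖f1‖ := norm_pos_iff.2 f0
  set w : ℝ := ‖f1‖ ^ 2 * y ^ 2 / b ^ 2 with hw
  have w0 : 0 < w := by positivity
  have e : Real.log w = 2 * (-Real.log |b| + Real.log |y| + Real.log ‖f1‖) := by
    rw [hw, Real.log_div (by positivity) (by positivity),
      Real.log_mul (by positivity) (by positivity), Real.log_pow, Real.log_pow, Real.log_pow,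
      Real.log_abs, Real.log_abs]
    push_cast
    ring
  have e2 : w - 1 = 4 * y ^ 2 * (normSq f1 / (4 * b ^ 2) - 1 / (4 * y ^ 2)) := by
    rw [hw, normSq_eq_norm_sq]
    field_simp
  have h1 : |w - 1| ≤ 4 * K * y ^ 2 := by
    rw [e2, abs_mul, abs_of_pos (by positivity : 0 < 4 * y ^ 2)]
    nlinarith [sq_nonneg y]
  obtain ⟨h2, h3⟩ := abs_le.1 h1
  have h4 := Real.log_le_sub_one_of_pos w0
  have h5 := Real.one_sub_inv_le_log_of_pos w0
  have h6 : w⁻¹ ≤ 1 + 8 * K * y ^ 2 := by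
    rw [inv_le_comm₀ w0 (by linarith), inv_le_iff_one_le_mul₀ (by linarith)]
    nlinarith
  rw [abs_le]
  constructor <;> linarith

end D3a

open D3a in
theorem d3a_pf : StD3a := by
  intro φ a an a0 d0 hr
  have an1 := an.deriv
  have an2 := an1.deriv
  have an3 := an2.deriv
  set M : ℝ := 1 + ‖deriv φ a‖ + ‖deriv (deriv φ) a‖ + ‖deriv (deriv (deriv φ)) a‖ with hM
  set m : ℝ := ‖deriv φ a‖ / 2 with hm
  have n0 := norm_pos_iff.2 d0
  have n2 := norm_nonneg (deriv (deriv φ) a)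
  have n3 := norm_nonneg (deriv (deriv (deriv φ)) a)
  have m0 : 0 < m := by positivity
  have M0 : 0 < M := by positivity
  have e1 := an1.continuousAt.norm.eventually_le_const (u := M) (by rw [hM]; linarith)
  have e2 := an2.continuousAt.norm.eventually_le_const (u := M) (by rw [hM]; linarith)
  have e3 := an3.continuousAt.norm.eventually_le_const (u := M) (by rw [hM]; linarith)
  have e4 := an1.continuousAt.norm.eventually_const_le (u := m) (by rw [hm]; linarith)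
  obtain ⟨ρ, ρ0, hB⟩ := Metric.eventually_nhds_iff_ball.1
    (an.eventually_analyticAt.and (hr.and (e1.and (e2.and (e3.and e4)))))
  have ty : Tendsto (fun t : ℂ => t.im ^ 2) (𝓝 a) (𝓝 0) := by
    have : ContinuousAt (fun t : ℂ => t.im ^ 2) a := (continuous_im.pow 2).continuousAt
    simpa [ContinuousAt, a0] using this
  have nb : ∀ z ∈ ball a ρ, ∀ᶠ t in 𝓝 z, t ∈ ball a ρ := fun z hz => isOpen_ball.mem_nhds hz
  have D0 : ∀ z ∈ ball a ρ, HasDerivAt φ (deriv φ z) z :=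
    fun z hz => (hB z hz).1.differentiableAt.hasDerivAt
  have D1 : ∀ z ∈ ball a ρ, HasDerivAt (deriv φ) (deriv (deriv φ) z) z :=
    fun z hz => (hB z hz).1.deriv.differentiableAt.hasDerivAt
  have D2 : ∀ z ∈ ball a ρ, HasDerivAt (deriv (deriv φ)) (deriv (deriv (deriv φ)) z) z :=
    fun z hz => (hB z hz).1.deriv.deriv.differentiableAt.hasDerivAt
  have R1 : ∀ z ∈ ball a ρ, z.im = 0 → (deriv φ z).im = 0 := fun z hz z0 =>
    real_deriv z0 (D0 z hz) ((nb z hz).mono fun t ht => (hB t ht).2.1)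
  have R2 : ∀ z ∈ ball a ρ, z.im = 0 → (deriv (deriv φ) z).im = 0 := fun z hz z0 =>
    real_deriv z0 (D1 z hz) ((nb z hz).mono R1)
  set K : ℝ := 10 * M ^ 2 / m ^ 2 with hK
  have K0 : 0 < K := by positivity
  refine ⟨4 * K, ?_⟩
  filter_upwards [ball_mem_nhds a ρ0, ty.eventually_le_const one_pos,
    ty.eventually_le_const (u := m / (2 * M)) (by positivity),
    ty.eventually_le_const (u := 1 / (8 * K)) (by positivity)] with t ht y1 y2 y3 y0 b0
  set y := t.im with hy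
  set x : ℂ := (t.re : ℂ) with hx
  have x0 : x.im = 0 := ofReal_im _
  have xB : x ∈ ball a ρ := by
    rw [mem_ball_iff_norm] at ht ⊢
    refine lt_of_le_of_lt ?_ ht
    have : x - a = ((t - a).re : ℂ) := Complex.ext (by simp [hx]) (by simp [hx, a0])
    rw [this, norm_real, Real.norm_eq_abs]
    exact abs_re_le_norm _
  have tx : t - x = I * y := Complex.ext (by simp [hx]) (by simp [hx, hy])
  have ntx : ‖t - x‖ = |y| := by rw [tx, norm_mul, norm_I, one_mul, norm_real, Real.norm_eq_abs]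
  set p := (deriv φ x).re with hp
  set q := (deriv (deriv φ) x).re with hq
  have ep : deriv φ x = p := Complex.ext rfl (by simp [R1 x xB x0])
  have eq : deriv (deriv φ) x = q := Complex.ext rfl (by simp [R2 x xB x0])
  have T2 := up (g := fun z => deriv (deriv φ) z - q) (convex_ball a ρ) xB
    (fun z hz => (D2 z hz).sub_const _) (by simp [eq]) M0.le 0
    (fun z hz => by simpa using (hB z hz).2.2.2.2.1)
  have T1 := up (g := fun z => deriv φ z - p - q * (z - x)) (convex_ball a ρ) xB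
    (fun z hz => by
      simpa using ((D1 z hz).sub_const (p : ℂ)).fun_sub
        (((hasDerivAt_id' z).sub_const x).const_mul (q : ℂ))) (by simp [ep]) M0.le _ T2
  have T0 := up (g := fun z => φ z - φ x - p * (z - x) - q / 2 * (z - x) ^ 2) (convex_ball a ρ) xB
    (fun z hz => by
      refine ((((D0 z hz).sub_const (φ x)).fun_sub
        (((hasDerivAt_id' z).sub_const x).const_mul (p : ℂ))).fun_sub
        ((((hasDerivAt_id' z).sub_const x).fun_pow 2).const_mul (q / 2 : ℂ))).congr_deriv ?_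
      push_cast
      ring) (by simp) M0.le _ T1
  have t2 := T2 t ht
  have t1 := T1 t ht
  have t0 := (abs_im_le_norm _).trans (T0 t ht)
  rw [ntx] at t0 t1 t2
  rw [tx] at t0 t1
  have ya : 0 < |y| := abs_pos.2 y0
  have y0' : (y : ℂ) ≠ 0 := ofReal_ne_zero.2 y0
  have i0 : (φ t - φ x - p * (I * y) - q / 2 * (I * y) ^ 2).im = (φ t).im - p * y := by
    simp [(hB x xB).2.1 x0, pow_two]
  rw [i0] at t0
  set u0 := ((φ t).im - p * y) / y ^ 3 with hu0
  set u1 := (deriv φ t - p - q * (I * y)) / y ^ 2 with hu1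
  set u2 := (deriv (deriv φ) t - q) / y with hu2
  have b0' : |u0| ≤ M := by
    rw [hu0, abs_div, abs_pow, div_le_iff₀ (by positivity)]; exact t0
  have b1 : ‖u1‖ ≤ M := by
    rw [hu1, norm_div, norm_pow, norm_real, Real.norm_eq_abs, div_le_iff₀ (by positivity)]
    exact t1
  have b2 : ‖u2‖ ≤ M := by
    rw [hu2, norm_div, norm_real, Real.norm_eq_abs, div_le_iff₀ ya]
    simpa using t2
  have f0 : (φ t).im = y * (p + y ^ 2 * u0) := by rw [hu0]; field_simp; ring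
  have f1 : deriv φ t = p + I * q * y + y ^ 2 * u1 := by rw [hu1]; field_simp; ring
  have f2 : deriv (deriv φ) t = q + y * u2 := by rw [hu2]; field_simp; ring
  have np : ‖deriv φ x‖ = |p| := by rw [ep, norm_real, Real.norm_eq_abs]
  have nq : ‖deriv (deriv φ) x‖ = |q| := by rw [eq, norm_real, Real.norm_eq_abs]
  have pM : |p| ≤ M := np ▸ (hB x xB).2.2.1
  have qM : |q| ≤ M := nq ▸ (hB x xB).2.2.2.1
  have pm : m ≤ |p| := np ▸ (hB x xB).2.2.2.2.2
  have y1' : |y| ≤ 1 := abs_le_one_iff_mul_self_le_one.2 (by nlinarith)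
  have hw : m / 2 ≤ |p + y ^ 2 * u0| := by
    have h1 : |y ^ 2 * u0| ≤ m / 2 := by
      rw [abs_mul, abs_of_nonneg (sq_nonneg y)]
      rw [le_div_iff₀ (by positivity)] at y2
      nlinarith [mul_le_mul_of_nonneg_left b0' (sq_nonneg y)]
    have := abs_sub (p + y ^ 2 * u0) (y ^ 2 * u0)
    rw [add_sub_cancel_right] at this
    linarith
  have A3 := alg3 m0 y0 y1' pM qM b0' b1 hw
  rw [← f0, ← f1, ← hK] at A3
  have A2 := alg2 m0 y0 y1' pM qM b0' b1 b2 hw f1 (hB t ht).2.2.2.2.2 (hB t ht).2.2.1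
    (f2 ▸ (hB t ht).2.2.2.1)
  rw [← f0, ← f2] at A2
  refine ⟨alg1 b0 y0 (norm_pos_iff.1 (m0.trans_le (hB t ht).2.2.2.2.2)) A3 ?_,
    A2.trans (mul_le_mul_of_nonneg_right ?_ ya.le), by linarith⟩
  · rw [le_div_iff₀ (by positivity)] at y3
    linarith
  · have : 6 * M ^ 2 / m ^ 2 = 6 / 10 * K := by rw [hK]; ring
    linarith

end Pool.Agent.Lib.MP_4e4ac8_an.LV
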