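import Pool.Agent.Lib.MP_4e4ac8_an.LV.St

/-! A homogeneous partition of unity near a closed cone. -/

namespace Pool.Agent.Lib.MP_4e4ac8_an.LV

open Complex Matrix Filter Topology Set
open scoped ContDiff

noncomputable section

namespace D4

theorem tt_smul (c : ℂ) (x : E) : tt (c • x) = normSq c * tt x := by
  simp [tt, Finset.mul_sum]

theorem tt_nonneg (x : E) : 0 ≤ tt x := Finset.sum_nonneg fun _ _ => normSq_nonneg _

theorem tt_pos {x : E} (h : x ≠ 0) : 0 < tt x := by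
  obtain ⟨j, hj⟩ := Function.ne_iff.1 h
  exact Finset.sum_pos' (fun _ _ => normSq_nonneg _) ⟨j, Finset.mem_univ _, normSq_pos.2 hj⟩

theorem cd_normSq : ContDiff ℝ ∞ (normSq : ℂ → ℝ) := by
  have : (normSq : ℂ → ℝ) = fun z => reCLM z * reCLM z + imCLM z * imCLM z := by
    funext z
    simp [normSq_apply]
  rw [this]
  exact (reCLM.contDiff.mul reCLM.contDiff).add (imCLM.contDiff.mul imCLM.contDiff)

theorem cd_tt : ContDiff ℝ ∞ tt :=
  ContDiff.sum fun j _ => cd_normSq.comp (contDiff_apply ℝ ℂ j)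

theorem cd_uu {p : E} (hp : p ≠ 0) : ContDiffOn ℝ ∞ (uu p) {0}ᶜ := by
  refine ContDiffOn.div (cd_normSq.comp ?_).contDiffOn (cd_tt.mul contDiff_const).contDiffOn
    fun x hx => (mul_pos (tt_pos hx) (tt_pos hp)).ne'
  exact ContDiff.sum fun j _ => (contDiff_apply ℝ ℂ j).mul contDiff_const

theorem uu_smul (p x : E) {c : ℂ} (hc : c ≠ 0) : uu p (c • x) = uu p x := by
  have h : normSq c ≠ 0 := (normSq_pos.2 hc).ne'
  rw [uu, uu, tt_smul, smul_dotProduct, smul_eq_mul, map_mul, mul_assoc, mul_div_mul_left _ _ h]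

theorem uu_self {p : E} (hp : p ≠ 0) : uu p p = 1 := by
  have e : p ⬝ᵥ star p = (tt p : ℂ) := by
    simp [dotProduct, tt, mul_conj]
  have h := (tt_pos hp).ne'
  rw [uu, e, normSq_ofReal, div_self (mul_ne_zero h h)]

theorem ca_uu {p x : E} (hp : p ≠ 0) (hx : x ≠ 0) : ContinuousAt (uu p) x :=
  (cd_uu hp).continuousOn.continuousAt (isOpen_compl_singleton.mem_nhds hx)

/-- the bump attached to a point -/
def bp (p : E) (δ : ℝ) (x : E) : ℝ := Real.smoothTransition ((uu p x - (1 - δ / 2)) / (δ / 4))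

theorem cd_bp {p : E} (hp : p ≠ 0) (δ : ℝ) : ContDiffOn ℝ ∞ (bp p δ) {0}ᶜ :=
  Real.smoothTransition.contDiff.comp_contDiffOn (((cd_uu hp).sub contDiffOn_const).div_const _)

theorem bp_smul (p x : E) (δ : ℝ) {c : ℂ} (hc : c ≠ 0) : bp p δ (c • x) = bp p δ x := by
  rw [bp, bp, uu_smul p x hc]

theorem bp_zero {p x : E} {δ : ℝ} (hδ : 0 < δ) (h : uu p x < 1 - δ / 2) : bp p δ x = 0 :=
  Real.smoothTransition.zero_of_nonpos (div_nonpos_of_nonpos_of_nonneg (by linarith) (by linarith))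

theorem bp_one {p x : E} {δ : ℝ} (hδ : 0 < δ) (h : 1 - δ / 4 < uu p x) : bp p δ x = 1 :=
  Real.smoothTransition.one_of_one_le ((one_le_div (by linarith)).2 (by linarith))

theorem cpt {S : Set E} (hcl : IsClosed (insert 0 S)) : IsCompact (S ∩ {x | tt x = 1}) := by
  have e : S ∩ {x | tt x = 1} = insert 0 S ∩ {x | tt x = 1} := by
    ext x
    constructor
    · exact fun h => ⟨Or.inr h.1, h.2⟩
    · rintro ⟨rfl | h, h2⟩
      · simp [tt] at h2
      · exact ⟨h, h2⟩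
  refine (isCompact_closedBall (0 : E) 1).of_isClosed_subset ?_ fun x hx => ?_
  · rw [e]
    exact hcl.inter (isClosed_eq cd_tt.continuous continuous_const)
  · rw [mem_closedBall_zero_iff, pi_norm_le_iff_of_nonneg zero_le_one]
    intro j
    have h1 : normSq (x j) ≤ tt x :=
      Finset.single_le_sum (f := fun j => normSq (x j)) (fun _ _ => normSq_nonneg _)
        (Finset.mem_univ j)
    rw [show tt x = 1 from hx.2, normSq_eq_norm_sq] at h1
    nlinarith [norm_nonneg (x j)]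

theorem cover {S : Set E} {δ : E → ℝ} (h0 : (0 : E) ∉ S) (hcl : IsClosed (insert 0 S))
    (hc : ∀ z ∈ S, ∀ c : ℂ, c ≠ 0 → c • z ∈ S) (hδ : ∀ p ∈ S, 0 < δ p ∧ δ p < 1) :
    ∃ T : Finset E, (∀ p ∈ T, p ∈ S) ∧ ∀ x ∈ S, ∃ p ∈ T, 1 - δ p / 4 < uu p x := by
  have ne : ∀ x ∈ S, x ≠ 0 := fun x hx h => h0 (h ▸ hx)
  obtain ⟨T, h1, h2⟩ := (cpt hcl).elim_nhds_subcover (fun p => {x | 1 - δ p / 4 < uu p x})
    fun p hp => (ca_uu (ne p hp.1) (ne p hp.1)).eventually (lt_mem_nhds (by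
      rw [uu_self (ne p hp.1)]
      linarith [(hδ p hp.1).1]))
  refine ⟨T, fun p hp => (h1 p hp).1, fun x hx => ?_⟩
  have ht := tt_pos (ne x hx)
  have hs : 0 < √(tt x) := Real.sqrt_pos.2 ht
  have c0 : (((√(tt x))⁻¹ : ℝ) : ℂ) ≠ 0 := ofReal_ne_zero.2 (inv_pos.2 hs).ne'
  have hm : (((√(tt x))⁻¹ : ℝ) : ℂ) • x ∈ S ∩ {x | tt x = 1} := by
    refine ⟨hc x hx _ c0, ?_⟩
    show tt _ = 1
    rw [tt_smul, normSq_ofReal, ← mul_inv, Real.mul_self_sqrt ht.le, inv_mul_cancel₀ ht.ne']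
  obtain ⟨p, hp, h⟩ := mem_iUnion₂.1 (h2 hm)
  exact ⟨p, hp, by rwa [mem_ofPred_eq, uu_smul p x c0] at h⟩

theorem den_pos (T : Finset E) (b : E → ℝ) (h0 : ∀ p, 0 ≤ b p) (h1 : ∀ p, b p ≤ 1) :
    0 < ∏ p ∈ T, (1 - b p) + ∑ p ∈ T, b p := by
  by_cases h : ∃ p ∈ T, 0 < b p
  · exact add_pos_of_nonneg_of_pos (Finset.prod_nonneg fun p _ => sub_nonneg.2 (h1 p))
      (Finset.sum_pos' (fun p _ => h0 p) h)
  · push Not at h
    refine add_pos_of_pos_of_nonneg (Finset.prod_pos fun p hp => ?_)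
      (Finset.sum_nonneg fun p _ => h0 p)
    linarith [h p hp]

end D4

open D4 in
theorem d4_pf : StD4 := by
  intro S δ h0 hcl hc hδ
  have ne : ∀ x ∈ S, x ≠ 0 := fun x hx h => h0 (h ▸ hx)
  obtain ⟨T, hT, hcov⟩ := cover h0 hcl hc hδ
  set P : E → ℝ := fun x => ∏ p ∈ T, (1 - bp p (δ p) x) with hP
  set D : E → ℝ := fun x => P x + ∑ p ∈ T, bp p (δ p) x with hD
  have Dp : ∀ x, 0 < D x := fun x => den_pos T (fun p => bp p (δ p) x)
    (fun _ => Real.smoothTransition.nonneg _) fun _ => Real.smoothTransition.le_one _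
  have cP : ContDiffOn ℝ ∞ P {0}ᶜ :=
    contDiffOn_prod fun p hp => contDiffOn_const.sub (cd_bp (ne p (hT p hp)) _)
  have cD : ContDiffOn ℝ ∞ D {0}ᶜ :=
    cP.add (ContDiffOn.sum fun p hp => cd_bp (ne p (hT p hp)) _)
  have sP : ∀ (c : ℂ) (x : E), c ≠ 0 → P (c • x) = P x := fun c x h => by
    simp only [hP, bp_smul _ x _ h]
  have sD : ∀ (c : ℂ) (x : E), c ≠ 0 → D (c • x) = D x := fun c x h => by
    simp only [hD, sP c x h, bp_smul _ x _ h]
  refine ⟨T, fun x => P x / D x, fun p x => bp p (δ p) x / D x, hT,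
    cP.div cD fun x _ => (Dp x).ne', fun p hp => (cd_bp (ne p (hT p hp)) _).div cD
      fun x _ => (Dp x).ne', fun c x h => ⟨?_, fun p _ => ?_⟩, fun x _ => ?_,
    fun p hp x hx hn => ?_, fun x hx => ?_⟩
  · simp only [sP c x h, sD c x h]
  · simp only [bp_smul _ x _ h, sD c x h]
  · rw [← Finset.sum_div, ← add_div]
    exact div_self (Dp x).ne'
  · have hd := (hδ p (hT p hp)).1
    have h1 : uu p x < 1 - δ p / 2 := by
      have : uu p x ≤ 1 - δ p := not_lt.1 hn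
      linarith
    filter_upwards [(ca_uu (ne p (hT p hp)) hx).eventually (gt_mem_nhds h1)] with y hy
    simp [bp_zero hd hy]
  · obtain ⟨p, hp, h⟩ := hcov x hx
    filter_upwards [(ca_uu (ne p (hT p hp)) (ne x hx)).eventually (lt_mem_nhds h)] with y hy
    have : P y = 0 := Finset.prod_eq_zero hp (by rw [bp_one (hδ p (hT p hp)).1 hy, sub_self])
    simp [this]

end

end Pool.Agent.Lib.MP_4e4ac8_an.LV
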