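import Pool.Agent.Lib.MP_4e4ac8_an.LV.St

/-! Local estimates for the patched reference function near the wall. -/

namespace Pool.Agent.Lib.MP_4e4ac8_an.LV

open MeasureTheory Complex Matrix Filter Topology Set Asymptotics
open Pool.Agent.Lib.MP_813db1_ag.HS
open scoped ContDiff

noncomputable section

namespace D5

variable {u w G : E → ℝ} {x : E}

theorem to2 (h : ContDiffAt ℝ ∞ u x) : ContDiffAt ℝ 2 u x := contDiffAt_infty.1 h 2

theorem c2 (h : ContDiffAt ℝ 2 u x) : ContDiffAt ℝ 2 (cx u) x := contDiffAt_ofReal.2 h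

theorem c1 (h : ContDiffAt ℝ 2 u x) : DifferentiableAt ℝ (cx u) x :=
  (c2 h).differentiableAt two_ne_zero

theorem cx_lin (a b : ℝ) : cx (fun y => a * u y + b * w y) =
    fun y => (a : ℂ) * cx u y + (b : ℂ) * cx w y := by
  funext y; simp [cx]

theorem gr_lin (a b : ℝ) (hu : ContDiffAt ℝ 2 u x) (hw : ContDiffAt ℝ 2 w x) :
    gr (fun y => a * u y + b * w y) x = (a : ℂ) • gr u x + (b : ℂ) • gr w x := by
  funext j
  simp only [gr, cx_lin, Pi.add_apply, Pi.smul_apply, smul_eq_mul]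
  rw [dz_add ((c1 hu).const_mul _) ((c1 hw).const_mul _), dz_cmul _ (c1 hu), dz_cmul _ (c1 hw)]

theorem HH_lin (a b : ℝ) (hu : ContDiffAt ℝ 2 u x) (hw : ContDiffAt ℝ 2 w x) :
    HH (fun y => a * u y + b * w y) x = (a : ℂ) • HH u x + (b : ℂ) • HH w x := by
  simp only [HH, cx_lin]
  rw [levi_add (contDiffAt_const.mul (c2 hu)) (contDiffAt_const.mul (c2 hw)),
    levi_cmul _ (c2 hu), levi_cmul _ (c2 hw)]

theorem gr_add (hu : ContDiffAt ℝ 2 u x) (hw : ContDiffAt ℝ 2 w x) :
    gr (fun y => u y + w y) x = gr u x + gr w x := by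
  simpa using gr_lin 1 1 hu hw

theorem HH_add (hu : ContDiffAt ℝ 2 u x) (hw : ContDiffAt ℝ 2 w x) :
    HH (fun y => u y + w y) x = HH u x + HH w x := by
  simpa using HH_lin 1 1 hu hw

theorem cx_mul : cx (fun y => u y * w y) = fun y => cx u y * cx w y := by
  funext y; simp [cx]

theorem gr_mul (hu : ContDiffAt ℝ 2 u x) (hw : ContDiffAt ℝ 2 w x) :
    gr (fun y => u y * w y) x = (w x : ℂ) • gr u x + (u x : ℂ) • gr w x := by
  funext j
  simp only [gr, cx_mul, Pi.add_apply, Pi.smul_apply, smul_eq_mul]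
  rw [dz_mul (c1 hu) (c1 hw)]
  simp only [cx]; ring

theorem HH_mul (hu : ContDiffAt ℝ 2 u x) (hw : ContDiffAt ℝ 2 w x) (j k : Fin 3) :
    HH (fun y => u y * w y) x j k = w x * HH u x j k + gr w x j * star (gr u x k) +
      gr u x j * star (gr w x k) + u x * HH w x j k := by
  simp only [HH, cx_mul]
  rw [levi_mul (c2 hu) (c2 hw)]
  have e1 : dzb (cx u) k x = star (gr u x k) := dzb_ofReal u k x
  have e2 : dzb (cx w) k x = star (gr w x k) := dzb_ofReal w k x
  rw [e1, e2]
  simp only [cx, gr]; ring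

theorem gr_congr (h : u =ᶠ[𝓝 x] w) : gr u x = gr w x :=
  funext fun j => dz_congr (h.mono fun y e => by simp [cx, e]) j

theorem HH_congr (h : u =ᶠ[𝓝 x] w) : HH u x = HH w x :=
  levi_congr (h.mono fun y e => by simp [cx, e])

theorem ca_gr (h : ContDiffAt ℝ 2 u x) : ContinuousAt (gr u) x :=
  continuousAt_pi.2 fun j => (contDiffAt_dz (m := 1) (c2 h) le_rfl j).continuousAt

theorem ca_HH (h : ContDiffAt ℝ 2 u x) (j k : Fin 3) : ContinuousAt (fun y => HH u y j k) x :=
  (contDiffAt_levi (m := 0) (c2 h) (by norm_num) j k).continuousAt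

theorem ca_dF {F : E → ℂ} (h : AnalyticAt ℂ F x) : ContinuousAt (dF F) x :=
  continuousAt_pi.2 fun j => (contDiffAt_dz_top h.restrictScalars.contDiffAt j).continuousAt

theorem ca_cross {a b : E → E} (ha : ContinuousAt a x) (hb : ContinuousAt b x) :
    ContinuousAt (fun y => a y ⨯₃ b y) x := by
  have h1 := continuousAt_pi.1 ha
  have h2 := continuousAt_pi.1 hb
  refine continuousAt_pi.2 fun i => ?_
  fin_cases i <;> simp [cross_apply] <;> exact ((h1 _).mul (h2 _)).sub ((h1 _).mul (h2 _))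

theorem DD_oo (a : E) (M : Mx) :
    DD (oo a) M = (∑ j, a j * star (a j)) * (∑ j, M j j) - ∑ j, ∑ k, a j * star (a k) * M k j := by
  simp [DD, oo, Matrix.trace, Matrix.mul_apply, vecMulVec_apply]

/-- functions which vanish to second order along `y = 0`, with derivatives along `v` -/
structure Ex (f : Filter E) (v : E → E) (y G : E → ℝ) : Prop where
  sm : ∀ᶠ x in f, ContDiffAt ℝ 2 G x
  o0 : G =O[f] fun x => y x ^ 2
  o1 : gr G =O[f] fun _ => (1 : ℝ)
  o2 : (fun x => gr G x ⨯₃ v x) =O[f] fun x => y x ^ 2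
  o3 : ∀ j k, (fun x => HH G x j k) =O[f] fun _ => (1 : ℝ)
  o4 : ∀ k, (fun x => (fun j => HH G x j k) ⨯₃ v x) =O[f] y
  o5 : (fun x => DD (oo (v x)) (HH G x)) =O[f] fun x => y x ^ 2

variable {f : Filter E} {v : E → E} {y : E → ℝ}

theorem Ex.zero : Ex f v y fun _ => 0 := by
  have e1 : gr (fun _ => (0 : ℝ)) = fun _ => 0 := by
    funext x j; exact dz_const _ j x
  have e2 : ∀ x, HH (fun _ => (0 : ℝ)) x = 0 := fun x => levi_const _ x
  refine ⟨Eventually.of_forall fun _ => contDiffAt_const, isBigO_zero _ _, ?_, ?_, fun j k => ?_,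
    fun k => ?_, ?_⟩
  · rw [e1]; exact isBigO_zero _ _
  · simp [e1, isBigO_zero]
  · simp only [e2, Matrix.zero_apply]; exact isBigO_zero _ _
  · have : (fun _ : Fin 3 => (0 : ℂ)) = 0 := rfl
    simp [e2, this, isBigO_zero]
  · simp [e2, DD, isBigO_zero]

theorem Ex.add (hu : Ex f v y u) (hw : Ex f v y w) : Ex f v y fun x => u x + w x := by
  have h := hu.sm.and hw.sm
  refine ⟨h.mono fun x e => e.1.add e.2, hu.o0.add hw.o0,
    (hu.o1.add hw.o1).congr' (h.mono fun x e => (gr_add e.1 e.2).symm) EventuallyEq.rfl,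
    (hu.o2.add hw.o2).congr' (h.mono fun x e => ?_) EventuallyEq.rfl,
    fun j k => ((hu.o3 j k).add (hw.o3 j k)).congr' (h.mono fun x e => ?_) EventuallyEq.rfl,
    fun k => ((hu.o4 k).add (hw.o4 k)).congr' (h.mono fun x e => ?_) EventuallyEq.rfl,
    (hu.o5.add hw.o5).congr' (h.mono fun x e => ?_) EventuallyEq.rfl⟩
  · simp only [gr_add e.1 e.2, map_add, LinearMap.add_apply]
  · simp only [HH_add e.1 e.2, Matrix.add_apply]
  · simp only [HH_add e.1 e.2, Matrix.add_apply]
    rw [← LinearMap.add_apply, ← map_add]; rfl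
  · simp only [HH_add e.1 e.2, DD, Matrix.trace_add, Matrix.mul_add]; ring

theorem big {β : Type} [NormedAddCommGroup β] {p : E} (hf : f ≤ 𝓝 p) {a : E → β}
    (h : ContinuousAt a p) : a =O[f] fun _ => (1 : ℝ) :=
  (h.tendsto.mono_left hf).isBigO_one ℝ

theorem sm1 {β : Type} [NormedAddCommGroup β] [NormedSpace ℂ β] {c : E → ℂ} {a : E → β}
    {z : E → ℝ} (hc : c =O[f] z) (ha : a =O[f] fun _ => (1 : ℝ)) :
    (fun x => c x • a x) =O[f] z := by
  refine IsBigO.of_norm_left ?_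
  simpa [norm_smul] using hc.norm_left.mul ha.norm_left

theorem ofR {c z : E → ℝ} (hc : c =O[f] z) : (fun x => (c x : ℂ)) =O[f] z :=
  IsBigO.of_norm_left (by simpa using hc.norm_left)

theorem st1 {c : E → ℂ} {z : E → ℝ} (hc : c =O[f] z) : (fun x => star (c x)) =O[f] z :=
  IsBigO.of_norm_left (by simpa using hc.norm_left)

theorem sq1 (hy : y =O[f] fun _ => (1 : ℝ)) : (fun x => y x ^ 2) =O[f] y := by
  simpa [sq] using (isBigO_refl y f).mul hy

theorem Ex.mul {S : Set E} {F : E → ℂ} {p : E} {φ γ : E → ℝ} (hF : AnalyticAt ℂ F p)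
    (hφ : ContDiffAt ℝ 2 φ p) (hγ : Gam S F p γ) :
    Ex (𝓝[Sᶜ] p) (dF F) (fun x => (F x).im) fun x => φ x * γ x := by
  obtain ⟨C, hC⟩ := hγ
  have hf : 𝓝[Sᶜ] p ≤ 𝓝 p := nhdsWithin_le_nhds
  replace hC := (eventually_nhdsWithin_iff (s := Sᶜ)).2 hC
  generalize 𝓝[Sᶜ] p = f at hf hC
  obtain ⟨g, hg⟩ := Filter.skolem.1 (hC.mono fun x e => e.2.2.1)
  obtain ⟨h, hh⟩ := Filter.skolem.1 (hC.mono fun x e => e.2.2.2)
  have sφ : ∀ᶠ x in f, ContDiffAt ℝ 2 φ x := (hφ.eventually (by simp)).filter_mono hf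
  have s := sφ.and (hC.mono fun x e => to2 e.1)
  have oy : (fun x => (F x).im) =O[f] fun _ => (1 : ℝ) :=
    big hf (continuous_im.continuousAt.comp hF.continuousAt)
  have oγ : γ =O[f] fun x => (F x).im ^ 2 :=
    IsBigO.of_bound C (hC.mono fun x e => by simpa using e.2.1)
  have og : g =O[f] fun x => (F x).im := IsBigO.of_bound C (hg.mono fun x e => e.1)
  have oh : h =O[f] fun _ => (1 : ℝ) :=
    IsBigO.of_bound C (hh.mono fun x e => by simpa using e.1)
  have cv := ca_dF hF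
  have cv' := continuousAt_pi.1 cv
  have cg := ca_gr hφ
  have cg' := continuousAt_pi.1 cg
  have cH := ca_HH hφ
  have cφ : ContinuousAt (fun x => (φ x : ℂ)) p := continuous_ofReal.continuousAt.comp
    hφ.continuousAt
  have o1 := (sq1 oy).trans oy
  have a := (s.and hg).and hh
  refine ⟨s.mono fun x e => e.1.mul e.2, ?_, ?_, ?_, fun j k => ?_, fun k => ?_, ?_⟩
  · simpa using (big hf hφ.continuousAt).mul oγ
  · refine ((sm1 (ofR (oγ.trans o1)) (big hf cg)).add (sm1 (og.trans oy)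
      (big hf (cφ.smul cv)))).congr' (a.mono fun x e => ?_) EventuallyEq.rfl
    simp only [gr_mul e.1.1.1 e.1.1.2, e.1.2.2, Pi.smul_apply', smul_comm (g x)]
  · refine (sm1 (ofR oγ) (big hf (ca_cross cg cv))).congr' (a.mono fun x e => ?_) EventuallyEq.rfl
    simp [gr_mul e.1.1.1 e.1.1.2, e.1.2.2]
  · refine ((((sm1 (ofR (oγ.trans o1)) (big hf (cH j k))).add (sm1 (og.trans oy)
      (big hf ((cv' j).mul (cg' k).star)))).add (sm1 (st1 (og.trans oy))
      (big hf ((cg' j).mul (cv' k).star)))).add (sm1 oh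
      (big hf (cφ.mul ((cv' j).mul (cv' k).star))))).congr' (a.mono fun x e => ?_)
      EventuallyEq.rfl
    simp only [HH_mul e.1.1.1 e.1.1.2, e.1.2.2, e.2.2, oo, Matrix.smul_apply, vecMulVec_apply,
      Pi.smul_apply, Pi.mul_apply, smul_eq_mul, star_mul', Pi.star_apply]
    ring
  · refine ((sm1 (ofR (oγ.trans (sq1 oy))) (big hf (ca_cross (continuousAt_pi.2 fun j => cH j k)
      cv))).add (sm1 (st1 og) (big hf ((cv' k).star.smul (ca_cross cg cv))))).congr'
      (a.mono fun x e => ?_) EventuallyEq.rfl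
    funext i
    simp only [HH_mul e.1.1.1 e.1.1.2, e.1.2.2, e.2.2, oo, Matrix.smul_apply, vecMulVec_apply,
      Pi.smul_apply, smul_eq_mul, star_mul', Pi.star_apply]
    fin_cases i <;> simp [cross_apply] <;> ring
  · have c : ContinuousAt (fun x => DD (oo (dF F x)) (HH φ x)) p := by
      simp only [DD_oo, Fin.sum_univ_three]
      have := fun j => (cv' j).star
      fun_prop
    refine (sm1 (ofR oγ) (big hf c)).congr' (a.mono fun x e => ?_) EventuallyEq.rfl
    simp only [DD_oo]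
    simp only [Fin.sum_univ_three, HH_mul e.1.1.1 e.1.1.2, e.1.2.2, e.2.2, oo,
      Matrix.smul_apply, vecMulVec_apply, Pi.smul_apply, smul_eq_mul, star_mul', Pi.star_apply]
    ring

theorem Ex.sum {T : Finset E} {a : E → E → ℝ} (h : ∀ k ∈ T, Ex f v y (a k)) :
    Ex f v y fun x => ∑ k ∈ T, a k x := by
  classical
  induction T using Finset.induction_on with
  | empty => simpa using Ex.zero
  | insert k T hk ih =>
    simp only [Finset.sum_insert hk]
    exact (h k (Finset.mem_insert_self _ _)).add (ih fun j hj => h j (Finset.mem_insert_of_mem hj))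

theorem cu_eq {A : E → E} {F l : E → ℂ} (hF : AnalyticAt ℂ F x) (hl : AnalyticAt ℂ l x)
    (h : ∀ᶠ z in 𝓝 x, A z = l z • dF F z) : cu A x = dF l x ⨯₃ dF F x := by
  have F2 : ContDiffAt ℝ 2 F x := hF.restrictScalars.contDiffAt
  have key : ∀ i j, dz (fun z => A z i) j x = dF l x j * dF F x i + l x * dz (dz F i) j x := by
    intro i j
    rw [dz_congr (g := fun z => l z * dz F i z) (h.mono fun z e => by rw [e]; rfl),
      dz_mul hl.restrictScalars.differentiableAt (differentiableAt_dz F2 i)]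
    rfl
  funext i
  fin_cases i <;> simp [cu, key, cross_apply, dz_dz_comm F2 0 1, dz_dz_comm F2 0 2,
    dz_dz_comm F2 1 2]

/-- the first two derivatives of the reference function off the wall -/
structure Fm (A : E → E) (U G : E → ℝ) (F l : E → ℂ) (x : E) : Prop where
  y0 : (F x).im ≠ 0
  l0 : l x ≠ 0
  hA : A x = l x • dF F x
  hU : U x = -Real.log |(F x).im| - Real.log ‖l x‖ + G x
  sm : ContDiffAt ℝ 2 U x
  g1 : gr U x = -((1 / (2 * I * (F x).im)) • dF F x) - (1 / (2 * l x)) • dF l x + gr G x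
  h1 : HH U x = (1 / (4 * ((F x).im : ℂ) ^ 2)) • oo (dF F x) + HH G x
  cu : cu A x = dF l x ⨯₃ dF F x

theorem form (hLG : StLG) {S : Set E} {A : E → E} {U : E → ℝ} {p : E} {F l : E → ℂ}
    (hg : Germ S A p F l) (hG : ∀ᶠ x in 𝓝[Sᶜ] p, ContDiffAt ℝ 2 G x)
    (hU : ∀ᶠ x in 𝓝 p, x ∉ S → U x = UU F l x + G x) : ∀ᶠ x in 𝓝[Sᶜ] p, Fm A U G F l x := by
  have h0 := (((hg.ev.and hU).eventually_nhds.and hg.aF.eventually_analyticAt).and
    hg.al.eventually_analyticAt).and (hg.al.continuousAt.eventually_ne hg.l0)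
  filter_upwards [h0.filter_mono nhdsWithin_le_nhds, hG, self_mem_nhdsWithin] with x hx sG xS
  obtain ⟨⟨⟨e, aF⟩, al⟩, l0⟩ := hx
  have y0 : (F x).im ≠ 0 := fun h => xS (e.self_of_nhds.1.1.2 h)
  obtain ⟨s1, g1, h1⟩ := (hLG F x aF).1 y0
  obtain ⟨s2, g2, h2⟩ := (hLG l x al).2 l0
  have eU : U =ᶠ[𝓝 x] fun z => ((-1 : ℝ) * Real.log |(F z).im| + (-1 : ℝ) * Real.log ‖l z‖) + G z := by
    filter_upwards [e, (continuous_im.continuousAt.comp aF.continuousAt).eventually_ne y0] with
      z hz z0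
    rw [hz.2 fun h => z0 (hz.1.1.1 h), UU]; ring
  have s3 := (contDiffAt_const (c := (-1 : ℝ)).mul (to2 s1)).add
    (contDiffAt_const (c := (-1 : ℝ)).mul (to2 s2))
  refine ⟨y0, l0, e.self_of_nhds.1.2, by rw [eU.self_of_nhds]; ring,
    (s3.add sG).congr_of_eventuallyEq eU, ?_, ?_, cu_eq aF al (e.mono fun z hz => hz.1.2)⟩
  · rw [gr_congr eU, gr_add s3 sG, gr_lin _ _ (to2 s1) (to2 s2), g1, g2]
    simp [sub_eq_add_neg]
  · rw [HH_congr eU, HH_add s3 sG, HH_lin _ _ (to2 s1) (to2 s2), h1, h2]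
    simp [smul_smul, neg_div]

theorem sm_tt : ContDiff ℝ 2 tt := by
  have : tt = fun x : E => ∑ j, ((x j).re * (x j).re + (x j).im * (x j).im) := by
    funext x; simp [tt, normSq_apply]
  rw [this]
  refine ContDiff.sum fun j _ => ?_
  have h1 : ContDiff ℝ 2 fun x : E => (x j).re := reCLM.contDiff.comp (contDiff_apply ℝ ℂ j)
  have h2 : ContDiff ℝ 2 fun x : E => (x j).im := imCLM.contDiff.comp (contDiff_apply ℝ ℂ j)
  exact (h1.mul h1).add (h2.mul h2)

theorem sm_U0 (d : ℕ) (h : x ≠ 0) : ContDiffAt ℝ 2 (U0 d) x := by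
  refine contDiffAt_const.mul (sm_tt.contDiffAt.log fun e => h (funext fun j => ?_))
  exact normSq_eq_zero.1 ((Finset.sum_eq_zero_iff_of_nonneg fun i _ => normSq_nonneg _).1 e j
    (Finset.mem_univ j))

section pt
variable {A : E → E} {U : E → ℝ} {F l : E → ℂ}

theorem Fm.exp2 (h : Fm A U G F l x) :
    Real.exp (2 * U x) * normSq (l x) = Real.exp (2 * G x) / (F x).im ^ 2 := by
  have a : 0 < |(F x).im| := abs_pos.2 h.y0
  have b : 0 < ‖l x‖ := norm_pos_iff.2 h.l0
  rw [h.hU, show 2 * (-Real.log |(F x).im| - Real.log ‖l x‖ + G x) = 2 * G x -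
    Real.log |(F x).im| - Real.log |(F x).im| - Real.log ‖l x‖ - Real.log ‖l x‖ by ring]
  simp only [Real.exp_sub, Real.exp_log a, Real.exp_log b, Complex.normSq_eq_norm_sq]
  rw [← sq_abs (F x).im]
  field_simp

theorem Fm.exph (h : Fm A U G F l x) (d : ℕ) : Real.exp (el d U x / 2) =
    |(F x).im| * (‖l x‖ * Real.exp (U0 d x - G x)) := by
  have a : 0 < |(F x).im| := abs_pos.2 h.y0
  have b : 0 < ‖l x‖ := norm_pos_iff.2 h.l0
  rw [el, h.hU, show -2 * (-Real.log |(F x).im| - Real.log ‖l x‖ + G x - U0 d x) / 2 =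
    Real.log |(F x).im| + (Real.log ‖l x‖ + (U0 d x - G x)) by ring]
  simp only [Real.exp_add, Real.exp_log a, Real.exp_log b]

theorem Fm.e1 (h : Fm A U G F l x) (j k : Fin 3) : (HH U x - EE A U x) j k =
    (((1 - Real.exp (2 * G x)) / (F x).im ^ 2 / 4 : ℝ) : ℂ) • (dF F x j * star (dF F x k)) +
      HH G x j k := by
  have e := congrArg (fun t : ℝ => (t : ℂ)) h.exp2
  have y0 : ((F x).im : ℂ) ≠ 0 := by exact_mod_cast h.y0
  simp only [ofReal_mul, normSq_eq_conj_mul_self, ofReal_div, ofReal_pow] at e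
  simp only [h.h1, EE, h.hA, oo, Matrix.sub_apply, Matrix.add_apply, Matrix.smul_apply,
    vecMulVec_apply, Pi.smul_apply, Pi.star_apply, smul_eq_mul, star_mul', ofReal_div,
    ofReal_sub, ofReal_pow, ofReal_one, ofReal_ofNat, Complex.star_def]
  linear_combination (-(dF F x j * (starRingEnd ℂ) (dF F x k)) / 4) * e

theorem Fm.e2 (h : Fm A U G F l x) : YY A U x = (2 * l x) • (gr G x ⨯₃ dF F x) := by
  have := h.l0
  funext i
  rw [YY, h.cu, h.g1, h.hA]
  fin_cases i <;> simp [cross_apply] <;> field_simp <;> ring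

theorem Fm.e3 (h : Fm A U G F l x) (k : Fin 3) :
    (fun j => HH U x j k) ⨯₃ A x = l x • ((fun j => HH G x j k) ⨯₃ dF F x) := by
  funext i
  rw [h.h1, h.hA]
  fin_cases i <;> simp [cross_apply, oo, vecMulVec_apply] <;> left <;> ring

theorem Fm.e4 (h : Fm A U G F l x) :
    DD (oo (A x)) (HH U x) = (l x * star (l x)) • DD (oo (dF F x)) (HH G x) := by
  simp only [DD_oo]
  simp only [h.h1, h.hA, Fin.sum_univ_three, oo, Matrix.add_apply, Matrix.smul_apply,
    vecMulVec_apply, Pi.smul_apply, smul_eq_mul, star_mul', Pi.star_apply]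
  ring

theorem Fm.e5 (h : Fm A U G F l x) (d : ℕ) (h0 : ContDiffAt ℝ 2 (U0 d) x) (w : E)
    (hw : w = (1 / l x) • dF l x + (2 : ℂ) • gr (U0 d) x - (2 : ℂ) • gr G x) :
    tt (gr (el d U) x) - ka A U x = (1 - Real.exp (2 * G x)) / (F x).im ^ 2 * tt (dF F x) +
      ((F x).im)⁻¹ * (∑ j, 2 * (dF F x j * star (w j)).im) + tt w := by
  have e : gr (el d U) x = (-I * ((F x).im)⁻¹ : ℂ) • dF F x + w := by
    have y0 : ((F x).im : ℂ) ≠ 0 := by exact_mod_cast h.y0
    have := h.l0
    rw [show el d U = fun z => (-2 : ℝ) * U z + (2 : ℝ) * U0 d z from funext fun z => by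
      rw [el]; ring, gr_lin _ _ h.sm h0, h.g1, hw]
    funext j
    simp only [Pi.add_apply, Pi.smul_apply, Pi.sub_apply, Pi.neg_apply, smul_eq_mul, ofReal_neg,
      ofReal_ofNat, ofReal_inv]
    field_simp
    linear_combination (l x * dF F x j) * I_mul_I
  have k : ka A U x = Real.exp (2 * G x) / (F x).im ^ 2 * tt (dF F x) := by
    rw [← h.exp2, ka, h.hA, mul_assoc]
    simp only [tt, Pi.smul_apply, smul_eq_mul, normSq_mul, Finset.mul_sum]
  rw [e, k]
  have := h.y0
  simp only [tt, Fin.sum_univ_three, Pi.add_apply, Pi.smul_apply, smul_eq_mul, normSq_apply]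
  simp
  field_simp
  ring

end pt

theorem fin_bound {ι β : Type} [Finite ι] [NormedAddCommGroup β] {a : ι → E → β} {z : E → ℝ}
    (h : ∀ i, a i =O[f] z) (hz : ∀ x, 0 ≤ z x) :
    ∀ᶠ C in atTop, ∀ᶠ x in f, ∀ i, ‖a i x‖ ≤ C * z x := by
  simp only [eventually_all]
  intro i
  simpa [abs_of_nonneg (hz _)] using isBigO_iff_eventually.1 (h i)

end D5

open D5 in
theorem d5_pf (hLG : StLG) : StD5 := by
  intro S d A U p F l T φ γ hp p0 _ _ hg hφ hγ hU
  have hG : Ex (𝓝[Sᶜ] p) (dF F) (fun x => (F x).im) fun x => ∑ k ∈ T, φ k x * γ k x :=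
    Ex.sum fun k hk => Ex.mul hg.aF (to2 (hφ k hk)) (hγ k hk)
  have fm := form hLG hg hG.sm hU
  simp only [← mem_compl_iff, ← eventually_nhdsWithin_iff]
  have hf : 𝓝[Sᶜ] p ≤ 𝓝 p := nhdsWithin_le_nhds
  generalize 𝓝[Sᶜ] p = f at hf hG fm
  generalize (fun x => ∑ k ∈ T, φ k x * γ k x) = G at hG fm
  have cy : ContinuousAt (fun x => (F x).im) p := continuous_im.continuousAt.comp hg.aF.continuousAt
  have ty : Tendsto (fun x => (F x).im) f (𝓝 0) := by
    rw [← hg.ev.self_of_nhds.1.1 hp]; exact cy.tendsto.mono_left hf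
  have tG : Tendsto G f (𝓝 0) := hG.o0.trans_tendsto (by simpa using ty.pow 2)
  have s0 := sm_U0 d p0
  have cl := hg.al.continuousAt
  have cv := ca_dF hg.aF
  have cv' := continuousAt_pi.1 cv
  have tn : Tendsto (fun x => ‖l x‖ * Real.exp (U0 d x - G x)) f
      (𝓝 (‖l p‖ * Real.exp (U0 d p - 0))) := (cl.norm.tendsto.mono_left hf).mul
    ((s0.continuousAt.tendsto.mono_left hf).sub tG).rexp
  have n0 : ‖l p‖ * Real.exp (U0 d p - 0) ≠ 0 :=
    (mul_pos (norm_pos_iff.2 hg.l0) (Real.exp_pos _)).ne'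
  have b1 : (fun x => Real.exp (el d U x / 2)) =O[f] fun x => (F x).im := by
    refine IsBigO.congr' ?_ (fm.mono fun x e => (e.exph d).symm) EventuallyEq.rfl
    simpa using (isBigO_refl (fun x => (F x).im) f).abs_left.mul (tn.isBigO_one ℝ)
  have b2 : (fun x => (F x).im) =O[f] fun x => Real.exp (el d U x / 2) := by
    have := (isBigO_refl (fun x => Real.exp (el d U x / 2)) f).mul ((tn.inv₀ n0).isBigO_one ℝ)
    refine IsBigO.of_abs_left (this.congr' ?_ (Eventually.of_forall fun x => mul_one _))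
    filter_upwards [fm, tn.eventually_ne n0] with x e e0
    rw [e.exph d, mul_inv_cancel_right₀ e0]
  have b3 : (fun x => (F x).im ^ 2) =O[f] fun x => Real.exp (el d U x) :=
    (b2.pow 2).congr_right fun x => by rw [← Real.exp_nat_mul]; congr 1; push_cast; ring
  have b4 : (fun x => ((F x).im)⁻¹) =O[f] fun x => Real.exp (-el d U x / 2) :=
    (b1.inv_rev (Eventually.of_forall fun x e => absurd e (Real.exp_pos _).ne')).congr_right
      fun x => by rw [← Real.exp_neg, neg_div]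
  have b5 : (fun _ => (1 : ℝ)) =O[f] fun x => ((F x).im)⁻¹ := by
    simpa using (big hf cy).inv_rev (fm.mono fun x e h => absurd h e.y0)
  have b6 : (fun x => (1 - Real.exp (2 * G x)) / (F x).im ^ 2) =O[f] fun _ => (1 : ℝ) := by
    have t2 : Tendsto (fun x => 2 * G x) f (𝓝 0) := by simpa using tG.const_mul 2
    have a1 : (fun x => 1 - Real.exp (2 * G x)) =O[f] fun x => (F x).im ^ 2 := by
      have := ((Real.hasDerivAt_exp 0).isBigO_sub.comp_tendsto t2).neg_left
      simp only [Function.comp_def, Real.exp_zero, sub_zero, neg_sub] at this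
      exact this.trans (hG.o0.const_mul_left 2)
    exact isBigO_one_iff ℝ |>.2 (div_isBoundedUnder_of_isBigO a1)
  refine ⟨?_, fun r => ?_⟩
  · have o1 : ∀ i : Fin 3 × Fin 3, (fun x => (HH U x - EE A U x) i.1 i.2) =O[f]
        fun _ => (1 : ℝ) := fun i => by
      refine ((sm1 (ofR ?_) (big hf ((cv' i.1).mul (cv' i.2).star))).add (hG.o3 i.1 i.2)).congr'
        (fm.mono fun x e => (e.e1 i.1 i.2).symm) EventuallyEq.rfl
      simpa only [div_eq_mul_inv, mul_comm _ (4 : ℝ)⁻¹] using b6.const_mul_left 4⁻¹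
    have sm2 : ∀ {β : Type} [NormedAddCommGroup β] [NormedSpace ℂ β] {c : E → ℂ} {a : E → β}
        {z : E → ℝ}, ContinuousAt c p → a =O[f] z → (fun x => c x • a x) =O[f] z := by
      intro β _ _ c a z hc ha
      refine IsBigO.of_norm_left ?_
      simpa [norm_smul] using (big hf hc).norm_left.mul ha.norm_left
    have o2 : ∀ _ : Unit, YY A U =O[f] fun x => Real.exp (el d U x) := fun _ =>
      ((sm2 (continuousAt_const.mul cl) hG.o2).trans b3).congr'
        (fm.mono fun x e => e.e2.symm) EventuallyEq.rfl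
    have o3 : ∀ k, (fun x => (fun j => HH U x j k) ⨯₃ A x) =O[f]
        fun x => Real.exp (el d U x / 2) := fun k =>
      ((sm2 cl (hG.o4 k)).trans b2).congr' (fm.mono fun x e => (e.e3 k).symm) EventuallyEq.rfl
    have o4 : ∀ _ : Unit, (fun x => DD (oo (A x)) (HH U x)) =O[f] fun x => Real.exp (el d U x) :=
      fun _ => ((sm2 (cl.mul cl.star) hG.o5).trans b3).congr'
        (fm.mono fun x e => e.e4.symm) EventuallyEq.rfl
    have o5 : ∀ _ : Unit, (fun x => tt (gr (el d U) x) - ka A U x) =O[f]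
        fun x => Real.exp (-el d U x / 2) := fun _ => by
      obtain ⟨w, hw⟩ : ∃ w : E → E, ∀ x, w x =
        (1 / l x) • dF l x + (2 : ℂ) • gr (U0 d) x - (2 : ℂ) • gr G x := ⟨_, fun _ => rfl⟩
      have ow : w =O[f] fun _ => (1 : ℝ) := by
        refine ((big hf (((continuousAt_const.div cl hg.l0).smul (ca_dF hg.al)).add
          ((ca_gr s0).const_smul (2 : ℂ)))).sub (hG.o1.const_smul_left (2 : ℂ))).congr_left
          fun x => (hw x).symm
      have ow' := isBigO_pi.1 ow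
      have ot : ∀ a : E → E, (∀ j, (fun x => a x j) =O[f] fun _ => (1 : ℝ)) →
          (fun x => tt (a x)) =O[f] fun _ => (1 : ℝ) := fun a ha =>
        IsBigO.fun_sum (A := fun j x => normSq (a x j)) fun j _ => by
          simpa only [Complex.normSq_eq_norm_sq, one_pow] using (ha j).norm_left.pow 2
      have os : (fun x => ∑ j, 2 * (dF F x j * star (w x j)).im) =O[f] fun _ => (1 : ℝ) :=
        IsBigO.fun_sum fun j _ => IsBigO.const_mul_left ((isBigO_of_le _ fun x => by
          simpa only [Real.norm_eq_abs, smul_eq_mul] using abs_im_le_norm (dF F x j * star (w x j))).trans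
          (sm2 (cv' j) (st1 (ow' j)))) 2
      have q1 := (b6.mul (ot _ fun j => big hf (cv' j))).congr_right fun _ => mul_one _
      have q2 := ((isBigO_refl (fun x => ((F x).im)⁻¹) f).mul os).congr_right fun _ => mul_one _
      refine ((((q1.trans b5).add q2).add ((ot w ow').trans b5)).trans b4).congr' ?_
        EventuallyEq.rfl
      filter_upwards [fm, (s0.eventually (by simp)).filter_mono hf] with x e e0
      exact (e.e5 d e0 _ (hw x)).symm
    have e := fun t : E → ℝ => fun x => (Real.exp_pos (t x)).le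
    obtain ⟨C, ⟨⟨⟨h1, h2⟩, h3⟩, h4⟩, h5⟩ := (((((fin_bound o1 fun _ => zero_le_one).and
      (fin_bound o2 (e _))).and (fin_bound o3 (e _))).and (fin_bound o4 (e _))).and
      (fin_bound o5 (e _))).exists
    refine ⟨C, ?_⟩
    filter_upwards [h1, h2, h3, h4, h5] with x a1 a2 a3 a4 a5
    exact ⟨fun j k => by simpa using a1 (j, k), a2 (), a3, a4 (), a5 ()⟩
  · filter_upwards [(b1.trans_tendsto ty).eventually_lt_const (Real.exp_pos (r / 2))] with x hx
    have := Real.exp_lt_exp.1 hx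
    linarith

end

end Pool.Agent.Lib.MP_4e4ac8_an.LV
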