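import Pool.Agent.Lib.MP_4e4ac8_an.LV.St

/-! Gluing the local potentials to the reference function. -/

namespace Pool.Agent.Lib.MP_4e4ac8_an.LV

open MeasureTheory Complex Matrix Filter Topology Set
open scoped ContDiff

namespace DAT

lemma tt_pos {x : E} (hx : x ≠ 0) : 0 < tt x := by
  obtain ⟨j, hj⟩ := Function.ne_iff.1 hx
  exact Finset.sum_pos' (fun i _ => normSq_nonneg _) ⟨j, Finset.mem_univ _, normSq_pos.2 hj⟩

lemma tt_smul (c : ℂ) (x : E) : tt (c • x) = ‖c‖ ^ 2 * tt x := by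
  simp only [tt, Pi.smul_apply, smul_eq_mul, map_mul, Finset.mul_sum, Complex.sq_norm]

lemma tt_smooth : ContDiff ℝ ∞ tt := by
  unfold tt
  refine ContDiff.sum fun j _ => ?_
  have h1 : ContDiff ℝ ∞ fun x : E => (x j).re := reCLM.contDiff.comp (contDiff_apply ℝ ℂ j)
  have h2 : ContDiff ℝ ∞ fun x : E => (x j).im := imCLM.contDiff.comp (contDiff_apply ℝ ℂ j)
  simp only [normSq_apply]
  exact (h1.mul h1).add (h2.mul h2)

lemma U0_smooth (d : ℕ) {x : E} (hx : x ≠ 0) : ContDiffAt ℝ ∞ (U0 d) x :=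
  contDiffAt_const.mul (tt_smooth.contDiffAt.log (tt_pos hx).ne')

lemma U0_smul (d : ℕ) {x : E} (hx : x ≠ 0) {c : ℂ} (hc : c ≠ 0) :
    U0 d (c • x) = U0 d x - ((d : ℝ) + 1) * Real.log ‖c‖ := by
  have h : ‖c‖ ≠ 0 := norm_ne_zero_iff.2 hc
  rw [U0, U0, tt_smul, Real.log_mul (pow_ne_zero _ h) (tt_pos hx).ne', Real.log_pow]
  push_cast
  ring

lemma UU_smul {F l : E → ℂ} {d : ℕ} {x : E} {c : ℂ} (hc : c ≠ 0) (hl : l x ≠ 0)
    (h1 : F (c • x) = F x) (h2 : l (c • x) = c ^ (d + 1) * l x) :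
    UU F l (c • x) = UU F l x - ((d : ℝ) + 1) * Real.log ‖c‖ := by
  have h : ‖c‖ ≠ 0 := norm_ne_zero_iff.2 hc
  rw [UU, UU, h1, h2, norm_mul, norm_pow, Real.log_mul (pow_ne_zero _ h) (norm_ne_zero_iff.2 hl),
    Real.log_pow]
  push_cast
  ring

lemma UU_smooth (hG : StLG) {S : Set E} {A : E → E} {x : E} {F l : E → ℂ} (h : Germ S A x F l)
    (hx : x ∉ S) : ContDiffAt ℝ ∞ (UU F l) x := by
  have h1 : (F x).im ≠ 0 := fun e => hx (h.ev.self_of_nhds.1.2 e)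
  exact ((hG F x h.aF).1 h1).1.neg.sub ((hG l x h.al).2 h.l0).1

end DAT

open DAT

theorem dat_pf (hG : StLG) (h1 : StD1) (h2 : StD2) (h3 : StD3) (h4 : StD4) (h5 : StD5) :
    StDAT := by
  classical
  intro S hS
  obtain ⟨d, A, hB, hg⟩ := h1 S hS
  have hc : ∀ p : E, ∃ (δ : ℝ) (F' l' : E → ℂ), p ∈ S → (0 < δ ∧ δ < 1) ∧
      ∀ x ∈ Cn p δ, Germ S A x F' l' ∧
        ∀ c : ℂ, c ≠ 0 → F' (c • x) = F' x ∧ l' (c • x) = c ^ (d + 1) * l' x := by
    intro p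
    by_cases hp : p ∈ S
    · obtain ⟨F, l, hF⟩ := hg p hp
      obtain ⟨δ, F', l', a, b, c⟩ := h2 S d A p F l hB hp hF
      exact ⟨δ, F', l', fun _ => ⟨⟨a, b⟩, c⟩⟩
    · exact ⟨0, 0, 0, fun h => absurd h hp⟩
  choose δ F' l' hc using hc
  obtain ⟨T, φ0, φ, t1, t2, t3, t4, t5, t6, t7⟩ :=
    h4 S δ hB.zero hB.cl hB.cone fun p hp => (hc p hp).1
  have op : IsOpen ({0}ᶜ : Set E) := isOpen_compl_singleton
  have key : ∀ p ∈ S, (∃ C : ℝ, ∀ᶠ x in 𝓝 p, x ∉ S → Est d A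
      (fun x => φ0 x * U0 d x + ∑ k ∈ T, φ k x * UU (F' k) (l' k) x) C x) ∧
      ∀ r : ℝ, ∀ᶠ x in 𝓝 p, x ∉ S →
        el d (fun x => φ0 x * U0 d x + ∑ k ∈ T, φ k x * UU (F' k) (l' k) x) x < r := by
    intro p hp
    have p0 : p ≠ 0 := fun e => hB.zero (e ▸ hp)
    obtain ⟨F, l, hF⟩ := hg p hp
    refine h5 S d A _ p F l (T.filter fun k => p ∈ Cn k (δ k)) φ
      (fun k x => UU (F' k) (l' k) x - UU F l x) hp p0 (hB.nz p hp) hB.hol hF
      (fun k hk => (t3 k (Finset.mem_filter.1 hk).1).contDiffAt (op.mem_nhds p0))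
      (fun k hk => h3 S A p F l _ _ hp (hB.nz p hp) hF
        ((hc k (t1 k (Finset.mem_filter.1 hk).1)).2 p (Finset.mem_filter.1 hk).2).1) ?_
    have e1 : ∀ᶠ x in 𝓝 p, ∀ k ∈ T, p ∉ Cn k (δ k) → φ k x = 0 := by
      rw [Finset.eventually_all]
      intro k hk
      by_cases h : p ∈ Cn k (δ k)
      · exact Eventually.of_forall fun x h' => absurd h h'
      · exact (t6 k hk p p0 h).mono fun x hx _ => hx
    filter_upwards [e1, t7 p hp, op.mem_nhds p0] with x x1 x2 x3 _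
    have x2' : φ0 x = 0 := x2
    have s1 : ∀ g : E → ℝ, ∑ k ∈ T.filter (fun k => p ∈ Cn k (δ k)), φ k x * g k =
        ∑ k ∈ T, φ k x * g k := fun g =>
      Finset.sum_filter_of_ne fun k hk hne => by
        by_contra h
        exact hne (by rw [x1 k hk h, zero_mul])
    have s2 := t5 x x3
    rw [x2', zero_add] at s2
    rw [s1 fun k => UU (F' k) (l' k) x - UU F l x, x2', zero_mul, zero_add]
    simp only [mul_sub, Finset.sum_sub_distrib, ← Finset.sum_mul, s2]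
    ring
  have om : ∀ x ∈ Om S, x ≠ 0 ∧ x ∉ S := fun x hx => by
    simpa [Om] using hx
  refine ⟨d, A, fun x => φ0 x * U0 d x + ∑ k ∈ T, φ k x * UU (F' k) (l' k) x,
    { toBas := hB, sm := fun x hx => ContDiffAt.contDiffWithinAt ?_, uh := fun x hx c c0 => ?_,
      loc := fun p hp => (key p hp).1, lim := fun p hp => (key p hp).2 }⟩
  · obtain ⟨x0, xS⟩ := om x hx
    refine ((t2.contDiffAt (op.mem_nhds x0)).mul (U0_smooth d x0)).add
      (ContDiffAt.sum fun k hk => ?_)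
    by_cases h : x ∈ Cn k (δ k)
    · exact ((t3 k hk).contDiffAt (op.mem_nhds x0)).mul
        (UU_smooth hG ((hc k (t1 k hk)).2 x h).1 xS)
    · refine (contDiffAt_const (c := (0 : ℝ))).congr_of_eventuallyEq ?_
      filter_upwards [t6 k hk x x0 h] with y hy
      rw [hy, Pi.zero_apply, zero_mul]
  · obtain ⟨x0, xS⟩ := om x hx
    have s1 : ∀ k ∈ T, φ k (c • x) * UU (F' k) (l' k) (c • x) =
        φ k x * UU (F' k) (l' k) x - φ k x * (((d : ℝ) + 1) * Real.log ‖c‖) := by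
      intro k hk
      rw [(t4 c x c0).2 k hk]
      by_cases h : x ∈ Cn k (δ k)
      · obtain ⟨g1, g2⟩ := (hc k (t1 k hk)).2 x h
        rw [UU_smul c0 g1.l0 (g2 c c0).1 (g2 c c0).2, mul_sub]
      · have : φ k x = 0 := (t6 k hk x x0 h).self_of_nhds
        rw [this, zero_mul, zero_mul, zero_mul, sub_zero]
    have s2 := t5 x x0
    rw [Finset.sum_congr rfl s1, Finset.sum_sub_distrib, ← Finset.sum_mul, (t4 c x c0).1,
      U0_smul d x0 c0]
    linear_combination (-(((d : ℝ) + 1) * Real.log ‖c‖)) * s2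

end Pool.Agent.Lib.MP_4e4ac8_an.LV
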