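import Pool.Agent.Lib.MP_4e4ac8_an.LV.St

/-! The energy estimate in the transition zone. -/

namespace Pool.Agent.Lib.MP_4e4ac8_an.LV

open MeasureTheory Complex Matrix Filter Topology Set
open Pool.Agent.Lib.MP_813db1_ag.HS
open scoped ContDiff

noncomputable section

namespace EN1

theorem tt_nn (x : E) : 0 ≤ tt x := Finset.sum_nonneg fun _ _ => normSq_nonneg _

theorem tt_sm : ContDiff ℝ ∞ tt := by
  unfold tt
  refine ContDiff.sum fun j _ => ?_
  simp only [normSq_apply]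
  have h1 : ContDiff ℝ ∞ fun x : E => (x j).re := reCLM.contDiff.comp (contDiff_apply ℝ ℂ j)
  have h2 : ContDiff ℝ ∞ fun x : E => (x j).im := imCLM.contDiff.comp (contDiff_apply ℝ ℂ j)
  exact (h1.mul h1).add (h2.mul h2)

theorem two_le : (2 : WithTop ℕ∞) ≤ ∞ := WithTop.coe_le_coe.2 (le_top (a := (2 : ℕ∞)))

theorem st_sm : ContDiff ℝ ∞ st := Real.smoothTransition.contDiff

theorem st_nn (s : ℝ) : 0 ≤ st s := Real.smoothTransition.nonneg s

theorem st_le (s : ℝ) : st s ≤ 1 := Real.smoothTransition.le_one s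

theorem st_zero {s : ℝ} (h : s ≤ 0) : st s = 0 := Real.smoothTransition.zero_of_nonpos h

theorem st_one {s : ℝ} (h : 1 ≤ s) : st s = 1 := Real.smoothTransition.one_of_one_le h

def aa (s : ℝ) : ℝ := st (s + 1) * st (2 - s)
def bt (x : E) : ℝ := st (2 * tt x - 1) * st (9 - tt x)
def xi (d : ℕ) (U : E → ℝ) (L : ℝ) (x : E) : ℝ := aa (el d U x - L) * bt x

theorem aa_sm : ContDiff ℝ ∞ aa :=
  (st_sm.comp (contDiff_id.add contDiff_const)).mul (st_sm.comp (contDiff_const.sub contDiff_id))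

theorem bt_sm : ContDiff ℝ ∞ bt :=
  (st_sm.comp ((contDiff_const.mul tt_sm).sub contDiff_const)).mul
    (st_sm.comp (contDiff_const.sub tt_sm))

theorem aa_mem (s : ℝ) : 0 ≤ aa s ∧ aa s ≤ 1 :=
  ⟨mul_nonneg (st_nn _) (st_nn _), mul_le_one₀ (st_le _) (st_nn _) (st_le _)⟩

theorem bt_mem (x : E) : 0 ≤ bt x ∧ bt x ≤ 1 :=
  ⟨mul_nonneg (st_nn _) (st_nn _), mul_le_one₀ (st_le _) (st_nn _) (st_le _)⟩

theorem xi_mem (d : ℕ) (U : E → ℝ) (L : ℝ) (x : E) : 0 ≤ xi d U L x ∧ xi d U L x ≤ 1 :=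
  ⟨mul_nonneg (aa_mem _).1 (bt_mem _).1, mul_le_one₀ (aa_mem _).2 (bt_mem _).1 (bt_mem _).2⟩

theorem xi_zero {d : ℕ} {U : E → ℝ} {L : ℝ} {x : E}
    (h : tt x < 1 / 2 ∨ 9 < tt x ∨ el d U x < L - 1 ∨ L + 2 < el d U x) : xi d U L x = 0 := by
  unfold xi aa bt
  rcases h with h | h | h | h
  · rw [st_zero (s := 2 * tt x - 1) (by linarith)]; ring
  · rw [st_zero (s := 9 - tt x) (by linarith)]; ring
  · rw [st_zero (s := el d U x - L + 1) (by linarith)]; ring
  · rw [st_zero (s := 2 - (el d U x - L)) (by linarith)]; ring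

theorem xi_one {S : Set E} {d : ℕ} {U : E → ℝ} {L : ℝ} {x : E} (h : x ∈ Z0 S d U L) :
    xi d U L x = 1 := by
  obtain ⟨-, h1, h2, h3, h4⟩ := h
  unfold xi aa bt
  rw [st_one (s := 2 * tt x - 1) (by linarith), st_one (s := 9 - tt x) (by linarith),
    st_one (s := el d U x - L + 1) (by linarith), st_one (s := 2 - (el d U x - L)) (by linarith)]
  ring

theorem aa_bd : ∃ M : ℝ, 0 ≤ M ∧ ∀ s ∈ Icc (-1 : ℝ) 2,
    |deriv aa s| ≤ M ∧ |deriv (deriv aa) s| ≤ M := by
  have h1 : ContDiff ℝ ∞ (deriv aa) := (contDiff_infty_iff_deriv.1 aa_sm).2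
  have h2 : ContDiff ℝ ∞ (deriv (deriv aa)) := (contDiff_infty_iff_deriv.1 h1).2
  obtain ⟨M, hM⟩ := (isCompact_Icc (a := (-1 : ℝ)) (b := 2)).exists_bound_of_continuousOn
    (h1.continuous.prodMk h2.continuous).continuousOn
  exact ⟨M, (norm_nonneg _).trans (hM 0 (by norm_num)), fun s hs =>
    ⟨(norm_fst_le (deriv aa s, deriv (deriv aa) s)).trans (hM s hs),
      (norm_snd_le (deriv aa s, deriv (deriv aa) s)).trans (hM s hs)⟩⟩

theorem bt_bd : ∃ M : ℝ, 0 ≤ M ∧ ∀ x : E, tt x ≤ 9 → ∀ i,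
    ‖dz (cx bt) i x‖ ≤ M ∧ ‖levi (cx bt) x i i‖ ≤ M := by
  have h0 : ∀ x, ContDiffAt ℝ ∞ (cx bt) x := fun x => contDiffAt_ofReal.2 bt_sm.contDiffAt
  have hc : Continuous fun (x : E) (i : Fin 3) => (dz (cx bt) i x, levi (cx bt) x i i) :=
    continuous_pi fun i => continuous_iff_continuousAt.2 fun x =>
      (contDiffAt_dz_top (h0 x) i).continuousAt.prodMk (contDiffAt_levi_top (h0 x) i i).continuousAt
  obtain ⟨M, hM⟩ := (isCompact_closedBall (0 : E) 3).exists_bound_of_continuousOn hc.continuousOn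
  refine ⟨M, (norm_nonneg _).trans (hM 0 (by simp)), fun x hx i => ?_⟩
  have hb : x ∈ Metric.closedBall (0 : E) 3 := by
    rw [mem_closedBall_zero_iff, pi_norm_le_iff_of_nonneg (by norm_num)]
    intro j
    have : normSq (x j) ≤ tt x :=
      Finset.single_le_sum (f := fun j => normSq (x j)) (fun _ _ => normSq_nonneg _)
        (Finset.mem_univ j)
    rw [normSq_eq_norm_sq] at this
    nlinarith [norm_nonneg (x j)]
  have := (norm_le_pi_norm (fun i : Fin 3 => (dz (cx bt) i x, levi (cx bt) x i i)) i).trans (hM x hb)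
  exact ⟨(norm_fst_le (dz (cx bt) i x, levi (cx bt) x i i)).trans this,
    (norm_snd_le (dz (cx bt) i x, levi (cx bt) x i i)).trans this⟩

theorem int_le {Ω Z : Set E} {f : E → ℝ} {c : ℝ} (hΩ : MeasurableSet Ω) (hZ : IsCompact Z)
    (hc : 0 ≤ c) (h1 : ∀ x ∈ Ω, x ∈ Z → f x ≤ c) (h2 : ∀ x ∈ Ω, x ∉ Z → f x ≤ 0) :
    ∫ x in Ω, f x ≤ c * volume.real Z := by
  by_cases hf : IntegrableOn f Ω
  · have hi : Integrable (Z.indicator fun _ : E => c) :=
      (integrable_indicator_iff hZ.measurableSet).2 (continuousOn_const.integrableOn_compact hZ)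
    calc ∫ x in Ω, f x ≤ ∫ x in Ω, Z.indicator (fun _ => c) x := by
          refine setIntegral_mono_on hf hi.integrableOn hΩ fun x hx => ?_
          by_cases hz : x ∈ Z
          · rw [indicator_of_mem hz]; exact h1 x hx hz
          · rw [indicator_of_notMem hz]; exact h2 x hx hz
      _ ≤ ∫ x, Z.indicator (fun _ => c) x :=
          setIntegral_le_integral hi (Eventually.of_forall fun x => indicator_nonneg (fun _ _ => hc) x)
      _ = c * volume.real Z := by
          rw [integral_indicator_const _ hZ.measurableSet, smul_eq_mul, mul_comm]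
  · rw [integral_undef hf]
    exact mul_nonneg hc measureReal_nonneg

variable {S : Set E} {d : ℕ} {A : E → E} {U : E → ℝ} {C c l0 : ℝ}

theorem zone_cpt (h : Str S d A U) {a : ℝ} (b r r' : ℝ) (ha : 0 < a) :
    IsCompact {x | x ∈ Om S ∧ a ≤ tt x ∧ tt x ≤ b ∧ r ≤ el d U x ∧ el d U x ≤ r'} := by
  have hK := h.cpt a b r ha
  have hcl := (h.esm.continuousOn.mono fun x hx => hx.1 :
    ContinuousOn (el d U) {x | x ∈ Om S ∧ a ≤ tt x ∧ tt x ≤ b ∧ r ≤ el d U x}
      ).preimage_isClosed_of_isClosed hK.isClosed (isClosed_Iic (a := r'))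
  refine hK.of_isClosed_subset ?_ fun x hx => ⟨hx.1, hx.2.1, hx.2.2.1, hx.2.2.2.1⟩
  have e : {x | x ∈ Om S ∧ a ≤ tt x ∧ tt x ≤ b ∧ r ≤ el d U x ∧ el d U x ≤ r'} =
      {x | x ∈ Om S ∧ a ≤ tt x ∧ tt x ≤ b ∧ r ≤ el d U x} ∩ el d U ⁻¹' Iic r' :=
    Set.ext fun x => ⟨fun h => ⟨⟨h.1, h.2.1, h.2.2.1, h.2.2.2.1⟩, h.2.2.2.2⟩,
      fun h => ⟨h.1.1, h.1.2.1, h.1.2.2.1, h.1.2.2.2, h.2⟩⟩
  rw [e]; exact hcl

theorem not_zn {L : ℝ} {x : E} (hx : x ∈ Om S) (hz : x ∉ Zn S d U L) :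
    tt x < 1 / 2 ∨ 9 < tt x ∨ el d U x < L - 1 ∨ L + 2 < el d U x := by
  by_contra hn
  simp only [not_or, not_lt] at hn
  exact hz ⟨hx, hn.1, hn.2.1, hn.2.2.1, hn.2.2.2⟩

theorem xi_ts (h : Str S d A U) (L : ℝ) : Ts (Om S) (xi d U L) :=
  ⟨(aa_sm.comp_contDiffOn (h.esm.sub contDiffOn_const)).mul bt_sm.contDiffOn, Zn S d U L,
    zone_cpt h 9 (L - 1) (L + 2) (by norm_num), fun _ hx => hx.1,
    fun _ hx hz => xi_zero (not_zn hx hz)⟩

theorem lap_zero (h : Str S d A U) {L : ℝ} {x : E} (hx : x ∈ Om S) (hz : x ∉ Zn S d U L) :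
    lap (xi d U L) x = 0 := by
  have hK : IsClosed (Zn S d U L) := (zone_cpt h 9 (L - 1) (L + 2) (by norm_num)).isClosed
  have e : cx (xi d U L) =ᶠ[𝓝 x] fun _ => 0 := by
    filter_upwards [h.op.mem_nhds hx, hK.isOpen_compl.mem_nhds hz] with y h1 h2
    simp only [cx, xi_zero (not_zn h1 h2), ofReal_zero]
  simp only [lap, HH, levi_congr e, levi_const, trace_zero, zero_re]

theorem lap_bd (h : Ctx S d A U C c l0) : ∃ D : ℝ, 0 ≤ D ∧ ∀ L ≤ (0 : ℝ), ∀ x ∈ Zn S d U L,
    |lap (xi d U L) x| ≤ D * Real.exp (-L) := by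
  obtain ⟨M, M0, hM⟩ := aa_bd
  obtain ⟨N, N0, hN⟩ := bt_bd
  have C0 : 0 ≤ C := zero_le_one.trans h.C1
  refine ⟨3 * ((M * C + M * (C * C) + 2 * (M * C * N) + N) * Real.exp 1), by positivity,
    fun L hL x hx => ?_⟩
  obtain ⟨hx, t1, t2, e1, e2⟩ := hx
  have hA : x ∈ Ann := ⟨by linarith, by linarith⟩
  have hu : ContDiffAt ℝ ∞ (el d U) x := h.esm.contDiffAt (h.op.mem_nhds hx)
  have hu2 : ContDiffAt ℝ 2 (el d U) x := hu.of_le two_le
  have h1 : ContDiff ℝ ∞ (deriv aa) := (contDiff_infty_iff_deriv.1 aa_sm).2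
  have d1 : ∀ t, HasDerivAt (fun s => aa (s - L)) (deriv aa (t - L)) t := fun t =>
    HasDerivAt.comp_sub_const t L (aa_sm.differentiable (by simp) _).hasDerivAt
  have d2 : ∀ t, HasDerivAt (fun s => deriv aa (s - L)) (deriv (deriv aa) (t - L)) t := fun t =>
    HasDerivAt.comp_sub_const t L (h1.differentiable (by simp) _).hasDerivAt
  have hf : ContDiffAt ℝ 2 (fun w => ((aa (el d U w - L) : ℝ) : ℂ)) x :=
    contDiffAt_ofReal.2 (((aa_sm.contDiffAt).of_le two_le).comp x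
      (hu2.sub contDiffAt_const))
  have hg : ContDiffAt ℝ 2 (cx bt) x :=
    contDiffAt_ofReal.2 (bt_sm.contDiffAt.of_le two_le)
  have e : cx (xi d U L) = fun w => ((aa (el d U w - L) : ℝ) : ℂ) * cx bt w := by
    ext w; simp only [cx, xi, ofReal_mul]
  obtain ⟨m1, m2⟩ := hM (el d U x - L) ⟨by linarith, by linarith⟩
  set X := Real.exp 1 * Real.exp (-L) with hX
  have X1 : 1 ≤ X := by rw [hX, ← Real.exp_add]; exact Real.one_le_exp (by linarith)
  have X2 : Real.exp (-el d U x) ≤ X := by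
    rw [hX, ← Real.exp_add]; exact Real.exp_le_exp.2 (by linarith)
  have X3 : Real.exp (-el d U x / 2) ≤ X := by
    rw [hX, ← Real.exp_add]; exact Real.exp_le_exp.2 (by linarith)
  have X4 : Real.exp (-el d U x / 2) * Real.exp (-el d U x / 2) ≤ X := by
    rw [← Real.exp_add, add_halves]; exact X2
  have key : ∀ i, ‖HH (xi d U L) x i i‖ ≤ (M * C + M * (C * C) + 2 * (M * C * N) + N) * X := by
    intro i
    obtain ⟨n1, n2⟩ := hN x t2 i
    have g1 : ‖dz (fun w => ((el d U w : ℝ) : ℂ)) i x‖ ≤ C * Real.exp (-el d U x / 2) :=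
      (norm_le_pi_norm (gr (el d U) x) i).trans (h.ge x hx hA)
    have g2 : ‖levi (fun w => ((el d U w : ℝ) : ℂ)) x i i‖ ≤ C * Real.exp (-el d U x) :=
      h.he x hx hA i i
    have g3 : ‖dz (fun w => ((aa (el d U w - L) : ℝ) : ℂ)) i x‖ ≤ M * (C * X) := by
      rw [dz_real_comp (Φ := fun s => aa (s - L)) (d1 _) (hu2.differentiableAt two_ne_zero),
        norm_mul, norm_real, Real.norm_eq_abs]
      exact mul_le_mul m1 (g1.trans (by gcongr)) (norm_nonneg _) M0
    have g4 : ‖levi (fun w => ((aa (el d U w - L) : ℝ) : ℂ)) x i i‖ ≤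
        M * (C * X) + M * (C * C * X) := by
      rw [levi_real_comp (Φ := fun s => aa (s - L)) (Eventually.of_forall d1) (d2 _) hu2,
        dzb_ofReal]
      refine (norm_add_le _ _).trans (add_le_add ?_ ?_)
      · rw [norm_mul, norm_real, Real.norm_eq_abs]
        exact mul_le_mul m1 (g2.trans (by gcongr)) (norm_nonneg _) M0
      · rw [norm_mul, norm_real, Real.norm_eq_abs, norm_mul, norm_star]
        refine mul_le_mul m2 ((mul_le_mul g1 g1 (norm_nonneg _) (by positivity)).trans ?_)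
          (by positivity) M0
        rw [mul_mul_mul_comm]
        gcongr
    have g5 : ‖cx bt x‖ ≤ 1 := by
      rw [cx, norm_real, Real.norm_eq_abs, abs_of_nonneg (bt_mem x).1]; exact (bt_mem x).2
    have g6 : ‖((aa (el d U x - L) : ℝ) : ℂ)‖ ≤ 1 := by
      rw [norm_real, Real.norm_eq_abs, abs_of_nonneg (aa_mem _).1]; exact (aa_mem _).2
    have g7 : dzb (cx bt) i x = star (dz (cx bt) i x) := dzb_ofReal bt i x
    rw [HH, e, levi_mul hf hg, dzb_ofReal, g7]
    refine (norm_add_le_of_le (norm_add_le_of_le (norm_add_le_of_le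
      ((norm_mul_le _ _).trans (mul_le_mul g4 g5 (norm_nonneg _) (by positivity)))
      ((norm_mul_le _ _).trans (mul_le_mul ((norm_star _).trans_le g3) n1 (norm_nonneg _)
        (by positivity))))
      ((norm_mul_le _ _).trans (mul_le_mul g3 ((norm_star _).trans_le n1) (norm_nonneg _)
        (by positivity))))
      ((norm_mul_le _ _).trans (mul_le_mul g6 n2 (norm_nonneg _) zero_le_one))).trans ?_
    nlinarith [mul_le_mul_of_nonneg_left X1 N0]
  refine (abs_re_le_norm _).trans ?_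
  rw [Matrix.trace, Fin.sum_univ_three]
  refine (norm_add_le_of_le (norm_add_le_of_le (key 0) (key 1)) (key 2)).trans (le_of_eq ?_)
  rw [hX]; ring

end EN1

open EN1 in
theorem en1_pf : StL4 → StVOL → StEN1 := by
  intro hL4 hV S d A U C c l0 h K0 C1
  obtain ⟨Cv, Lv, hv⟩ := hV S d A U C c l0 h
  obtain ⟨D, D0, hD⟩ := lap_bd h
  have C0 : 0 ≤ C := zero_le_one.trans h.C1
  set B := |C1| * Real.exp 2 + 1 with hB
  have B0 : 0 ≤ B := by positivity
  refine ⟨(B ^ 2 / 2 * D + B * (1 + C)) * Cv, min Lv 0, fun L hL γ V hγ hc => ?_⟩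
  have L0 : L ≤ 0 := hL.trans (min_le_right _ _)
  have hs : Str S d A U := h.toStr
  have hm : MeasurableSet (Om S) := hs.op.measurableSet
  have hZ : IsCompact (Zn S d U L) := zone_cpt hs 9 (L - 1) (L + 2) (by norm_num)
  have hZ0 : IsCompact (Z0 S d U L) := zone_cpt hs 8 L (L + 1) (by norm_num)
  have hts := xi_ts hs L
  have hA : ∀ x ∈ Zn S d U L, x ∈ Ann := fun x hx => ⟨by linarith [hx.2.1], by linarith [hx.2.2.1]⟩
  have hVb : ∀ x ∈ Zn S d U L, |V x| ≤ B * Real.exp (7 / 8 * L) := fun x hx => by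
    have h1 := (hc.2 x hx.1 (hA x hx) hx.2.2.2.1).2.1
    have h2 : Real.exp (7 / 8 * el d U x) ≤ Real.exp 2 * Real.exp (7 / 8 * L) := by
      rw [← Real.exp_add]; exact Real.exp_le_exp.2 (by linarith [hx.2.2.2.2])
    have h3 : C1 * Real.exp (7 / 8 * el d U x) ≤ |C1| * (Real.exp 2 * Real.exp (7 / 8 * L)) :=
      mul_le_mul (le_abs_self _) h2 (Real.exp_pos _).le (abs_nonneg _)
    rw [hB]; linarith
  have hgc : Continuous fun x => tt (gr V x) :=
    tt_sm.continuous.comp (continuous_pi fun j => continuous_iff_continuousAt.2 fun x =>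
      (contDiffAt_dz_top (contDiffAt_ofReal.2 hc.1.contDiffAt) j).continuousAt)
  have s1 : ∫ x in Z0 S d U L, tt (gr V x) ≤ ∫ x in Om S, xi d U L x * tt (gr V x) := by
    rw [← setIntegral_congr_fun (f := fun x => xi d U L x * tt (gr V x)) hZ0.measurableSet
      fun x hx => by simp only [xi_one hx, one_mul]]
    refine setIntegral_mono_set ?_
      (Eventually.of_forall fun x => mul_nonneg (xi_mem d U L x).1 (tt_nn _))
      (LE.le.eventuallyLE fun x hx => hx.1)
    refine IntegrableOn.of_forall_sdiff_eq_zero (s := Zn S d U L) ?_ hm fun x hx => ?_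
    · exact ((hts.1.continuousOn.mono fun x hx => hx.1).mul hgc.continuousOn).integrableOn_compact hZ
    · rw [xi_zero (not_zn hx.1 hx.2), zero_mul]
  have s2 : ∫ x in Om S, V x ^ 2 / 2 * lap (xi d U L) x ≤
      B ^ 2 / 2 * D * Real.exp (3 / 4 * L) * volume.real (Zn S d U L) := by
    refine int_le hm hZ (by positivity) (fun x _ hx => ?_) fun x hx hz => ?_
    · have h1 : V x ^ 2 ≤ (B * Real.exp (7 / 8 * L)) ^ 2 := by
        rw [← sq_abs]; exact pow_le_pow_left₀ (abs_nonneg _) (hVb x hx) 2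
      have h2 : Real.exp (7 / 8 * L) ^ 2 * Real.exp (-L) = Real.exp (3 / 4 * L) := by
        rw [sq, ← Real.exp_add, ← Real.exp_add]; congr 1; ring
      calc V x ^ 2 / 2 * lap (xi d U L) x ≤ V x ^ 2 / 2 * (D * Real.exp (-L)) :=
            mul_le_mul_of_nonneg_left ((le_abs_self _).trans (hD L L0 x hx)) (by positivity)
        _ ≤ (B * Real.exp (7 / 8 * L)) ^ 2 / 2 * (D * Real.exp (-L)) := by gcongr
        _ = _ := by rw [← h2]; ring
    · rw [lap_zero hs hx hz, mul_zero]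
  have s3 : ∫ x in Om S, -(xi d U L x * (V x * lap V x)) ≤
      B * (1 + C) * Real.exp (3 / 4 * L) * volume.real (Zn S d U L) := by
    refine int_le hm hZ (by positivity) (fun x _ hx => ?_) fun x hx hz => ?_
    · have h1 := (hc.2 x hx.1 (hA x hx) hx.2.2.2.1).2.2
      have h2 := h.rr x hx.1 (hA x hx)
      have h3 : γ ≤ 1 := hγ.trans (Real.exp_le_one_iff.2 (by linarith))
      have h4 : 0 ≤ ka A U x := mul_nonneg (Real.exp_pos _).le (tt_nn _)
      have h5 : 0 ≤ V x * (Real.exp (2 * V x) - 1) := by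
        rcases le_total 0 (V x) with e | e
        · exact mul_nonneg e (sub_nonneg.2 (Real.one_le_exp (by linarith)))
        · exact mul_nonneg_of_nonpos_of_nonpos e
            (sub_nonpos.2 (Real.exp_le_one_iff.2 (by linarith)))
      have h6 : |lap V x - ka A U x * (Real.exp (2 * V x) - 1) / 4| ≤ 1 + C := by
        rw [abs_le] at h1 h2 ⊢
        constructor <;> linarith [h1.1, h1.2, h2.1, h2.2]
      have h7 : |V x * (lap V x - ka A U x * (Real.exp (2 * V x) - 1) / 4)| ≤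
          B * Real.exp (3 / 4 * L) * (1 + C) := by
        rw [abs_mul]
        refine mul_le_mul ((hVb x hx).trans ?_) h6 (abs_nonneg _) (by positivity)
        exact mul_le_mul_of_nonneg_left (Real.exp_le_exp.2 (by linarith)) B0
      have h8 : -(V x * lap V x) ≤ B * Real.exp (3 / 4 * L) * (1 + C) := by
        nlinarith [neg_abs_le (V x * (lap V x - ka A U x * (Real.exp (2 * V x) - 1) / 4)),
          mul_nonneg h4 h5]
      have h9 : 0 ≤ B * Real.exp (3 / 4 * L) * (1 + C) := by positivity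
      obtain ⟨x0, x1⟩ := xi_mem d U L x
      nlinarith [mul_le_mul_of_nonneg_left h8 x0, mul_le_mul_of_nonneg_right x1 h9]
    · rw [xi_zero (not_zn hx hz), zero_mul, neg_zero]
  rw [integral_neg] at s3
  have s4 := hL4 (Om S) V (xi d U L) hs.op hc.1.contDiffOn hts
  have s5 := mul_le_mul_of_nonneg_left (hv L (hL.trans (min_le_left _ _)))
    (show 0 ≤ (B ^ 2 / 2 * D + B * (1 + C)) * Real.exp (3 / 4 * L) by positivity)
  have s6 : Real.exp (5 / 4 * L) = Real.exp (3 / 4 * L) * Real.exp (L / 2) := by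
    rw [← Real.exp_add]; congr 1; ring
  rw [s6]
  nlinarith

end

end Pool.Agent.Lib.MP_4e4ac8_an.LV
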