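import Pool.Agent.Lib.MP_4e4ac8_an.LV.St

/-! A bound for the end functional. -/

namespace Pool.Agent.Lib.MP_4e4ac8_an.LV

open MeasureTheory Complex Matrix Filter Topology Set
open Pool.Agent.Lib.MP_813db1_ag.HS
open scoped ContDiff

namespace EN2

theorem tt_sm : ContDiff ℝ ∞ tt := by
  unfold tt
  simp only [normSq_apply]
  exact ContDiff.sum fun j _ =>
    ((reCLM.contDiff.comp (contDiff_apply ℝ ℂ j)).mul
      (reCLM.contDiff.comp (contDiff_apply ℝ ℂ j))).add
    ((imCLM.contDiff.comp (contDiff_apply ℝ ℂ j)).mul (imCLM.contDiff.comp (contDiff_apply ℝ ℂ j)))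

theorem tt_nn (x : E) : 0 ≤ tt x := Finset.sum_nonneg fun _ _ => normSq_nonneg _

theorem cs (x a : E) : normSq (x ⬝ᵥ a) ≤ tt x * tt a := by
  have h1 : ‖x ⬝ᵥ a‖ ≤ ∑ j, ‖x j‖ * ‖a j‖ :=
    (norm_sum_le _ _).trans (Finset.sum_le_sum fun j _ => (norm_mul _ _).le)
  have h2 := Finset.sum_mul_sq_le_sq_mul_sq Finset.univ (fun j => ‖x j‖) fun j => ‖a j‖
  simp only [tt, normSq_eq_norm_sq]
  exact (pow_le_pow_left₀ (norm_nonneg _) h1 2).trans h2

theorem gr_ct {u : E → ℝ} {x : E} (h : ContDiffAt ℝ ∞ u x) : ContinuousAt (gr u) x :=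
  continuousAt_pi.2 fun j => (contDiffAt_dz_top (contDiffAt_ofReal.2 h) j).continuousAt

theorem lap_ct {u : E → ℝ} {x : E} (h : ContDiffAt ℝ ∞ u x) : ContinuousAt (lap u) x :=
  continuous_re.continuousAt.comp (f := fun y => (HH u y).trace)
    (ContDiffAt.sum fun j _ => contDiffAt_levi_top (contDiffAt_ofReal.2 h) j j).continuousAt

theorem lap_zero {u : E → ℝ} {x : E} (h : u =ᶠ[𝓝 x] fun _ => 0) : lap u x = 0 := by
  have : HH u x = 0 :=
    (levi_congr (g := fun _ => 0) (h.mono fun y e => by simp [cx, e])).trans (levi_const 0 x)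
  simp [lap, this]

theorem st_sm : ContDiff ℝ ∞ st := Real.smoothTransition.contDiff

theorem th_sm : ContDiff ℝ ∞ th := st_sm.comp (contDiff_id.sub contDiff_const)

theorem th1 : ContDiff ℝ ∞ (deriv th) := (contDiff_infty_iff_deriv.1 th_sm).2

theorem th2 : ContDiff ℝ ∞ (deriv (deriv th)) := (contDiff_infty_iff_deriv.1 th1).2

theorem th_zero {t : ℝ} (h : t ∉ Icc (1 : ℝ) 2) : deriv th t = 0 ∧ deriv (deriv th) t = 0 := by
  obtain ⟨c, hc⟩ : ∃ c, th =ᶠ[𝓝 t] fun _ => c := by
    rcases not_and_or.1 h with h | h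
    · exact ⟨0, (gt_mem_nhds (not_le.1 h)).mono fun s hs =>
        Real.smoothTransition.zero_of_nonpos (by linarith)⟩
    · exact ⟨1, (lt_mem_nhds (not_le.1 h)).mono fun s hs =>
        Real.smoothTransition.one_of_one_le (by linarith)⟩
  refine ⟨by simpa using hc.deriv_eq, ?_⟩
  have := hc.deriv.deriv_eq
  simpa using this

theorem bound {K : Set E} {f : E → ℝ} (hK : IsCompact K) (h : ∀ x ∈ K, ContinuousAt f x) :
    ∃ a, ∀ x ∈ K, f x ≤ a := by
  obtain ⟨a, ha⟩ := hK.exists_bound_of_continuousOn fun x hx => (h x hx).continuousWithinAt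
  exact ⟨a, fun x hx => (le_abs_self _).trans (ha x hx)⟩

theorem zone {Ω K : Set E} {f : E → ℝ} {a : ℝ} (hΩ : IsOpen Ω) (hK : IsCompact K) (h : K ⊆ Ω)
    (h0 : ∀ x ∈ Ω, x ∉ K → f x = 0) (ha : ∀ x ∈ K, |f x| ≤ a) :
    |∫ x in Ω, f x| ≤ a * volume.real K := by
  rw [setIntegral_eq_of_subset_of_forall_sdiff_eq_zero hΩ.measurableSet h fun x hx =>
    h0 x hx.1 hx.2]
  exact norm_setIntegral_le_of_norm_le_const (f := f) hK.measure_lt_top ha

theorem ex {v B : ℝ} (h : |v| ≤ B) : |Real.exp (2 * v) - 1| ≤ Real.exp (2 * B) + 1 := by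
  have h1 : Real.exp (2 * v) ≤ Real.exp (2 * B) :=
    Real.exp_le_exp.2 (by linarith [le_abs_self v])
  have := Real.exp_pos (2 * v)
  rw [abs_le]
  constructor <;> linarith

end EN2

open EN2 in
theorem en2_pf (h4 : StL4) : StEN2 := by
  intro S d A U C c l0 h K0 C1 L
  set K : Set E := {x | x ∈ Om S ∧ 1 / 2 ≤ tt x ∧ tt x ≤ 9 ∧ L - 1 ≤ el d U x} with hKd
  have hK : IsCompact K := h.cpt _ _ _ (by norm_num)
  have hKO : K ⊆ Om S := fun x hx => hx.1
  have hU : ∀ x ∈ Om S, ContDiffAt ℝ ∞ U x := fun x hx => h.sm.contDiffAt (h.op.mem_nhds hx)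
  have hl : ∀ x ∈ Om S, ContDiffAt ℝ ∞ (el d U) x := fun x hx =>
    h.esm.contDiffAt (h.op.mem_nhds hx)
  set ξ : E → ℝ := fun x => st (el d U x - L + 1) * (st (2 * tt x - 1) * st (9 - tt x)) with hξ
  have ξs : ∀ x ∈ Om S, ContDiffAt ℝ ∞ ξ x := fun x hx =>
    (st_sm.contDiffAt.comp x (((hl x hx).sub contDiffAt_const).add contDiffAt_const)).mul
      ((st_sm.comp ((contDiff_const.mul tt_sm).sub contDiff_const)).mul
        (st_sm.comp (contDiff_const.sub tt_sm))).contDiffAt
  have ξ0 : ∀ x ∈ Om S, x ∉ K → ξ x = 0 := fun x hx hk => by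
    by_contra hne
    have z : ∀ t, st t ≠ 0 → 0 < t := fun t ht =>
      not_le.1 fun e => ht (Real.smoothTransition.zero_of_nonpos e)
    have a1 := z _ (left_ne_zero_of_mul hne)
    have a2 := z _ (left_ne_zero_of_mul (right_ne_zero_of_mul hne))
    have a3 := z _ (right_ne_zero_of_mul (right_ne_zero_of_mul hne))
    exact hk ⟨hx, by linarith, by linarith, by linarith⟩
  have ξn : ∀ x, 0 ≤ ξ x := fun x => mul_nonneg (Real.smoothTransition.nonneg _)
    (mul_nonneg (Real.smoothTransition.nonneg _) (Real.smoothTransition.nonneg _))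
  have ξl : ∀ x ∈ Om S, x ∉ K → lap ξ x = 0 := fun x hx hk => lap_zero (by
    filter_upwards [h.op.mem_nhds hx, hK.isClosed.isOpen_compl.mem_nhds hk] with y h1 h2
      using ξ0 y h1 h2)
  have hT : Ts (Om S) ξ := ⟨fun x hx => (ξs x hx).contDiffWithinAt, K, hK, hKO, ξ0⟩
  set P : E → ℝ := fun x => ch d U L x * deriv (deriv th) (tt x) with hP
  set Q : E → ℝ := fun x => ch d U L x *
    (deriv (deriv th) (tt x) / tt x - 2 * deriv th (tt x) / tt x ^ 2) with hQ
  have alt : ∀ x ∈ Om S, (P x = 0 ∧ Q x = 0) ∨ (x ∈ K ∧ ξ x = 1) := fun x hx => by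
    by_cases e1 : el d U x ≤ L
    · have : ch d U L x = 0 := Real.smoothTransition.zero_of_nonpos (by linarith)
      exact Or.inl ⟨by simp [hP, this], by simp [hQ, this]⟩
    by_cases e2 : tt x ∈ Icc (1 : ℝ) 2
    · have o : ∀ t : ℝ, 1 ≤ t → st t = 1 := fun t => Real.smoothTransition.one_of_one_le
      refine Or.inr ⟨⟨hx, by linarith [e2.1], by linarith [e2.2], by linarith⟩, ?_⟩
      simp only [hξ]
      rw [o _ (by linarith), o _ (by linarith [e2.1]), o _ (by linarith [e2.2])]
      norm_num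
    · obtain ⟨a1, a2⟩ := th_zero e2
      exact Or.inl ⟨by simp [hP, a2], by simp [hQ, a1, a2]⟩
  have cc : ∀ x ∈ K, ContinuousAt (ch d U L) x := fun x hx =>
    (st_sm.contDiffAt.comp x ((hl x hx.1).sub contDiffAt_const)).continuousAt
  have ct := tt_sm.continuous
  have cP : ∀ x ∈ K, ContinuousAt P x := fun x hx =>
    (cc x hx).mul (th2.continuous.comp ct).continuousAt
  have cQ : ∀ x ∈ K, ContinuousAt Q x := fun x hx => by
    have t0 : tt x ≠ 0 := by have := hx.2.1; intro e; rw [e] at this; norm_num at this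
    exact (cc x hx).mul (((th2.continuous.comp ct).continuousAt.div ct.continuousAt t0).sub
      ((continuousAt_const.mul (th1.continuous.comp ct).continuousAt).div
        (ct.continuousAt.pow 2) (pow_ne_zero 2 t0)))
  have cL : ∀ x ∈ K, ContinuousAt (lap U) x := fun x hx => lap_ct (hU x hx.1)
  have ck : ∀ x ∈ K, ContinuousAt (ka A U) x := fun x hx =>
    (Real.continuous_exp.continuousAt.comp
      (continuousAt_const.mul (hU x hx.1).continuousAt)).mul
      (ct.comp h.hol.continuous).continuousAt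
  have cR : ∀ x ∈ K, ContinuousAt (RR A U) x := fun x hx =>
    ((ck x hx).div_const 4).sub (cL x hx)
  set B := K0 + 1 with hB
  set e := Real.exp (2 * B) + 1 with he
  obtain ⟨a1, ha1⟩ := bound (f := fun x => |P x| * (2 * B * |lap U x| + |ka A U x| * e / 4)) hK
    fun x hx => (cP x hx).abs.mul ((continuousAt_const.mul (cL x hx).abs).add
      (((ck x hx).abs.mul continuousAt_const).div_const 4))
  obtain ⟨a2, ha2⟩ := bound (f := fun x => |P x| + |Q x| * tt x) hK
    fun x hx => (cP x hx).abs.add ((cQ x hx).abs.mul ct.continuousAt)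
  obtain ⟨a3, ha3⟩ := bound (f := fun x => B ^ 2 / 2 * |lap ξ x|) hK
    fun x hx => continuousAt_const.mul (lap_ct (ξs x hx.1)).abs
  obtain ⟨a4, ha4⟩ := bound (f := fun x => ξ x * (B * (1 + |ka A U x| * e / 4 + |RR A U x|))) hK
    fun x hx => (ξs x hx.1).continuousAt.mul (continuousAt_const.mul ((continuousAt_const.add
      (((ck x hx).abs.mul continuousAt_const).div_const 4)).add (cR x hx).abs))
  refine ⟨|a1| * volume.real K + |a2| * (a3 * volume.real K + a4 * volume.real K),
    fun γ V hγ hV => ?_⟩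
  have hVK : ∀ x ∈ K, |V x| ≤ B ∧
      |lap V x - ka A U x * (Real.exp (2 * V x) - 1) / 4 - RR A U x| ≤ 1 := fun x hx => by
    obtain ⟨b1, -, b2⟩ := hV.2 x hx.1 ⟨by linarith [hx.2.1], by linarith [hx.2.2.1]⟩ hx.2.2.2
    exact ⟨by linarith, by linarith⟩
  have hk : ∀ x ∈ K, |ka A U x * (Real.exp (2 * V x) - 1) / 4| ≤ |ka A U x| * e / 4 :=
    fun x hx => by
      rw [abs_div, abs_mul, abs_of_pos (by norm_num : (0 : ℝ) < 4)]
      have := ex (hVK x hx).1
      gcongr
  have en : ∫ x in K, ξ x * tt (gr V x) ≤ a3 * volume.real K + a4 * volume.real K := by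
    rw [← setIntegral_eq_of_subset_of_forall_sdiff_eq_zero h.op.measurableSet hKO fun x hx => by
      rw [ξ0 x hx.1 hx.2, zero_mul], h4 _ V ξ h.op hV.1.contDiffOn hT]
    have b1 := zone (f := fun x => V x ^ 2 / 2 * lap ξ x) (a := a3) h.op hK hKO
      (fun x hx hk => by rw [ξl x hx hk, mul_zero]) fun x hx => by
        refine le_trans ?_ (ha3 x hx)
        have : V x ^ 2 ≤ B ^ 2 := by
          rw [← sq_abs]
          exact pow_le_pow_left₀ (abs_nonneg _) (hVK x hx).1 2
        rw [abs_mul, abs_of_nonneg (by positivity)]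
        gcongr
    have b2 := zone (f := fun x => ξ x * (V x * lap V x)) (a := a4) h.op hK hKO
      (fun x hx hk => by rw [ξ0 x hx hk, zero_mul]) fun x hx => by
        refine le_trans ?_ (ha4 x hx)
        have k1 := abs_le.1 (hVK x hx).2
        have k2 := abs_le.1 (hk x hx)
        have k3 : |lap V x| ≤ 1 + |ka A U x| * e / 4 + |RR A U x| := by
          rw [abs_le]
          constructor <;> linarith [k1.1, k1.2, k2.1, k2.2, le_abs_self (RR A U x),
            neg_abs_le (RR A U x)]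
        rw [abs_mul, abs_mul (V x), abs_of_nonneg (ξn x)]
        exact mul_le_mul_of_nonneg_left (mul_le_mul (hVK x hx).1 k3 (abs_nonneg _)
          ((abs_nonneg _).trans (hVK x hx).1)) (ξn x)
    linarith [(abs_le.1 b1).2, (abs_le.1 b2).1]
  have eb : ∀ x, bb d A U th L V x = P x * (2 * V x * lap U x - tt (gr V x) -
      ka A U x * (Real.exp (2 * V x) - 1) / 4) + Q x * normSq (x ⬝ᵥ gr V x) := fun x => by
    simp only [bb, hP, hQ]
    ring
  have ig : IntegrableOn (fun x => ξ x * tt (gr V x)) K :=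
    ContinuousOn.integrableOn_compact hK fun x hx => ((ξs x hx.1).continuousAt.mul
      (ct.continuousAt.comp (gr_ct hV.1.contDiffAt))).continuousWithinAt
  have ic : IntegrableOn (fun _ : E => |a1|) K := integrableOn_const hK.measure_lt_top.ne
  have pw : ∀ x ∈ K, ‖bb d A U th L V x‖ ≤ |a1| + |a2| * (ξ x * tt (gr V x)) := fun x hx => by
    have g0 := tt_nn (gr V x)
    rw [eb, Real.norm_eq_abs]
    rcases alt x hx.1 with k | k
    · rw [k.1, k.2, zero_mul, zero_mul, add_zero, abs_zero]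
      have := ξn x
      positivity
    · have k1 : |2 * V x * lap U x| ≤ 2 * B * |lap U x| := by
        rw [abs_mul, abs_mul, abs_two]
        have := (hVK x hx).1
        gcongr
      have k2 : |2 * V x * lap U x - tt (gr V x) - ka A U x * (Real.exp (2 * V x) - 1) / 4| ≤
          2 * B * |lap U x| + |ka A U x| * e / 4 + tt (gr V x) := by
        have k3 := abs_le.1 k1
        have k4 := abs_le.1 (hk x hx)
        rw [abs_le]
        constructor <;> linarith [k3.1, k3.2, k4.1, k4.2]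
      have k3 := mul_le_mul_of_nonneg_left k2 (abs_nonneg (P x))
      have k4 := mul_le_mul_of_nonneg_left (cs x (gr V x)) (abs_nonneg (Q x))
      have k5 := mul_le_mul_of_nonneg_right ((ha2 x hx).trans (le_abs_self a2)) g0
      have k6 := (ha1 x hx).trans (le_abs_self a1)
      refine (abs_add_le _ _).trans ?_
      rw [abs_mul, abs_mul (Q x), abs_of_nonneg (normSq_nonneg _), k.2, one_mul]
      linarith
  rw [BB, setIntegral_eq_of_subset_of_forall_sdiff_eq_zero h.op.measurableSet hKO fun x hx => by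
    rcases alt x hx.1 with k | k
    · rw [eb, k.1, k.2, zero_mul, zero_mul, add_zero]
    · exact absurd k.1 hx.2]
  refine (norm_integral_le_of_norm_le (ic.add (ig.const_mul |a2|))
    (ae_restrict_of_forall_mem hK.measurableSet pw)).trans ?_
  simp only [Pi.add_apply]
  rw [integral_add ic (ig.const_mul |a2|), integral_const_mul, setIntegral_const, smul_eq_mul,
    mul_comm]
  gcongr

end Pool.Agent.Lib.MP_4e4ac8_an.LV
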