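import Pool.Agent.Lib.MP_4e4ac8_an.LV.St

/-! The sum over the dyadic steps. -/

namespace Pool.Agent.Lib.MP_4e4ac8_an.LV

open MeasureTheory Complex Matrix Filter Topology Set
open Pool.Agent.Lib.MP_813db1_ag.HS
open scoped ContDiff

namespace END

theorem two_smul' (w : E) : (2 : ℂ) • w = (2 : ℝ) • w := by
  ext j
  simp

theorem fd2 (f : E → ℂ) (z v : E) :
    fderiv ℝ (fun w => f ((2 : ℂ) • w)) z v = 2 * fderiv ℝ f ((2 : ℂ) • z) v := by
  simp only [two_smul']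
  rw [fderiv_comp_smul]
  simp

theorem dz2 (f : E → ℂ) (k : Fin 3) (z : E) :
    dz (fun w => f ((2 : ℂ) • w)) k z = 2 * dz f k ((2 : ℂ) • z) := by
  rw [dz, dz, fd2, fd2]; ring

theorem dzb2 (f : E → ℂ) (k : Fin 3) (z : E) :
    dzb (fun w => f ((2 : ℂ) • w)) k z = 2 * dzb f k ((2 : ℂ) • z) := by
  rw [dzb, dzb, fd2, fd2]; ring

theorem cx_sm {u : E → ℝ} {x : E} (h : ContDiffAt ℝ ∞ u x) : ContDiffAt ℝ ∞ (cx u) x :=
  ofRealCLM.contDiff.contDiffAt.comp x h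

theorem sm2 : ContDiff ℝ ∞ fun w : E => (2 : ℂ) • w := contDiff_id.const_smul _

theorem lap2 {V : E → ℝ} (h : ContDiff ℝ ∞ V) (x : E) :
    lap (fun w => V ((2 : ℂ) • w)) x = 4 * lap V ((2 : ℂ) • x) := by
  have e : HH (fun w => V ((2 : ℂ) • w)) x = (4 : ℂ) • HH V ((2 : ℂ) • x) := by
    ext i j
    have e1 : dzb (cx fun w => V ((2 : ℂ) • w)) j = fun w => 2 * dzb (cx V) j ((2 : ℂ) • w) :=
      funext fun w => dzb2 (cx V) j w
    have d : DifferentiableAt ℝ (fun w => dzb (cx V) j ((2 : ℂ) • w)) x :=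
      ((contDiffAt_dzb_top (cx_sm h.contDiffAt) j).comp x sm2.contDiffAt).differentiableAt (by simp)
    rw [HH, HH, levi_apply, e1, dz_cmul _ d, dz2, Matrix.smul_apply, levi_apply, smul_eq_mul]
    ring
  rw [lap, lap, e, trace_smul, smul_eq_mul]
  simp

theorem lap_cont {u : E → ℝ} {x : E} (h : ContDiffAt ℝ ∞ u x) : ContinuousAt (lap u) x := by
  refine continuous_re.continuousAt.comp (f := fun y => (HH u y).trace) ?_
  exact tendsto_finsetSum _ fun j _ =>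
    (contDiffAt_dz_top (contDiffAt_dzb_top (cx_sm h) j) j).continuousAt

theorem tt_cont : Continuous tt :=
  continuous_finsetSum _ fun j _ => continuous_normSq.comp (continuous_apply j)

theorem tt2 (x : E) : tt ((2 : ℂ) • x) = 4 * tt x := by
  simp only [tt, Finset.mul_sum, Pi.smul_apply, smul_eq_mul, map_mul]
  refine Finset.sum_congr rfl fun j _ => ?_
  simp
  norm_num

/-- approximate solutions on `m + 1` dyadic annuli -/
def Pm (S : Set E) (d : ℕ) (A : E → E) (U : E → ℝ) (K0 C1 L γ : ℝ) (m : ℕ) (V : E → ℝ) : Prop :=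
  ContDiff ℝ ∞ V ∧ ∀ x ∈ Om S, 1 / 4 ≤ tt x → tt x ≤ 16 * 4 ^ m → L - 1 ≤ el d U x →
    |V x| ≤ K0 + γ ∧ |V x| ≤ C1 * Real.exp (7 / 8 * el d U x) + γ ∧
    4 ^ m * |lap V x - ka A U x * (Real.exp (2 * V x) - 1) / 4 - RR A U x| ≤ γ

variable {S : Set E} {d : ℕ} {A : E → E} {U V : E → ℝ} {K0 C1 L γ : ℝ} {m : ℕ}

theorem Pm.cl (h : Pm S d A U K0 C1 L γ m V) : Cl S d A U K0 C1 L γ V := by
  have p : (1 : ℝ) ≤ 4 ^ m := one_le_pow₀ (by norm_num)
  refine ⟨h.1, fun x hx ha hl => ?_⟩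
  obtain ⟨a, b, c⟩ := h.2 x hx ha.1 (by linarith [ha.2]) hl
  exact ⟨a, b, (le_mul_of_one_le_left (abs_nonneg _) p).trans c⟩

theorem Pm.step (s : Str S d A U) (h : Pm S d A U K0 C1 L γ (m + 1) V) :
    Pm S d A U K0 C1 L γ m fun x => V ((2 : ℂ) • x) := by
  refine ⟨h.1.comp sm2, fun x hx h1 h2 hl => ?_⟩
  have e1 := s.eh x hx 2 two_ne_zero
  have e2 := s.kh x hx 2 two_ne_zero
  have e3 := s.lh x hx 2 two_ne_zero
  have n2 : ‖(2 : ℂ)‖ ^ 2 = 4 := by simp; norm_num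
  rw [n2] at e2 e3
  obtain ⟨a, b, c⟩ := h.2 _ ((s.oc 2 x two_ne_zero).2 hx) (by rw [tt2]; linarith)
    (by rw [tt2, pow_succ]; linarith) (e1 ▸ hl)
  rw [e1] at b
  refine ⟨a, b, le_of_eq_of_le ?_ c⟩
  rw [lap2 h.1, RR, RR, e2, e3, pow_succ, mul_assoc, ← abs_of_pos (show (0 : ℝ) < 4 by norm_num),
    ← abs_mul, abs_of_pos (show (0 : ℝ) < 4 by norm_num)]
  congr 2
  ring

end END

open END

theorem end_pf (hB : StBAR) (hA : StAPX) (hE : StEN2) (hS : StSC) (hU : StUP) (hL : StLO)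
    (h0 : StC0) : StEND := by
  intro S d A U C c l0 h
  obtain ⟨K0, C1, φ, p1, p2, p3⟩ := hB S d A U C c l0 h
  obtain ⟨Cu, Lu, hU⟩ := hU S d A U C c l0 h K0 C1
  obtain ⟨Cl', Ll, hL⟩ := hL S d A U C c l0 h K0 C1
  have c0p := h0 d
  obtain ⟨L, l1, l2, l3, l4⟩ : ∃ L : ℝ, L ≤ Lu ∧ L ≤ Ll ∧ L ≤ 0 ∧
      (Cu + Cl') * Real.exp (L / 4) ≤ c0 d / 2 := by
    have t : Tendsto (fun L : ℝ => (Cu + Cl') * Real.exp (L / 4)) atBot (𝓝 ((Cu + Cl') * 0)) :=
      (Real.tendsto_exp_atBot.comp (tendsto_id.atBot_div_const (by norm_num))).const_mul _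
    rw [mul_zero] at t
    exact ((eventually_le_atBot Lu).and ((eventually_le_atBot Ll).and
      ((eventually_le_atBot 0).and (t.eventually (ge_mem_nhds (half_pos c0p)))))).exists
  obtain ⟨Ce, hE⟩ := hE S d A U C c l0 h K0 C1 L
  have g0 := Real.exp_pos (7 / 8 * L)
  have g1 : Real.exp (7 / 8 * L) ≤ 1 := Real.exp_le_one_iff.2 (by linarith)
  have key : ∀ (m : ℕ) V, Pm S d A U K0 C1 L (Real.exp (7 / 8 * L)) m V →
      BB S d A U th L V + m * (c0 d / 2) ≤ Ce := by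
    intro m
    induction m with
    | zero => exact fun V hV => by simpa using (abs_le.1 (hE _ V g1 hV.cl)).2
    | succ m ih =>
      intro V hV
      have a1 := ih _ (hV.step h.toStr)
      have a2 := hS S d A U C c l0 h L V hV.1
      have a3 := hU L l1 _ V g0.le le_rfl hV.cl
      have a4 := hL L l2 _ V g0.le le_rfl hV.cl
      push_cast
      linarith
  obtain ⟨N, hN⟩ := exists_nat_gt (2 * Ce / (c0 d / 2))
  rw [div_lt_iff₀ (half_pos c0p)] at hN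
  have q : (1 : ℝ) ≤ 4 ^ N := one_le_pow₀ (by norm_num)
  have kc : ContinuousOn (ka A U) (Om S) :=
    (Real.continuous_exp.comp_continuousOn (continuousOn_const.mul h.sm.continuousOn)).mul
      (tt_cont.comp h.hol.continuous).continuousOn
  have lc : ContinuousOn (lap U) (Om S) := fun x hx =>
    (lap_cont (h.sm.contDiffAt (h.op.mem_nhds hx))).continuousWithinAt
  obtain ⟨V, v1, v2⟩ := hA (Om S) _ (ka A U) (RR A U) φ K0 (Real.exp (7 / 8 * L) / 4 ^ N) h.op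
    (h.cpt (1 / 4) (16 * 4 ^ N) (L - 1) (by norm_num)) (fun x hx => hx.1) (by positivity) kc
    ((kc.div_const 4).sub lc)
    (fun x _ => mul_nonneg (Real.exp_pos _).le (Finset.sum_nonneg fun j _ => normSq_nonneg _)) p1 p2
    fun x hx => (p3 x hx).imp fun i hi => ⟨hi.1, hi.2.1, hi.2.2.1⟩
  have hP : Pm S d A U K0 C1 L (Real.exp (7 / 8 * L)) N V := by
    refine ⟨v1, fun x hx h1 h2 hl => ?_⟩
    obtain ⟨w1, w2⟩ := v2 x ⟨hx, h1, h2, hl⟩
    obtain ⟨i, -, -, i1, i2⟩ := p3 x hx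
    have := div_le_self g0.le q
    refine ⟨by linarith [w1 i], by linarith [w1 i], ?_⟩
    rwa [le_div_iff₀' (by positivity)] at w2
  linarith [key N V hP, (abs_le.1 (hE _ V g1 hP.cl)).1]

end Pool.Agent.Lib.MP_4e4ac8_an.LV
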