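import Pool.Agent.Lib.MP_4e4ac8_an.LV.W

/-! Uniform estimates on the annulus. -/

namespace Pool.Agent.Lib.MP_4e4ac8_an.LV

open Complex Matrix Filter Topology Set Asymptotics
open Pool.Agent.Lib.MP_813db1_ag.HS
open scoped ContDiff

namespace GLa

theorem unif {P : ℝ → E → Prop} (mono : ∀ C C' x, C ≤ C' → P C x → P C' x)
    (loc : ∀ p ∈ Ann, ∃ C, ∀ᶠ x in 𝓝 p, P C x) : ∀ᶠ C in atTop, ∀ x ∈ Ann, P C x := by
  refine isCompact_Ann.induction_on (p := fun s => ∀ᶠ C in atTop, ∀ x ∈ s, P C x) (by simp)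
    (fun s t hst h => h.mono fun C h x hx => h x (hst hx))
    (fun s t h g => (h.and g).mono fun C h x hx => hx.elim (h.1 x) (h.2 x)) fun p hp => ?_
  obtain ⟨C, h⟩ := loc p hp
  exact ⟨_, mem_nhdsWithin_of_mem_nhds h, (eventually_ge_atTop C).mono fun C' e x hx =>
    mono _ _ _ e hx⟩

theorem ev {f w : E → ℝ} {p : E} (hf : ContinuousAt f p) (hw : ContinuousAt w p)
    (w0 : ∀ x, 0 < w x) : ∀ᶠ C in atTop, ∀ᶠ x in 𝓝 p, f x ≤ C * w x :=
  (eventually_gt_atTop (f p / w p)).mono fun _ e =>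
    ((hf.div hw (w0 p).ne').eventually_lt_const e).mono fun x h => ((div_lt_iff₀ (w0 x)).1 h).le

variable {S : Set E} {d : ℕ} {A : E → E} {U : E → ℝ}

theorem est_mono {C C' : ℝ} {x : E} (e : C ≤ C') (h : Est d A U C x) : Est d A U C' x :=
  have m : ∀ t, C * Real.exp t ≤ C' * Real.exp t := fun t =>
    mul_le_mul_of_nonneg_right e (Real.exp_pos t).le
  ⟨h.d1.mono e, h.d2.trans (m _), fun k => (h.d3 k).trans (m _), h.d4.trans (m _), h.d5.trans (m _)⟩

theorem est_loc (hA : Differentiable ℂ A) {p : E} (hU : ContDiffAt ℝ ∞ U p)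
    (hl : ContDiffAt ℝ ∞ (el d U) p) : ∃ C, ∀ᶠ x in 𝓝 p, Est d A U C x ∧ el d U x ≤ C := by
  have a := cda_hol hA p
  have l := hl.continuousAt
  have u := hU.continuousAt
  have h1 : ∀ j k, ∀ᶠ C in atTop, ∀ᶠ x in 𝓝 p, ‖(HH U x - EE A U x) j k‖ ≤ C * 1 := fun j k =>
    ev (((cda_HH hU j k).continuousAt.sub (ContinuousAt.mul (f := fun x =>
      ((Real.exp (2 * U x) / 4 : ℝ) : ℂ)) (by fun_prop) (cda_oo a j k).continuousAt)).norm)
      continuousAt_const fun _ => one_pos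
  have h2 := ev (w := fun x => Real.exp (el d U x)) (cda_YY hA hU).continuousAt.norm (by fun_prop)
    fun _ => Real.exp_pos _
  have h3 := fun k => ev (w := fun x => Real.exp (el d U x / 2)) (cda_cross (contDiffAt_pi.2
    fun j => cda_HH hU j k) a).continuousAt.norm (by fun_prop) fun _ => Real.exp_pos _
  have h4 := ev (w := fun x => Real.exp (el d U x))
    (cda_DD (cda_oo a) (cda_HH hU)).continuousAt.norm (by fun_prop) fun _ => Real.exp_pos _
  have h5 := ev (w := fun x => Real.exp (-el d U x / 2)) ((cda_tt (cda_gr hl)).continuousAt.sub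
    (ContinuousAt.mul (f := fun x => Real.exp (2 * U x)) (by fun_prop)
      (cda_tt a).continuousAt)).abs (by fun_prop) fun _ => Real.exp_pos _
  have h6 := ev l continuousAt_const fun _ => one_pos
  obtain ⟨C, c1, c2, c3, c4, c5, c6⟩ := ((eventually_all.2 fun j => eventually_all.2 (h1 j)).and
    (h2.and ((eventually_all.2 h3).and (h4.and (h5.and h6))))).exists
  refine ⟨C, ?_⟩
  filter_upwards [eventually_all.2 fun j => eventually_all.2 (c1 j), c2, eventually_all.2 c3, c4,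
    c5, c6] with x e1 e2 e3 e4 e5 e6
  exact ⟨⟨fun j k => (e1 j k).trans_eq (mul_one _), e2, e3, e4, e5⟩, e6.trans_eq (mul_one _)⟩

theorem est (h : Dat S d A U) (s : Str S d A U) :
    ∀ᶠ C in atTop, ∀ x ∈ Ann, x ∈ Om S → Est d A U C x ∧ el d U x ≤ C := by
  refine unif (fun C C' x e g hx => ⟨est_mono e (g hx).1, (g hx).2.trans e⟩) fun p hp => ?_
  by_cases e : p ∈ S
  · obtain ⟨C, g⟩ := h.loc p e
    refine ⟨max C 0, (g.and (h.lim p e 0)).mono fun x g hx => ?_⟩
    have := (mem_Om.1 hx).2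
    exact ⟨est_mono (le_max_left _ _) (g.1 this), (g.2 this).le.trans (le_max_right _ _)⟩
  · have m := s.op.mem_nhds (mem_Om.2 ⟨Ann_ne hp, e⟩)
    obtain ⟨C, g⟩ := est_loc h.hol (h.sm.contDiffAt m) (s.esm.contDiffAt m)
    exact ⟨C, g.mono fun x g _ => g⟩

theorem low (h : Dat S d A U) (s : Str S d A U) : ∀ᶠ n in atTop, ∀ x ∈ Ann,
    (x ∈ Om S ∧ -n < el d U x) ∨ (Real.exp (-n) ≤ tt (A x) ∧
      Real.exp (-n) ≤ Real.exp (2 * U0 d x) * tt (A x)) := by
  refine unif (fun C C' x e g => g.imp (fun g => ⟨g.1, (neg_le_neg e).trans_lt g.2⟩) fun g => ?_)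
    fun p hp => ?_
  · have := Real.exp_le_exp.2 (neg_le_neg e)
    exact ⟨this.trans g.1, this.trans g.2⟩
  by_cases e : A p = 0
  · have m := s.op.mem_nhds (mem_Om.2 ⟨Ann_ne hp, fun g => h.nz p g e⟩)
    refine ⟨-(el d U p - 1), ?_⟩
    filter_upwards [m, (s.esm.contDiffAt m).continuousAt.eventually_const_lt (sub_one_lt _)]
      with x a b
    exact .inl ⟨a, by rwa [neg_neg]⟩
  · have t := (cda_tt (cda_hol h.hol p)).continuousAt
    have u := (cda_U0 d (Ann_ne hp)).continuousAt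
    have t0 := tt_pos e
    obtain ⟨n, a, b⟩ := ((Real.tendsto_exp_neg_atTop_nhds_zero.eventually_lt_const t0).and
      (Real.tendsto_exp_neg_atTop_nhds_zero.eventually_lt_const
        (mul_pos (Real.exp_pos (2 * U0 d p)) t0))).exists
    refine ⟨n, ?_⟩
    filter_upwards [t.eventually_const_lt a, (ContinuousAt.mul (f := fun x => Real.exp (2 * U0 d x))
      (by fun_prop) t).eventually_const_lt b] with x a b
    exact .inr ⟨a.le, b.le⟩

theorem bdd {F : Type} [NormedAddCommGroup F] [NormedSpace ℝ F] {f : E → F}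
    (h : ∀ x, x ≠ 0 → ContDiffAt ℝ ∞ f x) : ∀ᶠ M in atTop, ∀ x ∈ Ann, ‖f x‖ ≤ M :=
  unif (fun _ _ _ e g => g.trans e) fun p hp =>
    ⟨_, ((h p (Ann_ne hp)).continuousAt.norm.eventually_lt_const (lt_add_one _)).mono
      fun _ => le_of_lt⟩

theorem exp_U (x : E) : Real.exp (2 * U x) = Real.exp (2 * U0 d x) * Real.exp (-el d U x) := by
  rw [← Real.exp_add, el]
  congr 1
  ring

/-- the pointwise consequences -/
theorem pt {x : E} {M : ℝ} (M1 : 1 ≤ M) (x0 : x ≠ 0) (hU : ContDiffAt ℝ ∞ U x)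
    (e : Est d A U M x) (up : Real.exp (el d U x) ≤ M) (b1 : Real.exp (2 * U0 d x) ≤ M)
    (b2 : tt (A x) ≤ M) (b3 : Bd (HH (U0 d) x) M) (b4 : ‖YY A (U0 d) x‖ ≤ M)
    (b5 : ‖DD (oo (A x)) (HH (U0 d) x)‖ ≤ M) :
    |RR A U x| ≤ 12 * M ^ 2 ∧ |lap (el d U) x + ka A U x / 2| ≤ 12 * M ^ 2 ∧
      ‖A x ⨯₃ gr (el d U) x‖ ≤ 12 * M ^ 2 ∧ ka A U x ≤ 12 * M ^ 2 * Real.exp (-el d U x) ∧
      ‖gr (el d U) x‖ ≤ 12 * M ^ 2 * Real.exp (-el d U x / 2) ∧
      Bd (HH (el d U) x) (12 * M ^ 2 * Real.exp (-el d U x)) ∧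
      ‖DD (oo (A x)) (HH (el d U) x)‖ ≤ 12 * M ^ 2 ∧
      Real.exp (2 * U x) ≤ 12 * M ^ 2 * Real.exp (-el d U x) := by
  have h0 := cda_U0 d x0
  have eg : gr (el d U) x = ((-2 : ℝ) : ℂ) • (gr U x - gr (U0 d) x) :=
    (gr_cmul _ (hU.sub h0)).trans (by rw [gr_sub hU h0])
  have eH : HH (el d U) x = ((-2 : ℝ) : ℂ) • (HH U x - HH (U0 d) x) :=
    (HH_cmul _ (hU.sub h0)).trans (by rw [HH_sub hU h0])
  have eL : lap (el d U) x = -2 * (lap U x - lap (U0 d) x) :=
    (lap_cmul _ (hU.sub h0)).trans (by rw [lap_sub hU h0])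
  have M2 : M ≤ M ^ 2 := by nlinarith
  obtain ⟨w, hw⟩ : ∃ w, w = Real.exp (-el d U x / 2) := ⟨_, rfl⟩
  have w0 : 0 < w := hw ▸ Real.exp_pos _
  have w2 : Real.exp (-el d U x) = w ^ 2 := by
    rw [hw, ← Real.exp_nat_mul]
    congr 1
    push_cast
    ring
  have w1 : 1 ≤ M * w ^ 2 := by
    rw [← w2, Real.exp_neg, ← div_eq_mul_inv, one_le_div (Real.exp_pos _)]
    exact up
  have w3 : 1 ≤ M * w := by
    refine le_of_pow_le_pow_left₀ two_ne_zero (by positivity) ?_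
    nlinarith [mul_le_mul_of_nonneg_right M2 (sq_nonneg w)]
  have eu : Real.exp (2 * U x) ≤ M * w ^ 2 := by
    rw [exp_U (d := d), w2]
    gcongr
  have ku : ka A U x ≤ M ^ 2 * w ^ 2 :=
    (mul_le_mul eu b2 (tt_nonneg _) (by positivity)).trans_eq (by ring)
  have k0 : 0 ≤ ka A U x := mul_nonneg (Real.exp_pos _).le (tt_nonneg _)
  have rr : |RR A U x| ≤ 3 * M := by
    have : RR A U x = -(HH U x - EE A U x).trace.re := by
      rw [trace_sub, EE, trace_smul, trace_oo, smul_eq_mul, sub_re, ← ofReal_mul, ofReal_re, RR, ka,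
        lap]
      ring
    rw [this, abs_neg]
    exact (abs_re_le_norm _).trans e.d1.trace
  have l0 : |lap (U0 d) x| ≤ 3 * M := (abs_re_le_norm _).trans b3.trace
  have q2 := mul_le_mul_of_nonneg_left up (by linarith : 0 ≤ M)
  have n2 : ‖((-2 : ℝ) : ℂ)‖ ≤ 2 := by simp
  have MW : 0 ≤ M ^ 2 * w ^ 2 := by positivity
  rw [w2, ← hw]
  refine ⟨by linarith, ?_, ?_, by linarith, norm_le_of_tt (by positivity) ?_, ?_, ?_, ?_⟩
  · rw [eL, show -2 * (lap U x - lap (U0 d) x) + ka A U x / 2 = 2 * (RR A U x + lap (U0 d) x) by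
      rw [RR]; ring, abs_mul, abs_two]
    linarith [abs_add_le (RR A U x) (lap (U0 d) x)]
  · have : A x ⨯₃ gr (el d U) x = YY A U x - YY A (U0 d) x := by
      rw [eg, YY, YY]
      funext j
      fin_cases j <;> simp [cross_apply] <;> ring
    rw [this]
    linarith [norm_sub_le (YY A U x) (YY A (U0 d) x), e.d2]
  · have a := (abs_le.1 e.d5).2
    rw [← hw] at a
    have b := mul_le_mul_of_nonneg_left w3 (show 0 ≤ M * w by positivity)
    have c := mul_le_mul_of_nonneg_left (M1.trans M2) MW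
    nlinarith
  · have a : Bd (EE A U x) (M * w ^ 2 * M) := ((bd_oo_tt _).mono b2).smul (by
      rw [norm_real, Real.norm_of_nonneg (by positivity)]
      linarith [Real.exp_pos (2 * U x)])
    have b := (e.d1.add a).sub b3
    rw [sub_add_cancel] at b
    rw [eH]
    refine (b.smul n2).mono ?_
    nlinarith [mul_le_mul_of_nonneg_left w1 (by linarith : 0 ≤ M)]
  · rw [eH, DD_smul_right, DD_sub_right, norm_mul]
    refine (mul_le_mul n2 (norm_sub_le_of_le e.d4 b5) (norm_nonneg _) zero_le_two).trans ?_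
    linarith
  · linarith [mul_le_mul_of_nonneg_right M2 (sq_nonneg w)]

end GLa

open GLa in
theorem gl_pf : StGL := by
  intro S d A U h s
  have a := fun x (_ : x ≠ 0) => cda_hol h.hol x
  obtain ⟨C, hC⟩ := (est h s).exists
  obtain ⟨n, n0, hn⟩ := ((eventually_ge_atTop 0).and (low h s)).exists
  obtain ⟨M, M1, m1, m2, b0, b1, b2, b3, b4, b5⟩ := ((eventually_ge_atTop 1).and
    ((eventually_ge_atTop C).and ((eventually_ge_atTop (Real.exp C)).and ((bdd a).and
    ((bdd fun x e => (contDiffAt_const.mul (cda_U0 d e)).exp).and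
    ((bdd fun x e => cda_tt (a x e)).and ((eventually_all.2 fun j => eventually_all.2 fun k =>
      bdd fun x e => cda_HH (cda_U0 d e) j k).and ((bdd fun x e => cda_YY h.hol (cda_U0 d e)).and
      (bdd fun x e => cda_DD (cda_oo (a x e)) (cda_HH (cda_U0 d e))))))))))).exists
  have M2 : M ≤ 12 * M ^ 2 := by nlinarith
  have k := fun x (o : x ∈ Om S) (e : x ∈ Ann) => pt M1 (Ann_ne e)
    (h.sm.contDiffAt (s.op.mem_nhds o)) (est_mono m1 (hC x e o).1)
    ((Real.exp_le_exp.2 (hC x e o).2).trans m2) ((le_abs_self _).trans (b1 x e))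
    ((le_abs_self _).trans (b2 x e)) (fun j k => b3 j k x e) (b4 x e) (b5 x e)
  have al := fun x (e : x ∈ Ann) (g : x ∈ Om S → el d U x ≤ -n) =>
    (hn x e).resolve_left fun b => (g b.1).not_gt b.2
  refine ⟨12 * M ^ 2, Real.exp (-n), -n, Real.exp_pos _, M1.trans M2, by linarith,
    fun x o e => est_mono (m1.trans M2) (hC x e o).1, fun x o e => (k x o e).1,
    fun x o e => (k x o e).2.1, fun x o e => (k x o e).2.2.1, fun x o e => (k x o e).2.2.2.1,
    fun x o e g => ?_, fun x o e => (k x o e).2.2.2.2.1, fun x o e => (k x o e).2.2.2.2.2.1,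
    fun x o e => (k x o e).2.2.2.2.2.2.1, fun x o e => (hC x e o).2.trans (m1.trans M2),
    fun x o e => (k x o e).2.2.2.2.2.2.2, fun x e => (b0 x e).trans M2, fun x e g => (al x e g).1⟩
  rw [ka, exp_U (d := d), mul_right_comm]
  exact mul_le_mul_of_nonneg_right (al x e fun _ => g).2 (Real.exp_pos _).le

end Pool.Agent.Lib.MP_4e4ac8_an.LV
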