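import Pool.Agent.Lib.MP_4e4ac8_an.LV.St

/-! The first integration by parts identity. -/

namespace Pool.Agent.Lib.MP_4e4ac8_an.LV

open MeasureTheory Complex Matrix Filter Topology Set
open Pool.Agent.Lib.MP_813db1_ag.HS
open scoped ContDiff

namespace L1

variable {Ω K : Set E}

theorem zero_near (hΩ : IsOpen Ω) (hK : IsCompact K) {f : E → ℂ}
    (h : ∀ x ∈ Ω, x ∉ K → f x = 0) {x : E} (hx : x ∈ Ω) (hxK : x ∉ K) : f =ᶠ[𝓝 x] fun _ => 0 := by
  filter_upwards [hΩ.mem_nhds hx, hK.isClosed.isOpen_compl.mem_nhds hxK] with y h1 h2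
  exact h y h1 h2

theorem intOn (hΩ : IsOpen Ω) (hK : IsCompact K) (hKΩ : K ⊆ Ω) {f : E → ℂ}
    (hf : ∀ x ∈ Ω, ContDiffAt ℝ ∞ f x) (h : ∀ x ∈ Ω, x ∉ K → f x = 0) : IntegrableOn f Ω :=
  (ContinuousOn.integrableOn_compact hK fun x hx =>
    (hf x (hKΩ hx)).continuousAt.continuousWithinAt).of_forall_sdiff_eq_zero hΩ.measurableSet
    fun x hx => h x hx.1 hx.2

theorem int_dzb (hΩ : IsOpen Ω) (hK : IsCompact K) (hKΩ : K ⊆ Ω) {f : E → ℂ}
    (hf : ∀ x ∈ Ω, ContDiffAt ℝ ∞ f x) (h : ∀ x ∈ Ω, x ∉ K → f x = 0) (k : Fin 3) :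
    ∫ x in Ω, dzb f k x = 0 := by
  have h0 : ∀ x, x ∉ K → Ω.indicator f =ᶠ[𝓝 x] fun _ => 0 := fun x hx => by
    filter_upwards [hK.isClosed.isOpen_compl.mem_nhds hx] with y hy
    by_cases h1 : y ∈ Ω
    · rw [indicator_of_mem h1, h y h1 hy]
    · exact indicator_of_notMem h1 _
  have h1 : ∀ x ∈ Ω, Ω.indicator f =ᶠ[𝓝 x] f := fun x hx => by
    filter_upwards [hΩ.mem_nhds hx] with y hy
    exact indicator_of_mem hy _
  have h2 : ContDiff ℝ 1 (Ω.indicator f) := contDiff_iff_contDiffAt.2 fun x => by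
    by_cases hx : x ∈ Ω
    · exact ((hf x hx).of_le (by simp)).congr_of_eventuallyEq (h1 x hx)
    · exact contDiffAt_const.congr_of_eventuallyEq (h0 x fun a => hx (hKΩ a))
  have h3 : HasCompactSupport (Ω.indicator f) :=
    HasCompactSupport.intro hK fun x hx => (h0 x hx).self_of_nhds
  rw [← integral_dzb_eq_zero h2 h3 k,
    ← setIntegral_eq_integral_of_forall_compl_eq_zero (s := Ω) (f := dzb (Ω.indicator f) k)
      fun x hx => by rw [dzb_congr (h0 x fun a => hx (hKΩ a)), dzb_const]]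
  exact setIntegral_congr_fun hΩ.measurableSet fun x hx => (dzb_congr (h1 x hx) k).symm

/-- the cofactor tensor -/
noncomputable def TT (m : E → E) (j k : Fin 3) (x : E) : ℂ :=
  (if j = k then ∑ i, dzb (fun y => m y i) i x else 0) - dzb (fun y => m y k) j x

theorem TT_cd {m : E → E} {x : E} (hm : ∀ i, ContDiffAt ℝ ∞ (fun y => m y i) x) (j k : Fin 3) :
    ContDiffAt ℝ ∞ (TT m j k) x := by
  refine ContDiffAt.sub ?_ (contDiffAt_dzb_top (hm k) j)
  split_ifs
  · exact ContDiffAt.sum fun i _ => contDiffAt_dzb_top (hm i) i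
  · exact contDiffAt_const

theorem TT_div {m : E → E} {x : E} (hm : ∀ i, ContDiffAt ℝ ∞ (fun y => m y i) x) (j : Fin 3) :
    ∑ k, dzb (TT m j k) k x = 0 := by
  have d : ∀ i k, DifferentiableAt ℝ (dzb (fun y => m y i) k) x := fun i k =>
    (contDiffAt_dzb_top (hm i) k).differentiableAt (by simp)
  have h1 : ∀ k, dzb (TT m j k) k x = (if j = k then ∑ i, dzb (dzb (fun y => m y i) i) j x else 0) -
      dzb (dzb (fun y => m y k) k) j x := by
    intro k
    rw [← dzb_dzb_comm ((hm k).of_le (by norm_cast)) k j]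
    unfold TT
    split_ifs with e
    · subst e
      rw [dzb_sub (DifferentiableAt.fun_sum fun i _ => d i i) (d j j), dzb_sum _ fun i _ => d i i]
    · rw [dzb_sub (differentiableAt_const _) (d k j), dzb_const]
  simp only [h1, Finset.sum_sub_distrib, Finset.sum_ite_eq, Finset.mem_univ, if_true, sub_self]

theorem DD_TT (P : Mx) (m : E → E) (x : E) : DD P (MM m x) = ∑ k, ∑ j, P j k * TT m j k x := by
  simp only [DD, MM, TT, trace, diag, mul_apply, of_apply, Fin.sum_univ_three]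
  simp
  ring

end L1

open L1 in
theorem l1_pf : StL1 := by
  intro Ω l m Ξ hΩ hl hm ⟨hΞ, K, hK, hKΩ, h0⟩
  have cl : ∀ x ∈ Ω, ∀ i, ContDiffAt ℝ ∞ (fun y => l y i) x := fun x hx =>
    contDiffAt_pi.1 (hl.contDiffAt (hΩ.mem_nhds hx))
  have cm : ∀ x ∈ Ω, ∀ i, ContDiffAt ℝ ∞ (fun y => m y i) x := fun x hx =>
    contDiffAt_pi.1 (hm.contDiffAt (hΩ.mem_nhds hx))
  have cΞ : ∀ x ∈ Ω, ContDiffAt ℝ ∞ (cx Ξ) x := fun x hx =>
    contDiffAt_ofReal.2 (hΞ.contDiffAt (hΩ.mem_nhds hx))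
  have z0 : ∀ x ∈ Ω, x ∉ K → cx Ξ x = 0 := fun x hx hx' => by simp [cx, h0 x hx hx']
  have z1 : ∀ x ∈ Ω, x ∉ K → ∀ k, dzb (cx Ξ) k x = 0 := fun x hx hx' k => by
    rw [dzb_congr (zero_near hΩ hK z0 hx hx'), dzb_const]
  let g : Fin 3 → E → ℂ := fun k x => cx Ξ x * ∑ j, l x j * TT m j k x
  have cg0 : ∀ k, ∀ x ∈ Ω, ContDiffAt ℝ ∞ (fun x => ∑ j, l x j * TT m j k x) x := fun k x hx =>
    ContDiffAt.sum fun j _ => (cl x hx j).mul (TT_cd (cm x hx) j k)
  have cg : ∀ k, ∀ x ∈ Ω, ContDiffAt ℝ ∞ (g k) x := fun k x hx => (cΞ x hx).mul (cg0 k x hx)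
  have zg : ∀ k, ∀ x ∈ Ω, x ∉ K → g k x = 0 := fun k x hx hx' => by
    simp only [g, z0 x hx hx', zero_mul]
  let a : E → ℂ := fun x => cx Ξ x * ∑ k, ∑ j, dzb (fun y => l y j) k x * TT m j k x
  let b : E → ℂ := fun x => ∑ k, ∑ j, l x j * dzb (cx Ξ) k x * TT m j k x
  have ia : IntegrableOn a Ω := intOn hΩ hK hKΩ
    (fun x hx => (cΞ x hx).mul (ContDiffAt.sum fun k _ => ContDiffAt.sum fun j _ =>
      (contDiffAt_dzb_top (cl x hx j) k).mul (TT_cd (cm x hx) j k)))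
    fun x hx hx' => by simp only [a, z0 x hx hx', zero_mul]
  have ib : IntegrableOn b Ω := intOn hΩ hK hKΩ
    (fun x hx => ContDiffAt.sum fun k _ => ContDiffAt.sum fun j _ =>
      ((cl x hx j).mul (contDiffAt_dzb_top (cΞ x hx) k)).mul (TT_cd (cm x hx) j k))
    fun x hx hx' => by simp [b, z1 x hx hx']
  have key : ∀ x ∈ Ω, a x + b x = ∑ k, dzb (g k) k x := by
    intro x hx
    have dl : ∀ j, DifferentiableAt ℝ (fun y => l y j) x := fun j =>
      (cl x hx j).differentiableAt (by simp)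
    have dT : ∀ j k, DifferentiableAt ℝ (TT m j k) x := fun j k =>
      (TT_cd (cm x hx) j k).differentiableAt (by simp)
    have e : ∀ k, dzb (g k) k x = dzb (cx Ξ) k x * ∑ j, l x j * TT m j k x + cx Ξ x *
        ∑ j, (dzb (fun y => l y j) k x * TT m j k x + l x j * dzb (TT m j k) k x) := fun k => by
      rw [dzb_mul ((cΞ x hx).differentiableAt (by simp)) ((cg0 k x hx).differentiableAt (by simp)),
        dzb_sum _ fun j _ => (dl j).fun_mul (dT j k)]
      simp only [fun j => dzb_mul (dl j) (dT j k) k]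
    have t := TT_div (cm x hx)
    simp only [e, a, b, Fin.sum_univ_three] at t ⊢
    linear_combination (-(cx Ξ x * l x 0)) * t 0 - (cx Ξ x * l x 1) * t 1 - (cx Ξ x * l x 2) * t 2
  have tot : (∫ x in Ω, a x) + ∫ x in Ω, b x = 0 := by
    rw [← integral_add ia ib, setIntegral_congr_fun hΩ.measurableSet key, integral_finsetSum]
    · exact Finset.sum_eq_zero fun k _ => int_dzb hΩ hK hKΩ (cg k) (zg k) k
    · exact fun k _ => intOn hΩ hK hKΩ (fun x hx => contDiffAt_dzb_top (cg k x hx) k)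
        fun x hx hx' => by rw [dzb_congr (zero_near hΩ hK (zg k) hx hx'), dzb_const]
  have ea : ∀ x, (Ξ x : ℂ) * DD (MM l x) (MM m x) = a x := fun x => by
    rw [DD_TT]; rfl
  have eb : ∀ x, DD (vecMulVec (l x) (star (gr Ξ x))) (MM m x) = b x := fun x => by
    rw [DD_TT]
    refine Finset.sum_congr rfl fun k _ => Finset.sum_congr rfl fun j _ => ?_
    rw [vecMulVec_apply, show dzb (cx Ξ) k x = star (dz (cx Ξ) k x) from dzb_ofReal Ξ k x]
    rfl
  simp only [ea, eb]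
  exact eq_neg_of_add_eq_zero_left tot

end Pool.Agent.Lib.MP_4e4ac8_an.LV
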