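import Pool.Agent.Lib.MP_4e4ac8_an.LV.St
import Pool.Agent.Lib.MP_caab05_ag.GB.Osg

/-! The first integration by parts against the Higgs term. -/

namespace Pool.Agent.Lib.MP_4e4ac8_an.LV

open MeasureTheory Complex Matrix Filter Topology Set
open Pool.Agent.Lib.MP_813db1_ag.HS
open scoped ContDiff

namespace L3a

variable {Ω : Set E} {h : E → ℂ}

theorem ev0 (hΩ : IsOpen Ω) {K : Set E} (hK : IsCompact K) (h0 : ∀ x ∈ Ω, x ∉ K → h x = 0)
    {x : E} (hx : x ∈ Ω) (hx' : x ∉ K) : h =ᶠ[𝓝 x] fun _ => 0 := by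
  filter_upwards [hΩ.mem_nhds hx, hK.isClosed.isOpen_compl.mem_nhds hx'] with y a b using h0 y a b

/-- a divergence is integrable and has integral zero -/
theorem int_dz (hΩ : IsOpen Ω) (hh : Ts Ω h) (j : Fin 3) :
    IntegrableOn (dz h j) Ω ∧ ∫ x in Ω, dz h j x = 0 := by
  obtain ⟨h1, K, hK, hKΩ, h0⟩ := hh
  have e1 : ∀ x ∈ Ω, Ω.indicator h =ᶠ[𝓝 x] h := fun x hx => by
    filter_upwards [hΩ.mem_nhds hx] with y hy using indicator_of_mem hy h
  have e0 : ∀ x, x ∉ K → Ω.indicator h x = 0 := fun x hx => by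
    by_cases c : x ∈ Ω
    · rw [indicator_of_mem c, h0 x c hx]
    · exact indicator_of_notMem c h
  have e2 : ∀ x, x ∉ Ω → Ω.indicator h =ᶠ[𝓝 x] fun _ => 0 := fun x hx => by
    filter_upwards [hK.isClosed.isOpen_compl.mem_nhds fun c => hx (hKΩ c)] with y hy using e0 y hy
  have hs : ContDiff ℝ 1 (Ω.indicator h) := contDiff_iff_contDiffAt.2 fun x => by
    by_cases c : x ∈ Ω
    · exact ((h1.contDiffAt (hΩ.mem_nhds c)).of_le (by simp)).congr_of_eventuallyEq (e1 x c)
    · exact contDiffAt_const.congr_of_eventuallyEq (e2 x c)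
  have hc : HasCompactSupport (Ω.indicator h) := HasCompactSupport.intro hK e0
  have e3 : EqOn (dz (Ω.indicator h) j) (dz h j) Ω := fun x hx => dz_congr (e1 x hx) j
  refine ⟨IntegrableOn.congr_fun (Integrable.integrableOn ?_) e3 hΩ.measurableSet, ?_⟩
  · exact ((integrable_fderiv hs hc _).sub ((integrable_fderiv hs hc _).const_mul I)).div_const 2
  · rw [← setIntegral_congr_fun hΩ.measurableSet e3,
      setIntegral_eq_integral_of_forall_compl_eq_zero fun x hx =>
        (dz_congr (e2 x hx) j).trans (dz_const 0 j x), integral_dz_eq_zero hs hc]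

theorem int_sub {μ : Measure E} {D b : E → ℂ} (hD : Integrable D μ) (h0 : ∫ x, D x ∂μ = 0) :
    ∫ x, (D x - b x) ∂μ = -∫ x, b x ∂μ := by
  by_cases hb : Integrable b μ
  · rw [integral_sub hD hb, h0, zero_sub]
  · rw [integral_undef hb, integral_undef, neg_zero]
    exact fun c => hb (by simpa using hD.sub' c)

theorem p4 {e a b c : E → ℂ} {x : E} (he : DifferentiableAt ℝ e x) (ha : DifferentiableAt ℝ a x)
    (hb : DifferentiableAt ℝ b x) (hc : DifferentiableAt ℝ c x) (j : Fin 3) :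
    dz (fun y => e y * a y * b y * c y) j x = dz e j x * a x * b x * c x +
      e x * dz a j x * b x * c x + e x * a x * dz b j x * c x + e x * a x * b x * dz c j x := by
  rw [dz_mul ((he.fun_mul ha).fun_mul hb) hc, dz_mul (he.fun_mul ha) hb, dz_mul he ha]
  ring

/-- the vector field whose divergence is the sum of the two integrands -/
noncomputable def WW (A : E → E) (U Ξ : E → ℝ) (j : Fin 3) (x : E) : ℂ :=
  ∑ k, ((Real.exp (2 * U x) : ℂ) * A x k * star (A x k) * dzb (cx Ξ) j x -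
    (Real.exp (2 * U x) : ℂ) * A x k * star (A x j) * dzb (cx Ξ) k x)

end L3a

open L3a in
theorem l3a_pf : StL3a := by
  intro Ω A U Ξ hΩ hA hU ⟨h1, K, hK, hKΩ, h0⟩
  have hAc : ∀ k x, DifferentiableAt ℂ (fun y => A y k) x := fun k x =>
    differentiableAt_pi.1 (hA x) k
  have sA : ∀ k x, ContDiffAt ℝ ∞ (fun y => A y k) x := fun k x =>
    ((MP_caab05_ag.GB.osg E ℂ _ univ isOpen_univ (differentiable_pi.1 hA k).differentiableOn x
      trivial).contDiffAt (n := ∞)).restrict_scalars ℝ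
  have sB : ∀ k x, ContDiffAt ℝ ∞ (fun y => star (A y k)) x := fun k x =>
    conjCLE.contDiff.contDiffAt.comp x (sA k x)
  have sU : ∀ x ∈ Ω, ContDiffAt ℝ ∞ U x := fun x hx => hU.contDiffAt (hΩ.mem_nhds hx)
  have se : ∀ x ∈ Ω, ContDiffAt ℝ ∞ (fun y => (Real.exp (2 * U y) : ℂ)) x := fun x hx =>
    contDiffAt_ofReal.2 (contDiffAt_const.mul (sU x hx)).exp
  have sg : ∀ k, ∀ x ∈ Ω, ContDiffAt ℝ ∞ (dzb (cx Ξ) k) x := fun k x hx =>
    contDiffAt_dzb_top (contDiffAt_ofReal.2 (h1.contDiffAt (hΩ.mem_nhds hx))) k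
  have s4 : ∀ i j k, ∀ x ∈ Ω, ContDiffAt ℝ ∞ (fun y =>
      (Real.exp (2 * U y) : ℂ) * A y i * star (A y j) * dzb (cx Ξ) k y) x := fun i j k x hx =>
    (((se x hx).mul (sA i x)).mul (sB j x)).mul (sg k x hx)
  have hW : ∀ j, Ts Ω (WW A U Ξ j) := fun j => by
    refine ⟨fun x hx => (ContDiffAt.sum fun k _ =>
      (s4 k k j x hx).sub (s4 k j k x hx)).contDiffWithinAt, K, hK, hKΩ, fun x hx hx' => ?_⟩
    have z : ∀ k, dzb (cx Ξ) k x = 0 := fun k =>
      (dzb_congr (ev0 hΩ hK (fun y a b => by simp [cx, h0 y a b]) hx hx') k).trans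
        (dzb_const 0 k x)
    simp [WW, z]
  have key : ∀ x ∈ Ω, (Real.exp (2 * U x) : ℂ) * DD (oo (A x)) (HH Ξ x) =
      ∑ j, dz (WW A U Ξ j) j x -
        (Real.exp (2 * U x) : ℂ) * ((star (gr Ξ x) ⨯₃ star (A x)) ⬝ᵥ YY A U x) := by
    intro x hx
    have df : ∀ {f : E → ℂ}, ContDiffAt ℝ ∞ f x → DifferentiableAt ℝ f x := fun h =>
      h.differentiableAt (by simp)
    have de : ∀ j, dz (fun y => (Real.exp (2 * U y) : ℂ)) j x =
        (Real.exp (2 * U x) * 2 : ℝ) * gr U x j := fun j =>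
      dz_real_comp (Φ := fun t => Real.exp (2 * t))
        (by simpa using ((hasDerivAt_id (U x)).const_mul 2).exp)
        ((sU x hx).differentiableAt (by simp)) j
    have db : ∀ k j, dz (fun y => star (A y k)) j x = 0 := fun k j => by
      rw [dz_star, dzb_hol (hAc k x), star_zero]
    have dg : ∀ k j, dz (dzb (cx Ξ) k) j x = HH Ξ x j k := fun k j => rfl
    have eg : ∀ k, dzb (cx Ξ) k x = star (gr Ξ x k) := fun k => dzb_ofReal Ξ k x
    have dW : ∀ j, dz (WW A U Ξ j) j x = ∑ k,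
        (dz (fun y => (Real.exp (2 * U y) : ℂ) * A y k * star (A y k) * dzb (cx Ξ) j y) j x -
          dz (fun y => (Real.exp (2 * U y) : ℂ) * A y k * star (A y j) * dzb (cx Ξ) k y) j x) :=
      fun j => (dz_sum _ (fun k _ => df ((s4 k k j x hx).sub (s4 k j k x hx))) j).trans
        (Finset.sum_congr rfl fun k _ => dz_sub (df (s4 k k j x hx)) (df (s4 k j k x hx)) j)
    simp only [dW, p4 (df (se x hx)) (df (sA _ x)) (df (sB _ x)) (df (sg _ x hx)), de, db, dg, eg]
    generalize HH Ξ x = H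
    simp [DD, oo, YY, cu, Matrix.trace, Matrix.mul_apply, vecMulVec_apply, cross_apply,
      dotProduct, Fin.sum_univ_three]
    ring
  rw [setIntegral_congr_fun hΩ.measurableSet key]
  refine int_sub (integrable_finsetSum _ fun j _ => (int_dz hΩ (hW j) j).1) ?_
  rw [integral_finsetSum _ fun j _ => (int_dz hΩ (hW j) j).1]
  exact Finset.sum_eq_zero fun j _ => (int_dz hΩ (hW j) j).2

end Pool.Agent.Lib.MP_4e4ac8_an.LV
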