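import Pool.Agent.Lib.MP_4e4ac8_an.LV.St
import Pool.Agent.Lib.MP_caab05_ag.GB.Osg

/-! The second integration by parts and the pointwise Hodge-Riemann inequality. -/

namespace Pool.Agent.Lib.MP_4e4ac8_an.LV

open MeasureTheory Complex Matrix Filter Topology Set
open Pool.Agent.Lib.MP_813db1_ag.HS
open scoped ContDiff

noncomputable section

namespace L3b

variable {Ω : Set E} {A : E → E} {U : E → ℝ} {x : E}

theorem smA (hA : Differentiable ℂ A) (x : E) (i : Fin 3) : ContDiffAt ℝ ∞ (fun y => A y i) x :=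
  (MP_caab05_ag.GB.osg _ _ (fun y => A y i) univ isOpen_univ
    (differentiable_pi.1 hA i).differentiableOn x trivial).contDiffAt.restrict_scalars ℝ

theorem intg {F : Type} [NormedAddCommGroup F] {f : E → F} {K : Set E} (hΩ : IsOpen Ω)
    (hf : ∀ x ∈ Ω, ContinuousAt f x) (hK : IsCompact K) (hs : K ⊆ Ω)
    (h0 : ∀ x ∈ Ω, x ∉ K → f x = 0) : IntegrableOn f Ω :=
  (ContinuousOn.integrableOn_compact hK fun y hy => (hf y (hs hy)).continuousWithinAt
    ).of_forall_sdiff_eq_zero hΩ.measurableSet fun y hy => h0 y hy.1 hy.2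

theorem ibp {f : E → ℂ} {K : Set E} (hΩ : IsOpen Ω) (hf : ∀ x ∈ Ω, ContDiffAt ℝ ∞ f x)
    (hK : IsCompact K) (hs : K ⊆ Ω) (h0 : ∀ x ∈ Ω, x ∉ K → f x = 0) (k : Fin 3) :
    IntegrableOn (dzb f k) Ω ∧ ∫ x in Ω, dzb f k x = 0 := by
  have e1 : ∀ y ∈ Ω, Ω.indicator f =ᶠ[𝓝 y] f := fun y hy =>
    mem_of_superset (hΩ.mem_nhds hy) fun z hz => indicator_of_mem hz f
  have e2 : ∀ y, y ∉ K → Ω.indicator f =ᶠ[𝓝 y] fun _ => 0 := fun y hy =>
    mem_of_superset (hK.isClosed.isOpen_compl.mem_nhds hy) fun z hz =>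
      indicator_apply_eq_zero.2 fun hz' => h0 z hz' hz
  have sm : ContDiff ℝ 1 (Ω.indicator f) := contDiff_iff_contDiffAt.2 fun y => by
    by_cases hy : y ∈ Ω
    · exact ((hf y hy).of_le (by norm_cast)).congr_of_eventuallyEq (e1 y hy)
    · exact contDiffAt_const.congr_of_eventuallyEq (e2 y fun h => hy (hs h))
  refine ⟨intg hΩ (fun y hy => (contDiffAt_dzb_top (hf y hy) k).continuousAt) hK hs
    fun y hy hy' => by rw [← dzb_congr (e1 y hy), dzb_congr (e2 y hy'), dzb_const], ?_⟩
  rw [← setIntegral_congr_fun hΩ.measurableSet fun y hy => dzb_congr (e1 y hy) k,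
    setIntegral_eq_integral_of_forall_compl_eq_zero fun y hy => by
      rw [dzb_congr (e2 y fun h => hy (hs h)), dzb_const]]
  exact integral_dzb_eq_zero sm (HasCompactSupport.intro hK fun y hy => (e2 y hy).self_of_nhds) k

theorem sm_cross {P Q : E → E} (hP : ∀ i, ContDiffAt ℝ ∞ (fun y => P y i) x)
    (hQ : ∀ i, ContDiffAt ℝ ∞ (fun y => Q y i) x) (i : Fin 3) :
    ContDiffAt ℝ ∞ (fun y => (P y ⨯₃ Q y) i) x := by
  fin_cases i <;> simp only [cross_apply] <;>
    exact ((hP _).mul (hQ _)).sub ((hP _).mul (hQ _))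

theorem dzb_cross {P Q : E → E} (hP : ∀ i, ContDiffAt ℝ ∞ (fun y => P y i) x)
    (hQ : ∀ i, ContDiffAt ℝ ∞ (fun y => Q y i) x) (i k : Fin 3) :
    dzb (fun y => (P y ⨯₃ Q y) i) k x = ((fun j => dzb (fun y => P y j) k x) ⨯₃ Q x) i +
      (P x ⨯₃ fun j => dzb (fun y => Q y j) k x) i := by
  have p := fun i => (hP i).differentiableAt (by simp)
  have q := fun i => (hQ i).differentiableAt (by simp)
  have key : ∀ a b : Fin 3, dzb (fun y => P y a * Q y b - P y b * Q y a) k x =
      (dzb (fun y => P y a) k x * Q x b - dzb (fun y => P y b) k x * Q x a) +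
      (P x a * dzb (fun y => Q y b) k x - P x b * dzb (fun y => Q y a) k x) := fun a b => by
    rw [dzb_sub ((p a).fun_mul (q b)) ((p b).fun_mul (q a)), dzb_mul (p a) (q b),
      dzb_mul (p b) (q a)]
    ring
  fin_cases i <;> simp only [cross_apply] <;> exact key _ _

theorem sm_cu (hA : Differentiable ℂ A) (i : Fin 3) : ContDiffAt ℝ ∞ (fun y => cu A y i) x := by
  fin_cases i <;>
    exact (contDiffAt_dz_top (smA hA x _) _).sub (contDiffAt_dz_top (smA hA x _) _)

theorem dzb_cu (hA : Differentiable ℂ A) (i k : Fin 3) : dzb (fun y => cu A y i) k x = 0 := by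
  have h : ∀ a b, dzb (dz (fun y => A y a) b) k x = 0 := fun a b => by
    rw [← dz_dzb_comm ((smA hA x a).of_le (by norm_cast)), ← levi_apply,
      levi_hol (Eventually.of_forall (differentiable_pi.1 hA a))]
    rfl
  have key : ∀ a b, dzb (fun y => dz (fun y => A y a) b y - dz (fun y => A y b) a y) k x = 0 :=
    fun a b => by
      rw [dzb_sub ((contDiffAt_dz_top (smA hA x a) b).differentiableAt (by simp))
        ((contDiffAt_dz_top (smA hA x b) a).differentiableAt (by simp)), h, h, sub_zero]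
  fin_cases i <;> exact key _ _

theorem sm_gr (hU : ContDiffAt ℝ ∞ U x) (i : Fin 3) : ContDiffAt ℝ ∞ (fun y => gr U y i) x :=
  contDiffAt_dz_top (contDiffAt_ofReal.2 hU) i

theorem sm_Y (hA : Differentiable ℂ A) (hU : ContDiffAt ℝ ∞ U x) (i : Fin 3) :
    ContDiffAt ℝ ∞ (fun y => YY A U y i) x :=
  (sm_cu hA i).add (contDiffAt_const.mul (sm_cross (sm_gr hU) (smA hA x) i))

theorem dzb_Y (hA : Differentiable ℂ A) (hU : ContDiffAt ℝ ∞ U x) (i k : Fin 3) :
    dzb (fun y => YY A U y i) k x = 2 * ((fun j => HH U x j k) ⨯₃ A x) i := by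
  have d := (sm_cross (sm_gr hU) (smA hA x) i).differentiableAt (by simp)
  have e : (fun j => dzb (fun y => gr U y j) k x) = fun j => HH U x j k := funext fun j =>
    (dz_dzb_comm ((contDiffAt_ofReal.2 hU).of_le (by norm_cast)) j k).symm
  have e' : (fun j => dzb (fun y => A y j) k x) = 0 := funext fun j =>
    dzb_hol (differentiable_pi.1 hA j x) k
  refine (dzb_add ((sm_cu hA i).differentiableAt (by simp)) (d.const_mul 2) k).trans ?_
  rw [dzb_cu hA, zero_add, dzb_cmul _ d, dzb_cross (sm_gr hU) (smA hA x), e, e', map_zero]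
  simp

/-- the vector field which is integrated by parts -/
def W (A : E → E) (U : E → ℝ) (k : Fin 3) (y : E) : ℂ :=
  (Real.exp (2 * U y) : ℂ) * (star (A y) ⨯₃ YY A U y) k

theorem sm_st (hA : Differentiable ℂ A) (i : Fin 3) :
    ContDiffAt ℝ ∞ (fun y => star (A y) i) x := conjCLE.contDiff.contDiffAt.comp x (smA hA x i)

theorem sm_e (hU : ContDiffAt ℝ ∞ U x) :
    ContDiffAt ℝ ∞ (fun y => (Real.exp (2 * U y) : ℂ)) x :=
  contDiffAt_ofReal.2 (contDiffAt_const.mul hU).exp

theorem sm_W (hA : Differentiable ℂ A) (hU : ContDiffAt ℝ ∞ U x) (k : Fin 3) :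
    ContDiffAt ℝ ∞ (W A U k) x := (sm_e hU).mul (sm_cross (sm_st hA) (sm_Y hA hU) k)

theorem tt_c (a : E) : (tt a : ℂ) = ∑ j, a j * star (a j) := by
  simp [tt, mul_conj]

theorem div_W (hA : Differentiable ℂ A) (hU : ContDiffAt ℝ ∞ U x) :
    ∑ k, dzb (W A U k) k x = (Real.exp (2 * U x) : ℂ) *
      (tt (YY A U x) + 2 * DD (oo (A x)) (HH U x)) := by
  have de : ∀ k, dzb (fun y => (Real.exp (2 * U y) : ℂ)) k x =
      (Real.exp (2 * U x) : ℂ) * 2 * star (gr U x k) := fun k => by
    have h : HasDerivAt (fun t : ℝ => Real.exp (2 * t)) (Real.exp (2 * U x) * 2) (U x) := by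
      simpa using ((hasDerivAt_id (U x)).const_mul 2).exp
    rw [dzb_real_comp h (hU.differentiableAt (by simp)), dzb_ofReal]
    push_cast; rfl
  have ds : ∀ k, (fun j => dzb (fun y => star (A y) j) k x) =
      fun j => star (dz (fun y => A y j) k x) := fun k => funext fun j => dzb_star _ k x
  have h : ∀ k, dzb (W A U k) k x =
      (Real.exp (2 * U x) : ℂ) * 2 * star (gr U x k) * (star (A x) ⨯₃ YY A U x) k +
      (Real.exp (2 * U x) : ℂ) * (((fun j => star (dz (fun y => A y j) k x)) ⨯₃ YY A U x) k +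
        (star (A x) ⨯₃ fun j => 2 * ((fun j => HH U x j k) ⨯₃ A x) j) k) := fun k => by
    refine (dzb_mul ((sm_e hU).differentiableAt (by simp))
      ((sm_cross (sm_st hA) (sm_Y hA hU) k).differentiableAt (by simp)) k).trans ?_
    rw [de, dzb_cross (sm_st hA) (sm_Y hA hU), ds, funext fun j => dzb_Y hA hU j k]
  have hs : ∀ j, star (YY A U x j) =
      star (cu A x j) + 2 * (star (gr U x) ⨯₃ star (A x)) j := fun j => by
    fin_cases j <;> simp [YY, cross_apply]
  simp only [h, tt_c, hs]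
  generalize YY A U x = Y
  simp [Fin.sum_univ_three, cross_apply, DD, oo, trace, mul_apply, vecMulVec_apply, cu]
  ring

theorem hodge {H : Mx} (hH : H.IsHermitian) (a : E) (e : ℝ) :
    (DD H H).re ≤ ((e : ℂ) * (2 * DD (oo a) H)).re / 4 + (H.trace.re - e * tt a / 4) ^ 2 := by
  set Q : Mx := H - ((e / 4 : ℝ) : ℂ) • oo a with hQ
  have h1 : DD H H = (e : ℂ) * (2 * DD (oo a) H) / 4 + DD Q Q := by
    simp [hQ, Fin.sum_univ_three, DD, oo, trace, mul_apply, vecMulVec_apply]
    ring
  have h2 : ∀ j k, Q k j = star (Q j k) := fun j k => by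
    simp [hQ, oo, vecMulVec_apply, ← hH.apply k j, mul_comm]
  have h3 : 0 ≤ ((Q * Q).trace).re := by
    simp only [trace, diag, mul_apply, re_sum]
    refine Finset.sum_nonneg fun j _ => Finset.sum_nonneg fun k _ => ?_
    rw [h2 j k, RCLike.star_def, mul_conj, ofReal_re]
    exact normSq_nonneg _
  have h4 : Q.trace.re = H.trace.re - e * tt a / 4 := by
    have : (oo a).trace = tt a := by simp [tt_c, oo, trace, vecMulVec_apply]
    rw [hQ, trace_sub, trace_smul, this, smul_eq_mul, ← ofReal_mul, sub_re, ofReal_re]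
    ring
  have h5 : (DD Q Q).re ≤ Q.trace.re ^ 2 := by
    rw [DD, sub_re, mul_re]
    nlinarith [mul_self_nonneg Q.trace.im]
  rw [h1, add_re, div_ofNat_re, ← h4]
  linarith

end L3b

open L3b in
theorem l3b_pf (h3 : StL3a) : StL3b := by
  intro Ω A U Ξ hΩ hA hU hΞ h0
  rw [h3 Ω A U Ξ hΩ hA hU hΞ]
  obtain ⟨sΞ, K, hK, hs, hz⟩ := hΞ
  have sU := fun x hx => hU.contDiffAt (hΩ.mem_nhds (x := x) hx)
  have sX := fun x hx => sΞ.contDiffAt (hΩ.mem_nhds (x := x) hx)
  have sC : ∀ x ∈ Ω, ContDiffAt ℝ ∞ (cx Ξ) x := fun x hx => contDiffAt_ofReal.2 (sX x hx)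
  have hi := fun k => ibp (f := fun y => cx Ξ y * W A U k y) hΩ
    (fun x hx => (sC x hx).mul (sm_W hA (sU x hx) k)) hK hs
    (fun x hx hx' => by simp [cx, hz x hx hx']) k
  have iQ : IntegrableOn (fun x => (Ξ x : ℂ) * ∑ k, dzb (W A U k) k x) Ω :=
    intg hΩ (fun x hx => ((sC x hx).mul (ContDiffAt.sum fun k _ =>
      contDiffAt_dzb_top (sm_W hA (sU x hx) k) k)).continuousAt) hK hs
      fun x hx hx' => by simp [hz x hx hx']
  have e1 : ∫ x in Ω, (Real.exp (2 * U x) : ℂ) *
      ((star (gr Ξ x) ⨯₃ star (A x)) ⬝ᵥ YY A U x) =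
      -∫ x in Ω, (Ξ x : ℂ) * ∑ k, dzb (W A U k) k x := by
    have := integral_finsetSum (μ := volume.restrict Ω) Finset.univ fun k _ => (hi k).1
    rw [Finset.sum_eq_zero fun k _ => (hi k).2] at this
    rw [← zero_sub, ← this, ← integral_sub (integrable_finsetSum _ fun k _ => (hi k).1) iQ]
    refine setIntegral_congr_fun hΩ.measurableSet fun x hx => ?_
    have : ∀ k, dzb (fun y => cx Ξ y * W A U k y) k x =
        star (gr Ξ x k) * W A U k x + Ξ x * dzb (W A U k) k x := fun k => by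
      rw [dzb_mul ((sC x hx).differentiableAt (by simp))
        ((sm_W hA (sU x hx) k).differentiableAt (by simp))]
      exact congrArg (· * _ + _) (dzb_ofReal Ξ k x)
    simp only [this]
    simp [W, Fin.sum_univ_three, cross_apply, dotProduct]
    ring
  have cH : ∀ x ∈ Ω, ContinuousAt (HH U) x := fun x hx =>
    continuousAt_pi.2 fun j => continuousAt_pi.2 fun k =>
      (contDiffAt_levi_top (contDiffAt_ofReal.2 (sU x hx)) j k).continuousAt
  have c1 : Continuous fun P : Mx => DD P P :=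
    (continuous_id.matrix_trace.mul continuous_id.matrix_trace).sub
      (continuous_id.matrix_mul continuous_id).matrix_trace
  have c2 : Continuous fun P : Mx => P.trace.re := continuous_re.comp continuous_id.matrix_trace
  have c3 : Continuous tt := by unfold tt; fun_prop
  have iD : IntegrableOn (fun x => (Ξ x : ℂ) * DD (HH U x) (HH U x)) Ω :=
    intg hΩ (fun x hx => (sC x hx).continuousAt.mul (c1.continuousAt.comp (cH x hx))) hK hs
      fun x hx hx' => by simp [hz x hx hx']
  have iR : IntegrableOn (fun x => Ξ x * (lap U x - Real.exp (2 * U x) * tt (A x) / 4) ^ 2) Ω :=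
    intg hΩ (fun x hx => (sX x hx).continuousAt.mul (((c2.continuousAt.comp (cH x hx)).sub
      (((contDiffAt_const.mul (sU x hx)).exp.continuousAt.mul
        (c3.comp hA.continuous).continuousAt).div_const 4)).pow 2)) hK hs
      fun x hx hx' => by simp [hz x hx hx']
  rw [e1, neg_neg, ← reCLM_apply, ← reCLM_apply, ← reCLM.integral_comp_comm iD,
    ← reCLM.integral_comp_comm iQ, ← integral_div,
    ← integral_add ((reCLM.integrable_comp iQ).div_const 4) iR]
  refine setIntegral_mono_on (reCLM.integrable_comp iD)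
    (((reCLM.integrable_comp iQ).div_const 4).add iR) hΩ.measurableSet fun x hx => ?_
  have h := hodge (H := HH U x) (levi_herm_ofReal ((contDiffAt_ofReal.2 (sU x hx)).of_le (by norm_cast))) (A x)
    (Real.exp (2 * U x))
  have t0 : 0 ≤ tt (YY A U x) := Finset.sum_nonneg fun _ _ => normSq_nonneg _
  have t1 := mul_nonneg (h0 x hx) (mul_nonneg (Real.exp_pos (2 * U x)).le t0)
  have t2 := mul_le_mul_of_nonneg_left h (h0 x hx)
  simp only [reCLM_apply, div_W hA (sU x hx), mul_add, re_ofReal_mul, add_re, ofReal_re] at t2 ⊢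
  exact t2.trans (add_le_add (by linarith) le_rfl)

end

end Pool.Agent.Lib.MP_4e4ac8_an.LV
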