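import Pool.Agent.Lib.MP_4e4ac8_an.LV.St

/-! The energy identity. -/

namespace Pool.Agent.Lib.MP_4e4ac8_an.LV

open MeasureTheory Complex Matrix Filter Topology Set
open Pool.Agent.Lib.MP_813db1_ag.HS
open scoped ContDiff

namespace L4

variable {Ω K : Set E} {f g : E → ℂ}

/-- smooth on `Ω` and zero off `K` -/
structure T (Ω K : Set E) (f : E → ℂ) : Prop where
  op : IsOpen Ω
  cp : IsCompact K
  sub : K ⊆ Ω
  sm : ∀ x ∈ Ω, ContDiffAt ℝ ∞ f x
  zero : ∀ x ∈ Ω, x ∉ K → f x = 0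

theorem T.ev (h : T Ω K f) {x : E} (hx : x ∈ Ω) (hK : x ∉ K) : f =ᶠ[𝓝 x] fun _ => 0 := by
  filter_upwards [h.op.mem_nhds hx, h.cp.isClosed.isOpen_compl.mem_nhds hK] with y h1 h2
    using h.zero y h1 h2

theorem T.dz (h : T Ω K f) (k : Fin 3) : T Ω K (dz f k) :=
  ⟨h.op, h.cp, h.sub, fun x hx => contDiffAt_dz_top (h.sm x hx) k,
    fun x hx hK => (dz_congr (h.ev hx hK) k).trans (dz_const 0 k x)⟩

theorem T.dzb (h : T Ω K f) (k : Fin 3) : T Ω K (dzb f k) :=
  ⟨h.op, h.cp, h.sub, fun x hx => contDiffAt_dzb_top (h.sm x hx) k,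
    fun x hx hK => (dzb_congr (h.ev hx hK) k).trans (dzb_const 0 k x)⟩

theorem T.mul (h : T Ω K f) (hg : ∀ x ∈ Ω, ContDiffAt ℝ ∞ g x) : T Ω K fun x => f x * g x :=
  ⟨h.op, h.cp, h.sub, fun x hx => (h.sm x hx).mul (hg x hx),
    fun x hx hK => by rw [h.zero x hx hK, zero_mul]⟩

theorem T.sum {F : Fin 3 → E → ℂ} (h : ∀ j, T Ω K (F j)) : T Ω K fun x => ∑ j, F j x :=
  ⟨(h 0).op, (h 0).cp, (h 0).sub, fun x hx => ContDiffAt.sum fun j _ => (h j).sm x hx,
    fun x hx hK => Finset.sum_eq_zero fun j _ => (h j).zero x hx hK⟩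

theorem T.int (h : T Ω K f) : IntegrableOn f Ω :=
  (ContinuousOn.integrableOn_compact h.cp fun x hx =>
    (h.sm x (h.sub hx)).continuousAt.continuousWithinAt).of_forall_sdiff_eq_zero
    h.op.measurableSet fun x hx => h.zero x hx.1 hx.2

theorem T.ext (h : T Ω K f) : ∃ F : E → ℂ, ContDiff ℝ 1 F ∧ HasCompactSupport F ∧
    (∀ x ∈ Ω, f =ᶠ[𝓝 x] F) ∧ ∀ x ∉ Ω, F =ᶠ[𝓝 x] fun _ => 0 := by
  have e1 : ∀ x ∈ Ω, f =ᶠ[𝓝 x] Ω.indicator f := fun x hx => by
    filter_upwards [h.op.mem_nhds hx] with y hy using (indicator_of_mem hy f).symm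
  have z : ∀ y ∉ K, Ω.indicator f y = 0 := fun y hy => by
    by_cases k : y ∈ Ω
    · rw [indicator_of_mem k, h.zero y k hy]
    · exact indicator_of_notMem k f
  have e2 : ∀ x ∉ Ω, Ω.indicator f =ᶠ[𝓝 x] fun _ => 0 := fun x hx => by
    filter_upwards [h.cp.isClosed.isOpen_compl.mem_nhds fun k => hx (h.sub k)] with y hy
      using z y hy
  refine ⟨_, contDiff_iff_contDiffAt.2 fun x => ?_, HasCompactSupport.intro h.cp z, e1, e2⟩
  by_cases k : x ∈ Ω
  · exact ((h.sm x k).of_le (by simp)).congr_of_eventuallyEq (e1 x k).symm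
  · exact contDiffAt_const.congr_of_eventuallyEq (e2 x k)

theorem T.idz (h : T Ω K f) (k : Fin 3) : ∫ x in Ω, MP_813db1_ag.HS.dz f k x = 0 := by
  obtain ⟨F, h1, h2, h3, h4⟩ := h.ext
  rw [setIntegral_congr_fun h.op.measurableSet fun x hx => dz_congr (h3 x hx) k,
    setIntegral_eq_integral_of_forall_compl_eq_zero fun x hx =>
      (dz_congr (h4 x hx) k).trans (dz_const 0 k x), integral_dz_eq_zero h1 h2]

theorem T.idzb (h : T Ω K f) (k : Fin 3) : ∫ x in Ω, MP_813db1_ag.HS.dzb f k x = 0 := by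
  obtain ⟨F, h1, h2, h3, h4⟩ := h.ext
  rw [setIntegral_congr_fun h.op.measurableSet fun x hx => dzb_congr (h3 x hx) k,
    setIntegral_eq_integral_of_forall_compl_eq_zero fun x hx =>
      (dzb_congr (h4 x hx) k).trans (dzb_const 0 k x), integral_dzb_eq_zero h1 h2]

theorem T.re (h : T Ω K f) {u : E → ℝ} (e : ∀ x ∈ Ω, (f x).re = u x) :
    IntegrableOn u Ω ∧ ∫ x in Ω, u x = (∫ x in Ω, f x).re :=
  ⟨IntegrableOn.congr_fun h.int.re e h.op.measurableSet, by
    rw [← setIntegral_congr_fun h.op.measurableSet e]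
    exact reCLM.integral_comp_comm h.int⟩

end L4

open L4 in
theorem l4_pf : StL4 := by
  rintro Ω V ξ hΩ hV ⟨hξ, K, hK, hs, h0⟩
  have sV : ∀ x ∈ Ω, ContDiffAt ℝ ∞ (cx V) x := fun x hx =>
    contDiffAt_ofReal.2 (hV.contDiffAt (hΩ.mem_nhds hx))
  have tξ : T Ω K (cx ξ) := ⟨hΩ, hK, hs, fun x hx =>
    contDiffAt_ofReal.2 (hξ.contDiffAt (hΩ.mem_nhds hx)), fun x hx k => by simp [cx, h0 x hx k]⟩
  have s1 : ∀ j, ∀ x ∈ Ω, ContDiffAt ℝ ∞ (dz (cx V) j) x := fun j x hx =>
    contDiffAt_dz_top (sV x hx) j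
  have s2 : ∀ j, ∀ x ∈ Ω, ContDiffAt ℝ ∞ (dzb (cx V) j) x := fun j x hx =>
    contDiffAt_dzb_top (sV x hx) j
  have sq : ∀ x ∈ Ω, ContDiffAt ℝ ∞ (fun y => cx V y * cx V y) x := fun x hx =>
    (sV x hx).mul (sV x hx)
  have ta := fun j => tξ.mul (g := fun y => dz (cx V) j y * dzb (cx V) j y) fun x hx =>
    (s1 j x hx).mul (s2 j x hx)
  have tb := fun j => ((tξ.dzb j).dz j).mul sq
  have tc := fun j => tξ.mul (g := fun y => cx V y * dz (dzb (cx V) j) j y) fun x hx =>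
    (sV x hx).mul (contDiffAt_dz_top (s2 j x hx) j)
  have t1 := fun j => tξ.mul (g := fun y => cx V y * dz (cx V) j y) fun x hx =>
    (sV x hx).mul (s1 j x hx)
  have t2 := fun j => (tξ.dzb j).mul sq
  have key : ∀ j, 2 * ∫ x in Ω, cx ξ x * (dz (cx V) j x * dzb (cx V) j x) =
      (∫ x in Ω, dz (dzb (cx ξ) j) j x * (cx V x * cx V x)) -
        2 * ∫ x in Ω, cx ξ x * (cx V x * dz (dzb (cx V) j) j x) := fun j => by
    have e : ∫ x in Ω, (2 * dzb (fun y => cx ξ y * (cx V y * dz (cx V) j y)) j x -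
        dz (fun y => dzb (cx ξ) j y * (cx V y * cx V y)) j x) = 0 := by
      rw [integral_sub (((t1 j).dzb j).int.const_mul 2) ((t2 j).dz j).int, integral_const_mul,
        (t1 j).idzb, (t2 j).idz, mul_zero, sub_zero]
    rw [setIntegral_congr_fun hΩ.measurableSet (g := fun x =>
      2 * (cx ξ x * (dz (cx V) j x * dzb (cx V) j x)) +
        2 * (cx ξ x * (cx V x * dz (dzb (cx V) j) j x)) -
        dz (dzb (cx ξ) j) j x * (cx V x * cx V x)) fun x hx => by
        have d1 := (sV x hx).differentiableAt (by simp)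
        have d2 := (s1 j x hx).differentiableAt (by simp)
        have d3 := (tξ.sm x hx).differentiableAt (by simp)
        have d4 := ((tξ.dzb j).sm x hx).differentiableAt (by simp)
        simp only
        rw [dzb_mul d3 (d1.fun_mul d2), dzb_mul d1 d2, dz_mul d4 (d1.fun_mul d1), dz_mul d1 d1,
          dz_dzb_comm ((sV x hx).of_le (by norm_cast))]
        ring,
      integral_sub (((ta j).int.const_mul 2).fun_add ((tc j).int.const_mul 2)) (tb j).int,
      integral_add ((ta j).int.const_mul 2) ((tc j).int.const_mul 2), integral_const_mul,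
      integral_const_mul] at e
    linear_combination e
  have ra := (T.sum ta).re (u := fun x => ξ x * tt (gr V x)) fun x _ => by
    simp only [tt, gr, Finset.mul_sum, re_sum]
    refine Finset.sum_congr rfl fun j _ => ?_
    rw [show dzb (cx V) j x = _ from dzb_ofReal V j x, cx, re_ofReal_mul]
    exact congrArg _ (by rw [RCLike.star_def]; exact (congrArg re (mul_conj _)).trans (ofReal_re _))
  have rb := (T.sum tb).re (u := fun x => 2 * (V x ^ 2 / 2 * lap ξ x)) fun x _ => by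
    rw [← Finset.sum_mul, cx, ← ofReal_mul, re_mul_ofReal]
    exact (show lap ξ x * (V x * V x) = _ by ring)
  have rc := (T.sum tc).re (u := fun x => ξ x * (V x * lap V x)) fun x _ => by
    rw [← Finset.mul_sum, ← Finset.mul_sum, cx, cx, re_ofReal_mul, re_ofReal_mul]
    rfl
  have s := congrArg re (Finset.sum_congr rfl fun j (_ : j ∈ Finset.univ) => key j)
  rw [Finset.sum_sub_distrib, ← Finset.mul_sum, ← Finset.mul_sum,
    ← integral_finsetSum _ fun j _ => (ta j).int, ← integral_finsetSum _ fun j _ => (tb j).int,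
    ← integral_finsetSum _ fun j _ => (tc j).int, sub_re, ← rb.2, integral_const_mul] at s
  rw [ra.2, rc.2]
  simp only [mul_re, re_ofNat, im_ofNat, zero_mul, sub_zero] at s ⊢
  linarith

end Pool.Agent.Lib.MP_4e4ac8_an.LV
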