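import Pool.Agent.Lib.MP_4e4ac8_an.LV.St

/-! Logarithms of holomorphic functions. -/

namespace Pool.Agent.Lib.MP_4e4ac8_an.LV

open Complex Matrix Filter Topology Set
open Pool.Agent.Lib.MP_813db1_ag.HS
open scoped ContDiff

namespace LG

/-- pluriharmonic functions -/
theorem ph {G : E → ℂ} {x : E} (hG : AnalyticAt ℂ G x) {u : E → ℝ} (c a b : ℂ)
    (h : cx u =ᶠ[𝓝 x] fun y => c + (a * G y + b * star (G y))) :
    ContDiffAt ℝ ∞ u x ∧ (∀ k, dz (cx u) k x = a * dz G k x) ∧ levi (cx u) x = 0 := by
  have s1 : ContDiffAt ℝ ∞ G x := (hG.contDiffAt (n := ∞)).restrict_scalars ℝ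
  have s2 : ContDiffAt ℝ ∞ (fun y => star (G y)) x := conjCLE.contDiff.contDiffAt.comp x s1
  have s3 : ContDiffAt ℝ ∞ (fun y => a * G y) x := contDiffAt_const.mul s1
  have s4 : ContDiffAt ℝ ∞ (fun y => b * star (G y)) x := contDiffAt_const.mul s2
  have d : ∀ {f : E → ℂ}, ContDiffAt ℝ ∞ f x → DifferentiableAt ℝ f x := fun hf =>
    hf.differentiableAt (by simp)
  have t : ∀ {f : E → ℂ}, ContDiffAt ℝ ∞ f x → ContDiffAt ℝ 2 f x := fun hf =>
    hf.of_le (WithTop.coe_le_coe.2 (le_top : (2 : ℕ∞) ≤ ⊤))
  have l0 : levi G x = 0 := levi_hol (hG.eventually_analyticAt.mono fun _ e => e.differentiableAt)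
  refine ⟨contDiffAt_ofReal.1 ((contDiffAt_const.add (s3.add s4)).congr_of_eventuallyEq h),
    fun k => ?_, ?_⟩
  · rw [dz_congr h, dz_add (differentiableAt_const c) (d (s3.add s4)), dz_const,
      dz_add (d s3) (d s4), dz_cmul a (d s1), dz_cmul b (d s2), dz_star,
      dzb_hol hG.differentiableAt]
    simp
  · rw [levi_congr h, levi_add contDiffAt_const (t (s3.add s4)), levi_const,
      levi_add (t s3) (t s4), levi_cmul a (t s1), levi_cmul b (t s2), levi_star (t s1), l0]
    simp

end LG

theorem lg_pf : StLG := by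
  intro F x hF
  refine ⟨fun h => ?_, fun h => ?_⟩
  · obtain ⟨s, g, l⟩ := LG.ph hF (u := fun y => (F y).im) 0 (1 / (2 * I)) (-(1 / (2 * I)))
      (Eventually.of_forall fun y => by
        simp only [cx]
        rw [im_eq_sub_conj]
        simp only [RCLike.star_def]
        ring)
    have h' : (((F x).im : ℝ) : ℂ) ≠ 0 := ofReal_ne_zero.2 h
    simp only [Real.log_abs]
    refine ⟨s.log h, funext fun k => ?_, Matrix.ext fun i j => ?_⟩
    · have e := dz_real_comp (u := fun y => (F y).im) (Real.hasDerivAt_log h)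
        (s.differentiableAt (by simp)) k
      change dz (fun w => ((Real.log (F w).im : ℝ) : ℂ)) k x = _
      rw [e, show dz (fun w => (((F w).im : ℝ) : ℂ)) k x = _ from g k]
      simp only [dF, Pi.smul_apply, smul_eq_mul]
      push_cast
      field_simp
    · have e := levi_real_comp (u := fun y => (F y).im) (Φ := Real.log) (Φ₁ := fun t => t⁻¹)
        ((eventually_ne_nhds h).mono fun t ht => Real.hasDerivAt_log ht) (hasDerivAt_inv h)
        (s.of_le (WithTop.coe_le_coe.2 (le_top : (2 : ℕ∞) ≤ ⊤))) i j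
      change levi (fun w => ((Real.log (F w).im : ℝ) : ℂ)) x i j = _
      rw [e, dzb_ofReal, show dz (fun w => (((F w).im : ℝ) : ℂ)) i x = _ from g i,
        show dz (fun w => (((F w).im : ℝ) : ℂ)) j x = _ from g j,
        show levi (fun w => (((F w).im : ℝ) : ℂ)) x = _ from l]
      simp only [dF, oo, Matrix.smul_apply, vecMulVec_apply, Pi.star_apply, smul_eq_mul,
        Matrix.zero_apply, star_mul', star_div₀, star_one, star_ofNat, star_I]
      push_cast
      field_simp
      linear_combination (4 * dz F i x * star (dz F j x)) * I_mul_I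
  · have h1 : F x / F x = 1 := div_self h
    have a1 : AnalyticAt ℂ (fun y => F y / F x) x := hF.div_const
    have a2 : AnalyticAt ℂ (fun y => Complex.log (F y / F x)) x :=
      a1.clog (by rw [h1]; exact one_mem_slitPlane)
    obtain ⟨s, g, l⟩ := LG.ph a2 (u := fun y => Real.log ‖F y‖) (Real.log ‖F x‖ : ℝ) (1 / 2) (1 / 2)
      (by
        filter_upwards [hF.continuousAt.eventually_ne h] with y hy
        have e := re_eq_add_conj (Complex.log (F y / F x))
        rw [log_re, norm_div, Real.log_div (norm_ne_zero_iff.2 hy) (norm_ne_zero_iff.2 h)] at e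
        simp only [cx, RCLike.star_def]
        push_cast at e ⊢
        linear_combination e)
    refine ⟨s, funext fun k => ?_, l⟩
    have dF' : DifferentiableAt ℝ F x := hF.differentiableAt.restrictScalars ℝ
    have e := dz_hol_comp (f := fun y => F y / F x) (z := x) (Φ := Complex.log)
      (Complex.hasDerivAt_log (by simp only [h1]; exact one_mem_slitPlane))
      (a1.differentiableAt.restrictScalars ℝ) k
    have e2 : dz (fun y => F y / F x) k x = (F x)⁻¹ * dz F k x := by
      rw [← dz_cmul _ dF']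
      simp only [div_eq_inv_mul]
    change dz (cx fun y => Real.log ‖F y‖) k x = _
    rw [g k, e, e2, h1]
    simp only [dF, Pi.smul_apply, smul_eq_mul]
    field_simp

end Pool.Agent.Lib.MP_4e4ac8_an.LV
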