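import Pool.Agent.Lib.MP_4e4ac8_an.LV.St

/-! The lower bound in one dyadic step. -/

namespace Pool.Agent.Lib.MP_4e4ac8_an.LV

open MeasureTheory Complex Matrix Filter Topology Set
open Pool.Agent.Lib.MP_813db1_ag.HS
open scoped ContDiff

namespace LO

theorem tt_nn (x : E) : 0 ≤ tt x := Finset.sum_nonneg fun _ _ => normSq_nonneg _

theorem tt_ct : Continuous tt := by
  unfold tt
  exact continuous_finsetSum _ fun j _ => continuous_normSq.comp (continuous_apply j)

theorem ap_le (x : E) (j : Fin 3) : ‖x j‖ ^ 2 ≤ tt x := by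
  rw [← normSq_eq_norm_sq]
  exact Finset.single_le_sum (f := fun j => normSq (x j)) (fun _ _ => normSq_nonneg _)
    (Finset.mem_univ j)

theorem tt_ne {x : E} (h : x ≠ 0) : tt x ≠ 0 := fun e => h (funext fun j => by
  have := ap_le x j
  rw [e] at this
  exact norm_eq_zero.1 (pow_eq_zero_iff two_ne_zero |>.1 (le_antisymm this (sq_nonneg _))))

theorem om_ne {S : Set E} {x : E} (h : x ∈ Om S) : x ≠ 0 := fun e => h (Or.inl e)

theorem bd_oo (a : E) : Bd (oo a) (tt a) := fun j k => by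
  rw [oo, vecMulVec_apply, norm_mul, Pi.star_apply, norm_star]
  nlinarith [ap_le a j, ap_le a k, sq_nonneg (‖a j‖ - ‖a k‖)]

theorem bd_tr {P : Mx} {c : ℝ} (h : Bd P c) : ‖P.trace‖ ≤ 3 * c := by
  rw [Matrix.trace, Fin.sum_univ_three]
  refine norm_add₃_le.trans ?_
  simp only [diag]
  linarith [h 0 0, h 1 1, h 2 2]

theorem dd_bd {P Q : Mx} {c d : ℝ} (h : Bd P c) (g : Bd Q d) : ‖DD P Q‖ ≤ 18 * (c * d) := by
  have c0 : 0 ≤ c := (norm_nonneg _).trans (h 0 0)
  have m : ∀ i j k l, ‖P i j * Q k l‖ ≤ c * d := fun i j k l => by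
    rw [norm_mul]; exact mul_le_mul (h i j) (g k l) (norm_nonneg _) c0
  have b : Bd (P * Q) (3 * (c * d)) := fun j k => by
    rw [mul_apply, Fin.sum_univ_three]
    refine norm_add₃_le.trans ?_
    linarith [m j 0 0 k, m j 1 1 k, m j 2 2 k]
  refine (norm_sub_le _ _).trans ?_
  have := mul_le_mul (bd_tr h) (bd_tr g) (norm_nonneg _) (by linarith)
  rw [norm_mul]
  linarith [bd_tr b]

theorem bd_cr {g x : E} {c : ℝ} (h : ‖g‖ ≤ c) (hx : tt x ≤ 9) :
    Bd (vecMulVec g x + vecMulVec (star x) (star g)) (6 * c) := fun j k => by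
  have n : ∀ i, ‖x i‖ ≤ 3 := fun i => by nlinarith [ap_le x i, norm_nonneg (x i)]
  have m : ∀ i, ‖g i‖ ≤ c := fun i => (norm_le_pi_norm g i).trans h
  have c0 : 0 ≤ c := (norm_nonneg _).trans h
  rw [Matrix.add_apply, vecMulVec_apply, vecMulVec_apply]
  refine (norm_add_le _ _).trans ?_
  rw [norm_mul, norm_mul, Pi.star_apply, Pi.star_apply, norm_star, norm_star]
  have a := mul_le_mul (m j) (n k) (norm_nonneg _) c0
  have b := mul_le_mul (n j) (m k) (norm_nonneg _) (by norm_num)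
  linarith

theorem gr_ct {u : E → ℝ} {x : E} (h : ContDiffAt ℝ ∞ u x) : ContinuousAt (gr u) x :=
  continuousAt_pi.2 fun j => (contDiffAt_dz_top (contDiffAt_ofReal.2 h) j).continuousAt

theorem HH_ct {u : E → ℝ} {x : E} (h : ContDiffAt ℝ ∞ u x) : ContinuousAt (HH u) x :=
  continuousAt_pi.2 fun j => continuousAt_pi.2 fun k =>
    (contDiffAt_levi_top (contDiffAt_ofReal.2 h) j k).continuousAt

theorem lap_ct {u : E → ℝ} {x : E} (h : ContDiffAt ℝ ∞ u x) : ContinuousAt (lap u) x :=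
  continuous_re.continuousAt.comp (f := fun y => (HH u y).trace)
    ((continuous_id.matrix_trace).continuousAt.comp (HH_ct h))

theorem DD_ct : Continuous fun p : Mx × Mx => DD p.1 p.2 :=
  (continuous_fst.matrix_trace.mul continuous_snd.matrix_trace).sub
    (continuous_fst.matrix_mul continuous_snd).matrix_trace

theorem oo_ct : Continuous oo := continuous_id.matrix_vecMulVec continuous_star

theorem st_sm : ContDiff ℝ ∞ st := Real.smoothTransition.contDiff

theorem Th_sm : ContDiff ℝ ∞ Th :=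
  (st_sm.comp (contDiff_id.sub contDiff_const)).sub
    (st_sm.comp ((contDiff_id.div_const 4).sub contDiff_const))

theorem Th1 : ContDiff ℝ ∞ (deriv Th) := (contDiff_infty_iff_deriv.1 Th_sm).2

theorem Th2 : ContDiff ℝ ∞ (deriv (deriv Th)) := (contDiff_infty_iff_deriv.1 Th1).2

theorem Th_off {t : ℝ} (h : ¬ (1 ≤ t ∧ t ≤ 8)) :
    Th t = 0 ∧ deriv Th t = 0 ∧ deriv (deriv Th) t = 0 := by
  have hc : Th =ᶠ[𝓝 t] fun _ => 0 := by
    rcases not_and_or.1 h with h | h
    · refine (gt_mem_nhds (not_le.1 h)).mono fun s hs => ?_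
      unfold Th th th4 st
      rw [Real.smoothTransition.zero_of_nonpos (by linarith),
        Real.smoothTransition.zero_of_nonpos (by linarith), sub_zero]
    · refine (lt_mem_nhds (not_le.1 h)).mono fun s hs => ?_
      unfold Th th th4 st
      rw [Real.smoothTransition.one_of_one_le (by linarith),
        Real.smoothTransition.one_of_one_le (by linarith), sub_self]
  refine ⟨hc.eq_of_nhds, by simpa using hc.deriv_eq, ?_⟩
  have := hc.deriv.deriv_eq
  simpa using this

theorem Th_mem {t : ℝ} (h : 0 ≤ t) : 0 ≤ Th t ∧ Th t ≤ 1 := by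
  unfold Th th th4 st
  exact ⟨sub_nonneg.2 (Real.smoothTransition.monotone (by linarith)), by
    linarith [Real.smoothTransition.le_one (t - 1), Real.smoothTransition.nonneg (t / 4 - 1)]⟩

theorem ps_mem {x : E} (h : 1 ≤ tt x) : 0 ≤ ps x ∧ ps x ≤ 1 :=
  ⟨div_nonneg (Th_mem (tt_nn x)).1 (tt_nn x),
    (div_le_one (by linarith)).2 ((Th_mem (tt_nn x)).2.trans h)⟩

theorem p1_bd : ∃ M : ℝ, 0 ≤ M ∧ ∀ t, 1 ≤ t → t ≤ 8 → |p1 t| ≤ M := by
  have c : ContinuousOn p1 (Icc 1 8) := fun t ht => by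
    have t0 : t ≠ 0 := by linarith [ht.1] |> fun h : 0 < t => h.ne'
    exact ((Th1.continuous.continuousAt.div continuousAt_id t0).sub
      (Th_sm.continuous.continuousAt.div (continuousAt_id.pow 2)
        (pow_ne_zero 2 t0))).continuousWithinAt
  obtain ⟨M, hM⟩ := isCompact_Icc.exists_bound_of_continuousOn c
  exact ⟨max M 0, le_max_right _ _, fun t a b => (hM t ⟨a, b⟩).trans (le_max_left _ _)⟩

theorem intOn {F : Type} [NormedAddCommGroup F] {Ω K : Set E} {f : E → F} (hΩ : IsOpen Ω)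
    (hK : IsCompact K) (hs : K ⊆ Ω) (hf : ∀ x ∈ Ω, ContinuousAt f x)
    (h : ∀ x ∈ Ω, x ∉ K → f x = 0) : IntegrableOn f Ω :=
  (ContinuousOn.integrableOn_compact hK
    fun x hx => (hf x (hs hx)).continuousWithinAt).of_forall_sdiff_eq_zero hΩ.measurableSet
    fun x hx => h x hx.1 hx.2

/-- the real inequality behind the pointwise estimate -/
theorem real_pt {V p q c l T0 T1 T2 t a n k r1 r2 r3 e : ℝ} (hc : 0 ≤ c) (h0 : 0 ≤ T0)
    (ht : 0 ≤ t) (hn : 0 ≤ n) (he : -e ≤ 2 * (V * (p * r1)) - p * r2 - q * r3) :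
    c * (T2 * (2 * V * l - a - k) + (T2 / t - 2 * T1 / t ^ 2) * n) + c * T2 * k ≤
      2 * (V * (p * r1 + c * l * T2)) -
        (p * r2 + c * (a * T2 - (T2 / t - 2 * T1 / t ^ 2 + 2 * T0 / t ^ 3) * n) + q * r3) + e := by
  have : 0 ≤ c * (2 * T0 / t ^ 3 * n) := by positivity
  nlinarith

theorem zone_pt {V p q r1 r2 r3 a v b1 b2 b3 M : ℝ} (p0 : 0 ≤ p) (p1 : p ≤ 1) (hq : |q| ≤ M)
    (hV : |V| ≤ v) (h1 : |r1| ≤ b1) (h2 : |r2| ≤ b2 * a) (h3 : |r3| ≤ b3 * a) :
    -(2 * (v * b1) + (b2 + M * b3) * a) ≤ 2 * (V * (p * r1)) - p * r2 - q * r3 := by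
  have e1 : |V * (p * r1)| ≤ v * b1 := by
    rw [abs_mul, abs_mul, abs_of_nonneg p0]
    exact mul_le_mul hV ((mul_le_of_le_one_left (abs_nonneg _) p1).trans h1) (by positivity)
      ((abs_nonneg _).trans hV)
  have e2 : |p * r2| ≤ b2 * a := by
    rw [abs_mul, abs_of_nonneg p0]
    exact (mul_le_of_le_one_left (abs_nonneg _) p1).trans h2
  have e3 : |q * r3| ≤ M * (b3 * a) := by
    rw [abs_mul]
    exact mul_le_mul hq h3 (abs_nonneg _) ((abs_nonneg _).trans hq)
  nlinarith [neg_abs_le (V * (p * r1)), le_abs_self (p * r2), le_abs_self (q * r3)]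

theorem v_bd {C1 L s γ w : ℝ} (hs : s ≤ L + 1) (hγ : γ ≤ Real.exp (7 / 8 * L))
    (h : w ≤ C1 * Real.exp (7 / 8 * s) + γ) : w ≤ (3 * |C1| + 1) * Real.exp (7 / 8 * L) := by
  have a : Real.exp (7 / 8 * s) ≤ 3 * Real.exp (7 / 8 * L) := by
    have b : Real.exp (7 / 8 * s) ≤ Real.exp (1 + 7 / 8 * L) := Real.exp_le_exp.2 (by linarith)
    rw [Real.exp_add] at b
    exact b.trans (mul_le_mul_of_nonneg_right (by linarith [Real.exp_one_lt_d9])
      (Real.exp_pos _).le)
  have c := mul_le_mul (le_abs_self C1) a (Real.exp_pos _).le (abs_nonneg _)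
  linarith

end LO

open LO in
theorem lo_pf : StL2 → StXI → StZB → StTOP → StVOL → StEN1 → StLO := by
  intro hL2 hXI hZB hTOP hVOL hEN S d A U C c l0 H K0 C1
  obtain ⟨Cz, hz⟩ := hZB S d A U C c l0 H
  obtain ⟨Ct, ht⟩ := hTOP S d A U C c l0 H
  obtain ⟨Cv, Lv, hv⟩ := hVOL S d A U C c l0 H
  obtain ⟨Ce, Le, he⟩ := hEN S d A U C c l0 H K0 C1
  obtain ⟨M, M0, hM⟩ := p1_bd
  refine ⟨|Ct| * |Cv| + 2 * ((3 * |C1| + 1) * |Cz|) * |Cv| + (18 * |Cz| + M * (108 * |Cz|)) * |Ce|,
    min (min (l0 - 2) 0) (min Lv Le), fun L hL γ V _ hγ hV => ?_⟩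
  have L1 : L ≤ l0 - 2 := hL.trans ((min_le_left _ _).trans (min_le_left _ _))
  have L2 : L ≤ 0 := hL.trans ((min_le_left _ _).trans (min_le_right _ _))
  have L3 : L ≤ Lv := hL.trans ((min_le_right _ _).trans (min_le_left _ _))
  have L4 : L ≤ Le := hL.trans ((min_le_right _ _).trans (min_le_right _ _))
  obtain ⟨hT, hx⟩ := hXI S d A U C c l0 H L
  have op := H.op
  have sU : ∀ x ∈ Om S, ContDiffAt ℝ ∞ U x := fun x h => H.sm.contDiffAt (op.mem_nhds h)
  have sX : ∀ x ∈ Om S, ContDiffAt ℝ ∞ (Xi d U L) x := fun x h => hT.1.contDiffAt (op.mem_nhds h)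
  have sl : ∀ x ∈ Om S, ContinuousAt (el d U) x := fun x h =>
    H.esm.continuousOn.continuousAt (op.mem_nhds h)
  have sV : ∀ x, ContDiffAt ℝ ∞ V x := fun x => hV.1.contDiffAt
  have hK := H.cpt 1 8 L one_pos
  set K : Set E := {x | x ∈ Om S ∧ 1 ≤ tt x ∧ tt x ≤ 8 ∧ L ≤ el d U x} with eK
  have sK : K ⊆ Om S := fun x h => h.1
  have hZ : IsCompact (Z0 S d U L) := by
    have := ContinuousOn.preimage_isClosed_of_isClosed
      (fun x h => (sl x (sK h)).continuousWithinAt) hK.isClosed (isClosed_Iic (a := L + 1))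
    refine hK.of_isClosed_subset ?_ fun x h => ⟨h.1, h.2.1, h.2.2.1, h.2.2.2.1⟩
    convert this using 1
    ext x
    simp only [Z0, eK, mem_ofPred_eq, mem_inter_iff, mem_preimage, mem_Iic, and_assoc]
  have mZ := hZ.isClosed.measurableSet
  have off : ∀ x ∈ Om S, x ∉ K → (Th (tt x) = 0 ∧ deriv Th (tt x) = 0 ∧
      deriv (deriv Th) (tt x) = 0) ∨
      (ch d U L x = 0 ∧ gr (ch d U L) x = 0 ∧ HH (ch d U L) x = 0) := fun x h hk => by
    by_cases a : 1 ≤ tt x ∧ tt x ≤ 8
    · have b : el d U x < L := not_le.1 fun b => hk ⟨h, a.1, a.2, b⟩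
      exact Or.inr ⟨Real.smoothTransition.zero_of_nonpos (by linarith),
        (hz L x h).1 fun e => b.not_ge e.1⟩
    · exact Or.inl (Th_off a)
  have cch : ∀ x ∈ Om S, ContinuousAt (ch d U L) x := fun x h =>
    st_sm.continuous.continuousAt.comp (f := fun y => el d U y - L) ((sl x h).sub continuousAt_const)
  have cka : ∀ x ∈ Om S, ContinuousAt (ka A U) x := fun x h =>
    (Real.continuous_exp.continuousAt.comp (f := fun y => 2 * U y)
      (continuousAt_const.mul (sU x h).continuousAt)).mul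
      (tt_ct.comp H.hol.continuous).continuousAt
  have cw : ∀ x ∈ Om S, ContinuousAt (fun y => ka A U y * (Real.exp (2 * V y) - 1) / 4) x :=
    fun x h => ((cka x h).mul ((Real.continuous_exp.comp
      (continuous_const.mul hV.1.continuous)).continuousAt.sub continuousAt_const)).div_const 4
  have cg : Continuous (gr V) := continuous_iff_continuousAt.2 fun x => gr_ct (sV x)
  have c1 : Continuous fun x => deriv Th (tt x) := Th1.continuous.comp tt_ct
  have c2 : Continuous fun x => deriv (deriv Th) (tt x) := Th2.continuous.comp tt_ct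
  have i1 : IntegrableOn (fun x => (V x : ℂ) * DD (HH (Xi d U L) x) (HH U x)) (Om S) := by
    refine intOn op hK sK (fun x h => ?_) fun x h hk => ?_
    · exact (continuous_ofReal.comp hV.1.continuous).continuousAt.mul
        (DD_ct.continuousAt.comp (f := fun y => (HH (Xi d U L) y, HH U y))
          ((HH_ct (sX x h)).prodMk (HH_ct (sU x h))))
    · rw [(hx x h).2.1]
      rcases off x h hk with a | a
      · simp [ps, a.1, a.2.2]
      · simp [a.1, a.2.2, DD]
  have i2 : IntegrableOn (fun x => DD (oo (gr V x)) (HH (Xi d U L) x)) (Om S) := by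
    refine intOn op hK sK (fun x h => ?_) fun x h hk => ?_
    · exact DD_ct.continuousAt.comp (f := fun y => (oo (gr V y), HH (Xi d U L) y))
        ((oo_ct.comp cg).continuousAt.prodMk (HH_ct (sX x h)))
    · rw [(hx x h).2.2.1]
      rcases off x h hk with a | a
      · simp [ps, p1, p2, a.1, a.2.1, a.2.2]
      · simp [a.1, a.2.1, a.2.2, DD]
  have i3 : IntegrableOn (bb d A U Th L V) (Om S) := by
    refine intOn op hK sK (fun x h => ?_) fun x h hk => ?_
    · have t0 := tt_ne (om_ne h)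
      refine (cch x h).mul ((c2.continuousAt.mul (((((continuous_const.mul
        hV.1.continuous).continuousAt).mul (lap_ct (sU x h))).sub
        (tt_ct.comp cg).continuousAt).sub (cw x h))).add (((c2.continuousAt.div
        tt_ct.continuousAt t0).sub ((continuous_const.mul c1).continuousAt.div
        (tt_ct.pow 2).continuousAt (pow_ne_zero 2 t0))).mul ?_))
      exact (continuous_normSq.comp (continuous_id.dotProduct cg)).continuousAt
    · rcases off x h hk with a | a
      · simp [bb, a.2.1, a.2.2]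
      · simp [bb, a.1]
  have i4 : IntegrableOn (fun x => ch d U L x * deriv (deriv Th) (tt x) *
      (ka A U x * (Real.exp (2 * V x) - 1) / 4)) (Om S) := by
    refine intOn op hK sK (fun x h => ((cch x h).mul c2.continuousAt).mul (cw x h))
      fun x h hk => ?_
    rcases off x h hk with a | a
    · simp [a.2.2]
    · simp [a.1]
  set α : ℝ := 2 * ((3 * |C1| + 1) * Real.exp (7 / 8 * L) * (|Cz| * Real.exp (-L))) with eα
  set β : ℝ := 18 * (|Cz| * Real.exp (-L)) + M * (108 * (|Cz| * Real.exp (-L))) with eβ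
  have i5z : IntegrableOn (fun x => tt (gr V x)) (Z0 S d U L) :=
    (tt_ct.comp cg).continuousOn.integrableOn_compact hZ
  have i5c : IntegrableOn (fun _ : E => α) (Z0 S d U L) :=
    continuousOn_const.integrableOn_compact hZ
  have i5 : Integrable ((Z0 S d U L).indicator fun x => α + β * tt (gr V x)) :=
    (integrable_indicator_iff mZ).2 (i5c.add (i5z.const_mul β))
  have pt : ∀ x ∈ Om S, bb d A U Th L V x + ch d U L x * deriv (deriv Th) (tt x) *
      (ka A U x * (Real.exp (2 * V x) - 1) / 4) ≤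
      2 * ((V x : ℂ) * DD (HH (Xi d U L) x) (HH U x)).re -
        (DD (oo (gr V x)) (HH (Xi d U L) x)).re +
        (Z0 S d U L).indicator (fun x => α + β * tt (gr V x)) x := fun x h => by
    rw [(hx x h).2.1, (hx x h).2.2.1]
    simp only [re_ofReal_mul, add_re, ofReal_re, bb, p2]
    refine real_pt (Real.smoothTransition.nonneg _) (Th_mem (tt_nn x)).1 (tt_nn x)
      (normSq_nonneg _) ?_
    by_cases a : x ∈ Z0 S d U L
    · obtain ⟨-, a1, a2, a3, a4⟩ := id a
      have an : x ∈ Ann := ⟨by linarith, by linarith⟩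
      obtain ⟨-, b1, b2, b3, -⟩ := (hz L x h).2 an ⟨a3, a4⟩
      have ex : Real.exp (-L / 2) ≤ Real.exp (-L) := Real.exp_le_exp.2 (by linarith)
      have z1 : Cz * Real.exp (-L) ≤ |Cz| * Real.exp (-L) :=
        mul_le_mul_of_nonneg_right (le_abs_self _) (Real.exp_pos _).le
      have z2 : Cz * Real.exp (-L / 2) ≤ |Cz| * Real.exp (-L) :=
        mul_le_mul (le_abs_self _) ex (Real.exp_pos _).le (abs_nonneg _)
      rw [indicator_of_mem a]
      refine zone_pt (ps_mem a1).1 (ps_mem a1).2 (hM _ a1 a2)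
        (v_bd a4 hγ (hV.2 x h an (by linarith)).2.1) ((abs_re_le_norm _).trans (b1.trans z1))
        ((abs_re_le_norm _).trans ((dd_bd (bd_oo _) fun j k => (b2 j k).trans z1).trans_eq
          (by ring)))
        ((abs_re_le_norm _).trans ((dd_bd (bd_oo _) (bd_cr (b3.trans z2) (by linarith))).trans_eq
          (by ring)))
    · rw [indicator_of_notMem a]
      by_cases b : 1 ≤ tt x ∧ tt x ≤ 8
      · obtain ⟨e1, e2⟩ := (hz L x h).1 fun e => a ⟨h, b.1, b.2, e.1, e.2⟩
        simp [e1, e2, DD]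
      · obtain ⟨e1, e2, -⟩ := Th_off b
        simp [ps, p1, e1, e2]
  have r1 := i1.re
  have r2 := i2.re
  have r12 : Integrable (fun x => 2 * RCLike.re ((V x : ℂ) * DD (HH (Xi d U L) x) (HH U x)) -
      RCLike.re (DD (oo (gr V x)) (HH (Xi d U L) x))) (volume.restrict (Om S)) :=
    (r1.const_mul 2).sub r2
  have key := setIntegral_mono_on (i3.add i4) (r12.add i5.integrableOn) op.measurableSet pt
  have zs : Z0 S d U L ⊆ Om S := fun x h => h.1
  simp only [Pi.add_apply] at key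
  rw [integral_add i3 i4, integral_add r12 i5.integrableOn,
    integral_sub (r1.const_mul 2) r2, integral_const_mul, integral_re i1, integral_re i2,
    setIntegral_indicator mZ, inter_eq_self_of_subset_right zs,
    integral_add i5c (i5z.const_mul β), setIntegral_const, integral_const_mul β, smul_eq_mul] at key
  have hn : volume (Zn S d U L) ≠ ⊤ :=
    ((measure_mono fun x h => (⟨h.1, h.2.1, h.2.2.1, h.2.2.2.1⟩ :
      x ∈ {x | x ∈ Om S ∧ 1 / 2 ≤ tt x ∧ tt x ≤ 9 ∧ L - 1 ≤ el d U x})).trans_lt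
      (H.cpt (1 / 2) 9 (L - 1) (by norm_num)).measure_lt_top).ne
  have zn : Z0 S d U L ⊆ Zn S d U L := fun x h => ⟨h.1, by linarith [h.2.1],
    by linarith [h.2.2.1], by linarith [h.2.2.2.1], by linarith [h.2.2.2.2]⟩
  have v1 : volume.real (Zn S d U L) ≤ |Cv| * Real.exp (L / 2) :=
    (hv L L3).trans (mul_le_mul_of_nonneg_right (le_abs_self _) (Real.exp_pos _).le)
  have v2 : volume.real (Z0 S d U L) ≤ |Cv| * Real.exp (L / 2) :=
    (measureReal_mono zn hn).trans v1
  have e1 : ∫ x in Z0 S d U L, tt (gr V x) ≤ |Ce| * Real.exp (5 / 4 * L) :=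
    (he L L4 γ V hγ hV).trans (mul_le_mul_of_nonneg_right (le_abs_self _) (Real.exp_pos _).le)
  have x1 : Real.exp (L / 2) ≤ Real.exp (L / 4) := Real.exp_le_exp.2 (by linarith)
  have x2 : Real.exp (L / 2) * (Real.exp (7 / 8 * L) * Real.exp (-L)) ≤ Real.exp (L / 4) := by
    rw [← Real.exp_add, ← Real.exp_add]; exact Real.exp_le_exp.2 (by linarith)
  have x3 : Real.exp (-L) * Real.exp (5 / 4 * L) = Real.exp (L / 4) := by
    rw [← Real.exp_add]; congr 1; ring
  have t1 : c0 d - |Ct| * |Cv| * Real.exp (L / 4) ≤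
      (∫ x in Om S, (Xi d U L x : ℂ) * DD (HH U x) (HH U x)).re := by
    have a := (abs_re_le_norm _).trans (ht L L1)
    have b := mul_le_mul (le_abs_self Ct) (v1.trans
      (mul_le_mul_of_nonneg_left x1 (abs_nonneg _))) measureReal_nonneg (abs_nonneg _)
    rw [sub_re, ofReal_re] at a
    linarith [neg_abs_le ((∫ x in Om S, (Xi d U L x : ℂ) * DD (HH U x) (HH U x)).re - c0 d)]
  have t2 : volume.real (Z0 S d U L) * α ≤ 2 * ((3 * |C1| + 1) * |Cz|) * |Cv| * Real.exp (L / 4) := by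
    have a := mul_le_mul_of_nonneg_right v2 (show 0 ≤ α by positivity)
    have b := mul_le_mul_of_nonneg_left x2
      (show 0 ≤ 2 * ((3 * |C1| + 1) * |Cz|) * |Cv| by positivity)
    refine a.trans (le_of_eq_of_le ?_ b)
    rw [eα]; ring
  have t3 : β * ∫ x in Z0 S d U L, tt (gr V x) ≤
      (18 * |Cz| + M * (108 * |Cz|)) * |Ce| * Real.exp (L / 4) := by
    refine (mul_le_mul_of_nonneg_left e1 (show 0 ≤ β by positivity)).trans_eq ?_
    rw [eβ, ← x3]; ring
  rw [hL2 (Om S) U V (Xi d U L) op H.sm hV.1.contDiffOn hT, sub_re, add_re, BB]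
  have two : ∀ z : ℂ, (2 * z).re = 2 * z.re := fun z => by simp
  rw [two]
  simp only [RCLike.re_to_complex] at key
  linarith

end Pool.Agent.Lib.MP_4e4ac8_an.LV
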