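import Pool.Agent.Lib.MP_4e4ac8_an.LV.St

/-! The scaling identity for the end functional. -/

namespace Pool.Agent.Lib.MP_4e4ac8_an.LV

open MeasureTheory Complex Matrix Filter Topology Set
open Pool.Agent.Lib.MP_813db1_ag.HS
open scoped ContDiff Pointwise

namespace SC

theorem th_sm : ContDiff ℝ ∞ th :=
  Real.smoothTransition.contDiff.comp (contDiff_id.sub contDiff_const)

theorem th4_sm : ContDiff ℝ ∞ th4 := th_sm.comp (contDiff_id.div_const 4)

theorem d_div (f : ℝ → ℝ) : deriv (fun t => f (t / 4)) = fun t => deriv f (t / 4) / 4 := by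
  funext t
  have e : (fun t => f (t / 4)) = fun t => f (4⁻¹ * t) := by funext s; congr 1; ring
  rw [e, deriv_comp_mul_left, smul_eq_mul, show 4⁻¹ * t = t / 4 by ring]; ring

theorem d4 : deriv th4 = fun t => deriv th (t / 4) / 4 := d_div th

theorem dd4 (t : ℝ) : deriv (deriv th4) t = deriv (deriv th) (t / 4) / 16 := by
  rw [d4, deriv_div_const, d_div (deriv th)]; ring

theorem dTh : deriv Th = fun t => deriv th t - deriv th4 t := funext fun _ =>
  deriv_fun_sub (th_sm.differentiable (by simp) _) (th4_sm.differentiable (by simp) _)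

theorem ddTh (t : ℝ) : deriv (deriv Th) t = deriv (deriv th) t - deriv (deriv th4) t := by
  rw [dTh]
  exact deriv_fun_sub ((contDiff_infty_iff_deriv.1 th_sm).2.differentiable (by simp) _)
    ((contDiff_infty_iff_deriv.1 th4_sm).2.differentiable (by simp) _)

theorem d0 {t : ℝ} (h : t ∉ Icc (1 : ℝ) 2) : deriv th t = 0 := by
  rcases not_and_or.1 h with h | h
  · have : th =ᶠ[𝓝 t] fun _ => 0 := mem_of_superset (Iio_mem_nhds (not_le.1 h)) fun s hs =>
      Real.smoothTransition.zero_of_nonpos (by simp only [mem_Iio] at hs; linarith)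
    rw [this.deriv_eq, deriv_const]
  · have : th =ᶠ[𝓝 t] fun _ => 1 := mem_of_superset (Ioi_mem_nhds (not_le.1 h)) fun s hs =>
      Real.smoothTransition.one_of_one_le (by simp only [mem_Ioi] at hs; linarith)
    rw [this.deriv_eq, deriv_const]

theorem tt_c : Continuous tt := by unfold tt; fun_prop

theorem tt_two (x : E) : tt ((2 : ℂ) • x) = 4 * tt x := by
  simp only [tt, Pi.smul_apply, smul_eq_mul, map_mul, normSq_ofNat, Finset.mul_sum]; norm_num

theorem gr_two (V : E → ℝ) (x : E) :
    gr (fun y => V ((2 : ℂ) • y)) x = (2 : ℂ) • gr V ((2 : ℂ) • x) := by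
  funext j
  have e : ∀ y : E, (2 : ℂ) • y = (2 : ℝ) • y := fun y => by ext k; simp
  have h : fderiv ℝ (cx fun y => V ((2 : ℂ) • y)) x = (2 : ℝ) • fderiv ℝ (cx V) ((2 : ℂ) • x) := by
    rw [e x, show (fun y => V ((2 : ℂ) • y)) = fun y => V ((2 : ℝ) • y) by simp only [e]]
    exact fderiv_comp_smul (f := cx V) (2 : ℝ)
  simp only [gr, dz, h, Pi.smul_apply, _root_.smul_apply, smul_eq_mul, real_smul,
    ofReal_ofNat]
  ring

variable {S : Set E} {d : ℕ} {A : E → E} {U : E → ℝ} {C c l0 : ℝ}

theorem intg (h : Ctx S d A U C c l0) (L : ℝ) {V : E → ℝ} (hV : ContDiff ℝ ∞ V) {θ : ℝ → ℝ}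
    (hθ : ContDiff ℝ ∞ θ) (h0 : ∀ t ∉ Icc (1 : ℝ) 8, deriv θ t = 0) :
    IntegrableOn (bb d A U θ L V) (Om S) := by
  have h1 := (contDiff_infty_iff_deriv.1 hθ).2
  have h2 := (contDiff_infty_iff_deriv.1 h1).2.continuous
  have h1 := h1.continuous
  have hK := h.cpt 1 8 L one_pos
  refine IntegrableOn.of_forall_sdiff_eq_zero (ContinuousOn.integrableOn_compact hK ?_)
    h.op.measurableSet fun x hx => ?_
  · intro x hx
    have hn := h.op.mem_nhds hx.1
    have t0 : tt x ≠ 0 := by have := hx.2.1; positivity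
    have cU := (h.sm x hx.1).contDiffAt hn
    have ce := ((h.esm x hx.1).contDiffAt hn).continuousAt
    have cl : ContinuousAt (lap U) x := continuous_re.continuousAt.comp
      (((SmM.levi (U := {x}) fun z hz => contDiffAt_ofReal.2 (by rwa [hz])).tr rfl).continuousAt)
    have cg : Continuous (gr V) := continuous_pi fun j => continuous_iff_continuousAt.2 fun y =>
      (contDiffAt_dz_top (contDiffAt_ofReal.2 hV.contDiffAt) j).continuousAt
    have cA := h.hol.continuous
    have cV := hV.continuous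
    have ct := tt_c
    have cU := cU.continuousAt
    have cs : Continuous st := Real.smoothTransition.continuous
    have cd : Continuous fun y : E => normSq (y ⬝ᵥ gr V y) :=
      continuous_normSq.comp (continuous_id.dotProduct cg)
    refine ContinuousAt.continuousWithinAt ?_
    unfold bb ch ka
    fun_prop (disch := first | exact t0 | exact pow_ne_zero _ t0)
  · by_cases ht : tt x ∈ Icc (1 : ℝ) 8
    · have : el d U x - L ≤ 0 := by
        by_contra hc
        exact hx.2 ⟨hx.1, ht.1, ht.2, by linarith⟩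
      simp only [bb, ch, st, Real.smoothTransition.zero_of_nonpos this, zero_mul]
    · have e : deriv θ =ᶠ[𝓝 (tt x)] fun _ => 0 :=
        mem_of_superset (isClosed_Icc.isOpen_compl.mem_nhds ht) h0
      simp only [bb, e.deriv_eq, deriv_const, h0 _ ht]; ring

theorem bb_two (h : Ctx S d A U C c l0) (L : ℝ) (V : E → ℝ) {x : E}
    (hx : x ∈ Om S) : bb d A U th L (fun y => V ((2 : ℂ) • y)) x =
      64 * bb d A U th4 L V ((2 : ℂ) • x) := by
  have e : 4 * tt x / 4 = tt x := by ring
  simp only [bb, ch, gr_two V, tt_two, dd4, h.eh x hx 2 two_ne_zero, h.kh x hx 2 two_ne_zero,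
    h.lh x hx 2 two_ne_zero, dotProduct_smul, smul_dotProduct, norm_ofNat]
  simp only [d4, e]
  ring

end SC

open SC in
theorem sc_pf : StSC := fun S d A U C c l0 h L V hV => by
  have i1 := intg h L hV th_sm fun t ht => d0 fun a => ht ⟨a.1, by linarith [a.2]⟩
  have i4 := intg h L hV th4_sm fun t ht => by
    rw [d4]
    simp only [d0 (t := t / 4) fun a => ht ⟨by linarith [a.1], by linarith [a.2]⟩, zero_div]
  have e1 : BB S d A U Th L V = BB S d A U th L V - BB S d A U th4 L V := by
    rw [BB, BB, BB, ← integral_sub i1 i4]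
    refine integral_congr_ae (Eventually.of_forall fun x => ?_)
    simp only [bb, ddTh]
    simp only [dTh]
    ring
  have e : ∀ y : E, (2 : ℂ) • y = (2 : ℝ) • y := fun y => by ext k; simp
  have es : (2 : ℝ) • Om S = Om S := by
    ext y
    rw [mem_smul_set_iff_inv_smul_mem₀ two_ne_zero, ← h.oc 2 _ two_ne_zero, e,
      smul_inv_smul₀ two_ne_zero]
  rw [e1, BB, BB, BB, setIntegral_congr_fun h.op.measurableSet fun x hx => bb_two h L V hx,
    integral_const_mul]
  simp only [e]
  rw [Measure.setIntegral_comp_smul _ _ _ two_ne_zero, es]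
  simp only [Module.finrank_pi_fintype, finrank_real_complex, smul_eq_mul]
  norm_num
  ring

end Pool.Agent.Lib.MP_4e4ac8_an.LV
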