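import Pool.Agent.Lib.MP_4e4ac8_an.LV.St

/-! Structural consequences of homogeneity. -/

namespace Pool.Agent.Lib.MP_4e4ac8_an.LV

open MeasureTheory Complex Matrix Filter Topology Set
open Pool.Agent.Lib.MP_813db1_ag.HS
open scoped ContDiff

namespace STR

theorem tt_smul (c : ℂ) (x : E) : tt (c • x) = ‖c‖ ^ 2 * tt x := by
  simp only [tt, Pi.smul_apply, smul_eq_mul, map_mul, Finset.mul_sum, normSq_eq_norm_sq]

theorem tt_pos {x : E} (h : x ≠ 0) : 0 < tt x := by
  obtain ⟨j, hj⟩ := Function.ne_iff.1 h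
  exact Finset.sum_pos' (fun i _ => normSq_nonneg _) ⟨j, Finset.mem_univ _, normSq_pos.2 hj⟩

theorem contDiff_tt : ContDiff ℝ ∞ tt := by
  unfold tt
  simp only [normSq_apply]
  refine ContDiff.sum fun j _ => ?_
  have a : ContDiff ℝ ∞ fun x : E => (x j).re := reCLM.contDiff.comp (contDiff_apply ℝ ℂ j)
  have b : ContDiff ℝ ∞ fun x : E => (x j).im := imCLM.contDiff.comp (contDiff_apply ℝ ℂ j)
  exact (a.mul a).add (b.mul b)

theorem dir {f : E → ℂ} {x : E} (hf : DifferentiableAt ℝ f x) (w : ℂ) :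
    HasDerivAt (fun t : ℝ => f (exp (t * w) • x)) (fderiv ℝ f x (w • x)) 0 := by
  have h1 : HasDerivAt (fun t : ℝ => exp (t * w) • x) (w • x) 0 := by
    simpa using ((hasDerivAt_id (0 : ℝ)).ofReal_comp.mul_const w).cexp.smul_const x
  exact hf.hasFDerivAt.comp_hasDerivAt_of_eq 0 h1 (by simp)

theorem fderiv_sc {f : E → ℂ} {x : E} {c : ℂ} (hf : DifferentiableAt ℝ f (c • x)) (k : Fin 3)
    (a : ℂ) : fderiv ℝ (fun y => f (c • y)) x (Pi.single k a) =
      dz f k (c • x) * (c * a) + dzb f k (c • x) * star (c * a) := by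
  have h1 : HasFDerivAt (fun y : E => c • y) (c • ContinuousLinearMap.id ℝ E) x :=
    (hasFDerivAt_id x).const_smul c
  rw [show fderiv ℝ (fun y => f (c • y)) x = _ from (hf.hasFDerivAt.comp x h1).fderiv,
    ← Pool.Agent.Lib.MP_813db1_ag.HS.fderiv_single, ← smul_eq_mul, Pi.single_smul']
  rfl

theorem dz_sc {f : E → ℂ} {x : E} {c : ℂ} (hf : DifferentiableAt ℝ f (c • x)) (k : Fin 3) :
    dz (fun y => f (c • y)) k x = c * dz f k (c • x) := by
  rw [dz, fderiv_sc hf, fderiv_sc hf, star_mul', star_mul', star_one, star_I]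
  linear_combination (-(dz f k (c • x) * c) + dzb f k (c • x) * star c) / 2 * I_mul_I

theorem dzb_sc {f : E → ℂ} {x : E} {c : ℂ} (hf : DifferentiableAt ℝ f (c • x)) (k : Fin 3) :
    dzb (fun y => f (c • y)) k x = star c * dzb f k (c • x) := by
  rw [dzb, fderiv_sc hf, fderiv_sc hf, star_mul', star_mul', star_one, star_I]
  linear_combination (dz f k (c • x) * c - dzb f k (c • x) * star c) / 2 * I_mul_I

theorem levi_sc {f : E → ℂ} {x : E} {c : ℂ} (hf : ContDiffAt ℝ 2 f (c • x)) (j k : Fin 3) :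
    levi (fun y => f (c • y)) x j k = star c * (c * levi f (c • x) j k) := by
  have t : Tendsto (fun y : E => c • y) (𝓝 x) (𝓝 (c • x)) := (continuous_const_smul c).tendsto x
  have e : dzb (fun y => f (c • y)) k =ᶠ[𝓝 x] fun y => star c * dzb f k (c • y) :=
    (t.eventually (eventually_diff hf)).mono fun y hy => dzb_sc hy k
  have d := differentiableAt_dzb hf k
  have d' : DifferentiableAt ℝ (fun y => dzb f k (c • y)) x :=
    d.comp x (differentiableAt_id.const_smul c)
  rw [levi_apply, dz_congr e, dz_cmul _ d', dz_sc d, levi_apply]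

/-- logarithmically homogeneous functions -/
structure LH (Ω : Set E) (n : ℝ) (u : E → ℝ) : Prop where
  op : IsOpen Ω
  oc : ∀ x ∈ Ω, ∀ c : ℂ, c ≠ 0 → c • x ∈ Ω
  sm : ContDiffOn ℝ ∞ u Ω
  uh : ∀ x ∈ Ω, ∀ c : ℂ, c ≠ 0 → u (c • x) = u x - n * Real.log ‖c‖

variable {Ω : Set E} {n : ℝ} {u : E → ℝ} {x : E}

theorem LH.c2 (h : LH Ω n u) (hx : x ∈ Ω) : ContDiffAt ℝ 2 (cx u) x :=
  contDiffAt_ofReal.2 ((h.sm.contDiffAt (h.op.mem_nhds hx)).of_le (ENat.LEInfty.out (m := 2)))

theorem LH.eul (h : LH Ω n u) (hx : x ∈ Ω) : x ⬝ᵥ gr u x = -((n : ℂ) / 2) := by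
  have key : ∀ w : ℂ, fderiv ℝ (cx u) x (w • x) = -(n * w.re) := fun w => by
    have e : (fun t : ℝ => cx u (exp (t * w) • x)) = fun t : ℝ => (u x : ℂ) - t * (n * w.re) := by
      funext t
      rw [cx, h.uh x hx _ (exp_ne_zero _), norm_exp, Real.log_exp, re_ofReal_mul]
      push_cast
      ring
    have d := dir ((h.c2 hx).differentiableAt two_ne_zero) w
    rw [e] at d
    refine d.unique ?_
    simpa using ((hasDerivAt_id (0 : ℝ)).ofReal_comp.mul_const ((n : ℂ) * w.re)).const_sub (u x : ℂ)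
  have a := key 1
  have b := key I
  rw [fderiv_eq_dz] at a b
  simp only [Fin.sum_univ_three, Pi.smul_apply, smul_eq_mul, star_mul', star_one, star_I, one_re,
    I_re, ofReal_one, ofReal_zero] at a b
  simp only [dotProduct, Fin.sum_univ_three, gr]
  linear_combination a / 2 - I / 2 * b + (dz (cx u) 0 x * x 0 + dz (cx u) 1 x * x 1 +
    dz (cx u) 2 x * x 2 - dzb (cx u) 0 x * star (x 0) - dzb (cx u) 1 x * star (x 1) -
    dzb (cx u) 2 x * star (x 2)) / 2 * I_mul_I

theorem LH.hl (h : LH Ω n u) (hx : x ∈ Ω) : x ᵥ* HH u x = 0 := by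
  funext k
  have c := h.c2 hx
  have e : (fun y : E => ∑ j, y j * dz (cx u) j y) =ᶠ[𝓝 x] fun _ => -((n : ℂ) / 2) :=
    (h.op.eventually_mem hx).mono fun y hy => h.eul hy
  have a := dzb_congr e k
  have dj : ∀ j, DifferentiableAt ℝ (fun y : E => y j) x := fun j => differentiableAt_apply j x
  rw [dzb_const, dzb_sum _ fun j _ => (dj j).fun_mul (differentiableAt_dz c j)] at a
  show ∑ j, x j * HH u x j k = 0
  refine Eq.trans (Finset.sum_congr rfl fun j _ => ?_) a
  rw [dzb_mul (dj j) (differentiableAt_dz c j), dzb_coord, zero_mul, zero_add, ← dz_dzb_comm c]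
  rfl

theorem LH.hr (h : LH Ω n u) (hx : x ∈ Ω) : HH u x *ᵥ star x = 0 := by
  have a : (HH u x)ᴴ = HH u x := levi_herm_ofReal (h.c2 hx)
  rw [← a, ← star_vecMul, h.hl hx, star_zero]

theorem LH.lh (h : LH Ω n u) (hx : x ∈ Ω) {c : ℂ} (hc : c ≠ 0) :
    lap u (c • x) = lap u x / ‖c‖ ^ 2 := by
  have e : (fun y => cx u (c • y)) =ᶠ[𝓝 x] fun y => cx u y - ((n * Real.log ‖c‖ : ℝ) : ℂ) :=
    (h.op.eventually_mem hx).mono fun y hy => by
      show cx u (c • y) = cx u y - _
      rw [cx, cx, h.uh y hy c hc, ofReal_sub]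
  have a := levi_congr e
  rw [levi_sub (h.c2 hx) contDiffAt_const, levi_const, sub_zero] at a
  have b : HH u x = ((‖c‖ ^ 2 : ℝ) : ℂ) • HH u (c • x) := by
    ext j k
    rw [HH, ← a, levi_sc (h.c2 (h.oc x hx c hc)), ← mul_assoc, ← normSq_eq_norm_sq,
      normSq_eq_conj_mul_self]
    rfl
  rw [lap, lap, b, trace_smul, smul_eq_mul, re_ofReal_mul,
    mul_div_cancel_left₀ _ (pow_ne_zero _ (norm_ne_zero_iff.2 hc))]

variable {S : Set E} {d : ℕ} {A : E → E}

theorem dA (h : Bas S d A) (j : Fin 3) (x : E) : DifferentiableAt ℂ (fun y => A y j) x :=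
  differentiableAt_pi.1 (h.hol x) j

theorem eulA (h : Bas S d A) (j : Fin 3) (x : E) :
    ∑ k, dz (fun y => A y j) k x * x k = d * A x j := by
  have a := dir ((dA h j x).restrictScalars ℝ) 1
  have e : (fun t : ℝ => A (exp (t * 1) • x) j) = fun t : ℝ => exp (t * d) * A x j := by
    funext t
    rw [h.hom, mul_one, mul_comm (t : ℂ), exp_nat_mul]
    rfl
  rw [e, fderiv_eq_dz] at a
  have b : HasDerivAt (fun t : ℝ => exp (t * d) * A x j) (d * A x j) 0 := by
    simpa using ((hasDerivAt_id (0 : ℝ)).ofReal_comp.mul_const (d : ℂ)).cexp.mul_const (A x j)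
  simpa only [dzb_hol (dA h j x), zero_mul, add_zero, one_smul] using a.unique b

theorem eulB (h : Bas S d A) (k : Fin 3) (x : E) :
    ∑ j, ((if j = k then 1 else 0) * A x j + x j * dz (fun y => A y j) k x) = 0 := by
  have e : (fun y : E => ∑ j, y j * A y j) = fun _ => 0 := funext h.eul
  have a := dz_const (0 : ℂ) k x
  have dj : ∀ j, DifferentiableAt ℝ (fun y : E => y j) x := fun j => differentiableAt_apply j x
  rw [← e, dz_sum _ fun j _ => (dj j).fun_mul ((dA h j x).restrictScalars ℝ)] at a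
  refine Eq.trans (Finset.sum_congr rfl fun j _ => ?_) a
  rw [dz_mul (dj j) ((dA h j x).restrictScalars ℝ), dz_coord]

theorem xY (h : Bas S d A) (e : x ⬝ᵥ gr u x = -(((d : ℂ) + 1) / 2)) : x ⨯₃ YY A u x = 0 := by
  have a0 := eulA h 0 x
  have a1 := eulA h 1 x
  have a2 := eulA h 2 x
  have b0 := eulB h 0 x
  have b1 := eulB h 1 x
  have b2 := eulB h 2 x
  have c := h.eul x
  simp [Fin.sum_univ_three, dotProduct] at a0 a1 a2 b0 b1 b2 c e
  funext k
  fin_cases k
  · simp [YY, cu, cross_apply]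
    linear_combination b0 - a0 + 2 * gr u x 0 * c - 2 * A x 0 * e
  · simp [YY, cu, cross_apply]
    linear_combination b1 - a1 + 2 * gr u x 1 * c - 2 * A x 1 * e
  · simp [YY, cu, cross_apply]
    linear_combination b2 - a2 + 2 * gr u x 2 * c - 2 * A x 2 * e

theorem par {x a y : E} (hx : x ≠ 0) (h1 : x ⨯₃ y = 0) (h2 : x ⬝ᵥ a = 0) : a ⬝ᵥ y = 0 := by
  obtain ⟨j, hj⟩ := Function.ne_iff.1 hx
  have c0 := congrFun h1 0
  have c1 := congrFun h1 1
  have c2 := congrFun h1 2
  simp [cross_apply, dotProduct, Fin.sum_univ_three] at c0 c1 c2 h2 ⊢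
  refine (mul_eq_zero.1 (?_ : x j * _ = 0)).resolve_left hj
  fin_cases j
  · show x 0 * _ = 0
    linear_combination y 0 * h2 + a 1 * c2 - a 2 * c1
  · show x 1 * _ = 0
    linear_combination y 1 * h2 + a 2 * c0 - a 0 * c2
  · show x 2 * _ = 0
    linear_combination y 2 * h2 + a 0 * c1 - a 1 * c0

theorem lh0 (d : ℕ) : LH {0}ᶜ ((d : ℝ) + 1) (U0 d) where
  op := isOpen_compl_singleton
  oc := fun x hx c hc => smul_ne_zero hc hx
  sm := fun x hx => (contDiffAt_const.mul
    (contDiff_tt.contDiffAt.log (tt_pos hx).ne')).contDiffWithinAt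
  uh := fun x hx c hc => by
    rw [U0, U0, tt_smul, Real.log_mul (pow_ne_zero _ (norm_ne_zero_iff.2 hc)) (tt_pos hx).ne',
      Real.log_pow]
    push_cast
    ring

theorem ne0 (hx : x ∈ Om S) : x ≠ 0 := fun e => hx (Or.inl e)

theorem oc (h : Bas S d A) (hx : x ∈ Om S) {c : ℂ} (hc : c ≠ 0) : c • x ∈ Om S := by
  rintro (e | e)
  · exact smul_ne_zero hc (ne0 hx) e
  · have := h.cone _ e c⁻¹ (inv_ne_zero hc)
    rw [inv_smul_smul₀ hc] at this
    exact hx (Or.inr this)

end STR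

open STR in
theorem str_pf : StSTR := by
  intro S d A U h
  have hb := h.toBas
  have op : IsOpen (Om S) := h.cl.isOpen_compl
  have lU : LH (Om S) ((d : ℝ) + 1) U := ⟨op, fun x hx c hc => oc hb hx hc, h.sm, h.uh⟩
  have esm : ContDiffOn ℝ ∞ (el d U) (Om S) :=
    contDiffOn_const.mul (h.sm.sub ((lh0 d).sm.mono fun x hx => ne0 hx))
  have eh : ∀ x ∈ Om S, ∀ c : ℂ, c ≠ 0 → el d U (c • x) = el d U x := fun x hx c hc => by
    rw [el, el, h.uh x hx c hc, (lh0 d).uh x (ne0 hx) c hc]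
    ring
  have lE : LH (Om S) 0 (el d U) :=
    ⟨op, lU.oc, esm, fun x hx c hc => by rw [eh x hx c hc, zero_mul, sub_zero]⟩
  have eU : ∀ x ∈ Om S, x ⬝ᵥ gr U x = -(((d : ℂ) + 1) / 2) := fun x hx => by
    simpa using lU.eul hx
  have eU0 : ∀ x : E, x ≠ 0 → x ⬝ᵥ gr (U0 d) x = -(((d : ℂ) + 1) / 2) := fun x hx => by
    simpa using (lh0 d).eul hx
  refine ⟨op, fun c x hc => ⟨fun e => ?_, fun e => oc hb e hc⟩, esm, eh, fun x hx c hc => ?_,
    fun x hx c hc => lU.lh hx hc, eU, eU0, fun x hx => by simpa using lE.eul hx,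
    fun x hx => lU.hl hx, fun x hx => lU.hr hx, fun x hx => xY hb (eU x hx),
    fun x hx => par (ne0 hx) (xY hb (eU x hx)) (h.eul x), fun x hx => xY hb (eU0 x hx),
    fun x hx => par hx (xY hb (eU0 x hx)) (h.eul x), fun a b r ha => ?_⟩
  · have := oc hb e (inv_ne_zero hc)
    rwa [inv_smul_smul₀ hc] at this
  · have n0 : 0 < ‖c‖ := norm_pos_iff.2 hc
    have e : Real.exp (2 * (U x - ((d : ℝ) + 1) * Real.log ‖c‖)) =
        Real.exp (2 * U x) / ‖c‖ ^ (2 * d + 2) := by
      rw [← Real.exp_log (pow_pos n0 (2 * d + 2)), ← Real.exp_sub, Real.log_pow]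
      congr 1
      push_cast
      ring
    rw [ka, ka, h.uh x hx c hc, e, h.hom, tt_smul, norm_pow]
    field_simp
    ring
  · refine Metric.isCompact_of_isClosed_isBounded (isClosed_iff_frequently.2 fun p hp => ?_) ?_
    · have ct := contDiff_tt.continuous.tendsto p
      have t1 : a ≤ tt p := isClosed_Ici.mem_of_frequently_of_tendsto (hp.mono fun y e => e.2.1) ct
      have t2 : tt p ≤ b :=
        isClosed_Iic.mem_of_frequently_of_tendsto (hp.mono fun y e => e.2.2.1) ct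
      have po : p ∈ Om S := by
        rintro (rfl | e)
        · simp [tt] at t1
          linarith
        · obtain ⟨y, e1, e2⟩ := (hp.and_eventually (h.lim p e r)).exists
          exact (e2 fun n => e1.1 (Or.inr n)).not_ge e1.2.2.2
      exact ⟨po, t1, t2, isClosed_Ici.mem_of_frequently_of_tendsto (hp.mono fun y e => e.2.2.2)
        (esm.continuousOn.continuousAt (op.mem_nhds po))⟩
    · refine (Metric.isBounded_closedBall (x := (0 : E)) (r := √b)).subset fun y e => ?_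
      rw [mem_closedBall_zero_iff, pi_norm_le_iff_of_nonneg (Real.sqrt_nonneg _)]
      intro j
      refine Real.le_sqrt_of_sq_le (le_trans ?_ e.2.2.1)
      rw [← normSq_eq_norm_sq]
      exact Finset.single_le_sum (f := fun j => normSq (y j)) (fun i _ => normSq_nonneg _)
        (Finset.mem_univ j)

end Pool.Agent.Lib.MP_4e4ac8_an.LV
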