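import Pool.Agent.Lib.MP_4e4ac8_an.LV.St

/-! The topological term: the cut-off integral of the squared Hessian is close to `c0`. -/

namespace Pool.Agent.Lib.MP_4e4ac8_an.LV

open MeasureTheory Complex Matrix Filter Topology Set
open Pool.Agent.Lib.MP_813db1_ag.HS
open scoped ContDiff

namespace TOP

theorem tt_cont : Continuous tt := by
  unfold tt
  exact continuous_finsetSum _ fun j _ => continuous_normSq.comp (continuous_apply j)

theorem tt_bdd {b : ℝ} {s : Set E} (h : ∀ x ∈ s, tt x ≤ b) : Bornology.IsBounded s := by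
  refine (Metric.isBounded_closedBall (x := (0 : E)) (r := |b| + 1)).subset fun x hx => ?_
  rw [mem_closedBall_zero_iff, pi_norm_le_iff_of_nonneg (by positivity)]
  intro j
  have a : normSq (x j) ≤ tt x :=
    Finset.single_le_sum (f := fun j => normSq (x j)) (fun i _ => normSq_nonneg _)
      (Finset.mem_univ j)
  rw [Complex.normSq_eq_norm_sq] at a
  nlinarith [h x hx, le_abs_self b, norm_nonneg (x j), abs_nonneg b, sq_nonneg (‖x j‖ - 1)]

theorem K_cpt : IsCompact {x : E | 1 ≤ tt x ∧ tt x ≤ 8} :=
  Metric.isCompact_of_isClosed_isBounded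
    ((isClosed_le continuous_const tt_cont).inter (isClosed_le tt_cont continuous_const))
    (tt_bdd fun _ h => h.2)

theorem Th_cont : Continuous Th := by
  have := Real.smoothTransition.continuous
  unfold Th th th4 st
  fun_prop

theorem Th_zero {t : ℝ} (h : ¬ (1 ≤ t ∧ t ≤ 8)) : Th t = 0 := by
  unfold Th th th4 st
  rcases not_and_or.1 h with h | h
  · rw [Real.smoothTransition.zero_of_nonpos (by linarith [not_le.1 h]),
      Real.smoothTransition.zero_of_nonpos (by linarith [not_le.1 h]), sub_zero]
  · rw [Real.smoothTransition.one_of_one_le (by linarith [not_le.1 h]),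
      Real.smoothTransition.one_of_one_le (by linarith [not_le.1 h]), sub_self]

theorem Th_mem (t : ℝ) : 0 ≤ Th t ∧ Th t ≤ 1 := by
  unfold Th th th4 st
  refine ⟨?_, by linarith [Real.smoothTransition.le_one (t - 1),
    Real.smoothTransition.nonneg (t / 4 - 1)]⟩
  rcases le_total t 4 with h | h
  · rw [Real.smoothTransition.zero_of_nonpos (x := t / 4 - 1) (by linarith), sub_zero]
    exact Real.smoothTransition.nonneg _
  · rw [Real.smoothTransition.one_of_one_le (x := t - 1) (by linarith)]
    linarith [Real.smoothTransition.le_one (t / 4 - 1)]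

theorem ps_zero {x : E} (h : ¬ (1 ≤ tt x ∧ tt x ≤ 8)) : ps x = 0 := by
  rw [ps, Th_zero h, zero_div]

theorem ps_mem (x : E) : 0 ≤ ps x ∧ ps x ≤ 1 := by
  by_cases h : 1 ≤ tt x ∧ tt x ≤ 8
  · have a : 0 < tt x := by linarith [h.1]
    exact ⟨div_nonneg (Th_mem _).1 a.le, (div_le_one a).2 ((Th_mem _).2.trans h.1)⟩
  · rw [ps_zero h]; exact ⟨le_rfl, zero_le_one⟩

theorem ps_cont {s : Set E} (h : ∀ x ∈ s, 1 ≤ tt x) : ContinuousOn ps s :=
  (Th_cont.comp tt_cont).continuousOn.div tt_cont.continuousOn fun x hx => by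
    linarith [h x hx]

theorem DD_cont {P : E → Mx} {s : Set E} (h : ∀ j k, ContinuousOn (fun x => P x j k) s) :
    ContinuousOn (fun x => DD (P x) (P x)) s := by
  simp only [DD, Matrix.trace, Matrix.diag, Matrix.mul_apply]
  exact ((continuousOn_finsetSum _ fun j _ => h j j).mul
    (continuousOn_finsetSum _ fun j _ => h j j)).sub (continuousOn_finsetSum _ fun j _ =>
      continuousOn_finsetSum _ fun k _ => (h j k).mul (h k j))

theorem integ {F : Type} [NormedAddCommGroup F] {f : E → F} {K Ω : Set E} (hK : IsCompact K)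
    (hΩ : IsOpen Ω) (hc : ContinuousOn f K) (h0 : ∀ x ∈ Ω, x ∉ K → f x = 0) :
    Integrable (Ω.indicator f) :=
  (integrable_indicator_iff hΩ.measurableSet).2
    ((hc.integrableOn_compact hK).of_forall_sdiff_eq_zero hΩ.measurableSet fun x hx =>
      h0 x hx.1 hx.2)

theorem Op_open : IsOpen Op :=
  (isOpen_lt continuous_const tt_cont).inter (isOpen_lt tt_cont continuous_const)

end TOP

open TOP

theorem c0_pf : StC0 := by
  intro d
  have hi : Integrable fun x : E => ps x * (((d : ℝ) + 1) ^ 2 / (2 * tt x ^ 2)) := by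
    have := integ (f := fun x : E => ps x * (((d : ℝ) + 1) ^ 2 / (2 * tt x ^ 2))) K_cpt
      isOpen_univ ((ps_cont fun _ h => h.1).mul (continuousOn_const.div
        (continuous_const.mul (tt_cont.pow 2)).continuousOn fun x hx =>
          mul_ne_zero two_ne_zero (pow_ne_zero 2 (zero_lt_one.trans_le hx.1).ne'))) fun x _ hx => by rw [ps_zero hx, zero_mul]
    rwa [indicator_univ] at this
  refine (integral_pos_iff_support_of_nonneg (fun x => mul_nonneg (ps_mem x).1 (by positivity))
    hi).2 ?_
  have ho : IsOpen {x : E | 2 < tt x ∧ tt x < 4} :=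
    (isOpen_lt continuous_const tt_cont).inter (isOpen_lt tt_cont continuous_const)
  refine (ho.measure_pos volume ⟨fun _ => 1, ?_⟩).trans_le (measure_mono fun x hx => ?_)
  · simp only [mem_ofPred_eq, tt, Fin.sum_univ_three, map_one]; norm_num
  · have a : 0 < tt x := by linarith [hx.1]
    have b : Th (tt x) = 1 := by
      unfold Th th th4 st
      rw [Real.smoothTransition.one_of_one_le (by linarith [hx.1]),
        Real.smoothTransition.zero_of_nonpos (by linarith [hx.2]), sub_zero]
    rw [Function.mem_support, ps, b]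
    positivity

theorem top_pf : StTOP1 → StTOP2 → StTOP := by
  intro h1 h2 S d A U C c l0 H
  obtain ⟨C', hC⟩ := h2 S d A U C c l0 H
  refine ⟨2 * |C'|, fun L hL => ?_⟩
  obtain ⟨sm, e⟩ := h1 S d A U C c l0 H L hL
  have sub : ∀ x : E, 1 ≤ tt x ∧ tt x ≤ 8 → x ∈ Op := fun x h =>
    ⟨by linarith [h.1], by linarith [h.2]⟩
  have i1 : Integrable ((Om S).indicator fun x => (Xi d U L x : ℂ) * DD (HH U x) (HH U x)) := by
    refine integ (H.cpt 1 8 L one_pos) H.op (ContinuousOn.mul ?_ (DD_cont fun j k x hx => ?_))
      fun x hx hn => ?_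
    · exact continuous_ofReal.comp_continuousOn ((Real.smoothTransition.continuous.comp_continuousOn
        ((H.esm.continuousOn.mono fun x h => h.1).sub continuousOn_const)).mul
          (ps_cont fun x h => h.2.1))
    · exact (contDiffAt_levi_top (contDiffAt_ofReal.2
        (H.sm.contDiffAt (H.op.mem_nhds hx.1))) j k).continuousAt.continuousWithinAt
    · by_cases h : 1 ≤ tt x ∧ tt x ≤ 8
      · have : el d U x - L ≤ 0 := by
          by_contra hh
          exact hn ⟨hx, h.1, h.2, by linarith [not_le.1 hh]⟩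
        simp [Xi, ch, st, Real.smoothTransition.zero_of_nonpos this]
      · simp [Xi, ps_zero h]
  have i2 : Integrable (Op.indicator fun x =>
      (ps x : ℂ) * DD (MM (tf S d A U L) x) (MM (tf S d A U L) x)) := by
    refine integ K_cpt Op_open (ContinuousOn.mul ?_ (DD_cont fun j k x hx => ?_))
      fun x _ hn => by simp [ps_zero hn]
    · exact continuous_ofReal.comp_continuousOn (ps_cont fun x h => h.1)
    · exact (contDiffAt_dzb_top (contDiffAt_pi.1 (sm.contDiffAt (Op_open.mem_nhds (sub x hx))) j)
        k).continuousAt.continuousWithinAt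
  rw [← e, ← integral_indicator H.op.measurableSet, ← integral_indicator Op_open.measurableSet,
    ← integral_sub i1 i2, ← setIntegral_eq_integral_of_forall_compl_eq_zero (s := Zn S d U L)]
  · refine norm_setIntegral_le_of_norm_le_const (tt_bdd fun x h => h.2.2.1).measure_lt_top
      fun x hx => ?_
    have ho : x ∈ Op := ⟨by linarith [hx.2.1], by linarith [hx.2.2.1]⟩
    obtain ⟨a1, a2, a3⟩ := hC L hL x ho
    rw [indicator_of_mem hx.1, indicator_of_mem ho]
    rcases lt_or_ge (el d U x) L with h | h
    · have : el d U x - L ≤ 0 := by linarith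
      simp [Xi, ch, st, Real.smoothTransition.zero_of_nonpos this, a1 fun _ => h]
    rcases lt_or_ge (L + 1) (el d U x) with h' | h'
    · have : 1 ≤ el d U x - L := by linarith
      simp [Xi, ch, st, Real.smoothTransition.one_of_one_le this, a2 hx.1 h']
    obtain ⟨b1, b2⟩ := a3 hx.1 h h'
    have p := ps_mem x
    have q : 0 ≤ Xi d U L x ∧ Xi d U L x ≤ 1 :=
      ⟨mul_nonneg (Real.smoothTransition.nonneg _) p.1,
        mul_le_one₀ (Real.smoothTransition.le_one _) p.1 p.2⟩
    refine (norm_sub_le _ _).trans ?_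
    rw [norm_mul, norm_mul, Complex.norm_real, Complex.norm_real, Real.norm_of_nonneg p.1,
      Real.norm_of_nonneg q.1]
    have c1 := mul_le_mul q.2 (b2.trans (le_abs_self _)) (norm_nonneg _) zero_le_one
    have c2 := mul_le_mul p.2 (b1.trans (le_abs_self _)) (norm_nonneg _) zero_le_one
    linarith
  · intro x hx
    by_cases h : 1 ≤ tt x ∧ tt x ≤ 8
    swap
    · rw [indicator_apply_eq_zero.2 fun _ => by simp [Xi, ps_zero h],
        indicator_apply_eq_zero.2 fun _ => by simp [ps_zero h], sub_zero]
    obtain ⟨a1, a2, -⟩ := hC L hL x (sub x h)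
    rw [indicator_of_mem (sub x h)]
    by_cases ho : x ∈ Om S
    swap
    · rw [indicator_of_notMem ho, a1 fun k => absurd k ho]; simp
    rw [indicator_of_mem ho]
    rcases lt_or_ge (el d U x) L with h' | h'
    · have : el d U x - L ≤ 0 := by linarith
      simp [Xi, ch, st, Real.smoothTransition.zero_of_nonpos this, a1 fun _ => h']
    have h'' : L + 1 < el d U x := by
      by_contra hh
      exact hx ⟨ho, by linarith [h.1], by linarith [h.2], by linarith, by linarith [not_lt.1 hh]⟩
    have : 1 ≤ el d U x - L := by linarith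
    simp [Xi, ch, st, Real.smoothTransition.one_of_one_le this, a2 ho h'']

end Pool.Agent.Lib.MP_4e4ac8_an.LV
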