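import Pool.Agent.Lib.MP_4e4ac8_an.LV.W

/-! The glued form is smooth and has the same integral as the model form. -/

namespace Pool.Agent.Lib.MP_4e4ac8_an.LV

open MeasureTheory Complex Matrix Filter Topology Set
open Pool.Agent.Lib.MP_813db1_ag.HS
open scoped ContDiff

noncomputable section

namespace TOP1

variable {S : Set E} {d : ℕ} {A : E → E} {U : E → ℝ} {C c l0 L : ℝ} {x : E}

theorem st_cd : ContDiff ℝ ∞ st := Real.smoothTransition.contDiff

theorem Th_cd : ContDiff ℝ ∞ Th :=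
  (st_cd.comp (contDiff_id.sub contDiff_const)).sub
    (st_cd.comp ((contDiff_id.div_const 4).sub contDiff_const))

theorem Th_zero {t : ℝ} (h : ¬(1 ≤ t ∧ t ≤ 8)) : Th t = 0 := by
  rcases not_and_or.1 h with h | h
  · rw [Th, th, th4, st, Real.smoothTransition.zero_of_nonpos (by linarith [not_le.1 h]),
      Real.smoothTransition.zero_of_nonpos (by linarith [not_le.1 h]), sub_zero]
  · rw [Th, th, th4, st, Real.smoothTransition.one_of_one_le (by linarith [not_le.1 h]),
      Real.smoothTransition.one_of_one_le (by linarith [not_le.1 h]), sub_self]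

theorem op_ne (h : x ∈ Op) : x ≠ 0 := ne_zero_of_tt (by linarith [h.1])

/-- the support of the radial bump -/
def KK : Set E := {x | 1 ≤ tt x ∧ tt x ≤ 8}

theorem KK_cpt : IsCompact KK :=
  (isCompact_tt 8).of_isClosed_subset ((isClosed_le continuous_const continuous_tt).inter
    (isClosed_le continuous_tt continuous_const)) fun _ h => h.2

theorem KK_sub : KK ⊆ Op := fun _ h => ⟨by linarith [h.1], by linarith [h.2]⟩

theorem ps_zero (h : x ∉ KK) : ps x = 0 := by rw [ps, Th_zero h, zero_div]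

theorem cda_ps (h : x ≠ 0) : ContDiffAt ℝ ∞ ps x :=
  (Th_cd.comp contDiff_tt).contDiffAt.div contDiff_tt.contDiffAt (tt_pos h).ne'

theorem ts_ps : Ts Op ps :=
  ⟨fun _ h => (cda_ps (op_ne h)).contDiffWithinAt, KK, KK_cpt, KK_sub, fun _ _ h => ps_zero h⟩

theorem gr_ps (h : x ≠ 0) : ∃ p : ℝ, gr ps x = (p : ℂ) • star x := by
  have d1 : DifferentiableAt ℝ (fun t => Th t / t) (tt x) :=
    (Th_cd.differentiable (by simp) _).div differentiableAt_id (tt_pos h).ne'
  exact ⟨_, gr_tt x ▸ gr_comp (Φ := fun t => Th t / t) d1.hasDerivAt contDiff_tt.contDiffAt⟩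

theorem int_ps {f : E → ℂ} (hf : ∀ x ∈ Op, ContDiffAt ℝ ∞ f x) :
    IntegrableOn (fun x => (ps x : ℂ) * f x) Op := by
  have h : ContinuousOn (fun x => (ps x : ℂ) * f x) KK := fun x hx =>
    ((cd_cx.2 (cda_ps (op_ne (KK_sub hx)))).mul (hf x (KK_sub hx))).continuousAt.continuousWithinAt
  refine (h.integrableOn_compact KK_cpt).of_forall_diff_eq_zero isOpen_Op.measurableSet ?_
  intro x hx
  rw [ps_zero hx.2, ofReal_zero, zero_mul]

theorem cda_lam (hA : Differentiable ℂ A) (h : x ≠ 0) (ha : A x ≠ 0) :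
    ContDiffAt ℝ ∞ (lam A (U0 d)) x := by
  have h1 : ContDiffAt ℝ ∞ (fun y => 1 / (2 * tt (A y))) x :=
    contDiffAt_const.div (contDiffAt_const.mul (cda_tt (cda_hol hA x)))
      (mul_pos two_pos (tt_pos ha)).ne'
  exact (cd_cx.2 h1).smul (cda_cross (cda_starv (cda_hol hA x)) (cda_YY hA (cda_U0 d h)))

theorem cda_tf (h : Ctx S d A U C c l0) (hL : L ≤ l0 - 2) (hx : x ∈ Op) :
    ContDiffAt ℝ ∞ (tf S d A U L) x := by
  have x0 := op_ne hx
  have g0 := cda_gr (cda_U0 d x0)
  by_cases hS : x ∈ S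
  · refine (g0.sub (cda_lam (d := d) h.hol x0 (h.nz x hS))).congr_of_eventuallyEq ?_
    filter_upwards [h.lim x hS L] with y hy
    have e : (Om S).indicator (ch d U L) y = 0 := by
      by_cases hO : y ∈ Om S
      · rw [indicator_of_mem hO, ch, st, Real.smoothTransition.zero_of_nonpos]
        linarith [hy (mem_Om.1 hO).2]
      · exact indicator_of_notMem hO _
    simp [tf, e]
  · have hO : x ∈ Om S := mem_Om.2 ⟨x0, hS⟩
    have n := h.op.mem_nhds hO
    have he := h.esm.contDiffAt n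
    have gU := cda_gr (h.sm.contDiffAt n)
    by_cases ha : A x = 0
    · have hl : L + 1 < el d U x := by
        by_contra hc
        have := h.al x ⟨hx.1.le, hx.2.le⟩ fun _ => by linarith [not_lt.1 hc]
        rw [ha, tt_zero] at this
        linarith [h.c0]
      refine gU.congr_of_eventuallyEq ?_
      filter_upwards [n, he.continuousAt.eventually (lt_mem_nhds hl)] with y hy hy'
      have e : (Om S).indicator (ch d U L) y = 1 := by
        rw [indicator_of_mem hy, ch, st, Real.smoothTransition.one_of_one_le]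
        linarith
      simp [tf, e]
    · have hc : ContDiffAt ℝ ∞ ((Om S).indicator (ch d U L)) x := by
        refine (st_cd.contDiffAt.comp x
          (he.sub contDiffAt_const (g := fun _ => L))).congr_of_eventuallyEq ?_
        filter_upwards [n] with y hy using indicator_of_mem hy _
      exact ((cd_cx.2 hc).smul gU).add ((cd_cx.2 (contDiffAt_const.sub hc)).smul
        (g0.sub (cda_lam (d := d) h.hol x0 ha)))

theorem dot_lam (h : Ctx S d A U C c l0) (x0 : x ≠ 0) : x ⬝ᵥ lam A (U0 d) x = 0 := by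
  rw [lam, dotProduct_smul, triple_product_permutation, ← cross_anticomm, h.xY0 x x0]
  simp

theorem dot_tf (h : Ctx S d A U C c l0) (x0 : x ≠ 0) :
    x ⬝ᵥ tf S d A U L x = -(((d : ℂ) + 1) / 2) := by
  rw [tf, dotProduct_add, dotProduct_smul, dotProduct_smul, dotProduct_sub, dot_lam h x0,
    h.eU0 x x0]
  by_cases hO : x ∈ Om S
  · rw [h.eU x hO]; push_cast; simp only [smul_eq_mul]; ring
  · simp [indicator_of_notMem hO]

theorem vec_MM {m : E → E} {k : ℂ} (hm : ContDiffAt ℝ ∞ m x) (e : ∀ᶠ y in 𝓝 x, y ⬝ᵥ m y = k) :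
    x ᵥ* MM m x = 0 := by
  funext j
  have d1 : ∀ i, DifferentiableAt ℝ (fun y : E => y i) x := fun i => by fun_prop
  have d2 : ∀ i, DifferentiableAt ℝ (fun y : E => m y i) x := fun i => cdd (contDiffAt_pi.1 hm i)
  have := (dzb_congr e j).trans (dzb_const k j x)
  simp only [dotProduct] at this
  rw [dzb_sum _ fun i _ => (d1 i).fun_mul (d2 i)] at this
  simp only [fun i => dzb_mul (d1 i) (d2 i) j, dzb_coord, zero_mul, zero_add] at this
  exact this

theorem MM_sub {l m : E → E} (hl : ContDiffAt ℝ ∞ l x) (hm : ContDiffAt ℝ ∞ m x) :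
    MM (fun y => l y - m y) x = MM l x - MM m x := by
  ext j k
  exact dzb_sub (cdd (contDiffAt_pi.1 hl j)) (cdd (contDiffAt_pi.1 hm j)) k

theorem MM_add {l m : E → E} (hl : ContDiffAt ℝ ∞ l x) (hm : ContDiffAt ℝ ∞ m x) :
    MM (fun y => l y + m y) x = MM l x + MM m x := by
  ext j k
  exact dzb_add (cdd (contDiffAt_pi.1 hl j)) (cdd (contDiffAt_pi.1 hm j)) k

end TOP1

open TOP1 in
theorem top1_pf : StL1 → StTOP1 := by
  intro L1 S d A U C c l0 h L hL
  have ht : ∀ x ∈ Op, ContDiffAt ℝ ∞ (tf S d A U L) x := fun x hx => cda_tf h hL hx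
  have hg : ∀ x ∈ Op, ContDiffAt ℝ ∞ (gr (U0 d)) x := fun x hx => cda_gr (cda_U0 d (op_ne hx))
  refine ⟨fun x hx => (ht x hx).contDiffWithinAt, ?_⟩
  have ms := isOpen_Op.measurableSet
  have key := L1 Op (fun y => tf S d A U L y - gr (U0 d) y) (fun y => tf S d A U L y + gr (U0 d) y)
    ps isOpen_Op (fun x hx => ((ht x hx).sub (hg x hx)).contDiffWithinAt)
    (fun x hx => ((ht x hx).add (hg x hx)).contDiffWithinAt) ts_ps
  have r0 : ∀ x ∈ Op, DD (vecMulVec (tf S d A U L x - gr (U0 d) x) (star (gr ps x)))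
      (MM (fun y => tf S d A U L y + gr (U0 d) y) x) = 0 := fun x hx => by
    have x0 := op_ne hx
    obtain ⟨p, hp⟩ := gr_ps x0
    have e1 : (tf S d A U L x - gr (U0 d) x) ⬝ᵥ x = 0 := by
      rw [dotProduct_comm, dotProduct_sub, dot_tf h x0, h.eU0 x x0, sub_self]
    have e2 : x ᵥ* MM (fun y => tf S d A U L y + gr (U0 d) y) x = 0 := by
      refine vec_MM (k := -(((d : ℂ) + 1) / 2) + -(((d : ℂ) + 1) / 2))
        ((ht x hx).add (hg x hx)) ?_
      filter_upwards [eventually_ne_nhds x0] with y hy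
      rw [dotProduct_add, dot_tf h hy, h.eU0 y hy]
    rw [hp, star_smul, star_star, DD_v, dotProduct_smul, e1, smul_dotProduct, dotProduct_mulVec, e2]
    simp
  rw [setIntegral_eq_zero_of_forall_eq_zero r0, neg_zero] at key
  have i1 := int_ps (f := fun x => DD (MM (tf S d A U L) x) (MM (tf S d A U L) x)) fun x hx =>
    cda_DD (cda_MM (ht x hx)) (cda_MM (ht x hx))
  have i2 := int_ps (f := fun x => DD (MM (gr (U0 d)) x) (MM (gr (U0 d)) x)) fun x hx =>
    cda_DD (cda_MM (hg x hx)) (cda_MM (hg x hx))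
  rw [setIntegral_congr_fun ms (g := fun x => (ps x : ℂ) *
      DD (MM (tf S d A U L) x) (MM (tf S d A U L) x) -
      (ps x : ℂ) * DD (MM (gr (U0 d)) x) (MM (gr (U0 d)) x)) fun x hx => by
    beta_reduce
    rw [MM_sub (ht x hx) (hg x hx), MM_add (ht x hx) (hg x hx), DD_sub_left, DD_add_right,
      DD_add_right, DD_comm (MM (gr (U0 d)) x) (MM (tf S d A U L) x)]
    ring, integral_sub i1 i2, sub_eq_zero] at key
  have z : ∀ x, x ∉ Op → ((ps x * (((d : ℝ) + 1) ^ 2 / (2 * tt x ^ 2)) : ℝ) : ℂ) = 0 :=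
    fun x hx => by rw [ps_zero fun hk => hx (KK_sub hk), zero_mul, ofReal_zero]
  rw [key, c0, ← integral_complex_ofReal, ← setIntegral_eq_integral_of_forall_compl_eq_zero z]
  refine setIntegral_congr_fun ms fun x hx => ?_
  beta_reduce
  rw [← HH_eq_MM (cda_U0 d (op_ne hx)), DD_U0 d (op_ne hx), ofReal_mul]

end

end Pool.Agent.Lib.MP_4e4ac8_an.LV
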