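import Pool.Agent.Lib.MP_4e4ac8_an.LV.St

/-! The upper bound of the dyadic step. -/

namespace Pool.Agent.Lib.MP_4e4ac8_an.LV

open MeasureTheory Complex Matrix Filter Topology Set
open Pool.Agent.Lib.MP_813db1_ag.HS
open scoped ContDiff

noncomputable section

namespace UP

theorem zone {F : Type} [NormedAddCommGroup F] [NormedSpace ℝ F] {Ω Z : Set E} {f : E → F} {M : ℝ}
    (hΩ : MeasurableSet Ω) (hZ : IsCompact Z) (hM : 0 ≤ M) (h0 : ∀ x ∈ Ω, x ∉ Z → f x = 0)
    (h1 : ∀ x ∈ Ω, x ∈ Z → ‖f x‖ ≤ M) : ‖∫ x in Ω, f x‖ ≤ M * volume.real Z := by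
  rw [setIntegral_eq_of_subset_of_forall_sdiff_eq_zero (s := Ω ∩ Z) hΩ inter_subset_left
    fun x hx => h0 x hx.1 fun h => hx.2 ⟨hx.1, h⟩]
  refine (norm_setIntegral_le_of_norm_le_const
    ((measure_mono inter_subset_right).trans_lt hZ.measure_lt_top) fun x hx => h1 x hx.1 hx.2).trans ?_
  exact mul_le_mul_of_nonneg_left (measureReal_mono inter_subset_right hZ.measure_lt_top.ne) hM

theorem intg {F : Type} [NormedAddCommGroup F] {Ω K : Set E} {f : E → F} (hΩ : IsOpen Ω)
    (hK : IsCompact K) (hs : K ⊆ Ω) (hf : ContinuousOn f Ω) (h0 : ∀ x ∈ Ω, x ∉ K → f x = 0) :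
    IntegrableOn f Ω :=
  ((hf.mono hs).integrableOn_compact hK).of_forall_sdiff_eq_zero hΩ.measurableSet
    fun x hx => h0 x hx.1 hx.2

theorem tt_nonneg (x : E) : 0 ≤ tt x := Finset.sum_nonneg fun _ _ => normSq_nonneg _

theorem tt_cont : Continuous tt :=
  continuous_finsetSum _ fun j _ => continuous_normSq.comp (continuous_apply j)

theorem norm_le_of_tt {x : E} (h : tt x ≤ 8) : ‖x‖ ≤ 3 := by
  refine (pi_norm_le_iff_of_nonneg (by norm_num)).2 fun j => ?_
  have h1 : normSq (x j) ≤ tt x :=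
    Finset.single_le_sum (f := fun j => normSq (x j)) (fun _ _ => normSq_nonneg _) (Finset.mem_univ j)
  rw [Complex.normSq_eq_norm_sq] at h1
  nlinarith [norm_nonneg (x j)]

theorem Th_lo {t : ℝ} (h : t ≤ 1) : Th t = 0 := by
  simp only [Th, th, th4, st]
  rw [Real.smoothTransition.zero_of_nonpos (by linarith),
    Real.smoothTransition.zero_of_nonpos (by linarith), sub_zero]

theorem Th_hi {t : ℝ} (h : 8 ≤ t) : Th t = 0 := by
  simp only [Th, th, th4, st]
  rw [Real.smoothTransition.one_of_one_le (by linarith),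
    Real.smoothTransition.one_of_one_le (by linarith), sub_self]

theorem Th_nonneg {t : ℝ} (h : 0 ≤ t) : 0 ≤ Th t :=
  sub_nonneg.2 (Real.smoothTransition.monotone (by linarith))

theorem Th_le (t : ℝ) : Th t ≤ 1 := by
  have h1 := Real.smoothTransition.le_one (t - 1)
  have h2 := Real.smoothTransition.nonneg (t / 4 - 1)
  simp only [Th, th, th4, st]
  linarith

theorem Th_smooth : ContDiff ℝ ∞ Th :=
  (Real.smoothTransition.contDiff.comp (contDiff_id.sub contDiff_const)).sub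
    (Real.smoothTransition.contDiff.comp ((contDiff_id.div_const 4).sub contDiff_const))

theorem Th2_cont : Continuous (deriv (deriv Th)) :=
  (Th_smooth.iterate_deriv 2).continuous

theorem Th2_zero {t : ℝ} (h : ¬ (1 ≤ t ∧ t ≤ 8)) : deriv (deriv Th) t = 0 := by
  have e : Th =ᶠ[𝓝 t] fun _ => 0 := by
    rcases not_and_or.1 h with h | h
    · exact (eventually_lt_nhds (not_le.1 h)).mono fun _ hs => Th_lo hs.le
    · exact (eventually_gt_nhds (not_le.1 h)).mono fun _ hs => Th_hi hs.le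
  rw [e.deriv.deriv_eq]
  simp

theorem ps_nonneg (x : E) : 0 ≤ ps x := div_nonneg (Th_nonneg (tt_nonneg x)) (tt_nonneg x)

theorem ps_zero {x : E} (h : ¬ (1 ≤ tt x ∧ tt x ≤ 8)) : ps x = 0 := by
  rcases not_and_or.1 h with h | h
  · rw [ps, Th_lo (not_le.1 h).le, zero_div]
  · rw [ps, Th_hi (not_le.1 h).le, zero_div]

theorem ps_le (x : E) : ps x ≤ 1 := by
  by_cases h : 1 ≤ tt x
  · exact (div_le_one (by linarith)).2 ((Th_le _).trans h)
  · rw [ps_zero fun e => h e.1]; exact zero_le_one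

theorem norm_ps (x : E) : ‖(ps x : ℂ)‖ ≤ 1 := by
  rw [Complex.norm_real, Real.norm_of_nonneg (ps_nonneg x)]; exact ps_le x

theorem cd2 {Ω : Set E} {u : E → ℝ} (hΩ : IsOpen Ω) (hu : ContDiffOn ℝ ∞ u Ω) {x : E}
    (hx : x ∈ Ω) : ContDiffAt ℝ ∞ (cx u) x :=
  contDiffAt_ofReal.2 (hu.contDiffAt (hΩ.mem_nhds hx))

theorem lap_add {u v : E → ℝ} {x : E} (hu : ContDiffAt ℝ ∞ (cx u) x) (hv : ContDiffAt ℝ ∞ (cx v) x) :
    lap (fun y => u y + v y) x = lap u x + lap v x := by
  have e : cx (fun y => u y + v y) = fun y => cx u y + cx v y := funext fun y => ofReal_add _ _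
  simp only [lap, HH]
  rw [e, levi_add (hu.of_le (by norm_cast)) (hv.of_le (by norm_cast)), trace_add, add_re]

theorem HH_zero {Ω K : Set E} {u : E → ℝ} (hΩ : IsOpen Ω) (hK : IsCompact K)
    (h0 : ∀ x ∈ Ω, x ∉ K → u x = 0) {x : E} (hx : x ∈ Ω) (hxK : x ∉ K) : HH u x = 0 := by
  have e : cx u =ᶠ[𝓝 x] fun _ => 0 := by
    filter_upwards [hΩ.mem_nhds hx, hK.isClosed.isOpen_compl.mem_nhds hxK] with y h1 h2
    simp [cx, h0 y h1 h2]
  rw [HH, levi_congr e, levi_const]

theorem DD_cont {Ω : Set E} {A : E → E} {u : E → ℝ} (hΩ : IsOpen Ω) (hA : Continuous A)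
    (hu : ContDiffOn ℝ ∞ u Ω) : ContinuousOn (fun x => DD (oo (A x)) (HH u x)) Ω := by
  have h1 : ∀ i j, ContinuousOn (fun x => HH u x i j) Ω := fun i j x hx =>
    (contDiffAt_levi_top (cd2 hΩ hu hx) i j).continuousAt.continuousWithinAt
  have h2 : ∀ i j, ContinuousOn (fun x => oo (A x) i j) Ω := fun i j =>
    (((continuous_apply i).comp hA).mul ((continuous_apply j).comp hA).star).continuousOn
  simp only [DD, trace, diag, mul_apply]
  exact ((continuousOn_finsetSum _ fun i _ => h2 i i).mul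
    (continuousOn_finsetSum _ fun i _ => h1 i i)).sub
    (continuousOn_finsetSum _ fun i _ => continuousOn_finsetSum _ fun j _ => (h2 i j).mul (h1 j i))

theorem exp_sub_one {v a : ℝ} (h : |v| ≤ a) : |Real.exp (2 * v) - 1| ≤ 2 * |v| * Real.exp (2 * a) := by
  have h1 := Real.add_one_le_exp (2 * v)
  have h2 := Real.add_one_le_exp (-(2 * v))
  have h3 : Real.exp (2 * v) * Real.exp (-(2 * v)) = 1 := by rw [← Real.exp_add]; simp
  have h4 : Real.exp (2 * v) ≤ Real.exp (2 * a) := Real.exp_le_exp.2 (by linarith [le_abs_self v])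
  have h5 : 1 ≤ Real.exp (2 * a) := Real.one_le_exp (by linarith [abs_nonneg v])
  have h6 := Real.exp_pos (2 * v)
  have h7 := abs_nonneg v
  refine abs_le.2 ⟨?_, ?_⟩
  · nlinarith [neg_abs_le v]
  · have : Real.exp (2 * v) - 1 ≤ 2 * v * Real.exp (2 * v) := by nlinarith
    nlinarith [le_abs_self v, mul_le_mul_of_nonneg_left h4 h7]

end UP

open UP in
theorem up_pf : StL3a → StL3b → StXI → StZB → StVOL → StUP := by
  intro h3a h3b hXI hZB hVOL S d A U C c l0 h K0 C1
  obtain ⟨Cz, hz⟩ := hZB S d A U C c l0 h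
  obtain ⟨Cv, Lv, hv⟩ := hVOL S d A U C c l0 h
  set a : ℝ := |C1| * Real.exp 1 + 1 with ha
  have a0 : 0 ≤ a := by positivity
  have C0 : 0 ≤ C := zero_le_one.trans h.C1
  set M : ℝ := C * (2 * a * Real.exp (2 * a)) * |Cz| with hM
  have M0 : 0 ≤ M := by positivity
  set B : ℝ := volume.real (Metric.closedBall (0 : E) 3) with hB
  have B0 : 0 ≤ B := measureReal_nonneg
  refine ⟨(|Cz| * |Cv| + M * |Cv|) / 4 + B, min Lv 0, fun L hL γ V γ0 γ1 hV => ?_⟩
  have L0 : L ≤ 0 := hL.trans (min_le_right _ _)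
  have hvol : volume.real (Zn S d U L) ≤ |Cv| * Real.exp (L / 2) :=
    (hv L (hL.trans (min_le_left _ _))).trans
      (mul_le_mul_of_nonneg_right (le_abs_self _) (Real.exp_pos _).le)
  obtain ⟨hT, hx⟩ := hXI S d A U C c l0 h L
  have op := h.op
  have hW : ContDiffOn ℝ ∞ (fun y => U y + V y) (Om S) := h.sm.add hV.1.contDiffOn
  have ch0 : ∀ x, 0 ≤ ch d U L x := fun x => Real.smoothTransition.nonneg _
  have ch1 : ∀ x, ch d U L x ≤ 1 := fun x => Real.smoothTransition.le_one _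
  have chz : ∀ x, ¬ L ≤ el d U x → ch d U L x = 0 := fun x e =>
    Real.smoothTransition.zero_of_nonpos (by linarith [not_le.1 e])
  have X0 : ∀ x, 0 ≤ Xi d U L x := fun x => mul_nonneg (ch0 x) (ps_nonneg x)
  have X1 : ∀ x, Xi d U L x ≤ 1 := fun x => mul_le_one₀ (ch1 x) (ps_nonneg x) (ps_le x)
  have main := h3b (Om S) A _ (Xi d U L) op h.hol hW hT fun x _ => X0 x
  have ann : ∀ x : E, 1 ≤ tt x ∧ tt x ≤ 8 → x ∈ Ann := fun x e =>
    ⟨by linarith [e.1], by linarith [e.2]⟩
  -- the residual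
  have res : ∫ x in Om S, Xi d U L x * (lap (fun y => U y + V y) x -
      Real.exp (2 * (U x + V x)) * tt (A x) / 4) ^ 2 ≤ B * Real.exp (L / 4) := by
    refine (Real.le_norm_self _).trans ((zone (M := Real.exp (L / 4)) op.measurableSet
      (isCompact_closedBall (0 : E) 3) (Real.exp_pos _).le (fun x _ e => ?_) fun x hx _ => ?_).trans
      (mul_comm _ _).le)
    · rw [Xi, ps_zero fun e' => e (mem_closedBall_zero_iff.2 (norm_le_of_tt e'.2)), mul_zero, zero_mul]
    · by_cases e1 : 1 ≤ tt x ∧ tt x ≤ 8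
      swap
      · rw [Xi, ps_zero e1, mul_zero, zero_mul, norm_zero]; exact (Real.exp_pos _).le
      by_cases e2 : L ≤ el d U x
      swap
      · rw [Xi, chz x e2, zero_mul, zero_mul, norm_zero]; exact (Real.exp_pos _).le
      have r := (hV.2 x hx (ann x e1) (by linarith)).2.2
      have e : lap (fun y => U y + V y) x - Real.exp (2 * (U x + V x)) * tt (A x) / 4 =
          lap V x - ka A U x * (Real.exp (2 * V x) - 1) / 4 - RR A U x := by
        rw [lap_add (cd2 op h.sm hx) (cd2 op hV.1.contDiffOn hx), mul_add, Real.exp_add, RR, ka]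
        ring
      rw [e, Real.norm_of_nonneg (mul_nonneg (X0 x) (sq_nonneg _))]
      have r2 := sq_le_sq' (abs_le.1 r).1 (abs_le.1 r).2
      have g1 : Real.exp (7 / 8 * L) ≤ 1 := Real.exp_le_one_iff.2 (by linarith)
      have g2 : Real.exp (7 / 8 * L) ≤ Real.exp (L / 4) := Real.exp_le_exp.2 (by linarith)
      have g3 : γ ^ 2 ≤ Real.exp (L / 4) := by nlinarith
      exact (mul_le_of_le_one_left (sq_nonneg _) (X1 x)).trans (r2.trans g3)
  have hZn : IsCompact (Zn S d U L) := by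
    have hK := h.cpt (1 / 2) 9 (L - 1) (by norm_num)
    have e : Zn S d U L = {x | x ∈ Om S ∧ 1 / 2 ≤ tt x ∧ tt x ≤ 9 ∧ L - 1 ≤ el d U x} ∩
        el d U ⁻¹' Iic (L + 2) := by
      ext x; simp only [Zn, mem_ofPred_eq, mem_inter_iff, mem_preimage, mem_Iic, and_assoc]
    rw [e]
    exact hK.of_isClosed_subset ((h.esm.continuousOn.mono fun x hx => hx.1).preimage_isClosed_of_isClosed
      hK.isClosed isClosed_Iic) inter_subset_left
  have inZ : ∀ x ∈ Om S, 1 ≤ tt x ∧ tt x ≤ 8 → el d U x ∈ Icc L (L + 1) → x ∈ Zn S d U L :=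
    fun x hx e1 e2 => ⟨hx, by linarith [e1.1], by linarith [e1.2], by linarith [e2.1],
      by linarith [e2.2]⟩
  -- the part without `V`
  have p1 : ‖∫ x in Om S, (Real.exp (2 * U x) : ℂ) * DD (oo (A x)) (HH (Xi d U L) x)‖ ≤
      |Cz| * volume.real (Zn S d U L) := by
    rw [h3a (Om S) A U (Xi d U L) op h.hol h.sm hT, norm_neg]
    have key : ∀ x ∈ Om S, ¬ ((1 ≤ tt x ∧ tt x ≤ 8) ∧ el d U x ∈ Icc L (L + 1)) →
        (Real.exp (2 * U x) : ℂ) * ((star (gr (Xi d U L) x) ⨯₃ star (A x)) ⬝ᵥ YY A U x) = 0 := by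
      intro x hx' e
      rw [(hx x hx').2.2.2]
      rcases not_and_or.1 e with e | e
      · rw [ps_zero e]; simp
      · rw [((hz L x hx').1 e).1]; simp
    refine zone op.measurableSet hZn (abs_nonneg _)
      (fun x hx' e => key x hx' fun e' => e (inZ x hx' e'.1 e'.2)) fun x hx' _ => ?_
    by_cases e : (1 ≤ tt x ∧ tt x ≤ 8) ∧ el d U x ∈ Icc L (L + 1)
    swap
    · rw [key x hx' e, norm_zero]; exact abs_nonneg _
    have b := ((hz L x hx').2 (ann x e.1) e.2).2.2.2.2
    rw [(hx x hx').2.2.2, mul_left_comm, norm_mul, norm_mul, Complex.norm_real (Real.exp _),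
      Real.norm_of_nonneg (Real.exp_pos _).le]
    exact (mul_le_of_le_one_left (by positivity) (norm_ps x)).trans (b.trans (le_abs_self _))
  -- the zone part with `V`
  have p2 : ‖∫ x in Om S, ((Real.exp (2 * U x) * (Real.exp (2 * V x) - 1) : ℝ) : ℂ) *
      (ps x * DD (oo (A x)) (HH (ch d U L) x))‖ ≤
      M * Real.exp (-(L / 8)) * volume.real (Zn S d U L) := by
    have key : ∀ x ∈ Om S, ¬ ((1 ≤ tt x ∧ tt x ≤ 8) ∧ el d U x ∈ Icc L (L + 1)) →
        ((Real.exp (2 * U x) * (Real.exp (2 * V x) - 1) : ℝ) : ℂ) *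
          (ps x * DD (oo (A x)) (HH (ch d U L) x)) = 0 := by
      intro x hx' e
      rcases not_and_or.1 e with e | e
      · rw [ps_zero e]; simp
      · rw [((hz L x hx').1 e).2]; simp [DD]
    refine zone op.measurableSet hZn (by positivity)
      (fun x hx' e => key x hx' fun e' => e (inZ x hx' e'.1 e'.2)) fun x hx' _ => ?_
    by_cases e : (1 ≤ tt x ∧ tt x ≤ 8) ∧ el d U x ∈ Icc L (L + 1)
    swap
    · rw [key x hx' e, norm_zero]; positivity
    have b := (((hz L x hx').2 (ann x e.1) e.2).1).trans (le_abs_self _)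
    have v1 := (hV.2 x hx' (ann x e.1) (by linarith [e.2.1])).2.1
    have g1 : Real.exp (7 / 8 * L) ≤ 1 := Real.exp_le_one_iff.2 (by linarith)
    have g2 : Real.exp (7 / 8 * el d U x) ≤ Real.exp 1 * Real.exp (7 / 8 * L) := by
      rw [← Real.exp_add]; exact Real.exp_le_exp.2 (by linarith [e.2.2])
    have v2 : |V x| ≤ a * Real.exp (7 / 8 * L) := by
      have := mul_le_mul (le_abs_self C1) g2 (Real.exp_pos _).le (abs_nonneg _)
      rw [ha]; nlinarith
    have v3 : |V x| ≤ a := v2.trans (mul_le_of_le_one_right a0 g1)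
    have v4 : |Real.exp (2 * V x) - 1| ≤ 2 * (a * Real.exp (7 / 8 * L)) * Real.exp (2 * a) :=
      (exp_sub_one v3).trans (by gcongr)
    have u1 : Real.exp (2 * U x) ≤ C * Real.exp (-L) :=
      (h.eu x hx' (ann x e.1)).trans
        (mul_le_mul_of_nonneg_left (Real.exp_le_exp.2 (by linarith [e.2.1])) C0)
    have u2 : Real.exp (-L) * Real.exp (7 / 8 * L) = Real.exp (-(L / 8)) := by
      rw [← Real.exp_add]; congr 1; ring
    rw [norm_mul, norm_mul, Complex.norm_real (_ * _), Real.norm_eq_abs, abs_mul,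
      abs_of_pos (Real.exp_pos _)]
    calc _ ≤ (C * Real.exp (-L)) * (2 * (a * Real.exp (7 / 8 * L)) * Real.exp (2 * a)) *
          (1 * |Cz|) := by gcongr; exact norm_ps x
      _ = _ := by rw [← u2, hM]; ring
  -- integrability and splitting
  obtain ⟨hXs, K, hK, hKs, hK0⟩ := hT
  have Ac : Continuous A := h.hol.continuous
  have Dc := DD_cont op Ac hXs
  have Uc := h.sm.continuousOn
  have Vc := hV.1.continuous
  have i0 : ∀ w : E → ℝ, ContinuousOn w (Om S) → IntegrableOn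
      (fun x => (Real.exp (2 * w x) : ℂ) * DD (oo (A x)) (HH (Xi d U L) x)) (Om S) := fun w hw =>
    intg op hK hKs ((continuous_ofReal.comp_continuousOn
      (Real.continuous_exp.comp_continuousOn (continuousOn_const.mul hw))).mul Dc) fun x h1 h2 => by
        rw [HH_zero op hK hK0 h1 h2]; simp [DD]
  have i3 : IntegrableOn (fun x => ch d U L x * deriv (deriv Th) (tt x) *
      (ka A U x * (Real.exp (2 * V x) - 1) / 4)) (Om S) := by
    refine intg op (h.cpt 1 8 L one_pos) (fun x hx => hx.1) ?_ fun x h1 h2 => ?_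
    · refine ((Real.smoothTransition.continuous.comp_continuousOn
        (h.esm.continuousOn.sub continuousOn_const)).mul
        (Th2_cont.comp tt_cont).continuousOn).mul (ContinuousOn.div_const ?_ 4)
      exact ((Real.continuous_exp.comp_continuousOn (continuousOn_const.mul Uc)).mul
        (tt_cont.comp Ac).continuousOn).mul
        ((Real.continuous_exp.comp (continuous_const.mul Vc)).sub continuous_const).continuousOn
    · by_cases e1 : 1 ≤ tt x ∧ tt x ≤ 8
      · rw [chz x fun e => h2 ⟨h1, e1.1, e1.2, e⟩, zero_mul, zero_mul]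
      · rw [Th2_zero e1, mul_zero, zero_mul]
  have i3' : IntegrableOn (fun x => 4 * ((ch d U L x * deriv (deriv Th) (tt x) *
      (ka A U x * (Real.exp (2 * V x) - 1) / 4) : ℝ) : ℂ)) (Om S) := (i3.ofReal (𝕜 := ℂ)).const_mul 4
  have i4 : IntegrableOn (fun x =>
      (Real.exp (2 * (U x + V x)) : ℂ) * DD (oo (A x)) (HH (Xi d U L) x) -
      (Real.exp (2 * U x) : ℂ) * DD (oo (A x)) (HH (Xi d U L) x)) (Om S) :=
    (i0 _ hW.continuousOn).sub (i0 _ Uc)
  have pt : ∀ x ∈ Om S, ((Real.exp (2 * U x) * (Real.exp (2 * V x) - 1) : ℝ) : ℂ) *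
      (ps x * DD (oo (A x)) (HH (ch d U L) x)) =
      (Real.exp (2 * (U x + V x)) : ℂ) * DD (oo (A x)) (HH (Xi d U L) x) -
      (Real.exp (2 * U x) : ℂ) * DD (oo (A x)) (HH (Xi d U L) x) -
      4 * ((ch d U L x * deriv (deriv Th) (tt x) *
        (ka A U x * (Real.exp (2 * V x) - 1) / 4) : ℝ) : ℂ) := fun x hx' => by
    rw [(hx x hx').1, mul_add 2 (U x), Real.exp_add, ka]
    simp only [ofReal_mul, ofReal_sub, ofReal_div, ofReal_one, ofReal_ofNat]
    ring
  rw [setIntegral_congr_fun op.measurableSet pt, integral_sub i4 i3',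
    integral_sub (i0 _ hW.continuousOn) (i0 _ Uc), integral_const_mul, integral_complex_ofReal] at p2
  have q1 := (re_le_norm _).trans p1
  have q2 := (re_le_norm _).trans p2
  simp only [sub_re, mul_re, re_ofNat, im_ofNat, ofReal_re, zero_mul, sub_zero] at q2
  have g1 : Real.exp (L / 2) ≤ Real.exp (L / 4) := Real.exp_le_exp.2 (by linarith)
  have g2 : Real.exp (-(L / 8)) * Real.exp (L / 2) ≤ Real.exp (L / 4) := by
    rw [← Real.exp_add]; exact Real.exp_le_exp.2 (by linarith)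
  have w1 : |Cz| * volume.real (Zn S d U L) ≤ |Cz| * |Cv| * Real.exp (L / 4) := by
    rw [mul_assoc]
    exact mul_le_mul_of_nonneg_left (hvol.trans (by gcongr)) (abs_nonneg _)
  have w2 : M * Real.exp (-(L / 8)) * volume.real (Zn S d U L) ≤ M * |Cv| * Real.exp (L / 4) := by
    calc _ ≤ M * Real.exp (-(L / 8)) * (|Cv| * Real.exp (L / 2)) := by gcongr
      _ = M * |Cv| * (Real.exp (-(L / 8)) * Real.exp (L / 2)) := by ring
      _ ≤ _ := by gcongr
  linarith

end

end Pool.Agent.Lib.MP_4e4ac8_an.LV
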