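import Pool.Agent.Lib.MP_4e4ac8_an.LV.St

/-! The volume of the zone near the cone. -/

namespace Pool.Agent.Lib.MP_4e4ac8_an.LV

open MeasureTheory Complex Matrix Filter Topology Set
open Pool.Agent.Lib.MP_813db1_ag.HS
open scoped ContDiff

namespace VOL

theorem tt_cast (a : E) : (tt a : ℂ) = ∑ j, a j * star (a j) := by
  simp only [tt, ofReal_sum, ← mul_conj]
  rfl

theorem tt_sm : ContDiff ℝ ∞ tt := by
  have h : ContDiff ℝ ∞ fun w : E => (tt w : ℂ) := by
    simp only [tt_cast]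
    exact ContDiff.sum fun j _ => (contDiff_apply ℝ ℂ j).mul
      (conjCLE.contDiff.comp (contDiff_apply ℝ ℂ j))
  exact reCLM.contDiff.comp h

theorem dz_tt (x : E) (k : Fin 3) : dz (fun w => (tt w : ℂ)) k x = star (x k) := by
  have h : ∀ j : Fin 3, DifferentiableAt ℝ (fun w : E => w j) x := fun j =>
    differentiableAt_apply j x
  simp only [tt_cast]
  rw [dz_sum _ fun j _ => (h j).fun_mul (h j).star]
  simp only [dz_mul (h _) (h _).star, dz_star, dz_coord, dzb_coord]
  simp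

/-- The divergence of `ψ(t) Φ(u) ∂bar u` has integral zero. -/
theorem key {Ω K : Set E} {u : E → ℝ} {ψ Φ : ℝ → ℝ} (hΩ : IsOpen Ω) (hu : ContDiffOn ℝ ∞ u Ω)
    (he : ∀ x ∈ Ω, x ⬝ᵥ gr u x = 0) (hψ : ContDiff ℝ ∞ ψ) (hΦ : ContDiff ℝ ∞ Φ) (hK : IsCompact K)
    (hs : K ⊆ Ω) (h0 : ∀ x ∈ Ω, x ∉ K → ψ (tt x) = 0 ∨ Φ (u x) = 0) :
    ∃ D : E → ℝ, Integrable D ∧ ∫ x, D x = 0 ∧ (∀ x, x ∉ Ω → D x = 0) ∧ ∀ x ∈ Ω,
      D x = ψ (tt x) * (deriv Φ (u x) * tt (gr u x) + Φ (u x) * lap u x) := by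
  obtain ⟨X, hX⟩ : ∃ X : Fin 3 → E → ℂ,
    X = fun k w => (ψ (tt w) : ℂ) * ((Φ (u w) : ℂ) * dzb (cx u) k w) := ⟨_, rfl⟩
  have ua : ∀ x ∈ Ω, ContDiffAt ℝ ∞ u x := fun x hx => hu.contDiffAt (hΩ.mem_nhds hx)
  have a1 : ∀ x, ContDiffAt ℝ ∞ (fun w => (ψ (tt w) : ℂ)) x := fun x =>
    contDiffAt_ofReal.2 (hψ.comp tt_sm).contDiffAt
  have a2 : ∀ x ∈ Ω, ContDiffAt ℝ ∞ (fun w => (Φ (u w) : ℂ)) x := fun x hx =>
    contDiffAt_ofReal.2 (hΦ.contDiffAt.comp x (ua x hx))
  have a3 : ∀ x ∈ Ω, ∀ k, ContDiffAt ℝ ∞ (dzb (cx u) k) x := fun x hx k =>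
    contDiffAt_dzb_top (contDiffAt_ofReal.2 (ua x hx)) k
  have z0 : ∀ k x, x ∉ K → Ω.indicator (X k) x = 0 := fun k x hx => by
    by_cases h : x ∈ Ω
    · rw [indicator_of_mem h, hX]
      rcases h0 x h hx with e | e <;> simp [e]
    · exact indicator_of_notMem h _
  have e1 : ∀ k, ∀ x ∈ Ω, Ω.indicator (X k) =ᶠ[𝓝 x] X k := fun k x hx =>
    (show ∀ᶠ y in 𝓝 x, y ∈ Ω from hΩ.mem_nhds hx).mono fun y hy => indicator_of_mem hy _
  have e0 : ∀ k x, x ∉ Ω → Ω.indicator (X k) =ᶠ[𝓝 x] fun _ => 0 := fun k x hx =>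
    (show ∀ᶠ y in 𝓝 x, y ∉ K from hK.isClosed.isOpen_compl.mem_nhds fun h => hx (hs h)).mono
      fun y hy => z0 k y hy
  have sm : ∀ k, ContDiff ℝ ∞ (Ω.indicator (X k)) := fun k => contDiff_iff_contDiffAt.2 fun x => by
    by_cases h : x ∈ Ω
    · refine ContDiffAt.congr_of_eventuallyEq ?_ (e1 k x h)
      rw [hX]
      exact (a1 x).mul ((a2 x h).mul (a3 x h k))
    · exact contDiffAt_const.congr_of_eventuallyEq (e0 k x h)
  have cs : ∀ k, HasCompactSupport (Ω.indicator (X k)) := fun k =>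
    HasCompactSupport.intro hK (z0 k)
  have it : ∀ k, Integrable (dz (Ω.indicator (X k)) k) := fun k =>
    ((integrable_fderiv ((sm k).of_le (by simp)) (cs k) _).sub
      ((integrable_fderiv ((sm k).of_le (by simp)) (cs k) _).const_mul I)).div_const 2
  have i2 : Integrable fun x => ∑ k, dz (Ω.indicator (X k)) k x :=
    integrable_finsetSum _ fun k _ => it k
  refine ⟨fun x => (∑ k, dz (Ω.indicator (X k)) k x).re, i2.re, ?_, fun x hx => ?_,
    fun x hx => ?_⟩
  · have := integral_re i2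
    simp only [RCLike.re_to_complex] at this
    rw [this, integral_finsetSum _ fun k _ => it k]
    simp [integral_dz_eq_zero ((sm _).of_le (by simp)) (cs _)]
  · simp [dz_congr (e0 _ x hx), dz_const]
  have d1 := (a1 x).differentiableAt (by simp)
  have d2 := (a2 x hx).differentiableAt (by simp)
  have d3 := fun k => (a3 x hx k).differentiableAt (by simp)
  have r1 := fun k => dz_real_comp (hψ.differentiable (by simp) (tt x)).hasDerivAt
    (tt_sm.differentiable (by simp) x) k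
  have r2 := fun k => dz_real_comp (hΦ.differentiable (by simp) (u x)).hasDerivAt
    ((ua x hx).differentiableAt (by simp)) k
  have b : ∀ k, dzb (cx u) k x = star (gr u x k) := fun k => dzb_ofReal u k x
  have e2 : ∀ k, dz (Ω.indicator (X k)) k x =
      deriv ψ (tt x) * Φ (u x) * star (x k * gr u x k) +
        ψ (tt x) * (deriv Φ (u x) * (gr u x k * star (gr u x k)) + Φ (u x) * HH u x k k) := by
    intro k
    rw [dz_congr (e1 k x hx), hX, dz_mul d1 (d2.fun_mul (d3 k)), dz_mul d2 (d3 k), r1, r2, dz_tt, b,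
      star_mul', show dz (fun w => (u w : ℂ)) k x = gr u x k from rfl,
      show dz (dzb (cx u) k) k x = HH u x k k from rfl]
    ring
  have e3 : ∑ k, star (x k * gr u x k) = 0 := by
    rw [← star_sum]
    exact star_eq_zero.2 (he x hx)
  simp only [e2, Finset.sum_add_distrib, ← Finset.mul_sum, e3, ← tt_cast, mul_zero, zero_add]
  simp [lap, trace]

theorem exj : ∃ j : ℝ → ℝ, ContDiff ℝ ∞ j ∧ (∀ s ≤ -2, j s = 0) ∧
    (∀ s, 0 ≤ j s ∧ j s ≤ 4 ∧ 0 ≤ deriv j s) ∧ ∀ s, -1 ≤ s → s ≤ 2 → 1 / 5 ≤ deriv j s := by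
  have s1 : ContDiff ℝ ∞ fun s : ℝ => Real.smoothTransition (s + 2) :=
    Real.smoothTransition.contDiff.comp (contDiff_id.add contDiff_const)
  have m1 : Monotone fun s : ℝ => Real.smoothTransition (s + 2) := fun a b h =>
    Real.smoothTransition.monotone (by linarith)
  have g1 : ∀ s, 0 ≤ Real.arctan s + 2 ∧ Real.arctan s + 2 ≤ 4 := fun s => by
    constructor <;>
      linarith [Real.neg_pi_div_two_lt_arctan s, Real.arctan_lt_pi_div_two s, Real.pi_le_four]
  have dj : ∀ s, Real.smoothTransition (s + 2) * (1 / (1 + s ^ 2)) ≤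
      deriv (fun s => Real.smoothTransition (s + 2) * (Real.arctan s + 2)) s := fun s => by
    rw [((s1.differentiable (by simp) s).hasDerivAt.fun_mul
      ((Real.hasDerivAt_arctan s).add_const 2)).deriv]
    exact le_add_of_nonneg_left (mul_nonneg m1.deriv_nonneg (g1 s).1)
  refine ⟨fun s => Real.smoothTransition (s + 2) * (Real.arctan s + 2),
    s1.mul (Real.contDiff_arctan.add contDiff_const), fun s hs => ?_, fun s => ⟨?_, ?_, ?_⟩,
    fun s h1 h2 => le_trans ?_ (dj s)⟩
  · simp only [Real.smoothTransition.zero_of_nonpos (show s + 2 ≤ 0 by linarith), zero_mul]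
  · exact mul_nonneg (Real.smoothTransition.nonneg _) (g1 s).1
  · nlinarith [Real.smoothTransition.le_one (s + 2), g1 s]
  · exact le_trans (mul_nonneg (Real.smoothTransition.nonneg _) (by positivity)) (dj s)
  · rw [Real.smoothTransition.one_of_one_le (by linarith), one_mul]
    exact one_div_le_one_div_of_le (by positivity) (by nlinarith)

theorem exψ : ∃ ψ : ℝ → ℝ, ContDiff ℝ ∞ ψ ∧ (∀ t, ¬ (1 / 4 ≤ t ∧ t ≤ 16) → ψ t = 0) ∧
    (∀ t, 0 ≤ ψ t ∧ ψ t ≤ 1) ∧ ∀ t, 1 / 2 ≤ t → t ≤ 9 → ψ t = 1 := by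
  refine ⟨fun t => Real.smoothTransition (4 * t - 1) * Real.smoothTransition (10 - t),
    (Real.smoothTransition.contDiff.comp (by fun_prop)).mul
      (Real.smoothTransition.contDiff.comp (by fun_prop)), fun t ht => ?_, fun t => ⟨?_, ?_⟩,
    fun t h1 h2 => ?_⟩
  · rcases not_and_or.1 ht with h | h
    · simp only [Real.smoothTransition.zero_of_nonpos (show 4 * t - 1 ≤ 0 by linarith), zero_mul]
    · simp only [Real.smoothTransition.zero_of_nonpos (show 10 - t ≤ 0 by linarith), mul_zero]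
  · exact mul_nonneg (Real.smoothTransition.nonneg _) (Real.smoothTransition.nonneg _)
  · exact mul_le_one₀ (Real.smoothTransition.le_one _) (Real.smoothTransition.nonneg _)
      (Real.smoothTransition.le_one _)
  · simp only [Real.smoothTransition.one_of_one_le (show 1 ≤ 4 * t - 1 by linarith),
      Real.smoothTransition.one_of_one_le (show 1 ≤ 10 - t by linarith), mul_one]

theorem tt_nonneg (a : E) : 0 ≤ tt a := Finset.sum_nonneg fun _ _ => normSq_nonneg _

theorem ball {x : E} (h : x ∈ Ann) : x ∈ Metric.closedBall (0 : E) 4 := by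
  rw [mem_closedBall_zero_iff, pi_norm_le_iff_of_nonneg (by norm_num)]
  intro j
  have h1 : normSq (x j) ≤ tt x :=
    Finset.single_le_sum (f := fun j => normSq (x j)) (fun _ _ => normSq_nonneg _)
      (Finset.mem_univ j)
  rw [normSq_eq_norm_sq] at h1
  nlinarith [h.2, norm_nonneg (x j)]

/-- Markov's inequality for a function of integral zero. -/
theorem markov {D : E → ℝ} {Z : Set E} {a b : ℝ} (hD : Integrable D) (h0 : ∫ x, D x = 0)
    (ha : 0 < a) (h1 : ∀ x ∈ Metric.closedBall (0 : E) 4, -b ≤ D x)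
    (h2 : ∀ x, x ∉ Metric.closedBall (0 : E) 4 → 0 ≤ D x)
    (h3 : ∀ x ∈ Z, x ∈ Metric.closedBall (0 : E) 4 ∧ a - b ≤ D x) :
    a * volume.real Z ≤ b * volume.real (Metric.closedBall (0 : E) 4) := by
  have i1 : Integrable ((Metric.closedBall (0 : E) 4).indicator fun _ => b) :=
    (integrable_indicator_iff measurableSet_closedBall).2
      (integrableOn_const measure_closedBall_lt_top.ne)
  have p := mul_meas_ge_le_integral_of_nonneg (Eventually.of_forall fun x => by
    by_cases h : x ∈ Metric.closedBall (0 : E) 4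
    · simp only [Pi.zero_apply, Pi.add_apply, indicator_of_mem h]
      linarith [h1 x h]
    · simp only [Pi.zero_apply, Pi.add_apply, indicator_of_notMem h]
      linarith [h2 x h]) (hD.add i1) a
  rw [integral_add' hD i1, h0, zero_add, integral_indicator_const _ measurableSet_closedBall,
    smul_eq_mul, mul_comm _ b] at p
  refine le_trans (mul_le_mul_of_nonneg_left (measureReal_mono (fun x hx => ?_)
    ((hD.add i1).measure_ge_lt_top ha).ne) ha.le) p
  simp only [mem_ofPred_eq, Pi.add_apply, indicator_of_mem (h3 x hx).1]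
  linarith [(h3 x hx).2]

end VOL

theorem vol_pf : StVOL := by
  intro S d A U C c l0 h
  obtain ⟨j, j1, j2, j3, j4⟩ := VOL.exj
  obtain ⟨ψ, p1, p2, p3, p4⟩ := VOL.exψ
  have c0 := h.c0
  have C0 : 0 < C := one_pos.trans_le h.C1
  obtain ⟨b, hb⟩ : ∃ b, b = 4 * (C / 2 + C * Real.exp (C / 2)) := ⟨_, rfl⟩
  have b0 : 0 ≤ b := by rw [hb]; positivity
  refine ⟨b * volume.real (Metric.closedBall (0 : E) 4) / (c / 10 * Real.exp (-1)),
    min (l0 - 2) (2 * Real.log (c / (2 * C)) - 2), fun L hL => ?_⟩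
  obtain ⟨L1, L2⟩ := le_min_iff.1 hL
  have q1 : ContDiff ℝ ∞ fun r => j (r - L) * Real.exp (r / 2) :=
    (j1.comp (by fun_prop)).mul (by fun_prop)
  have q2 : ∀ r, deriv (fun r => j (r - L) * Real.exp (r / 2)) r =
      (deriv j (r - L) + j (r - L) / 2) * Real.exp (r / 2) := fun r => by
    have := (((j1.differentiable (by simp) (r - L)).hasDerivAt.comp_sub_const r L).fun_mul
      ((hasDerivAt_id r).div_const 2).exp).deriv
    simp only [id] at this
    rw [this]
    ring
  obtain ⟨D, D1, D2, D3, D4⟩ := VOL.key h.op h.esm h.eel p1 q1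
    (h.cpt (1 / 4) 16 (L - 2) (by norm_num)) (fun _ hx => hx.1) fun x hx hn => by
      by_cases e : 1 / 4 ≤ tt x ∧ tt x ≤ 16
      · refine Or.inr (mul_eq_zero_of_left (j2 _ ?_) _)
        linarith [lt_of_not_ge fun k => hn ⟨hx, e.1, e.2, k⟩]
      · exact Or.inl (p2 _ e)
  have low : ∀ x ∈ Om S, x ∈ Ann → ψ (tt x) * (deriv j (el d U x - L) *
      (Real.exp (el d U x / 2) * tt (gr (el d U) x))) - b ≤ D x := fun x hx ha => by
    have e1 := Real.exp_pos (el d U x / 2)
    have e2 : Real.exp (el d U x / 2) * Real.exp (-el d U x / 2) = 1 := by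
      rw [← Real.exp_add, ← Real.exp_zero]; congr 1; ring
    have e3 : Real.exp (el d U x / 2) ≤ Real.exp (C / 2) :=
      Real.exp_le_exp.2 (by linarith [h.up x hx ha])
    have e4 := mul_le_mul_of_nonneg_left (abs_le.1 (h.est x hx ha).d5).1 e1.le
    have e5 := mul_le_mul_of_nonneg_left (abs_le.1 (h.lp x hx ha)).1 e1.le
    have e6 : -(C / 2 + C * Real.exp (C / 2)) ≤
        Real.exp (el d U x / 2) * (tt (gr (el d U) x) / 2 + lap (el d U) x) := by
      nlinarith [mul_le_mul_of_nonneg_left e3 C0.le]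
    obtain ⟨a1, a2, -⟩ := j3 (el d U x - L)
    obtain ⟨a3, a4⟩ := p3 (tt x)
    have a5 : ψ (tt x) * j (el d U x - L) ≤ 4 := by nlinarith
    have a6 := mul_le_mul_of_nonneg_left e6 (mul_nonneg a3 a1)
    have a7 : 0 ≤ C / 2 + C * Real.exp (C / 2) := by positivity
    rw [D4 x hx, q2]
    nlinarith [mul_le_mul_of_nonneg_right a5 a7]
  have nn : ∀ x, 0 ≤ ψ (tt x) * (deriv j (el d U x - L) *
      (Real.exp (el d U x / 2) * tt (gr (el d U) x))) := fun x =>
    mul_nonneg (p3 _).1 (mul_nonneg (j3 _).2.2 (mul_nonneg (Real.exp_pos _).le (VOL.tt_nonneg _)))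
  have out : ∀ x, x ∉ Ann → D x = 0 := fun x hx => by
    by_cases k : x ∈ Om S
    · rw [D4 x k, p2 _ hx, zero_mul]
    · exact D3 x k
  have m := VOL.markov (Z := Zn S d U L) (a := c / 10 * Real.exp (-1) * Real.exp (-(L / 2)))
    (b := b) D1 D2 (by positivity) (fun x _ => ?_)
    (fun x hx => (out x fun k => hx (VOL.ball k)).ge) ?_
  · rw [div_mul_eq_mul_div, le_div_iff₀ (by positivity)]
    have := mul_le_mul_of_nonneg_right m (Real.exp_pos (L / 2)).le
    have e : Real.exp (-(L / 2)) * Real.exp (L / 2) = 1 := by rw [← Real.exp_add]; simp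
    calc _ = c / 10 * Real.exp (-1) * volume.real (Zn S d U L) *
          (Real.exp (-(L / 2)) * Real.exp (L / 2)) := by rw [e]; ring
      _ ≤ _ := by linarith
  · by_cases k : x ∈ Om S ∧ x ∈ Ann
    · linarith [low x k.1 k.2, nn x]
    · rcases not_and_or.1 k with k | k
      · linarith [D3 x k]
      · linarith [out x k]
  · rintro x ⟨hx, t1, t2, s1, s2⟩
    have ha : x ∈ Ann := ⟨by linarith, by linarith⟩
    refine ⟨VOL.ball ha, le_trans (sub_le_sub_right ?_ b) (low x hx ha)⟩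
    have e1 := Real.exp_pos (el d U x / 2)
    have e0 := Real.exp_pos (-el d U x / 2)
    have e2 : Real.exp (el d U x / 2) * Real.exp (-el d U x / 2) = 1 := by
      rw [← Real.exp_add, ← Real.exp_zero]; congr 1; ring
    have e3 : Real.exp (-el d U x) = Real.exp (-el d U x / 2) * Real.exp (-el d U x / 2) := by
      rw [← Real.exp_add]; congr 1; ring
    have e4 : Real.exp (el d U x / 2) ≤ c / (2 * C) := by
      rw [← Real.exp_log (show 0 < c / (2 * C) by positivity)]
      exact Real.exp_le_exp.2 (by linarith)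
    rw [le_div_iff₀ (by positivity)] at e4
    have e5 : Real.exp (-1) * Real.exp (-(L / 2)) ≤ Real.exp (-el d U x / 2) := by
      rw [← Real.exp_add]
      exact Real.exp_le_exp.2 (by linarith)
    have e6 := (abs_le.1 (h.est x hx ha).d5).1
    have e7 := h.kl x hx ha (by linarith)
    have e8 : C ≤ c / 2 * Real.exp (-el d U x / 2) := by
      nlinarith [mul_le_mul_of_nonneg_right e4 e0.le]
    have e9 : c / 2 * Real.exp (-el d U x / 2) * Real.exp (-el d U x / 2) ≤ tt (gr (el d U) x) := by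
      nlinarith [mul_le_mul_of_nonneg_right e8 e0.le]
    have e10 : c / 2 * Real.exp (-el d U x / 2) ≤ Real.exp (el d U x / 2) * tt (gr (el d U) x) := by
      have := mul_le_mul_of_nonneg_left e9 e1.le
      calc _ = c / 2 * Real.exp (-el d U x / 2) *
            (Real.exp (el d U x / 2) * Real.exp (-el d U x / 2)) := by rw [e2, mul_one]
        _ ≤ _ := by linarith
    have e11 := j4 (el d U x - L) (by linarith) (by linarith)
    rw [p4 _ t1 t2, one_mul]
    nlinarith [mul_le_mul_of_nonneg_right e11 (le_trans (by positivity) e10),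
      mul_le_mul_of_nonneg_left e5 c0.le]

end Pool.Agent.Lib.MP_4e4ac8_an.LV
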