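import Pool.Agent.Lib.MP_4e4ac8_an.LV.St

/-! The cut-off function `Xi` is a test function; its gradient and complex Hessian. -/

namespace Pool.Agent.Lib.MP_4e4ac8_an.LV

open MeasureTheory Complex Matrix Filter Topology Set
open Pool.Agent.Lib.MP_813db1_ag.HS
open scoped ContDiff

namespace XI

theorem cx_tt : cx tt = fun w : E => ∑ j, w j * star (w j) := by
  funext w
  simp only [cx, tt, ofReal_sum]
  exact Finset.sum_congr rfl fun j _ => (mul_conj (w j)).symm

theorem tt_eq (x : E) : (tt x : ℂ) = x ⬝ᵥ star x := congrFun cx_tt x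

theorem sm_tt : ContDiff ℝ ∞ tt := by
  refine contDiff_iff_contDiffAt.2 fun z => contDiffAt_ofReal.1 ?_
  show ContDiffAt ℝ ∞ (cx tt) z
  rw [cx_tt]
  refine ContDiffAt.sum fun j _ => (contDiffAt_apply ℝ ℂ j z).mul ?_
  exact conjCLE.contDiff.contDiffAt.comp z (contDiffAt_apply ℝ ℂ j z)

theorem gtt (x : E) (k : Fin 3) : dz (cx tt) k x = star (x k) := by
  have d : ∀ j : Fin 3, DifferentiableAt ℝ (fun w : E => w j) x := fun j =>
    differentiableAt_apply j x
  rw [cx_tt, dz_sum _ fun j _ => (d j).fun_mul (d j).star]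
  simp only [fun j => dz_mul (d j) (d j).star k, dz_star, dzb_coord, dz_coord]
  simp

theorem gbtt (k : Fin 3) : dzb (cx tt) k = fun x => x k := by
  funext x
  exact (dzb_ofReal tt k x).trans ((congrArg star (gtt x k)).trans (star_star _))

theorem htt (x : E) (i j : Fin 3) : levi (cx tt) x i j = (1 : Mx) i j := by
  rw [levi_apply, gbtt, dz_coord, one_apply]
  exact if_congr eq_comm rfl rfl

theorem two_le : (2 : WithTop ℕ∞) ≤ ∞ := WithTop.coe_le_coe.2 (le_top : (2 : ℕ∞) ≤ ⊤)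

theorem tt_pos {x : E} (h : x ≠ 0) : 0 < tt x := by
  obtain ⟨j, hj⟩ := Function.ne_iff.1 h
  exact Finset.sum_pos' (fun i _ => normSq_nonneg _) ⟨j, Finset.mem_univ j, normSq_pos.2 hj⟩

theorem sm_st : ContDiff ℝ ∞ st := Real.smoothTransition.contDiff

theorem sm_Th : ContDiff ℝ ∞ Th :=
  (sm_st.comp (contDiff_id.sub contDiff_const)).sub
    (sm_st.comp ((contDiff_id.div_const 4).sub contDiff_const))

theorem Th_lo {t : ℝ} (h : t ≤ 1) : Th t = 0 := by
  rw [Th, th, th4, st, Real.smoothTransition.zero_of_nonpos (by linarith),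
    Real.smoothTransition.zero_of_nonpos (by linarith), sub_zero]

theorem Th_hi {t : ℝ} (h : 8 ≤ t) : Th t = 0 := by
  rw [Th, th, th4, st, Real.smoothTransition.one_of_one_le (by linarith),
    Real.smoothTransition.one_of_one_le (by linarith), sub_self]

theorem dTh (t : ℝ) : HasDerivAt Th (deriv Th t) t :=
  (sm_Th.differentiable (by simp) t).hasDerivAt

theorem ddTh (t : ℝ) : HasDerivAt (deriv Th) (deriv (deriv Th) t) t :=
  ((contDiff_infty_iff_deriv.1 sm_Th).2.differentiable (by simp) t).hasDerivAt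

theorem d1 {t : ℝ} (h : t ≠ 0) : HasDerivAt (fun s => Th s / s) (p1 t) t :=
  ((dTh t).fun_div (hasDerivAt_id' t) h).congr_deriv (by rw [p1]; field_simp)

theorem d2 {t : ℝ} (h : t ≠ 0) : HasDerivAt p1 (p2 t) t :=
  (((ddTh t).fun_div (hasDerivAt_id' t) h).fun_sub
    ((dTh t).fun_div (hasDerivAt_pow 2 t) (pow_ne_zero 2 h))).congr_deriv
    (by rw [p2]; field_simp; ring)

theorem p12 {t : ℝ} (h : t ≠ 0) : deriv (deriv Th) t = 2 * p1 t + t * p2 t := by
  rw [p1, p2]; field_simp; ring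

theorem sm_ps {x : E} (h : x ≠ 0) : ContDiffAt ℝ ∞ ps x :=
  (sm_Th.comp sm_tt).contDiffAt.div sm_tt.contDiffAt (tt_pos h).ne'

theorem gps {x : E} (h : x ≠ 0) (k : Fin 3) : dz (cx ps) k x = p1 (tt x) * star (x k) := by
  rw [← gtt]
  exact dz_real_comp (d1 (tt_pos h).ne') (sm_tt.differentiable (by simp) x) k

theorem hps {x : E} (h : x ≠ 0) (i j : Fin 3) : levi (cx ps) x i j =
    p1 (tt x) * (1 : Mx) i j + p2 (tt x) * (star (x i) * x j) := by
  have e := levi_real_comp (Φ := fun s => Th s / s) (u := tt) (z := x)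
    ((eventually_ne_nhds (tt_pos h).ne').mono fun _ e => d1 e) (d2 (tt_pos h).ne')
    (sm_tt.contDiffAt.of_le two_le) i j
  rw [show (fun w => (tt w : ℂ)) = cx tt from rfl, htt, gtt, gbtt] at e
  exact e

theorem cx_mul (u v : E → ℝ) : cx (fun w => u w * v w) = fun w => cx u w * cx v w := by
  funext w
  simp [cx]

theorem gr_mps {u : E → ℝ} {x : E} (h : x ≠ 0) (hu : ContDiffAt ℝ ∞ u x) :
    gr (fun w => u w * ps w) x =
      (ps x : ℂ) • gr u x + ((u x * p1 (tt x) : ℝ) : ℂ) • star x := by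
  funext k
  rw [gr, cx_mul, dz_mul (f := cx u) (g := cx ps)
    (differentiableAt_ofReal.2 (hu.differentiableAt (by simp)))
    (differentiableAt_ofReal.2 ((sm_ps h).differentiableAt (by simp))), gps h]
  simp only [Pi.add_apply, Pi.smul_apply, smul_eq_mul, gr, cx, Pi.star_apply, ofReal_mul]
  ring

theorem HH_mps {u : E → ℝ} {x : E} (h : x ≠ 0) (hu : ContDiffAt ℝ ∞ u x) :
    HH (fun w => u w * ps w) x = (ps x : ℂ) • HH u x +
      (p1 (tt x) : ℂ) • (vecMulVec (gr u x) x + vecMulVec (star x) (star (gr u x))) +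
      (u x : ℂ) • ((p1 (tt x) : ℂ) • (1 : Mx) + (p2 (tt x) : ℂ) • vecMulVec (star x) x) := by
  ext i j
  have e1 : dzb (cx u) j x = star (dz (cx u) j x) := dzb_ofReal u j x
  have e2 : dzb (cx ps) j x = star (dz (cx ps) j x) := dzb_ofReal ps j x
  rw [HH, cx_mul, levi_mul (f := cx u) (g := cx ps) (contDiffAt_ofReal.2 (hu.of_le two_le))
    (contDiffAt_ofReal.2 ((sm_ps h).of_le two_le)), e1, e2, gps h, gps h, hps h]
  simp only [Matrix.add_apply, Matrix.smul_apply, smul_eq_mul, vecMulVec_apply, gr, cx, HH,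
    Pi.star_apply, star_mul', RCLike.star_def, conj_ofReal, conj_conj]
  ring

theorem DD_comm (P Q : Mx) : DD P Q = DD Q P := by
  rw [DD, DD, trace_mul_comm, mul_comm]

theorem DD_add (P Q R : Mx) : DD (P + Q) R = DD P R + DD Q R := by
  rw [DD, DD, DD, Matrix.add_mul, trace_add, trace_add]; ring

theorem DD_smul (c : ℂ) (P R : Mx) : DD (c • P) R = c * DD P R := by
  rw [DD, DD, Matrix.smul_mul, trace_smul, trace_smul, smul_eq_mul, smul_eq_mul]; ring

theorem DD_one (R : Mx) : DD 1 R = 2 * R.trace := by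
  rw [DD, Matrix.one_mul, trace_one, Fintype.card_fin]; push_cast; ring

theorem DD_l (a b : E) (R : Mx) : DD (vecMulVec a b) R = a ⬝ᵥ b * R.trace - (b ᵥ* R) ⬝ᵥ a := by
  simp only [DD, trace, diag_apply, mul_apply, vecMulVec_apply, dotProduct, vecMul,
    Fin.sum_univ_three]
  ring

theorem DD_r (a b : E) (R : Mx) : DD (vecMulVec a b) R = a ⬝ᵥ b * R.trace - b ⬝ᵥ (R *ᵥ a) := by
  rw [DD_l, dotProduct_mulVec]

theorem DD_o (a b c : E) :
    DD (vecMulVec a b) (oo c) = a ⬝ᵥ b * (tt c : ℂ) - (b ⬝ᵥ c) * (a ⬝ᵥ star c) := by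
  simp only [DD, oo, tt_eq, trace, diag_apply, mul_apply, vecMulVec_apply, dotProduct,
    Fin.sum_univ_three]
  ring

theorem tr_oo (c : E) : (oo c).trace = tt c := by
  rw [oo, trace_vecMulVec, tt_eq]

theorem st_dot (a b : E) : star a ⬝ᵥ star b = star (a ⬝ᵥ b) := by
  simp only [dotProduct, Pi.star_apply, star_sum, star_mul']

theorem trip (x a Y : E) (h : x ⨯₃ Y = 0) : (x ⨯₃ a) ⬝ᵥ Y = 0 := by
  have h0 := congrFun h 0
  have h1 := congrFun h 1
  have h2 := congrFun h 2
  simp only [cross_apply, cons_val, Pi.zero_apply] at h0 h1 h2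
  simp only [cross_apply, dotProduct, Fin.sum_univ_three, cons_val]
  linear_combination (-a 0) * h0 - a 1 * h1 - a 2 * h2

theorem tr_HH {u : E → ℝ} {x : E} (hu : ContDiffAt ℝ ∞ u x) : (HH u x).trace = lap u x := by
  have e : (HH u x).IsHermitian := levi_herm_ofReal (contDiffAt_ofReal.2 (hu.of_le two_le))
  have := trace_conjTranspose (HH u x)
  rw [e.eq] at this
  exact (conj_eq_iff_re.1 this.symm).symm

end XI

open XI in
theorem xi_pf : StXI := by
  intro S d A U C c l0 h L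
  have h0 : ∀ x ∈ Om S, x ≠ 0 := fun x hx e => hx (e ▸ mem_insert 0 S)
  have he : ∀ x ∈ Om S, ContDiffAt ℝ ∞ (el d U) x := fun x hx =>
    h.esm.contDiffAt (h.op.mem_nhds hx)
  have hc : ∀ x ∈ Om S, ContDiffAt ℝ ∞ (ch d U L) x := fun x hx =>
    sm_st.contDiffAt.comp x ((he x hx).sub contDiffAt_const)
  refine ⟨⟨fun x hx => ((hc x hx).mul (sm_ps (h0 x hx))).contDiffWithinAt, _,
    h.cpt 1 8 L one_pos, fun x hx => hx.1, fun x hx hK => ?_⟩, fun x hx => ?_⟩
  · by_cases a : 1 ≤ tt x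
    · by_cases b : tt x ≤ 8
      · have : el d U x - L ≤ 0 := by
          by_contra e
          exact hK ⟨hx, a, b, by linarith⟩
        rw [Xi, ch, st, Real.smoothTransition.zero_of_nonpos this, zero_mul]
      · rw [Xi, ps, Th_hi (not_le.1 b).le, zero_div, mul_zero]
    · rw [Xi, ps, Th_lo (not_le.1 a).le, zero_div, mul_zero]
  have x0 := h0 x hx
  have eH : HH (Xi d U L) x = _ := HH_mps x0 (hc x hx)
  have eG : gr (Xi d U L) x = _ := gr_mps x0 (hc x hx)
  have eT : ((deriv (deriv Th) (tt x) : ℝ) : ℂ) = 2 * p1 (tt x) + tt x * p2 (tt x) := by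
    rw [p12 (tt_pos x0).ne']; push_cast; rfl
  have xg : x ⬝ᵥ gr (ch d U L) x = 0 := by
    have : gr (ch d U L) x = ((deriv st (el d U x - L) : ℝ) : ℂ) • gr (el d U) x := by
      funext k
      exact dz_real_comp (Φ := fun s => st (s - L))
        ((sm_st.differentiable (by simp) _).hasDerivAt.comp_sub_const (el d U x) L)
        ((he x hx).differentiableAt (by simp)) k
    rw [this, dotProduct_smul, h.eel x hx, smul_zero]
  have gx : gr (ch d U L) x ⬝ᵥ x = 0 := by rw [dotProduct_comm, xg]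
  have sx : star x ⬝ᵥ x = (tt x : ℂ) := by rw [dotProduct_comm, tt_eq]
  have h3 : ∀ a : E, DD (oo a) (HH (Xi d U L) x) = ps x * DD (oo a) (HH (ch d U L) x) +
      (ch d U L x * (tt a * deriv (deriv Th) (tt x) - p2 (tt x) * normSq (x ⬝ᵥ a)) : ℝ) +
      p1 (tt x) * DD (oo a) (vecMulVec (gr (ch d U L) x) x +
        vecMulVec (star x) (star (gr (ch d U L) x))) := fun a => by
    rw [eH, DD_comm (oo a), DD_comm (oo a), DD_comm (oo a), DD_add, DD_add, DD_smul, DD_smul,
      DD_smul, DD_add (_ • _), DD_smul, DD_smul, DD_one, tr_oo, DD_o (star x) x, sx, st_dot]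
    push_cast
    rw [eT, ← mul_conj, RCLike.star_def]
    ring
  refine ⟨?_, ?_, h3, ?_⟩
  · rw [h3, DD_comm _ (_ + _), DD_add, DD_o, DD_o, st_dot, st_dot, gx, xg, h.eul x]
    simp only [map_zero, star_zero]
    push_cast
    ring
  · rw [eH, DD_add, DD_add, DD_smul, DD_smul, DD_smul, DD_add, DD_add, DD_smul, DD_smul, DD_one,
      DD_l _ x, DD_l _ x, DD_r, st_dot, gx, xg, h.hl x hx, h.hr x hx, sx,
      tr_HH (h.sm.contDiffAt (h.op.mem_nhds hx))]
    push_cast
    rw [eT]
    simp only [zero_dotProduct, dotProduct_zero, star_zero]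
    ring
  · rw [eG, star_add, star_smul, star_smul, star_star, map_add, LinearMap.add_apply, map_smul,
      map_smul, LinearMap.smul_apply, LinearMap.smul_apply, add_dotProduct, smul_dotProduct,
      smul_dotProduct, trip x _ _ (h.xY x hx), smul_zero, add_zero, smul_eq_mul, RCLike.star_def,
      conj_ofReal]

end Pool.Agent.Lib.MP_4e4ac8_an.LV
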