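import Pool.Agent.Lib.MP_4e4ac8_an.LV.St

/-! Bounds for the derivatives of the cut-off function in the transition zone. -/

namespace Pool.Agent.Lib.MP_4e4ac8_an.LV

open MeasureTheory Complex Matrix Filter Topology Set
open Pool.Agent.Lib.MP_813db1_ag.HS
open scoped ContDiff

namespace ZB

theorem st_cd : ContDiff ℝ ∞ st := Real.smoothTransition.contDiff

theorem st1_cd : ContDiff ℝ ∞ (deriv st) := (contDiff_infty_iff_deriv.1 st_cd).2

theorem st2_cd : ContDiff ℝ ∞ (deriv (deriv st)) := (contDiff_infty_iff_deriv.1 st1_cd).2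

theorem st_bd : ∃ M : ℝ, 0 ≤ M ∧ ∀ s ∈ Icc (0 : ℝ) 1, |deriv st s| ≤ M ∧ |deriv (deriv st) s| ≤ M := by
  obtain ⟨a, ha⟩ := (isCompact_Icc (a := (0 : ℝ)) (b := 1)).exists_bound_of_continuousOn
    st1_cd.continuous.continuousOn
  obtain ⟨b, hb⟩ := (isCompact_Icc (a := (0 : ℝ)) (b := 1)).exists_bound_of_continuousOn
    st2_cd.continuous.continuousOn
  refine ⟨max (max a b) 0, le_max_right _ _, fun s hs => ⟨?_, ?_⟩⟩
  · exact (ha s hs).trans ((le_max_left _ _).trans (le_max_left _ _))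
  · exact (hb s hs).trans ((le_max_right _ _).trans (le_max_left _ _))

theorem st_off {s : ℝ} (h : s ∉ Icc (0 : ℝ) 1) : deriv st s = 0 ∧ deriv (deriv st) s = 0 := by
  have key : ∃ c : ℝ, st =ᶠ[𝓝 s] fun _ => c := by
    rcases lt_or_ge s 0 with h0 | h0
    · refine ⟨0, ?_⟩
      filter_upwards [Iio_mem_nhds h0] with t ht
      exact Real.smoothTransition.zero_of_nonpos (le_of_lt ht)
    · have h1 : 1 < s := lt_of_not_ge fun h1 => h ⟨h0, h1⟩
      refine ⟨1, ?_⟩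
      filter_upwards [Ioi_mem_nhds h1] with t ht
      exact Real.smoothTransition.one_of_one_le (le_of_lt ht)
  obtain ⟨c, hc⟩ := key
  have e1 : deriv st =ᶠ[𝓝 s] fun _ => 0 := by
    have := hc.deriv
    simpa using this
  exact ⟨e1.eq_of_nhds, by simpa using e1.deriv_eq⟩

theorem hd1 (L t : ℝ) : HasDerivAt (fun t => st (t - L)) (deriv st (t - L)) t :=
  ((st_cd.differentiable (by simp)) (t - L)).hasDerivAt.comp_sub_const t L

theorem hd2 (L t : ℝ) : HasDerivAt (fun t => deriv st (t - L)) (deriv (deriv st) (t - L)) t :=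
  ((st1_cd.differentiable (by simp)) (t - L)).hasDerivAt.comp_sub_const t L

theorem gr_ch {u : E → ℝ} {x : E} (L : ℝ) (hu : ContDiffAt ℝ ∞ u x) :
    gr (fun y => st (u y - L)) x = ((deriv st (u x - L) : ℝ) : ℂ) • gr u x := by
  funext j
  exact dz_real_comp (hd1 L (u x)) (hu.differentiableAt (by simp)) j

theorem HH_ch {u : E → ℝ} {x : E} (L : ℝ) (hu : ContDiffAt ℝ ∞ u x) :
    HH (fun y => st (u y - L)) x = ((deriv st (u x - L) : ℝ) : ℂ) • HH u x +
      ((deriv (deriv st) (u x - L) : ℝ) : ℂ) • oo (gr u x) := by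
  ext i j
  have := levi_real_comp (Φ := fun t => st (t - L)) (Φ₁ := fun t => deriv st (t - L))
    (Eventually.of_forall fun t => hd1 L t) (hd2 L (u x)) (hu.of_le (by norm_cast)) i j
  rw [dzb_ofReal] at this
  exact this

theorem DD_symm (P Q : Mx) : DD P Q = DD Q P := by
  rw [DD, DD, mul_comm, trace_mul_comm]

theorem DD_lin (P Q R : Mx) (a b : ℂ) : DD P (a • Q + b • R) = a * DD P Q + b * DD P R := by
  simp only [DD, trace_add, trace_smul, Matrix.mul_add, Matrix.mul_smul, smul_eq_mul]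
  ring

theorem DD_split (P Q R : Mx) (a : ℂ) : DD P Q = a * DD R P + DD P (Q - a • R) := by
  rw [DD_symm R P]
  simp only [DD, trace_sub, trace_smul, Matrix.mul_sub, Matrix.mul_smul, smul_eq_mul]
  ring

theorem star_cross (a b : E) : star a ⨯₃ star b = star (a ⨯₃ b) := by
  funext i
  fin_cases i <;> simp [cross_apply]

theorem DD_oo (a b : E) : DD (oo a) (oo b) = (a ⨯₃ b) ⬝ᵥ star (a ⨯₃ b) := by
  simp [DD, oo, trace, Matrix.mul_apply, vecMulVec_apply, Fin.sum_univ_three, cross_apply,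
    dotProduct]
  ring

theorem norm_dot (a b : E) : ‖a ⬝ᵥ b‖ ≤ 3 * (‖a‖ * ‖b‖) := by
  have h : ∀ i, ‖a i * b i‖ ≤ ‖a‖ * ‖b‖ := fun i => by
    rw [norm_mul]
    exact mul_le_mul (norm_le_pi_norm a i) (norm_le_pi_norm b i) (norm_nonneg _) (norm_nonneg _)
  rw [dotProduct]
  refine (norm_sum_le _ _).trans ?_
  rw [Fin.sum_univ_three]
  linarith [h 0, h 1, h 2]

theorem norm_tr {P : Mx} {p : ℝ} (h : Bd P p) : ‖P.trace‖ ≤ 3 * p := by
  rw [trace]
  refine (norm_sum_le _ _).trans ?_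
  rw [Fin.sum_univ_three]
  linarith [h 0 0, h 1 1, h 2 2, show ‖P.diag 0‖ ≤ p from h 0 0, show ‖P.diag 1‖ ≤ p from h 1 1,
    show ‖P.diag 2‖ ≤ p from h 2 2]

theorem norm_DD {P Q : Mx} {p q : ℝ} (hP : Bd P p) (hQ : Bd Q q) : ‖DD P Q‖ ≤ 18 * (p * q) := by
  have p0 : 0 ≤ p := (norm_nonneg _).trans (hP 0 0)
  have h1 : Bd (P * Q) (3 * (p * q)) := fun j k => by
    have h : ∀ i, ‖P j i * Q i k‖ ≤ p * q := fun i => by
      rw [norm_mul]
      exact mul_le_mul (hP j i) (hQ i k) (norm_nonneg _) p0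
    rw [Matrix.mul_apply]
    refine (norm_sum_le _ _).trans ?_
    rw [Fin.sum_univ_three]
    linarith [h 0, h 1, h 2]
  have h2 : ‖P.trace * Q.trace‖ ≤ 3 * p * (3 * q) := by
    rw [norm_mul]
    exact mul_le_mul (norm_tr hP) (norm_tr hQ) (norm_nonneg _) (by positivity)
  have h3 := norm_tr h1
  have h4 := norm_sub_le (P.trace * Q.trace) (P * Q).trace
  rw [DD]
  linarith

theorem Bd_lin {P Q : Mx} {p q M a b : ℝ} (hP : Bd P p) (hQ : Bd Q q) (ha : |a| ≤ M)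
    (hb : |b| ≤ M) : Bd ((a : ℂ) • P + (b : ℂ) • Q) (M * p + M * q) := fun j k => by
  have M0 : 0 ≤ M := (abs_nonneg _).trans ha
  rw [Matrix.add_apply, Matrix.smul_apply, Matrix.smul_apply, smul_eq_mul, smul_eq_mul]
  refine (norm_add_le _ _).trans (add_le_add ?_ ?_)
  · rw [norm_mul, norm_real, Real.norm_eq_abs]
    exact mul_le_mul ha (hP j k) (norm_nonneg _) M0
  · rw [norm_mul, norm_real, Real.norm_eq_abs]
    exact mul_le_mul hb (hQ j k) (norm_nonneg _) M0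

theorem Bd_oo {a : E} {p : ℝ} (h : ‖a‖ ≤ p) : Bd (oo a) (p * p) := fun j k => by
  rw [oo, vecMulVec_apply, norm_mul, Pi.star_apply, norm_star]
  exact mul_le_mul ((norm_le_pi_norm a j).trans h) ((norm_le_pi_norm a k).trans h)
    (norm_nonneg _) ((norm_nonneg _).trans h)

/-- the algebraic core of the zone bounds -/
theorem core {A g Y : E} {H Q : Mx} {C M a b l L w : ℝ} (C1 : 1 ≤ C) (ha : |a| ≤ M)
    (hb : |b| ≤ M) (hL : L ≤ l) (w0 : 0 < w) (hw : w ≤ C * Real.exp (-l))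
    (d1 : Bd (Q - ((w / 4 : ℝ) : ℂ) • oo A) C) (d2 : ‖Y‖ ≤ C * Real.exp l)
    (ax : ‖A ⨯₃ g‖ ≤ C) (ge : ‖g‖ ≤ C * Real.exp (-l / 2)) (he : Bd H (C * Real.exp (-l)))
    (da : ‖DD (oo A) H‖ ≤ C) :
    ‖DD (oo A) ((a : ℂ) • H + (b : ℂ) • oo g)‖ ≤ 40 * M * C ^ 3 ∧
    ‖DD ((a : ℂ) • H + (b : ℂ) • oo g) Q‖ ≤ 40 * M * C ^ 3 * Real.exp (-L) ∧
    Bd ((a : ℂ) • H + (b : ℂ) • oo g) (40 * M * C ^ 3 * Real.exp (-L)) ∧
    ‖(a : ℂ) • g‖ ≤ 40 * M * C ^ 3 * Real.exp (-L / 2) ∧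
    w * ‖(star ((a : ℂ) • g) ⨯₃ star A) ⬝ᵥ Y‖ ≤ 40 * M * C ^ 3 := by
  have M0 : 0 ≤ M := (abs_nonneg _).trans ha
  have C0 : 0 ≤ C := by linarith
  have c12 : M * C ≤ M * C ^ 2 := mul_le_mul_of_nonneg_left (by nlinarith) M0
  have c23 : M * C ^ 2 ≤ M * C ^ 3 := mul_le_mul_of_nonneg_left (by nlinarith) M0
  have c0 : 0 ≤ M * C := by positivity
  have e1 : Real.exp (-l) ≤ Real.exp (-L) := Real.exp_le_exp.2 (by linarith)
  have e2 : Real.exp (-l / 2) ≤ Real.exp (-L / 2) := Real.exp_le_exp.2 (by linarith)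
  have e3 : Real.exp (-l / 2) * Real.exp (-l / 2) = Real.exp (-l) := by
    rw [← Real.exp_add]; congr 1; ring
  have e4 : Real.exp (-l) * Real.exp l = 1 := by rw [← Real.exp_add]; simp
  have x0 := Real.exp_pos (-L)
  have h1 : ‖DD (oo A) ((a : ℂ) • H + (b : ℂ) • oo g)‖ ≤ 4 * (M * C ^ 2) := by
    rw [DD_lin, DD_oo]
    have k1 : ‖(a : ℂ) * DD (oo A) H‖ ≤ M * C := by
      rw [norm_mul, norm_real, Real.norm_eq_abs]
      exact mul_le_mul ha da (norm_nonneg _) M0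
    have k2 : ‖(b : ℂ) * ((A ⨯₃ g) ⬝ᵥ star (A ⨯₃ g))‖ ≤ M * (3 * (C * C)) := by
      rw [norm_mul, norm_real, Real.norm_eq_abs]
      refine mul_le_mul hb ((norm_dot _ _).trans ?_) (norm_nonneg _) M0
      rw [norm_star]
      exact mul_le_mul_of_nonneg_left (mul_le_mul ax ax (norm_nonneg _) C0) (by norm_num)
    have := norm_add_le ((a : ℂ) * DD (oo A) H) ((b : ℂ) * ((A ⨯₃ g) ⬝ᵥ star (A ⨯₃ g)))
    nlinarith
  have h3 : Bd ((a : ℂ) • H + (b : ℂ) • oo g) (2 * (M * C ^ 2) * Real.exp (-L)) := fun j k => by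
    refine (Bd_lin he (Bd_oo ge) ha hb j k).trans ?_
    have : M * (C * Real.exp (-l)) + M * (C * Real.exp (-l / 2) * (C * Real.exp (-l / 2))) =
        (M * C + M * C ^ 2) * Real.exp (-l) := by rw [← e3]; ring
    rw [this]
    exact mul_le_mul (by linarith) e1 (Real.exp_pos _).le (by positivity)
  refine ⟨by linarith, ?_, fun j k => (h3 j k).trans ?_, ?_, ?_⟩
  · rw [DD_split _ Q (oo A) ((w / 4 : ℝ) : ℂ)]
    have k1 : ‖((w / 4 : ℝ) : ℂ) * DD (oo A) ((a : ℂ) • H + (b : ℂ) • oo g)‖ ≤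
        C * Real.exp (-L) * (4 * (M * C ^ 2)) := by
      rw [norm_mul, norm_real, Real.norm_eq_abs, abs_of_pos (by positivity)]
      refine mul_le_mul ?_ h1 (norm_nonneg _) (by positivity)
      have := mul_le_mul_of_nonneg_left e1 C0
      linarith
    have k2 := norm_DD h3 d1
    refine (norm_add_le _ _).trans ((add_le_add k1 k2).trans (le_of_eq ?_))
    ring
  · exact mul_le_mul_of_nonneg_right (by linarith) x0.le
  · rw [norm_smul, norm_real, Real.norm_eq_abs]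
    refine (mul_le_mul ha ge (norm_nonneg _) M0).trans ?_
    rw [← mul_assoc]
    exact mul_le_mul (by linarith) e2 (Real.exp_pos _).le (by positivity)
  · have k1 : ‖star ((a : ℂ) • g) ⨯₃ star A‖ ≤ M * C := by
      rw [star_cross, norm_star, map_smul, LinearMap.smul_apply, norm_smul, norm_real,
        Real.norm_eq_abs, ← cross_anticomm, norm_neg]
      exact mul_le_mul ha ax (norm_nonneg _) M0
    have k2 : ‖(star ((a : ℂ) • g) ⨯₃ star A) ⬝ᵥ Y‖ ≤ 3 * (M * C * (C * Real.exp l)) :=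
      (norm_dot _ _).trans
        (mul_le_mul_of_nonneg_left (mul_le_mul k1 d2 (norm_nonneg _) c0) (by norm_num))
    refine (mul_le_mul hw k2 (norm_nonneg _) (by positivity)).trans ?_
    have : C * Real.exp (-l) * (3 * (M * C * (C * Real.exp l))) =
        3 * (M * C ^ 3) * (Real.exp (-l) * Real.exp l) := by ring
    rw [this, e4]
    linarith

end ZB

theorem zb_pf : StZB := by
  intro S d A U C c l0 h
  obtain ⟨M, -, hM⟩ := ZB.st_bd
  refine ⟨40 * M * C ^ 3, fun L x hx => ?_⟩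
  have hu : ContDiffAt ℝ ∞ (el d U) x := h.esm.contDiffAt (h.op.mem_nhds hx)
  have e1 : gr (ch d U L) x = _ := ZB.gr_ch L hu
  have e2 : HH (ch d U L) x = _ := ZB.HH_ch L hu
  rw [e1, e2]
  refine ⟨fun hn => ?_, fun ha hz => ?_⟩
  · obtain ⟨k1, k2⟩ := ZB.st_off (s := el d U x - L)
      fun hs => hn ⟨by linarith [hs.1], by linarith [hs.2]⟩
    simp [k1, k2]
  · obtain ⟨k1, k2⟩ := hM (el d U x - L) ⟨by linarith [hz.1], by linarith [hz.2]⟩
    have es := h.est x hx ha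
    exact ZB.core h.C1 k1 k2 hz.1 (Real.exp_pos _) (h.eu x hx ha) es.d1 es.d2 (h.ax x hx ha)
      (h.ge x hx ha) (h.he x hx ha) (h.da x hx ha)

end Pool.Agent.Lib.MP_4e4ac8_an.LV
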