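import Pool.Agent.Lib.MP_4e4ac8_an.LV.APX
import Pool.Agent.Lib.MP_4e4ac8_an.LV.APX1
import Pool.Agent.Lib.MP_4e4ac8_an.LV.APX2
import Pool.Agent.Lib.MP_4e4ac8_an.LV.APX3
import Pool.Agent.Lib.MP_4e4ac8_an.LV.BAR
import Pool.Agent.Lib.MP_4e4ac8_an.LV.BAR1
import Pool.Agent.Lib.MP_4e4ac8_an.LV.D0
import Pool.Agent.Lib.MP_4e4ac8_an.LV.D1
import Pool.Agent.Lib.MP_4e4ac8_an.LV.D2
import Pool.Agent.Lib.MP_4e4ac8_an.LV.D3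
import Pool.Agent.Lib.MP_4e4ac8_an.LV.D3a
import Pool.Agent.Lib.MP_4e4ac8_an.LV.D4
import Pool.Agent.Lib.MP_4e4ac8_an.LV.D5
import Pool.Agent.Lib.MP_4e4ac8_an.LV.DAT
import Pool.Agent.Lib.MP_4e4ac8_an.LV.EN1
import Pool.Agent.Lib.MP_4e4ac8_an.LV.EN2
import Pool.Agent.Lib.MP_4e4ac8_an.LV.END
import Pool.Agent.Lib.MP_4e4ac8_an.LV.GL
import Pool.Agent.Lib.MP_4e4ac8_an.LV.L1
import Pool.Agent.Lib.MP_4e4ac8_an.LV.L2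
import Pool.Agent.Lib.MP_4e4ac8_an.LV.L3a
import Pool.Agent.Lib.MP_4e4ac8_an.LV.L3b
import Pool.Agent.Lib.MP_4e4ac8_an.LV.L4
import Pool.Agent.Lib.MP_4e4ac8_an.LV.LG
import Pool.Agent.Lib.MP_4e4ac8_an.LV.LO
import Pool.Agent.Lib.MP_4e4ac8_an.LV.SC
import Pool.Agent.Lib.MP_4e4ac8_an.LV.STR
import Pool.Agent.Lib.MP_4e4ac8_an.LV.TOP
import Pool.Agent.Lib.MP_4e4ac8_an.LV.TOP1
import Pool.Agent.Lib.MP_4e4ac8_an.LV.TOP2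
import Pool.Agent.Lib.MP_4e4ac8_an.LV.UP
import Pool.Agent.Lib.MP_4e4ac8_an.LV.VOL
import Pool.Agent.Lib.MP_4e4ac8_an.LV.XI
import Pool.Agent.Lib.MP_4e4ac8_an.LV.ZB

/-! There is no smooth Levi-flat cone in `ℂ³`. -/

namespace Pool.Agent.Lib.MP_4e4ac8_an.LV

theorem end_all : StEND :=
  end_pf (bar_pf bar1_pf) (apx_pf apx1_pf apx2_pf (apx3_pf apx1_pf)) (en2_pf l4_pf) sc_pf
    (up_pf l3a_pf (l3b_pf l3a_pf) xi_pf zb_pf vol_pf)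
    (lo_pf l2_pf xi_pf zb_pf (top_pf (top1_pf l1_pf) top2_pf) vol_pf (en1_pf l4_pf vol_pf)) c0_pf

theorem dat_all : StDAT :=
  dat_pf lg_pf (d1_pf d0_pf) d2_pf (d3_pf lg_pf d0_pf d3a_pf) d4_pf (d5_pf lg_pf)

theorem no_hyp (S : Set E) : ¬ Hyp S := fun h => by
  obtain ⟨d, A, U, hD⟩ := dat_all S h
  have hS := str_pf S d A U hD
  obtain ⟨C, c, l0, hG⟩ := gl_pf S d A U hD hS
  exact end_all S d A U C c l0 ⟨hD, hS, hG⟩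

end Pool.Agent.Lib.MP_4e4ac8_an.LV
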