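import Mathlib

/-! A monotone difference equation between two barriers has a Lipschitz solution. -/

namespace Pool.Agent.Lib.MP_4e4ac8_an.LV

namespace FixAux

variable {E : Type*} {ι : Type*} [Fintype ι]

lemma step_mono [Add E] (e : ι → E) {c τ Λ : ℝ} (hc : 0 ≤ c) (hτ : 0 < τ)
    (h1 : τ * (c * Fintype.card ι + Λ) ≤ 1) (G : E → ℝ → ℝ)
    (hhi : ∀ x v w, v ≤ w → G x w - G x v ≤ Λ * (w - v)) {V W : E → ℝ} (h : V ≤ W) (x : E) :
    V x + τ * (c * ∑ i, (V (x + e i) - V x) - G x (V x)) ≤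
      W x + τ * (c * ∑ i, (W (x + e i) - W x) - G x (W x)) := by
  have a : ∑ i, V (x + e i) ≤ ∑ i, W (x + e i) := Finset.sum_le_sum fun i _ => h _
  have b := hhi x _ _ (h x)
  have d : 0 ≤ W x - V x := sub_nonneg.2 (h x)
  simp only [Finset.sum_sub_distrib, Finset.sum_const, Finset.card_univ, nsmul_eq_mul]
  have e1 := mul_le_mul_of_nonneg_left a (mul_nonneg hτ.le hc)
  have e2 := mul_le_mul_of_nonneg_left b hτ.le
  have e3 := mul_le_mul_of_nonneg_right h1 d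
  nlinarith

lemma exists_sol [Add E] (e : ι → E) {c Λ : ℝ} (hc : 0 ≤ c) (G : E → ℝ → ℝ)
    (hhi : ∀ x v w, v ≤ w → G x w - G x v ≤ Λ * (w - v)) (b : E → ℝ) (hb0 : ∀ x, 0 ≤ b x)
    (hsup : ∀ x, c * ∑ i, (b (x + e i) - b x) ≤ G x (b x))
    (hsub : ∀ x, G x (-b x) ≤ -(c * ∑ i, (b (x + e i) - b x))) :
    ∃ V : E → ℝ, (∀ x, |V x| ≤ b x) ∧ ∀ x, c * ∑ i, (V (x + e i) - V x) = G x (V x) := by
  set τ : ℝ := 1 / (|c * Fintype.card ι + Λ| + 1) with hτd
  have hτ : 0 < τ := by positivity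
  have h1 : τ * (c * Fintype.card ι + Λ) ≤ 1 := by
    rw [hτd, div_mul_eq_mul_div, one_mul, div_le_one (by positivity)]
    linarith [le_abs_self (c * Fintype.card ι + Λ)]
  let T : (E → ℝ) → E → ℝ := fun V x => V x + τ * (c * ∑ i, (V (x + e i) - V x) - G x (V x))
  have hm : ∀ {V W : E → ℝ}, V ≤ W → T V ≤ T W := fun h x => step_mono e hc hτ h1 G hhi h x
  have hTb : T b ≤ b := fun x => by
    have := mul_nonpos_of_nonneg_of_nonpos hτ.le (sub_nonpos.2 (hsup x))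
    show b x + _ ≤ b x
    linarith
  have hTm : (fun x => -b x) ≤ T fun x => -b x := fun x => by
    have s : ∑ i, (-b (x + e i) - -b x) = -∑ i, (b (x + e i) - b x) := by
      rw [← Finset.sum_neg_distrib]
      exact Finset.sum_congr rfl fun i _ => by ring
    show -b x ≤ -b x + τ * (c * ∑ i, (-b (x + e i) - -b x) - G x (-b x))
    rw [s]
    have := mul_nonneg hτ.le (sub_nonneg.2 (hsub x))
    nlinarith
  let A : Set (E → ℝ) := {V | V ≤ b ∧ V ≤ T V}
  have hA : (fun x => -b x) ∈ A := ⟨fun x => by linarith [hb0 x], hTm⟩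
  have hbd : BddAbove A := ⟨b, fun V h => h.1⟩
  have hl := isLUB_csSup ⟨_, hA⟩ hbd
  set V := sSup A
  have v1 : V ≤ b := hl.2 fun W h => h.1
  have v2 : V ≤ T V := hl.2 fun W h => h.2.trans (hm (hl.1 h))
  have v3 : T V ≤ V := hl.1 ⟨(hm v1).trans hTb, hm v2⟩
  refine ⟨V, fun x => abs_le.2 ⟨hl.1 hA x, v1 x⟩, fun x => ?_⟩
  have : V x + τ * (c * ∑ i, (V (x + e i) - V x) - G x (V x)) = V x := le_antisymm (v3 x) (v2 x)
  have h0 : τ * (c * ∑ i, (V (x + e i) - V x) - G x (V x)) = 0 := by linarith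
  exact sub_eq_zero.1 ((mul_eq_zero.1 h0).resolve_left hτ.ne')

lemma shift_le [AddCommGroup E] (e : ι → E) {c δ K ω : ℝ} (hc : 0 ≤ c) (hδ : 0 < δ) (hω : 0 ≤ ω)
    (G : E → ℝ → ℝ) (hlo : ∀ x v w, v ≤ w → δ * (w - v) ≤ G x w - G x v) (h : E)
    (hL : ∀ x v, |v| ≤ K → G x v - G (x + h) v ≤ ω) (V : E → ℝ) (hK : ∀ x, |V x| ≤ K)
    (hV : ∀ x, c * ∑ i, (V (x + e i) - V x) = G x (V x)) (x : E) :
    V (x + h) - V x ≤ ω / δ := by
  have bd : BddAbove (Set.range fun y => V (y + h) - V y) :=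
    ⟨K + K, by
      rintro _ ⟨y, rfl⟩
      linarith [(abs_le.1 (hK (y + h))).2, (abs_le.1 (hK y)).1]⟩
  set m := ⨆ y, (V (y + h) - V y) with hm
  have le : ∀ y, V (y + h) - V y ≤ m := fun y => le_ciSup bd y
  refine (le x).trans ?_
  set n : ℝ := c * Fintype.card ι with hn
  have n0 : 0 ≤ n := by positivity
  have key : ∀ y, V (y + h) - V y ≤ max 0 ((n * m + ω) / (n + δ)) := fun y => by
    rcases le_total (V (y + h)) (V y) with a | a
    · exact le_max_of_le_left (by linarith)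
    refine le_max_of_le_right ?_
    rw [le_div_iff₀ (by positivity)]
    have a1 := hlo (y + h) _ _ a
    have a2 := hL y _ (hK y)
    have a3 : ∑ i, (V (y + h + e i) - V (y + e i)) ≤ ∑ _i : ι, m :=
      Finset.sum_le_sum fun i _ => by rw [add_right_comm]; exact le _
    have a4 := hV y
    have a5 := hV (y + h)
    simp only [Finset.sum_sub_distrib, Finset.sum_const, Finset.card_univ, nsmul_eq_mul] at a3 a4 a5
    have a6 := mul_le_mul_of_nonneg_left a3 hc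
    rw [hn]
    nlinarith
  have : Nonempty E := ⟨x⟩
  have k2 : m ≤ max 0 ((n * m + ω) / (n + δ)) := ciSup_le key
  rcases le_max_iff.1 k2 with a | a
  · exact a.trans (by positivity)
  · rw [le_div_iff₀ (by positivity)] at a
    rw [le_div_iff₀ hδ]
    nlinarith

end FixAux

/-- Discrete fixed point: a solution between `-b` and `b`, Lipschitz with constant `L / δ`. -/
theorem fix {E : Type*} [NormedAddCommGroup E] {ι : Type*} [Fintype ι] (e : ι → E)
    {c δ Λ L K : ℝ} (hc : 0 ≤ c) (hδ : 0 < δ) (hL0 : 0 ≤ L) (G : E → ℝ → ℝ)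
    (hlo : ∀ x v w, v ≤ w → δ * (w - v) ≤ G x w - G x v)
    (hhi : ∀ x v w, v ≤ w → G x w - G x v ≤ Λ * (w - v))
    (hL : ∀ x y v, |v| ≤ K → |G x v - G y v| ≤ L * ‖x - y‖)
    (b : E → ℝ) (hb0 : ∀ x, 0 ≤ b x) (hbK : ∀ x, b x ≤ K)
    (hsup : ∀ x, c * ∑ i, (b (x + e i) - b x) ≤ G x (b x))
    (hsub : ∀ x, G x (-b x) ≤ -(c * ∑ i, (b (x + e i) - b x))) :
    ∃ V : E → ℝ, (∀ x, |V x| ≤ b x) ∧ (∀ x, c * ∑ i, (V (x + e i) - V x) = G x (V x)) ∧
      ∀ x y, |V x - V y| ≤ L / δ * ‖x - y‖ := by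
  obtain ⟨V, h1, h2⟩ := FixAux.exists_sol e hc G hhi b hb0 hsup hsub
  have k : ∀ x y, V y - V x ≤ L / δ * ‖x - y‖ := fun x y => by
    have := FixAux.shift_le e (K := K) (ω := L * ‖x - y‖) hc hδ (by positivity) G hlo (y - x)
      (fun z v hv => by
        have := (abs_le.1 (hL z (z + (y - x)) v hv)).2
        rwa [show z - (z + (y - x)) = x - y by abel] at this)
      V (fun z => (h1 z).trans (hbK z)) h2 x
    rw [add_sub_cancel] at this
    rwa [div_mul_eq_mul_div]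
  refine ⟨V, h1, h2, fun x y => abs_le.2 ⟨by linarith [k x y], ?_⟩⟩
  rw [norm_sub_rev]
  exact k y x

end Pool.Agent.Lib.MP_4e4ac8_an.LV
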