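import Pool.Agent.Lib.MP_4e4ac8_an.LV.St

/-! Integration by parts for the mixed second symmetric function of complex Hessians. -/

namespace Pool.Agent.Lib.MP_4e4ac8_an.LV

open MeasureTheory Complex Matrix Filter Topology Set
open Pool.Agent.Lib.MP_813db1_ag.HS
open scoped ContDiff

noncomputable section

namespace L2

variable {Ω K : Set E} {f g w : E → ℂ} {x : E}

theorem ev0 (hΩ : IsOpen Ω) (hK : IsCompact K) (h : ∀ x ∈ Ω, x ∉ K → f x = 0) (hx : x ∈ Ω)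
    (hk : x ∉ K) : f =ᶠ[𝓝 x] fun _ => 0 := by
  filter_upwards [hΩ.mem_nhds hx, hK.isClosed.isOpen_compl.mem_nhds hk] with y h1 h2
    using h y h1 h2

theorem ind_ev (hΩ : IsOpen Ω) (hx : x ∈ Ω) : Ω.indicator f =ᶠ[𝓝 x] f := by
  filter_upwards [hΩ.mem_nhds hx] with y hy using indicator_of_mem hy f

theorem ind_ev0 (hK : IsCompact K) (h : ∀ x ∈ Ω, x ∉ K → f x = 0) (hk : x ∉ K) :
    Ω.indicator f =ᶠ[𝓝 x] fun _ => 0 := by
  filter_upwards [hK.isClosed.isOpen_compl.mem_nhds hk] with y hy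
  by_cases e : y ∈ Ω
  · rw [indicator_of_mem e, h y e hy]
  · exact indicator_of_notMem e f

theorem ind_cd (hΩ : IsOpen Ω) (hK : IsCompact K) (hs : K ⊆ Ω)
    (hf : ∀ x ∈ Ω, ContDiffAt ℝ ∞ f x) (h : ∀ x ∈ Ω, x ∉ K → f x = 0) :
    ContDiff ℝ 1 (Ω.indicator f) := by
  refine contDiff_iff_contDiffAt.2 fun x => ?_
  by_cases e : x ∈ K
  · exact ((hf x (hs e)).of_le (by norm_cast)).congr_of_eventuallyEq (ind_ev hΩ (hs e))
  · exact contDiffAt_const.congr_of_eventuallyEq (ind_ev0 hK h e)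

theorem ind_cs (hK : IsCompact K) (h : ∀ x ∈ Ω, x ∉ K → f x = 0) :
    HasCompactSupport (Ω.indicator f) :=
  HasCompactSupport.intro hK fun _ e => (ind_ev0 hK h e).self_of_nhds

theorem intOn (hΩ : IsOpen Ω) (hK : IsCompact K) (hs : K ⊆ Ω)
    (hf : ∀ x ∈ Ω, ContDiffAt ℝ ∞ f x) (h : ∀ x ∈ Ω, x ∉ K → f x = 0) : IntegrableOn f Ω :=
  (integrable_indicator_iff hΩ.measurableSet).1
    ((ind_cd hΩ hK hs hf h).continuous.integrable_of_hasCompactSupport (ind_cs hK h))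

theorem int_dz (hΩ : IsOpen Ω) (hK : IsCompact K) (hs : K ⊆ Ω)
    (hf : ∀ x ∈ Ω, ContDiffAt ℝ ∞ f x) (h : ∀ x ∈ Ω, x ∉ K → f x = 0) (j : Fin 3) :
    ∫ x in Ω, dz f j x = 0 := by
  rw [← integral_dz_eq_zero (ind_cd hΩ hK hs hf h) (ind_cs hK h) j,
    ← setIntegral_eq_integral_of_forall_compl_eq_zero (s := Ω) fun x hx =>
      (dz_congr (ind_ev0 hK h fun e => hx (hs e)) j).trans (dz_const 0 j x)]
  exact setIntegral_congr_fun hΩ.measurableSet fun x hx => (dz_congr (ind_ev hΩ hx) j).symm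

theorem int_dzb (hΩ : IsOpen Ω) (hK : IsCompact K) (hs : K ⊆ Ω)
    (hf : ∀ x ∈ Ω, ContDiffAt ℝ ∞ f x) (h : ∀ x ∈ Ω, x ∉ K → f x = 0) (j : Fin 3) :
    ∫ x in Ω, dzb f j x = 0 := by
  rw [← integral_dzb_eq_zero (ind_cd hΩ hK hs hf h) (ind_cs hK h) j,
    ← setIntegral_eq_integral_of_forall_compl_eq_zero (s := Ω) fun x hx =>
      (dzb_congr (ind_ev0 hK h fun e => hx (hs e)) j).trans (dzb_const 0 j x)]
  exact setIntegral_congr_fun hΩ.measurableSet fun x hx => (dzb_congr (ind_ev hΩ hx) j).symm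

theorem int_div (hΩ : IsOpen Ω) (hK : IsCompact K) (hs : K ⊆ Ω) {W : Fin 3 → E → ℂ}
    (hf : ∀ j, ∀ x ∈ Ω, ContDiffAt ℝ ∞ (W j) x) (h : ∀ j, ∀ x ∈ Ω, x ∉ K → W j x = 0) :
    ∫ x in Ω, ∑ j, dz (W j) j x = 0 := by
  rw [integral_finsetSum _ fun j _ => intOn hΩ hK hs (fun x hx => contDiffAt_dz_top (hf j x hx) j)
    fun x hx hk => (dz_congr (ev0 hΩ hK (h j) hx hk) j).trans (dz_const 0 j x)]
  exact Finset.sum_eq_zero fun j _ => int_dz hΩ hK hs (hf j) (h j) j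

theorem int_divb (hΩ : IsOpen Ω) (hK : IsCompact K) (hs : K ⊆ Ω) {W : Fin 3 → E → ℂ}
    (hf : ∀ j, ∀ x ∈ Ω, ContDiffAt ℝ ∞ (W j) x) (h : ∀ j, ∀ x ∈ Ω, x ∉ K → W j x = 0) :
    ∫ x in Ω, ∑ j, dzb (W j) j x = 0 := by
  rw [integral_finsetSum _ fun j _ => intOn hΩ hK hs (fun x hx => contDiffAt_dzb_top (hf j x hx) j)
    fun x hx hk => (dzb_congr (ev0 hΩ hK (h j) hx hk) j).trans (dzb_const 0 j x)]
  exact Finset.sum_eq_zero fun j _ => int_dzb hΩ hK hs (hf j) (h j) j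

/-- the Newton tensor -/
def T (Q : Mx) (j k : Fin 3) : ℂ := (if j = k then 1 else 0) * (∑ i, Q i i) - Q k j

theorem DD_eq (P Q : Mx) : DD P Q = ∑ j, ∑ k, P j k * T Q j k := by
  simp [DD, T, Matrix.trace, Matrix.mul_apply, Fin.sum_univ_three]
  ring

theorem DD_comm (P Q : Mx) : DD P Q = DD Q P := by
  rw [DD, DD, mul_comm, trace_mul_comm]

theorem DD_sq (P Q : Mx) : DD (P + Q) (P + Q) = DD P P + 2 * DD Q P + DD Q Q := by
  simp only [DD, trace_add, Matrix.add_mul, Matrix.mul_add, trace_mul_comm P Q]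
  ring

theorem two_le : (2 : WithTop ℕ∞) ≤ ∞ := by norm_cast

theorem df (h : ContDiffAt ℝ ∞ f x) : DifferentiableAt ℝ f x := h.differentiableAt (by simp)

theorem cd_T (hw : ContDiffAt ℝ ∞ w x) (j k : Fin 3) :
    ContDiffAt ℝ ∞ (fun y => T (levi w y) j k) x :=
  (contDiffAt_const.mul (ContDiffAt.sum fun i _ => contDiffAt_levi_top hw i i)).sub
    (contDiffAt_levi_top hw k j)

theorem cd_DD {P Q : E → Mx} (hP : ∀ j k, ContDiffAt ℝ ∞ (fun y => P y j k) x)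
    (hQ : ∀ j k, ContDiffAt ℝ ∞ (fun y => Q y j k) x) :
    ContDiffAt ℝ ∞ (fun y => DD (P y) (Q y)) x :=
  ((CdM.tr hP).mul (CdM.tr hQ)).sub (CdM.tr (CdM.mul hP hQ))

theorem T_dz (hw : ContDiffAt ℝ ∞ w x) (k : Fin 3) :
    ∑ j, dz (fun y => T (levi w y) j k) j x = 0 := by
  have d := fun i j => df (contDiffAt_levi_top hw i j)
  have e : ∀ j, dz (fun y => T (levi w y) j k) j x =
      (if j = k then 1 else 0) * (∑ i, dz (dz (dzb w i) i) j x) - dz (dz (dzb w j) k) j x := by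
    intro j
    have d1 : DifferentiableAt ℝ (fun y => ∑ i, levi w y i i) x :=
      DifferentiableAt.fun_sum fun i _ => d i i
    simp only [T]
    rw [dz_sub (d1.const_mul _) (d k j), dz_cmul _ d1, dz_sum _ fun i _ => d i i]
    rfl
  simp only [e, Finset.sum_sub_distrib, ite_mul, one_mul, zero_mul, Finset.sum_ite_eq',
    Finset.mem_univ, if_true]
  rw [sub_eq_zero]
  exact Finset.sum_congr rfl fun i _ => dz_dz_comm ((contDiffAt_dzb_top hw i).of_le two_le) k i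

theorem T_dzb (hw : ContDiffAt ℝ ∞ w x) (j : Fin 3) :
    ∑ k, dzb (fun y => T (levi w y) j k) k x = 0 := by
  have d := fun i j => df (contDiffAt_levi_top hw i j)
  have e : ∀ k, dzb (fun y => T (levi w y) j k) k x =
      (if j = k then 1 else 0) * (∑ i, dzb (dz (dzb w i) i) k x) - dzb (dz (dzb w j) k) k x := by
    intro k
    have d1 : DifferentiableAt ℝ (fun y => ∑ i, levi w y i i) x :=
      DifferentiableAt.fun_sum fun i _ => d i i
    simp only [T]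
    rw [dzb_sub (d1.const_mul _) (d k j), dzb_cmul _ d1, dzb_sum _ fun i _ => d i i]
    rfl
  simp only [e, Finset.sum_sub_distrib, ite_mul, one_mul, zero_mul, Finset.sum_ite_eq,
    Finset.mem_univ, if_true]
  rw [sub_eq_zero]
  refine Finset.sum_congr rfl fun i _ => ?_
  have c : dzb (dzb w i) j =ᶠ[𝓝 x] dzb (dzb w j) i :=
    ((hw.of_le two_le).eventually (by simp)).mono fun y hy => dzb_dzb_comm hy j i
  rw [← dz_dzb_comm ((contDiffAt_dzb_top hw i).of_le two_le),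
    ← dz_dzb_comm ((contDiffAt_dzb_top hw j).of_le two_le), dz_congr c]

/-- the tensor product of the two gradients -/
def G (f g : E → ℂ) (x : E) : Mx := vecMulVec (fun j => dz f j x) fun k => dzb g k x

def W1 (f g w : E → ℂ) (j : Fin 3) (y : E) : ℂ := f y * ∑ k, dzb g k y * T (levi w y) j k
def W2 (f g w : E → ℂ) (k : Fin 3) (y : E) : ℂ := g y * ∑ j, dz f j y * T (levi w y) j k

theorem cd_W1 (hf : ContDiffAt ℝ ∞ f x) (hg : ContDiffAt ℝ ∞ g x) (hw : ContDiffAt ℝ ∞ w x)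
    (j : Fin 3) : ContDiffAt ℝ ∞ (W1 f g w j) x :=
  hf.mul (ContDiffAt.sum fun k _ => (contDiffAt_dzb_top hg k).mul (cd_T hw j k))

theorem cd_W2 (hf : ContDiffAt ℝ ∞ f x) (hg : ContDiffAt ℝ ∞ g x) (hw : ContDiffAt ℝ ∞ w x)
    (k : Fin 3) : ContDiffAt ℝ ∞ (W2 f g w k) x :=
  hg.mul (ContDiffAt.sum fun j _ => (contDiffAt_dz_top hf j).mul (cd_T hw j k))

theorem div1 (hf : ContDiffAt ℝ ∞ f x) (hg : ContDiffAt ℝ ∞ g x) (hw : ContDiffAt ℝ ∞ w x) :
    ∑ j, dz (W1 f g w j) j x = f x * DD (levi g x) (levi w x) + DD (G f g x) (levi w x) := by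
  have e : ∀ j, dz (W1 f g w j) j x = dz f j x * (∑ k, dzb g k x * T (levi w x) j k) +
      f x * ∑ k, (levi g x j k * T (levi w x) j k +
        dzb g k x * dz (fun y => T (levi w y) j k) j x) := by
    intro j
    have d := fun k => df ((contDiffAt_dzb_top hg k).mul (cd_T hw j k))
    refine (dz_mul (df hf) (DifferentiableAt.fun_sum fun k _ => d k) j).trans ?_
    rw [dz_sum _ fun k _ => d k]
    simp only [fun k => dz_mul (df (contDiffAt_dzb_top hg k)) (df (cd_T hw j k)) j, levi_apply]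
  have h0 := T_dz hw 0
  have h1 := T_dz hw 1
  have h2 := T_dz hw 2
  simp only [e, DD_eq, G, vecMulVec_apply, Fin.sum_univ_three] at h0 h1 h2 ⊢
  linear_combination f x * dzb g 0 x * h0 + f x * dzb g 1 x * h1 + f x * dzb g 2 x * h2

theorem div2 (hf : ContDiffAt ℝ ∞ f x) (hg : ContDiffAt ℝ ∞ g x) (hw : ContDiffAt ℝ ∞ w x) :
    ∑ k, dzb (W2 f g w k) k x = g x * DD (levi f x) (levi w x) + DD (G f g x) (levi w x) := by
  have e : ∀ k, dzb (W2 f g w k) k x = dzb g k x * (∑ j, dz f j x * T (levi w x) j k) +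
      g x * ∑ j, (levi f x j k * T (levi w x) j k +
        dz f j x * dzb (fun y => T (levi w y) j k) k x) := by
    intro k
    have d := fun j => df ((contDiffAt_dz_top hf j).mul (cd_T hw j k))
    refine (dzb_mul (df hg) (DifferentiableAt.fun_sum fun j _ => d j) k).trans ?_
    rw [dzb_sum _ fun j _ => d j]
    simp only [fun j => dzb_mul (df (contDiffAt_dz_top hf j)) (df (cd_T hw j k)) k, levi_apply,
      dz_dzb_comm (hf.of_le two_le)]
  have h0 := T_dzb hw 0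
  have h1 := T_dzb hw 1
  have h2 := T_dzb hw 2
  simp only [e, DD_eq, G, vecMulVec_apply, Fin.sum_univ_three] at h0 h1 h2 ⊢
  linear_combination g x * dz f 0 x * h0 + g x * dz f 1 x * h1 + g x * dz f 2 x * h2

theorem cd_G (hf : ContDiffAt ℝ ∞ f x) (hg : ContDiffAt ℝ ∞ g x) (j k : Fin 3) :
    ContDiffAt ℝ ∞ (fun y => G f g y j k) x :=
  (contDiffAt_dz_top hf j).mul (contDiffAt_dzb_top hg k)

theorem levi0 (h : f =ᶠ[𝓝 x] fun _ => 0) : levi f x = 0 := (levi_congr h).trans (levi_const 0 x)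

theorem dz0 (h : f =ᶠ[𝓝 x] fun _ => 0) (j : Fin 3) : dz f j x = 0 :=
  (dz_congr h j).trans (dz_const 0 j x)

/-- moving both derivatives onto the test function -/
theorem move (hΩ : IsOpen Ω) (hK : IsCompact K) (hs : K ⊆ Ω)
    (hf : ∀ x ∈ Ω, ContDiffAt ℝ ∞ f x) (hg : ∀ x ∈ Ω, ContDiffAt ℝ ∞ g x)
    (hw : ∀ x ∈ Ω, ContDiffAt ℝ ∞ w x) (h : ∀ x ∈ Ω, x ∉ K → f x = 0) :
    ∫ x in Ω, f x * DD (levi g x) (levi w x) = ∫ x in Ω, g x * DD (levi f x) (levi w x) := by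
  have a1 := int_div hΩ hK hs (fun j x hx => cd_W1 (hf x hx) (hg x hx) (hw x hx) j)
    fun j x hx hk => by rw [W1, h x hx hk, zero_mul]
  have a2 := int_divb hΩ hK hs (fun j x hx => cd_W2 (hf x hx) (hg x hx) (hw x hx) j)
    fun j x hx hk => by simp [W2, dz0 (ev0 hΩ hK h hx hk)]
  have i1 := intOn hΩ hK hs (fun x hx => (hf x hx).mul
    (cd_DD (contDiffAt_levi_top (hg x hx)) (contDiffAt_levi_top (hw x hx))))
    fun x hx hk => by simp only [h x hx hk, zero_mul]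
  have i2 := intOn hΩ hK hs (fun x hx => (hg x hx).mul
    (cd_DD (contDiffAt_levi_top (hf x hx)) (contDiffAt_levi_top (hw x hx))))
    fun x hx hk => by simp [levi0 (ev0 hΩ hK h hx hk), DD]
  have i3 := intOn hΩ hK hs (fun x hx =>
    cd_DD (cd_G (hf x hx) (hg x hx)) (contDiffAt_levi_top (hw x hx)))
    fun x hx hk => by simp [DD_eq, G, vecMulVec_apply, dz0 (ev0 hΩ hK h hx hk)]
  rw [setIntegral_congr_fun hΩ.measurableSet fun x hx => div1 (hf x hx) (hg x hx) (hw x hx),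
    integral_add i1 i3] at a1
  rw [setIntegral_congr_fun hΩ.measurableSet fun x hx => div2 (hf x hx) (hg x hx) (hw x hx),
    integral_add i2 i3] at a2
  linear_combination a1 - a2

/-- moving one derivative when the last entry is the test function -/
theorem move' (hΩ : IsOpen Ω) (hK : IsCompact K) (hs : K ⊆ Ω)
    (hf : ∀ x ∈ Ω, ContDiffAt ℝ ∞ f x) (hg : ∀ x ∈ Ω, ContDiffAt ℝ ∞ g x)
    (hw : ∀ x ∈ Ω, ContDiffAt ℝ ∞ w x) (h : ∀ x ∈ Ω, x ∉ K → w x = 0) :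
    ∫ x in Ω, f x * DD (levi g x) (levi w x) = -∫ x in Ω, DD (G f g x) (levi w x) := by
  have a1 := int_div hΩ hK hs (fun j x hx => cd_W1 (hf x hx) (hg x hx) (hw x hx) j)
    fun j x hx hk => by simp [W1, T, levi0 (ev0 hΩ hK h hx hk)]
  have i1 := intOn hΩ hK hs (fun x hx => (hf x hx).mul
    (cd_DD (contDiffAt_levi_top (hg x hx)) (contDiffAt_levi_top (hw x hx))))
    fun x hx hk => by simp [levi0 (ev0 hΩ hK h hx hk), DD]
  have i3 := intOn hΩ hK hs (fun x hx =>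
    cd_DD (cd_G (hf x hx) (hg x hx)) (contDiffAt_levi_top (hw x hx)))
    fun x hx hk => by simp [levi0 (ev0 hΩ hK h hx hk), DD]
  rw [setIntegral_congr_fun hΩ.measurableSet fun x hx => div1 (hf x hx) (hg x hx) (hw x hx),
    integral_add i1 i3] at a1
  linear_combination a1

end L2

open L2 in
theorem l2_pf : StL2 := by
  rintro Ω u v Ξ hΩ hu hv ⟨hΞ, K, hK, hs, h0⟩
  have cu' : ∀ x ∈ Ω, ContDiffAt ℝ ∞ (cx u) x := fun x hx =>
    contDiffAt_ofReal.2 (hu.contDiffAt (hΩ.mem_nhds hx))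
  have cv : ∀ x ∈ Ω, ContDiffAt ℝ ∞ (cx v) x := fun x hx =>
    contDiffAt_ofReal.2 (hv.contDiffAt (hΩ.mem_nhds hx))
  have cΞ : ∀ x ∈ Ω, ContDiffAt ℝ ∞ (cx Ξ) x := fun x hx =>
    contDiffAt_ofReal.2 (hΞ.contDiffAt (hΩ.mem_nhds hx))
  have z : ∀ x ∈ Ω, x ∉ K → cx Ξ x = 0 := fun x hx hk => by simp [cx, h0 x hx hk]
  have ii : ∀ a b : E → ℝ, (∀ x ∈ Ω, ContDiffAt ℝ ∞ (cx a) x) →
      (∀ x ∈ Ω, ContDiffAt ℝ ∞ (cx b) x) →
      IntegrableOn (fun x => cx Ξ x * DD (levi (cx a) x) (levi (cx b) x)) Ω := fun a b ha hb =>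
    intOn hΩ hK hs (fun x hx => (cΞ x hx).mul
      (cd_DD (contDiffAt_levi_top (ha x hx)) (contDiffAt_levi_top (hb x hx))))
      fun x hx hk => by simp only [z x hx hk, zero_mul]
  have e : ∀ x ∈ Ω, (Ξ x : ℂ) * DD (HH (fun y => u y + v y) x) (HH (fun y => u y + v y) x) =
      cx Ξ x * DD (levi (cx u) x) (levi (cx u) x) +
        2 * (cx Ξ x * DD (levi (cx v) x) (levi (cx u) x)) +
        cx Ξ x * DD (levi (cx v) x) (levi (cx v) x) := fun x hx => by
    have : HH (fun y => u y + v y) x = levi (cx u) x + levi (cx v) x := by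
      rw [← levi_add ((cu' x hx).of_le two_le) ((cv x hx).of_le two_le), HH]
      congr 1
      funext y
      simp [cx]
    rw [this, DD_sq, cx]
    ring
  have m1 := move hΩ hK hs cΞ cv cu' z
  have m2 := move hΩ hK hs cΞ cv cv z
  have m3 := move' hΩ hK hs cv cv cΞ z
  have g : ∀ x, G (cx v) (cx v) x = oo (gr v x) := fun x => by
    ext j k
    exact congrArg (dz (cx v) j x * ·) (dzb_ofReal v k x)
  simp only [g] at m3
  have i12 : IntegrableOn (fun x => cx Ξ x * DD (levi (cx u) x) (levi (cx u) x) +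
      2 * (cx Ξ x * DD (levi (cx v) x) (levi (cx u) x))) Ω :=
    (ii u u cu' cu').add ((ii v u cv cu').const_mul 2)
  rw [setIntegral_congr_fun hΩ.measurableSet e, integral_add i12 (ii v v cv cv),
    integral_add (ii u u cu' cu') ((ii v u cv cu').const_mul 2), integral_const_mul, m1, m2]
  simp only [DD_comm (levi (cx Ξ) _) (levi (cx v) _)]
  rw [m3, sub_eq_add_neg]
  rfl

end

end Pool.Agent.Lib.MP_4e4ac8_an.LV
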