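import Pool.Agent.Lib.MP_813db1_ag.HS.Calc2

/-! Definitions and intermediate statements for the non-existence of Levi-flat cones in `ℂ³`. -/

namespace Pool.Agent.Lib.MP_4e4ac8_an.LV

open MeasureTheory Complex Matrix Filter Topology Set
open Pool.Agent.Lib.MP_813db1_ag.HS
open scoped ContDiff

noncomputable section

abbrev E := Fin 3 → ℂ
abbrev Mx := Matrix (Fin 3) (Fin 3) ℂ

/-- the squared euclidean norm -/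
def tt (x : E) : ℝ := ∑ j, normSq (x j)
def cx (u : E → ℝ) : E → ℂ := fun x => (u x : ℂ)
/-- the `(1,0)` gradient of a complex function -/
def dF (F : E → ℂ) (x : E) : E := fun j => dz F j x
/-- the `(1,0)` gradient of a real function -/
def gr (u : E → ℝ) (x : E) : E := fun j => dz (cx u) j x
/-- the complex Hessian -/
def HH (u : E → ℝ) (x : E) : Mx := levi (cx u) x
def lap (u : E → ℝ) (x : E) : ℝ := (HH u x).trace.re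
/-- `∂bar` of a `(1,0)` form -/
def MM (l : E → E) (x : E) : Mx := Matrix.of fun j k => dzb (fun y => l y j) k x
/-- the mixed second symmetric function -/
def DD (P Q : Mx) : ℂ := P.trace * Q.trace - (P * Q).trace
def oo (a : E) : Mx := vecMulVec a (star a)
def Bd (P : Mx) (c : ℝ) : Prop := ∀ j k, ‖P j k‖ ≤ c
def cu (A : E → E) (x : E) : E :=
  ![dz (fun y => A y 2) 1 x - dz (fun y => A y 1) 2 x,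
    dz (fun y => A y 0) 2 x - dz (fun y => A y 2) 0 x,
    dz (fun y => A y 1) 0 x - dz (fun y => A y 0) 1 x]
def YY (A : E → E) (u : E → ℝ) (x : E) : E := cu A x + (2 : ℂ) • (gr u x ⨯₃ A x)
/-- test functions on `Ω` -/
def Ts {F : Type} [NormedAddCommGroup F] [NormedSpace ℝ F] (Ω : Set E) (f : E → F) : Prop :=
  ContDiffOn ℝ ∞ f Ω ∧ ∃ K, IsCompact K ∧ K ⊆ Ω ∧ ∀ x ∈ Ω, x ∉ K → f x = 0

/-! ### integration by parts -/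

def StL1 : Prop := ∀ (Ω : Set E) (l m : E → E) (Ξ : E → ℝ), IsOpen Ω → ContDiffOn ℝ ∞ l Ω →
  ContDiffOn ℝ ∞ m Ω → Ts Ω Ξ → ∫ x in Ω, (Ξ x : ℂ) * DD (MM l x) (MM m x) =
    -∫ x in Ω, DD (vecMulVec (l x) (star (gr Ξ x))) (MM m x)

def StL2 : Prop := ∀ (Ω : Set E) (u v Ξ : E → ℝ), IsOpen Ω → ContDiffOn ℝ ∞ u Ω →
  ContDiffOn ℝ ∞ v Ω → Ts Ω Ξ →
  ∫ x in Ω, (Ξ x : ℂ) * DD (HH (fun y => u y + v y) x) (HH (fun y => u y + v y) x) =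
    (∫ x in Ω, (Ξ x : ℂ) * DD (HH u x) (HH u x)) +
      2 * (∫ x in Ω, (v x : ℂ) * DD (HH Ξ x) (HH u x)) - ∫ x in Ω, DD (oo (gr v x)) (HH Ξ x)

def StL3a : Prop := ∀ (Ω : Set E) (A : E → E) (U Ξ : E → ℝ), IsOpen Ω → Differentiable ℂ A →
  ContDiffOn ℝ ∞ U Ω → Ts Ω Ξ →
  ∫ x in Ω, (Real.exp (2 * U x) : ℂ) * DD (oo (A x)) (HH Ξ x) =
    -∫ x in Ω, (Real.exp (2 * U x) : ℂ) * ((star (gr Ξ x) ⨯₃ star (A x)) ⬝ᵥ YY A U x)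

def StL3b : Prop := ∀ (Ω : Set E) (A : E → E) (U Ξ : E → ℝ), IsOpen Ω → Differentiable ℂ A →
  ContDiffOn ℝ ∞ U Ω → Ts Ω Ξ → (∀ x ∈ Ω, 0 ≤ Ξ x) →
  (∫ x in Ω, (Ξ x : ℂ) * DD (HH U x) (HH U x)).re ≤
    (∫ x in Ω, (Real.exp (2 * U x) : ℂ) * DD (oo (A x)) (HH Ξ x)).re / 4 +
      ∫ x in Ω, Ξ x * (lap U x - Real.exp (2 * U x) * tt (A x) / 4) ^ 2

def StL4 : Prop := ∀ (Ω : Set E) (V ξ : E → ℝ), IsOpen Ω → ContDiffOn ℝ ∞ V Ω → Ts Ω ξ →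
  ∫ x in Ω, ξ x * tt (gr V x) =
    (∫ x in Ω, V x ^ 2 / 2 * lap ξ x) - ∫ x in Ω, ξ x * (V x * lap V x)

/-! ### the reference function -/

def Om (S : Set E) : Set E := (insert 0 S)ᶜ
def Ann : Set E := {x | 1 / 4 ≤ tt x ∧ tt x ≤ 16}
def U0 (d : ℕ) (x : E) : ℝ := -(((d : ℝ) + 1) / 2) * Real.log (tt x)
def el (d : ℕ) (U : E → ℝ) (x : E) : ℝ := -2 * (U x - U0 d x)
def ka (A : E → E) (U : E → ℝ) (x : E) : ℝ := Real.exp (2 * U x) * tt (A x)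
def RR (A : E → E) (U : E → ℝ) (x : E) : ℝ := ka A U x / 4 - lap U x
def EE (A : E → E) (U : E → ℝ) (x : E) : Mx := ((Real.exp (2 * U x) / 4 : ℝ) : ℂ) • oo (A x)

structure Est (d : ℕ) (A : E → E) (U : E → ℝ) (C : ℝ) (x : E) : Prop where
  d1 : Bd (HH U x - EE A U x) C
  d2 : ‖YY A U x‖ ≤ C * Real.exp (el d U x)
  d3 : ∀ k, ‖(fun j => HH U x j k) ⨯₃ A x‖ ≤ C * Real.exp (el d U x / 2)
  d4 : ‖DD (oo (A x)) (HH U x)‖ ≤ C * Real.exp (el d U x)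
  d5 : |tt (gr (el d U) x) - ka A U x| ≤ C * Real.exp (-el d U x / 2)

/-- a closed cone and a foliation of the plane with no singular point on it -/
structure Bas (S : Set E) (d : ℕ) (A : E → E) : Prop where
  ne : S.Nonempty
  zero : (0 : E) ∉ S
  cl : IsClosed (insert 0 S)
  cone : ∀ z ∈ S, ∀ c : ℂ, c ≠ 0 → c • z ∈ S
  hol : Differentiable ℂ A
  hom : ∀ (c : ℂ) (x : E), A (c • x) = c ^ d • A x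
  eul : ∀ x, x ⬝ᵥ A x = 0
  nz : ∀ p ∈ S, A p ≠ 0

structure Dat (S : Set E) (d : ℕ) (A : E → E) (U : E → ℝ) : Prop extends Bas S d A where
  sm : ContDiffOn ℝ ∞ U (Om S)
  uh : ∀ x ∈ Om S, ∀ c : ℂ, c ≠ 0 → U (c • x) = U x - ((d : ℝ) + 1) * Real.log ‖c‖
  loc : ∀ p ∈ S, ∃ C : ℝ, ∀ᶠ x in 𝓝 p, x ∉ S → Est d A U C x
  lim : ∀ p ∈ S, ∀ r : ℝ, ∀ᶠ x in 𝓝 p, x ∉ S → el d U x < r

/-- structural consequences of homogeneity -/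
structure Str (S : Set E) (d : ℕ) (A : E → E) (U : E → ℝ) : Prop where
  op : IsOpen (Om S)
  oc : ∀ (c : ℂ) (x : E), c ≠ 0 → (c • x ∈ Om S ↔ x ∈ Om S)
  esm : ContDiffOn ℝ ∞ (el d U) (Om S)
  eh : ∀ x ∈ Om S, ∀ c : ℂ, c ≠ 0 → el d U (c • x) = el d U x
  kh : ∀ x ∈ Om S, ∀ c : ℂ, c ≠ 0 → ka A U (c • x) = ka A U x / ‖c‖ ^ 2
  lh : ∀ x ∈ Om S, ∀ c : ℂ, c ≠ 0 → lap U (c • x) = lap U x / ‖c‖ ^ 2
  eU : ∀ x ∈ Om S, x ⬝ᵥ gr U x = -(((d : ℂ) + 1) / 2)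
  eU0 : ∀ x : E, x ≠ 0 → x ⬝ᵥ gr (U0 d) x = -(((d : ℂ) + 1) / 2)
  eel : ∀ x ∈ Om S, x ⬝ᵥ gr (el d U) x = 0
  hl : ∀ x ∈ Om S, x ᵥ* HH U x = 0
  hr : ∀ x ∈ Om S, HH U x *ᵥ star x = 0
  xY : ∀ x ∈ Om S, x ⨯₃ YY A U x = 0
  aY : ∀ x ∈ Om S, A x ⬝ᵥ YY A U x = 0
  xY0 : ∀ x : E, x ≠ 0 → x ⨯₃ YY A (U0 d) x = 0
  aY0 : ∀ x : E, x ≠ 0 → A x ⬝ᵥ YY A (U0 d) x = 0
  cpt : ∀ a b r : ℝ, 0 < a → IsCompact {x | x ∈ Om S ∧ a ≤ tt x ∧ tt x ≤ b ∧ r ≤ el d U x}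

/-- uniform estimates on the annulus -/
structure Gl (S : Set E) (d : ℕ) (A : E → E) (U : E → ℝ) (C c l0 : ℝ) : Prop where
  c0 : 0 < c
  C1 : 1 ≤ C
  l00 : l0 ≤ 0
  est : ∀ x ∈ Om S, x ∈ Ann → Est d A U C x
  rr : ∀ x ∈ Om S, x ∈ Ann → |RR A U x| ≤ C
  lp : ∀ x ∈ Om S, x ∈ Ann → |lap (el d U) x + ka A U x / 2| ≤ C
  ax : ∀ x ∈ Om S, x ∈ Ann → ‖A x ⨯₃ gr (el d U) x‖ ≤ C
  ku : ∀ x ∈ Om S, x ∈ Ann → ka A U x ≤ C * Real.exp (-el d U x)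
  kl : ∀ x ∈ Om S, x ∈ Ann → el d U x ≤ l0 → c * Real.exp (-el d U x) ≤ ka A U x
  ge : ∀ x ∈ Om S, x ∈ Ann → ‖gr (el d U) x‖ ≤ C * Real.exp (-el d U x / 2)
  he : ∀ x ∈ Om S, x ∈ Ann → Bd (HH (el d U) x) (C * Real.exp (-el d U x))
  da : ∀ x ∈ Om S, x ∈ Ann → ‖DD (oo (A x)) (HH (el d U) x)‖ ≤ C
  up : ∀ x ∈ Om S, x ∈ Ann → el d U x ≤ C
  eu : ∀ x ∈ Om S, x ∈ Ann → Real.exp (2 * U x) ≤ C * Real.exp (-el d U x)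
  an : ∀ x ∈ Ann, ‖A x‖ ≤ C
  al : ∀ x ∈ Ann, (x ∈ Om S → el d U x ≤ l0) → c ≤ tt (A x)

structure Ctx (S : Set E) (d : ℕ) (A : E → E) (U : E → ℝ) (C c l0 : ℝ) : Prop
  extends Dat S d A U, Str S d A U, Gl S d A U C c l0

def StSTR : Prop := ∀ S d A U, Dat S d A U → Str S d A U
def StGL : Prop := ∀ S d A U, Dat S d A U → Str S d A U → ∃ C c l0, Gl S d A U C c l0

/-! ### cut-off functions -/

def st : ℝ → ℝ := Real.smoothTransition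
def th (t : ℝ) : ℝ := st (t - 1)
def th4 (t : ℝ) : ℝ := st (t / 4 - 1)
def Th (t : ℝ) : ℝ := th t - th4 t
def ps (x : E) : ℝ := Th (tt x) / tt x
def ch (d : ℕ) (U : E → ℝ) (L : ℝ) (x : E) : ℝ := st (el d U x - L)
def Xi (d : ℕ) (U : E → ℝ) (L : ℝ) (x : E) : ℝ := ch d U L x * ps x
def Zn (S : Set E) (d : ℕ) (U : E → ℝ) (L : ℝ) : Set E :=
  {x | x ∈ Om S ∧ 1 / 2 ≤ tt x ∧ tt x ≤ 9 ∧ L - 1 ≤ el d U x ∧ el d U x ≤ L + 2}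
def Z0 (S : Set E) (d : ℕ) (U : E → ℝ) (L : ℝ) : Set E :=
  {x | x ∈ Om S ∧ 1 ≤ tt x ∧ tt x ≤ 8 ∧ L ≤ el d U x ∧ el d U x ≤ L + 1}
def c0 (d : ℕ) : ℝ := ∫ x : E, ps x * (((d : ℝ) + 1) ^ 2 / (2 * tt x ^ 2))

def StC0 : Prop := ∀ d, 0 < c0 d

def StVOL : Prop := ∀ S d A U C c l0, Ctx S d A U C c l0 →
  ∃ C' L0 : ℝ, ∀ L ≤ L0, volume.real (Zn S d U L) ≤ C' * Real.exp (L / 2)

/-! ### the topological term -/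

def Op : Set E := {x | 1 / 4 < tt x ∧ tt x < 16}
def lam (A : E → E) (u : E → ℝ) (x : E) : E :=
  ((1 / (2 * tt (A x)) : ℝ) : ℂ) • (star (A x) ⨯₃ YY A u x)
def tf (S : Set E) (d : ℕ) (A : E → E) (U : E → ℝ) (L : ℝ) (x : E) : E :=
  (((Om S).indicator (ch d U L) x : ℝ) : ℂ) • gr U x +
    ((1 - (Om S).indicator (ch d U L) x : ℝ) : ℂ) • (gr (U0 d) x - lam A (U0 d) x)

def StTOP1 : Prop := ∀ S d A U C c l0, Ctx S d A U C c l0 → ∀ L ≤ l0 - 2,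
  ContDiffOn ℝ ∞ (tf S d A U L) Op ∧
    ∫ x in Op, (ps x : ℂ) * DD (MM (tf S d A U L) x) (MM (tf S d A U L) x) = c0 d

def StTOP2 : Prop := ∀ S d A U C c l0, Ctx S d A U C c l0 → ∃ C' : ℝ, ∀ L ≤ l0 - 2, ∀ x ∈ Op,
  ((x ∈ Om S → el d U x < L) → DD (MM (tf S d A U L) x) (MM (tf S d A U L) x) = 0) ∧
  (x ∈ Om S → L + 1 < el d U x → MM (tf S d A U L) x = HH U x) ∧
  (x ∈ Om S → L ≤ el d U x → el d U x ≤ L + 1 →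
    ‖DD (MM (tf S d A U L) x) (MM (tf S d A U L) x)‖ ≤ C' ∧ ‖DD (HH U x) (HH U x)‖ ≤ C')

def StTOP : Prop := ∀ S d A U C c l0, Ctx S d A U C c l0 → ∃ C' : ℝ, ∀ L ≤ l0 - 2,
  ‖(∫ x in Om S, (Xi d U L x : ℂ) * DD (HH U x) (HH U x)) - c0 d‖ ≤
    C' * volume.real (Zn S d U L)

/-! ### barriers and approximate solutions -/

def StBAR1 : Prop := ∀ S d A U C c l0, Ctx S d A U C c l0 → ∀ r : ℝ, ∃ (g : E → ℝ) (G : ℝ),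
  ContDiffOn ℝ ∞ g {0}ᶜ ∧ (∀ (c : ℂ) (x : E), c ≠ 0 → g (c • x) = g x) ∧
  (∀ x, 0 ≤ g x ∧ g x ≤ G) ∧
  ∀ x ∈ Om S, x ∈ Ann → -G ≤ lap g x ∧ (r ≤ el d U x → 1 ≤ lap g x)

def StBAR : Prop := ∀ S d A U C c l0, Ctx S d A U C c l0 →
  ∃ (K0 C1 : ℝ) (φ : Fin 3 → E → ℝ), (∀ i, ContDiffOn ℝ ∞ (φ i) (Om S)) ∧
    (∀ i, ∀ x ∈ Om S, 0 < φ i x) ∧ ∀ x ∈ Om S, ∃ i, (∀ j, φ i x ≤ φ j x) ∧
      lap (φ i) x ≤ ka A U x * (1 - Real.exp (-2 * φ i x)) / 4 - |RR A U x| ∧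
      φ i x ≤ K0 ∧ φ i x ≤ C1 * Real.exp (7 / 8 * el d U x)

/-- the difference Laplacian -/
def dl (η : ℝ) (V : E → ℝ) (x : E) : ℝ :=
  (∑ j, (V (x + Pi.single j (η : ℂ)) + V (x - Pi.single j (η : ℂ)) +
    V (x + Pi.single j (η * I)) + V (x - Pi.single j (η * I)) - 4 * V x)) / (4 * η ^ 2)

def StAPX1 : Prop :=
  (∀ f : E → ℝ, ContDiff ℝ ∞ f → HasCompactSupport f → ∀ γ > 0, ∃ η0 > 0, ∀ η ∈ Ioo (0 : ℝ) η0,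
    ∀ x, |dl η f x - lap f x| ≤ γ) ∧
  ∀ f : E → ℝ, ContDiff ℝ ∞ f → ∀ x, Tendsto (fun η => dl η f x) (𝓝[>] 0) (𝓝 (lap f x))

def StAPX2 : Prop := ∀ (η δ Λ B : ℝ) (G : E → ℝ → ℝ) (b : E → ℝ), 0 < η → 0 < δ →
  (∀ x, 0 ≤ b x ∧ b x ≤ B) →
  (∀ x v w, v ≤ w → δ * (w - v) ≤ G x w - G x v ∧ G x w - G x v ≤ Λ * (w - v)) →
  (∀ x, dl η b x ≤ G x (b x) ∧ G x (-b x) ≤ -dl η b x) →
  ∃ V : E → ℝ, (∀ x, |V x| ≤ b x) ∧ (∀ x, dl η V x = G x (V x)) ∧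
    ∀ (h : E) (ϖ : ℝ), (∀ x v, |v| ≤ B → |G (x + h) v - G x v| ≤ ϖ) →
      ∀ x, |V (x + h) - V x| ≤ ϖ / δ

def StAPX3 : Prop := ∀ μ B γ : ℝ, 0 < μ → 0 < γ → ∃ η0 > 0, ∀ η ∈ Ioo (0 : ℝ) η0,
  ∀ V : E → ℝ, Continuous V → (∀ x, |V x| ≤ B) → ∃ W : E → ℝ, ContDiff ℝ ∞ W ∧ ∀ x ϖ,
    ((∀ y ∈ Metric.ball x μ, |V y - V x| ≤ ϖ) → |W x - V x| ≤ ϖ) ∧
    ((∀ y ∈ Metric.ball x μ, |dl η V y - dl η V x| ≤ ϖ) → |lap W x - dl η V x| ≤ ϖ + γ)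

def StAPX : Prop := ∀ (Ω K : Set E) (κ R : E → ℝ) (φ : Fin 3 → E → ℝ) (K0 γ : ℝ), IsOpen Ω →
  IsCompact K → K ⊆ Ω → 0 < γ → ContinuousOn κ Ω → ContinuousOn R Ω → (∀ x ∈ Ω, 0 ≤ κ x) →
  (∀ i, ContDiffOn ℝ ∞ (φ i) Ω) → (∀ i, ∀ x ∈ Ω, 0 < φ i x) →
  (∀ x ∈ Ω, ∃ i, (∀ j, φ i x ≤ φ j x) ∧
    lap (φ i) x ≤ κ x * (1 - Real.exp (-2 * φ i x)) / 4 - |R x| ∧ φ i x ≤ K0) →
  ∃ V : E → ℝ, ContDiff ℝ ∞ V ∧ ∀ x ∈ K, (∀ i, |V x| ≤ φ i x + γ) ∧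
    |lap V x - κ x * (Real.exp (2 * V x) - 1) / 4 - R x| ≤ γ

/-! ### one dyadic step -/

/-- approximate solutions on the annulus -/
def Cl (S : Set E) (d : ℕ) (A : E → E) (U : E → ℝ) (K0 C1 L γ : ℝ) (V : E → ℝ) : Prop :=
  ContDiff ℝ ∞ V ∧ ∀ x ∈ Om S, x ∈ Ann → L - 1 ≤ el d U x →
    |V x| ≤ K0 + γ ∧ |V x| ≤ C1 * Real.exp (7 / 8 * el d U x) + γ ∧
    |lap V x - ka A U x * (Real.exp (2 * V x) - 1) / 4 - RR A U x| ≤ γ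

/-- the density of the end functional -/
def bb (d : ℕ) (A : E → E) (U : E → ℝ) (θ : ℝ → ℝ) (L : ℝ) (V : E → ℝ) (x : E) : ℝ :=
  ch d U L x * (deriv (deriv θ) (tt x) *
      (2 * V x * lap U x - tt (gr V x) - ka A U x * (Real.exp (2 * V x) - 1) / 4) +
    (deriv (deriv θ) (tt x) / tt x - 2 * deriv θ (tt x) / tt x ^ 2) * normSq (x ⬝ᵥ gr V x))

def BB (S : Set E) (d : ℕ) (A : E → E) (U : E → ℝ) (θ : ℝ → ℝ) (L : ℝ) (V : E → ℝ) : ℝ :=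
  ∫ x in Om S, bb d A U θ L V x

/-- the first two derivatives of `Th t / t` -/
def p1 (t : ℝ) : ℝ := deriv Th t / t - Th t / t ^ 2
def p2 (t : ℝ) : ℝ := deriv (deriv Th) t / t - 2 * deriv Th t / t ^ 2 + 2 * Th t / t ^ 3

def StXI : Prop := ∀ S d A U C c l0, Ctx S d A U C c l0 → ∀ L : ℝ,
  Ts (Om S) (Xi d U L) ∧ ∀ x ∈ Om S,
    DD (oo (A x)) (HH (Xi d U L) x) = ps x * DD (oo (A x)) (HH (ch d U L) x) +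
      (ch d U L x * tt (A x) * deriv (deriv Th) (tt x) : ℝ) ∧
    DD (HH (Xi d U L) x) (HH U x) = ps x * DD (HH (ch d U L) x) (HH U x) +
      (ch d U L x * lap U x * deriv (deriv Th) (tt x) : ℝ) ∧
    (∀ a : E, DD (oo a) (HH (Xi d U L) x) = ps x * DD (oo a) (HH (ch d U L) x) +
      (ch d U L x * (tt a * deriv (deriv Th) (tt x) - p2 (tt x) * normSq (x ⬝ᵥ a)) : ℝ) +
      p1 (tt x) * DD (oo a) (vecMulVec (gr (ch d U L) x) x +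
        vecMulVec (star x) (star (gr (ch d U L) x)))) ∧
    (star (gr (Xi d U L) x) ⨯₃ star (A x)) ⬝ᵥ YY A U x =
      ps x * ((star (gr (ch d U L) x) ⨯₃ star (A x)) ⬝ᵥ YY A U x)

def StZB : Prop := ∀ S d A U C c l0, Ctx S d A U C c l0 → ∃ C' : ℝ, ∀ L : ℝ, ∀ x ∈ Om S,
  (el d U x ∉ Icc L (L + 1) → gr (ch d U L) x = 0 ∧ HH (ch d U L) x = 0) ∧
  (x ∈ Ann → el d U x ∈ Icc L (L + 1) → ‖DD (oo (A x)) (HH (ch d U L) x)‖ ≤ C' ∧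
    ‖DD (HH (ch d U L) x) (HH U x)‖ ≤ C' * Real.exp (-L) ∧
    Bd (HH (ch d U L) x) (C' * Real.exp (-L)) ∧ ‖gr (ch d U L) x‖ ≤ C' * Real.exp (-L / 2) ∧
    Real.exp (2 * U x) * ‖(star (gr (ch d U L) x) ⨯₃ star (A x)) ⬝ᵥ YY A U x‖ ≤ C')

def StEN1 : Prop := ∀ S d A U C c l0, Ctx S d A U C c l0 → ∀ K0 C1 : ℝ, ∃ C' L0 : ℝ, ∀ L ≤ L0,
  ∀ γ V, γ ≤ Real.exp (7 / 8 * L) → Cl S d A U K0 C1 L γ V →
    ∫ x in Z0 S d U L, tt (gr V x) ≤ C' * Real.exp (5 / 4 * L)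

def StEN2 : Prop := ∀ S d A U C c l0, Ctx S d A U C c l0 → ∀ K0 C1 L : ℝ, ∃ C' : ℝ,
  ∀ γ V, γ ≤ 1 → Cl S d A U K0 C1 L γ V → |BB S d A U th L V| ≤ C'

def StSC : Prop := ∀ S d A U C c l0, Ctx S d A U C c l0 → ∀ L V, ContDiff ℝ ∞ V →
  BB S d A U Th L V = BB S d A U th L V - BB S d A U th L fun x => V ((2 : ℂ) • x)

/-- the upper bound -/
def StUP : Prop := ∀ S d A U C c l0, Ctx S d A U C c l0 → ∀ K0 C1 : ℝ, ∃ C' L0 : ℝ, ∀ L ≤ L0,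
  ∀ γ V, 0 ≤ γ → γ ≤ Real.exp (7 / 8 * L) → Cl S d A U K0 C1 L γ V →
  (∫ x in Om S, (Xi d U L x : ℂ) *
      DD (HH (fun y => U y + V y) x) (HH (fun y => U y + V y) x)).re ≤
    C' * Real.exp (L / 4) + ∫ x in Om S, ch d U L x * deriv (deriv Th) (tt x) *
      (ka A U x * (Real.exp (2 * V x) - 1) / 4)

/-- the lower bound -/
def StLO : Prop := ∀ S d A U C c l0, Ctx S d A U C c l0 → ∀ K0 C1 : ℝ, ∃ C' L0 : ℝ, ∀ L ≤ L0,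
  ∀ γ V, 0 ≤ γ → γ ≤ Real.exp (7 / 8 * L) → Cl S d A U K0 C1 L γ V →
  c0 d - C' * Real.exp (L / 4) + BB S d A U Th L V +
      (∫ x in Om S, ch d U L x * deriv (deriv Th) (tt x) *
        (ka A U x * (Real.exp (2 * V x) - 1) / 4)) ≤
    (∫ x in Om S, (Xi d U L x : ℂ) *
      DD (HH (fun y => U y + V y) x) (HH (fun y => U y + V y) x)).re

def StEND : Prop := ∀ S d A U C c l0, ¬ Ctx S d A U C c l0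

/-! ### construction of the reference function -/

/-- a local first integral `F` of `A`, real exactly on `S` -/
structure Germ (S : Set E) (A : E → E) (p : E) (F l : E → ℂ) : Prop where
  aF : AnalyticAt ℂ F p
  al : AnalyticAt ℂ l p
  l0 : l p ≠ 0
  ev : ∀ᶠ x in 𝓝 p, (x ∈ S ↔ (F x).im = 0) ∧ A x = l x • dF F x

def UU (F l : E → ℂ) (x : E) : ℝ := -Real.log |(F x).im| - Real.log ‖l x‖

def Gam (S : Set E) (F : E → ℂ) (p : E) (γ : E → ℝ) : Prop :=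
  ∃ C : ℝ, ∀ᶠ x in 𝓝 p, x ∉ S → ContDiffAt ℝ ∞ γ x ∧ |γ x| ≤ C * (F x).im ^ 2 ∧
    (∃ g : ℂ, ‖g‖ ≤ C * |(F x).im| ∧ gr γ x = g • dF F x) ∧
    ∃ h : ℂ, ‖h‖ ≤ C ∧ HH γ x = h • oo (dF F x)

def uu (p x : E) : ℝ := normSq (x ⬝ᵥ star p) / (tt x * tt p)
def Cn (p : E) (δ : ℝ) : Set E := {x | 1 - δ < uu p x}

/-- logarithms of holomorphic functions -/
def StLG : Prop := ∀ (F : E → ℂ) (x : E), AnalyticAt ℂ F x →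
  ((F x).im ≠ 0 → ContDiffAt ℝ ∞ (fun y => Real.log |(F y).im|) x ∧
    gr (fun y => Real.log |(F y).im|) x = (1 / (2 * I * (F x).im)) • dF F x ∧
    HH (fun y => Real.log |(F y).im|) x = (-1 / (4 * ((F x).im : ℂ) ^ 2)) • oo (dF F x)) ∧
  (F x ≠ 0 → ContDiffAt ℝ ∞ (fun y => Real.log ‖F y‖) x ∧
    gr (fun y => Real.log ‖F y‖) x = (1 / (2 * F x)) • dF F x ∧
    HH (fun y => Real.log ‖F y‖) x = 0)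

/-- consequences of the inverse function theorem -/
def StD0 : Prop := ∀ (F G : E → ℂ) (p : E), AnalyticAt ℂ F p → AnalyticAt ℂ G p → dF F p ≠ 0 →
  𝓝 (F p) ≤ map F (𝓝 p) ∧
  ((F p).im = 0 → (∀ᶠ x in 𝓝 p, (F x).im = 0 → G x = 0) → G =ᶠ[𝓝 p] 0) ∧
  ((∀ᶠ x in 𝓝 p, ∃ h : ℂ, dF G x = h • dF F x) →
    ∃ φ : ℂ → ℂ, AnalyticAt ℂ φ (F p) ∧ G =ᶠ[𝓝 p] fun x => φ (F x))

/-- the hypotheses of the problem -/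
def Hyp (S : Set E) : Prop := S.Nonempty ∧ (0 : E) ∉ S ∧ IsClosed (insert 0 S) ∧
  (∀ z ∈ S, ∀ c : ℂ, c ≠ 0 → c • z ∈ S) ∧
  ∀ p ∈ S, ∃ U : Set E, IsOpen U ∧ p ∈ U ∧ ∃ r : E → ℝ,
    ContDiffOn ℝ ((⊤ : ℕ∞) : WithTop ℕ∞) r U ∧ (∀ q ∈ U, q ∈ S ↔ r q = 0) ∧
    ∀ q ∈ U ∩ S, fderiv ℝ r q ≠ 0 ∧
      ∀ ξ : E, fderiv ℝ r q ξ = 0 → fderiv ℝ r q (Complex.I • ξ) = 0 →
        iteratedFDeriv ℝ 2 r q ![ξ, ξ] + iteratedFDeriv ℝ 2 r q ![Complex.I • ξ, Complex.I • ξ] = 0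

def StD1 : Prop := ∀ S, Hyp S → ∃ d A, Bas S d A ∧ ∀ p ∈ S, ∃ F l, Germ S A p F l

def StD2 : Prop := ∀ S d A p F l, Bas S d A → p ∈ S → Germ S A p F l →
  ∃ (δ : ℝ) (F' l' : E → ℂ), 0 < δ ∧ δ < 1 ∧ ∀ x ∈ Cn p δ, Germ S A x F' l' ∧
    ∀ c : ℂ, c ≠ 0 → F' (c • x) = F' x ∧ l' (c • x) = c ^ (d + 1) * l' x

/-- one variable estimates for a map which is real on the real line -/
def StD3a : Prop := ∀ (φ : ℂ → ℂ) (a : ℂ), AnalyticAt ℂ φ a → a.im = 0 → deriv φ a ≠ 0 →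
  (∀ᶠ t in 𝓝 a, t.im = 0 → (φ t).im = 0) → ∃ C : ℝ, ∀ᶠ t in 𝓝 a, t.im ≠ 0 → (φ t).im ≠ 0 →
    |-Real.log |(φ t).im| + Real.log |t.im| + Real.log ‖deriv φ t‖| ≤ C * t.im ^ 2 ∧
    ‖-(deriv φ t / (2 * I * (φ t).im)) + 1 / (2 * I * t.im) +
      deriv (deriv φ) t / (2 * deriv φ t)‖ ≤ C * |t.im| ∧
    |normSq (deriv φ t) / (4 * (φ t).im ^ 2) - 1 / (4 * t.im ^ 2)| ≤ C

def StD3 : Prop := ∀ S A p F l F' l', p ∈ S → A p ≠ 0 → Germ S A p F l → Germ S A p F' l' →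
  Gam S F p fun x => UU F' l' x - UU F l x

def StD4 : Prop := ∀ (S : Set E) (δ : E → ℝ), (0 : E) ∉ S → IsClosed (insert 0 S) →
  (∀ z ∈ S, ∀ c : ℂ, c ≠ 0 → c • z ∈ S) → (∀ p ∈ S, 0 < δ p ∧ δ p < 1) →
  ∃ (T : Finset E) (φ0 : E → ℝ) (φ : E → E → ℝ), (∀ p ∈ T, p ∈ S) ∧
    ContDiffOn ℝ ∞ φ0 {0}ᶜ ∧ (∀ p ∈ T, ContDiffOn ℝ ∞ (φ p) {0}ᶜ) ∧
    (∀ (c : ℂ) (x : E), c ≠ 0 → φ0 (c • x) = φ0 x ∧ ∀ p ∈ T, φ p (c • x) = φ p x) ∧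
    (∀ x, x ≠ 0 → φ0 x + ∑ p ∈ T, φ p x = 1) ∧
    (∀ p ∈ T, ∀ x, x ≠ 0 → x ∉ Cn p (δ p) → φ p =ᶠ[𝓝 x] 0) ∧ ∀ x ∈ S, φ0 =ᶠ[𝓝 x] 0

def StD5 : Prop := ∀ (S : Set E) (d : ℕ) (A : E → E) (U : E → ℝ) (p : E) (F l : E → ℂ)
  (T : Finset E) (φ γ : E → E → ℝ), p ∈ S → p ≠ 0 → A p ≠ 0 → Differentiable ℂ A →
  Germ S A p F l → (∀ k ∈ T, ContDiffAt ℝ ∞ (φ k) p) → (∀ k ∈ T, Gam S F p (γ k)) →
  (∀ᶠ x in 𝓝 p, x ∉ S → U x = UU F l x + ∑ k ∈ T, φ k x * γ k x) →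
  (∃ C : ℝ, ∀ᶠ x in 𝓝 p, x ∉ S → Est d A U C x) ∧
    ∀ r : ℝ, ∀ᶠ x in 𝓝 p, x ∉ S → el d U x < r

def StDAT : Prop := ∀ S, Hyp S → ∃ d A U, Dat S d A U

end

end Pool.Agent.Lib.MP_4e4ac8_an.LV
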