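import Pool.Agent.Lib.MP_4e4ac8_an.LV.St
import Pool.Agent.Lib.MP_caab05_ag.GB.Osg

/-! Basic algebra, calculus and integration lemmas. -/

namespace Pool.Agent.Lib.MP_4e4ac8_an.LV

open MeasureTheory Complex Matrix Filter Topology Set
open Pool.Agent.Lib.MP_813db1_ag.HS
open scoped ContDiff

noncomputable section

variable {u v : E → ℝ} {x : E} {P Q R : Mx} {a b : E} {Ω : Set E}

/-! ### algebra -/

theorem tt_nonneg (x : E) : 0 ≤ tt x := Finset.sum_nonneg fun _ _ => normSq_nonneg _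

theorem tt_three (x : E) : tt x = normSq (x 0) + normSq (x 1) + normSq (x 2) := by
  simp [tt, Fin.sum_univ_three]

theorem tt_cast (x : E) : (tt x : ℂ) = x ⬝ᵥ star x := by
  simp [tt, dotProduct, mul_conj]

theorem sq_apply_le_tt (x : E) (j : Fin 3) : ‖x j‖ ^ 2 ≤ tt x := by
  rw [← normSq_eq_norm_sq]
  exact Finset.single_le_sum (f := fun j => normSq (x j)) (fun _ _ => normSq_nonneg _)
    (Finset.mem_univ j)

theorem sq_norm_le_tt (x : E) : ‖x‖ ^ 2 ≤ tt x := by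
  have h : ‖x‖ ≤ √(tt x) := (pi_norm_le_iff_of_nonneg (Real.sqrt_nonneg _)).2 fun j =>
    Real.le_sqrt_of_sq_le (sq_apply_le_tt x j)
  have := pow_le_pow_left₀ (norm_nonneg _) h 2
  rwa [Real.sq_sqrt (tt_nonneg x)] at this

theorem tt_le (x : E) : tt x ≤ 3 * ‖x‖ ^ 2 := by
  have h := fun j => pow_le_pow_left₀ (norm_nonneg _) (norm_le_pi_norm x j) 2
  rw [tt_three, normSq_eq_norm_sq, normSq_eq_norm_sq, normSq_eq_norm_sq]
  linarith [h 0, h 1, h 2]

theorem tt_pos (h : x ≠ 0) : 0 < tt x :=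
  (pow_pos (norm_pos_iff.2 h) 2).trans_le (sq_norm_le_tt x)

theorem tt_zero : tt (0 : E) = 0 := by simp [tt]

theorem ne_zero_of_tt (h : 0 < tt x) : x ≠ 0 := fun e => by simp [e, tt_zero] at h

theorem tt_smul (c : ℂ) (x : E) : tt (c • x) = ‖c‖ ^ 2 * tt x := by
  simp [tt, Finset.mul_sum, normSq_eq_norm_sq, mul_pow]

theorem tt_star (x : E) : tt (star x) = tt x := by simp [tt]

theorem norm_le_of_tt {r : ℝ} (hr : 0 ≤ r) (h : tt x ≤ r ^ 2) : ‖x‖ ≤ r :=
  (pow_le_pow_iff_left₀ (norm_nonneg _) hr two_ne_zero).1 ((sq_norm_le_tt x).trans h)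

theorem contDiff_tt : ContDiff ℝ ∞ tt := by
  have : tt = fun x : E => ∑ j, ((x j).re * (x j).re + (x j).im * (x j).im) := by
    funext x; simp [tt, normSq_apply]
  rw [this]
  have h1 := fun j : Fin 3 => reCLM.contDiff.comp (contDiff_apply ℝ ℂ j) (n := ∞)
  have h2 := fun j : Fin 3 => imCLM.contDiff.comp (contDiff_apply ℝ ℂ j) (n := ∞)
  exact ContDiff.sum fun j _ => ((h1 j).mul (h1 j)).add ((h2 j).mul (h2 j))

theorem continuous_tt : Continuous tt := contDiff_tt.continuous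

theorem isCompact_tt (r : ℝ) : IsCompact {x : E | tt x ≤ r} :=
  (isCompact_closedBall (0 : E) √r).of_isClosed_subset (isClosed_le continuous_tt continuous_const)
    fun x hx => mem_closedBall_zero_iff.2 (Real.le_sqrt_of_sq_le ((sq_norm_le_tt x).trans hx))

theorem isCompact_Ann : IsCompact Ann :=
  (isCompact_tt 16).of_isClosed_subset ((isClosed_le continuous_const continuous_tt).inter
    (isClosed_le continuous_tt continuous_const)) fun _ h => h.2

theorem Ann_ne (h : x ∈ Ann) : x ≠ 0 := ne_zero_of_tt (by linarith [h.1])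

theorem Ann_norm (h : x ∈ Ann) : ‖x‖ ≤ 4 := norm_le_of_tt (by norm_num) (by linarith [h.2])

theorem isOpen_Op : IsOpen Op :=
  (isOpen_lt continuous_const continuous_tt).inter (isOpen_lt continuous_tt continuous_const)

theorem mem_Om {S : Set E} : x ∈ Om S ↔ x ≠ 0 ∧ x ∉ S := by simp [Om, not_or]

theorem DD_three (P Q : Mx) : DD P Q = P 0 0 * Q 1 1 + P 1 1 * Q 0 0 + P 0 0 * Q 2 2 +
    P 2 2 * Q 0 0 + P 1 1 * Q 2 2 + P 2 2 * Q 1 1 - P 0 1 * Q 1 0 - P 1 0 * Q 0 1 -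
    P 0 2 * Q 2 0 - P 2 0 * Q 0 2 - P 1 2 * Q 2 1 - P 2 1 * Q 1 2 := by
  simp only [DD, trace, diag, mul_apply, Fin.sum_univ_three]; ring

theorem DD_comm (P Q : Mx) : DD P Q = DD Q P := by simp only [DD_three]; ring
theorem DD_add_left (P Q R : Mx) : DD (P + Q) R = DD P R + DD Q R := by
  simp only [DD_three, Matrix.add_apply]; ring
theorem DD_add_right (P Q R : Mx) : DD P (Q + R) = DD P Q + DD P R := by
  simp only [DD_three, Matrix.add_apply]; ring
theorem DD_sub_left (P Q R : Mx) : DD (P - Q) R = DD P R - DD Q R := by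
  simp only [DD_three, Matrix.sub_apply]; ring
theorem DD_sub_right (P Q R : Mx) : DD P (Q - R) = DD P Q - DD P R := by
  simp only [DD_three, Matrix.sub_apply]; ring
theorem DD_smul_left (c : ℂ) (P Q : Mx) : DD (c • P) Q = c * DD P Q := by
  simp only [DD_three, Matrix.smul_apply, smul_eq_mul]; ring
theorem DD_smul_right (c : ℂ) (P Q : Mx) : DD P (c • Q) = c * DD P Q := by
  simp only [DD_three, Matrix.smul_apply, smul_eq_mul]; ring
theorem DD_zero_left (Q : Mx) : DD 0 Q = 0 := by simp [DD]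
theorem DD_zero_right (Q : Mx) : DD Q 0 = 0 := by simp [DD]
theorem DD_one_right (P : Mx) : DD P 1 = 2 * P.trace := by
  simp [DD]; ring

theorem DD_vv (a b c d : E) : DD (vecMulVec a b) (vecMulVec c d) = (a ⨯₃ c) ⬝ᵥ (b ⨯₃ d) := by
  simp [DD_three, vecMulVec_apply, cross_apply, dotProduct, Fin.sum_univ_three]; ring

theorem DD_v (a b : E) (Q : Mx) : DD (vecMulVec a b) Q = a ⬝ᵥ b * Q.trace - b ⬝ᵥ (Q *ᵥ a) := by
  simp [DD_three, vecMulVec_apply, dotProduct, mulVec, trace, Fin.sum_univ_three]; ring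

theorem trace_oo (a : E) : (oo a).trace = tt a := by
  simp [oo, trace, vecMulVec_apply, tt, mul_conj]

theorem oo_smul (c : ℂ) (a : E) : oo (c • a) = ((normSq c : ℝ) : ℂ) • oo a := by
  ext i j; simp [oo, vecMulVec_apply, ← mul_conj]; ring

theorem exists_smul_of_cross (ha : a ≠ 0) (h : b ⨯₃ a = 0) : ∃ c : ℂ, b = c • a := by
  have t0 : (tt a : ℂ) ≠ 0 := by exact_mod_cast (tt_pos ha).ne'
  have e0 := congrFun h 0; have e1 := congrFun h 1; have e2 := congrFun h 2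
  simp [cross_apply] at e0 e1 e2
  refine ⟨(b ⬝ᵥ star a) / tt a, funext fun j => ?_⟩
  rw [Pi.smul_apply, smul_eq_mul, div_mul_eq_mul_div, eq_div_iff t0, tt_cast]
  fin_cases j <;> simp [dotProduct, Fin.sum_univ_three]
  · linear_combination (starRingEnd ℂ) (a 1) * e2 - (starRingEnd ℂ) (a 2) * e1
  · linear_combination (starRingEnd ℂ) (a 2) * e0 - (starRingEnd ℂ) (a 0) * e2
  · linear_combination (starRingEnd ℂ) (a 0) * e1 - (starRingEnd ℂ) (a 1) * e0

/-- two matrices whose columns are parallel to `a` -/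
theorem DD_par (ha : a ≠ 0) (hP : ∀ k, (fun j => P j k) ⨯₃ a = 0)
    (hQ : ∀ k, (fun j => Q j k) ⨯₃ a = 0) : DD P Q = 0 := by
  choose p hp using fun k => exists_smul_of_cross ha (hP k)
  choose q hq using fun k => exists_smul_of_cross ha (hQ k)
  have e1 : ∀ j k, P j k = p k * a j := fun j k => congrFun (hp k) j
  have e2 : ∀ j k, Q j k = q k * a j := fun j k => congrFun (hq k) j
  simp only [DD_three, e1, e2]; ring

theorem Bd.nonneg {c : ℝ} (h : Bd P c) : 0 ≤ c := (norm_nonneg _).trans (h 0 0)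
theorem Bd.mono {c d : ℝ} (h : Bd P c) (e : c ≤ d) : Bd P d := fun j k => (h j k).trans e
theorem Bd.add {c d : ℝ} (h : Bd P c) (g : Bd Q d) : Bd (P + Q) (c + d) := fun j k =>
  (norm_add_le _ _).trans (add_le_add (h j k) (g j k))
theorem Bd.sub {c d : ℝ} (h : Bd P c) (g : Bd Q d) : Bd (P - Q) (c + d) := fun j k =>
  (norm_sub_le _ _).trans (add_le_add (h j k) (g j k))
theorem Bd.smul {c d : ℝ} {z : ℂ} (h : Bd P c) (g : ‖z‖ ≤ d) : Bd (z • P) (d * c) := fun j k => by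
  rw [Matrix.smul_apply, smul_eq_mul, norm_mul]
  exact mul_le_mul g (h j k) (norm_nonneg _) ((norm_nonneg _).trans g)
theorem bd_vv {c d : ℝ} (h : ‖a‖ ≤ c) (g : ‖b‖ ≤ d) : Bd (vecMulVec a b) (c * d) := fun j k => by
  rw [vecMulVec_apply, norm_mul]
  exact mul_le_mul ((norm_le_pi_norm a j).trans h) ((norm_le_pi_norm b k).trans g) (norm_nonneg _)
    ((norm_nonneg _).trans h)
theorem bd_oo {c : ℝ} (h : ‖a‖ ≤ c) : Bd (oo a) (c * c) := bd_vv h (by rwa [norm_star])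
theorem bd_oo_tt (a : E) : Bd (oo a) (tt a) :=
  (bd_oo le_rfl).mono (by rw [← sq]; exact sq_norm_le_tt a)
theorem bd_one : Bd 1 1 := fun j k => by
  rw [one_apply]; split_ifs <;> simp

theorem Bd.trace {c : ℝ} (h : Bd P c) : ‖P.trace‖ ≤ 3 * c := by
  rw [Matrix.trace, Fin.sum_univ_three]
  refine norm_add₃_le.trans ?_
  simp only [diag]
  linarith [h 0 0, h 1 1, h 2 2]

theorem DD_bd {c d : ℝ} (h : Bd P c) (g : Bd Q d) : ‖DD P Q‖ ≤ 18 * (c * d) := by
  have m : ∀ i j k l, ‖P i j * Q k l‖ ≤ c * d := fun i j k l => by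
    rw [norm_mul]; exact mul_le_mul (h i j) (g k l) (norm_nonneg _) h.nonneg
  have b : Bd (P * Q) (3 * (c * d)) := fun j k => by
    rw [mul_apply, Fin.sum_univ_three]
    refine norm_add₃_le.trans ?_
    linarith [m j 0 0 k, m j 1 1 k, m j 2 2 k]
  refine (norm_sub_le _ _).trans ?_
  have := mul_le_mul h.trace g.trace (norm_nonneg _) (by linarith [h.nonneg])
  rw [norm_mul]
  linarith [b.trace]

theorem norm_cross_le (a b : E) : ‖a ⨯₃ b‖ ≤ 2 * (‖a‖ * ‖b‖) := by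
  have m : ∀ i j k l, ‖a i * b j - a k * b l‖ ≤ 2 * (‖a‖ * ‖b‖) := fun i j k l => by
    have n : ∀ i j, ‖a i * b j‖ ≤ ‖a‖ * ‖b‖ := fun i j => bd_vv le_rfl le_rfl i j
    linarith [norm_sub_le (a i * b j) (a k * b l), n i j, n k l]
  refine (pi_norm_le_iff_of_nonneg (by positivity)).2 fun j => ?_
  fin_cases j <;> simp only [cross_apply] <;> exact m _ _ _ _

theorem norm_dot_le (a b : E) : ‖a ⬝ᵥ b‖ ≤ 3 * (‖a‖ * ‖b‖) := by
  have n : ∀ i, ‖a i * b i‖ ≤ ‖a‖ * ‖b‖ := fun i => bd_vv le_rfl le_rfl i i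
  rw [dotProduct, Fin.sum_univ_three]
  refine norm_add₃_le.trans ?_
  linarith [n 0, n 1, n 2]

theorem star_cross (a b : E) : star (a ⨯₃ b) = star a ⨯₃ star b := by
  funext j; fin_cases j <;> simp [cross_apply]

/-! ### calculus -/

theorem cd_cx {n : WithTop ℕ∞} : ContDiffAt ℝ n (cx u) x ↔ ContDiffAt ℝ n u x := contDiffAt_ofReal
theorem df_cx : DifferentiableAt ℝ (cx u) x ↔ DifferentiableAt ℝ u x := differentiableAt_ofReal
theorem cd2 {F : Type} [NormedAddCommGroup F] [NormedSpace ℝ F] {f : E → F}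
    (h : ContDiffAt ℝ ∞ f x) : ContDiffAt ℝ 2 f x := contDiffAt_infty.1 h 2
theorem cdd {F : Type} [NormedAddCommGroup F] [NormedSpace ℝ F] {f : E → F}
    (h : ContDiffAt ℝ ∞ f x) : DifferentiableAt ℝ f x := h.differentiableAt (by simp)

theorem dzb_cx (u : E → ℝ) (k : Fin 3) (x : E) : dzb (cx u) k x = star (gr u x) k :=
  dzb_ofReal u k x

theorem gr_congr (h : u =ᶠ[𝓝 x] v) : gr u x = gr v x :=
  funext fun j => dz_congr (h.mono fun _ e => congrArg ofReal e) j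
theorem HH_congr (h : u =ᶠ[𝓝 x] v) : HH u x = HH v x :=
  levi_congr (h.mono fun _ e => congrArg ofReal e)
theorem lap_congr (h : u =ᶠ[𝓝 x] v) : lap u x = lap v x := by rw [lap, lap, HH_congr h]

theorem gr_const (c : ℝ) (x : E) : gr (fun _ => c) x = 0 := funext fun j => dz_const _ j x
theorem HH_const (c : ℝ) (x : E) : HH (fun _ => c) x = 0 := levi_const _ x
theorem lap_const (c : ℝ) (x : E) : lap (fun _ => c) x = 0 := by simp [lap, HH_const]

theorem cx_add (u v : E → ℝ) : cx (fun y => u y + v y) = fun y => cx u y + cx v y :=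
  funext fun _ => ofReal_add _ _
theorem cx_sub (u v : E → ℝ) : cx (fun y => u y - v y) = fun y => cx u y - cx v y :=
  funext fun _ => ofReal_sub _ _
theorem cx_mul (u v : E → ℝ) : cx (fun y => u y * v y) = fun y => cx u y * cx v y :=
  funext fun _ => ofReal_mul _ _
theorem cx_cmul (c : ℝ) (v : E → ℝ) : cx (fun y => c * v y) = fun y => (c : ℂ) * cx v y :=
  funext fun _ => ofReal_mul _ _

theorem gr_add (hu : ContDiffAt ℝ ∞ u x) (hv : ContDiffAt ℝ ∞ v x) :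
    gr (fun y => u y + v y) x = gr u x + gr v x :=
  funext fun j => by rw [gr, cx_add]; exact dz_add (df_cx.2 (cdd hu)) (df_cx.2 (cdd hv)) j
theorem gr_sub (hu : ContDiffAt ℝ ∞ u x) (hv : ContDiffAt ℝ ∞ v x) :
    gr (fun y => u y - v y) x = gr u x - gr v x :=
  funext fun j => by rw [gr, cx_sub]; exact dz_sub (df_cx.2 (cdd hu)) (df_cx.2 (cdd hv)) j
theorem gr_cmul (c : ℝ) (hv : ContDiffAt ℝ ∞ v x) : gr (fun y => c * v y) x = (c : ℂ) • gr v x :=
  funext fun j => by rw [gr, cx_cmul]; exact dz_cmul _ (df_cx.2 (cdd hv)) j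
theorem gr_mul (hu : ContDiffAt ℝ ∞ u x) (hv : ContDiffAt ℝ ∞ v x) :
    gr (fun y => u y * v y) x = (v x : ℂ) • gr u x + (u x : ℂ) • gr v x :=
  funext fun j => by
    rw [gr, cx_mul, dz_mul (df_cx.2 (cdd hu)) (df_cx.2 (cdd hv)) j]
    simp [gr, cx, mul_comm]
theorem gr_comp {Φ : ℝ → ℝ} {Φ' : ℝ} (hΦ : HasDerivAt Φ Φ' (u x)) (hu : ContDiffAt ℝ ∞ u x) :
    gr (fun y => Φ (u y)) x = (Φ' : ℂ) • gr u x :=
  funext fun j => dz_real_comp hΦ (cdd hu) j

theorem HH_add (hu : ContDiffAt ℝ ∞ u x) (hv : ContDiffAt ℝ ∞ v x) :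
    HH (fun y => u y + v y) x = HH u x + HH v x := by
  rw [HH, cx_add]; exact levi_add (cd_cx.2 (cd2 hu)) (cd_cx.2 (cd2 hv))
theorem HH_sub (hu : ContDiffAt ℝ ∞ u x) (hv : ContDiffAt ℝ ∞ v x) :
    HH (fun y => u y - v y) x = HH u x - HH v x := by
  rw [HH, cx_sub]; exact levi_sub (cd_cx.2 (cd2 hu)) (cd_cx.2 (cd2 hv))
theorem HH_cmul (c : ℝ) (hv : ContDiffAt ℝ ∞ v x) : HH (fun y => c * v y) x = (c : ℂ) • HH v x := by
  rw [HH, cx_cmul]; exact levi_cmul _ (cd_cx.2 (cd2 hv))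
theorem HH_mul (hu : ContDiffAt ℝ ∞ u x) (hv : ContDiffAt ℝ ∞ v x) :
    HH (fun y => u y * v y) x = (v x : ℂ) • HH u x + (u x : ℂ) • HH v x +
      (vecMulVec (gr u x) (star (gr v x)) + vecMulVec (gr v x) (star (gr u x))) := by
  ext i j
  rw [HH, cx_mul, levi_mul (cd_cx.2 (cd2 hu)) (cd_cx.2 (cd2 hv)), dzb_cx, dzb_cx]
  simp [HH, gr, cx, vecMulVec_apply]; ring
theorem HH_comp {Φ Φ₁ : ℝ → ℝ} {Φ₂ : ℝ} (h₁ : ∀ᶠ t in 𝓝 (u x), HasDerivAt Φ (Φ₁ t) t)
    (h₂ : HasDerivAt Φ₁ Φ₂ (u x)) (hu : ContDiffAt ℝ ∞ u x) :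
    HH (fun y => Φ (u y)) x = (Φ₁ (u x) : ℂ) • HH u x + (Φ₂ : ℂ) • oo (gr u x) := by
  ext i j
  refine (levi_real_comp h₁ h₂ (cd2 hu) i j).trans ?_
  rw [dzb_ofReal]
  rfl

theorem HH_herm (hu : ContDiffAt ℝ ∞ u x) : (HH u x).IsHermitian :=
  levi_herm_ofReal (cd_cx.2 (cd2 hu))

theorem star_HH (hu : ContDiffAt ℝ ∞ u x) (j k : Fin 3) : star (HH u x j k) = HH u x k j :=
  (HH_herm hu).apply k j

theorem trace_HH (hu : ContDiffAt ℝ ∞ u x) : (HH u x).trace = lap u x := by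
  refine (conj_eq_iff_re.1 ?_).symm
  simp only [trace, diag, map_sum]
  exact Finset.sum_congr rfl fun j _ => star_HH hu j j

theorem HH_eq_MM (hu : ContDiffAt ℝ ∞ u x) : HH u x = MM (gr u) x := by
  ext j k
  exact dz_dzb_comm (cd_cx.2 (cd2 hu)) j k

theorem lap_add (hu : ContDiffAt ℝ ∞ u x) (hv : ContDiffAt ℝ ∞ v x) :
    lap (fun y => u y + v y) x = lap u x + lap v x := by simp [lap, HH_add hu hv]
theorem lap_sub (hu : ContDiffAt ℝ ∞ u x) (hv : ContDiffAt ℝ ∞ v x) :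
    lap (fun y => u y - v y) x = lap u x - lap v x := by simp [lap, HH_sub hu hv]
theorem lap_cmul (c : ℝ) (hv : ContDiffAt ℝ ∞ v x) : lap (fun y => c * v y) x = c * lap v x := by
  simp [lap, HH_cmul c hv]
theorem lap_mul (hu : ContDiffAt ℝ ∞ u x) (hv : ContDiffAt ℝ ∞ v x) :
    lap (fun y => u y * v y) x = v x * lap u x + u x * lap v x +
      2 * (gr u x ⬝ᵥ star (gr v x)).re := by
  simp [lap, HH_mul hu hv, trace_vecMulVec, dotProduct, Fin.sum_univ_three]; ring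
theorem lap_comp {Φ Φ₁ : ℝ → ℝ} {Φ₂ : ℝ} (h₁ : ∀ᶠ t in 𝓝 (u x), HasDerivAt Φ (Φ₁ t) t)
    (h₂ : HasDerivAt Φ₁ Φ₂ (u x)) (hu : ContDiffAt ℝ ∞ u x) :
    lap (fun y => Φ (u y)) x = Φ₁ (u x) * lap u x + Φ₂ * tt (gr u x) := by
  simp [lap, HH_comp h₁ h₂ hu, trace_oo]

/-- chain rules for a smooth outer function -/
theorem gr_comp' {Φ : ℝ → ℝ} (hΦ : ContDiff ℝ ∞ Φ) (hu : ContDiffAt ℝ ∞ u x) :
    gr (fun y => Φ (u y)) x = ((deriv Φ (u x) : ℝ) : ℂ) • gr u x :=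
  gr_comp (hΦ.differentiable (by simp) _).hasDerivAt hu
theorem HH_comp' {Φ : ℝ → ℝ} (hΦ : ContDiff ℝ ∞ Φ) (hu : ContDiffAt ℝ ∞ u x) :
    HH (fun y => Φ (u y)) x = ((deriv Φ (u x) : ℝ) : ℂ) • HH u x +
      ((deriv (deriv Φ) (u x) : ℝ) : ℂ) • oo (gr u x) :=
  HH_comp (Eventually.of_forall fun _ => (hΦ.differentiable (by simp) _).hasDerivAt)
    ((contDiff_infty_iff_deriv.1 hΦ).2.differentiable (by simp) _).hasDerivAt hu
theorem lap_comp' {Φ : ℝ → ℝ} (hΦ : ContDiff ℝ ∞ Φ) (hu : ContDiffAt ℝ ∞ u x) :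
    lap (fun y => Φ (u y)) x = deriv Φ (u x) * lap u x + deriv (deriv Φ) (u x) * tt (gr u x) :=
  lap_comp (Eventually.of_forall fun _ => (hΦ.differentiable (by simp) _).hasDerivAt)
    ((contDiff_infty_iff_deriv.1 hΦ).2.differentiable (by simp) _).hasDerivAt hu

theorem cda_gr (hu : ContDiffAt ℝ ∞ u x) : ContDiffAt ℝ ∞ (gr u) x :=
  contDiffAt_pi.2 fun j => contDiffAt_dz_top (cd_cx.2 hu) j
theorem cda_HH (hu : ContDiffAt ℝ ∞ u x) (j k : Fin 3) : ContDiffAt ℝ ∞ (fun y => HH u y j k) x :=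
  contDiffAt_levi_top (cd_cx.2 hu) j k
theorem cda_MM {l : E → E} (hl : ContDiffAt ℝ ∞ l x) (j k : Fin 3) :
    ContDiffAt ℝ ∞ (fun y => MM l y j k) x := contDiffAt_dzb_top (contDiffAt_pi.1 hl j) k
theorem cda_lap (hu : ContDiffAt ℝ ∞ u x) : ContDiffAt ℝ ∞ (lap u) x :=
  reCLM.contDiff.contDiffAt.comp x (ContDiffAt.sum (s := Finset.univ) fun j _ => cda_HH hu j j)
theorem cda_DD {F G : E → Mx} (hF : ∀ j k, ContDiffAt ℝ ∞ (fun y => F y j k) x)
    (hG : ∀ j k, ContDiffAt ℝ ∞ (fun y => G y j k) x) :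
    ContDiffAt ℝ ∞ (fun y => DD (F y) (G y)) x := by
  simp only [DD_three]
  fun_prop
theorem cda_star {F : E → ℂ} (h : ContDiffAt ℝ ∞ F x) : ContDiffAt ℝ ∞ (fun y => star (F y)) x :=
  conjCLE.contDiff.contDiffAt.comp x h
theorem cda_starv {l : E → E} (h : ContDiffAt ℝ ∞ l x) : ContDiffAt ℝ ∞ (fun y => star (l y)) x :=
  contDiffAt_pi.2 fun j => cda_star (contDiffAt_pi.1 h j)
theorem cda_vv {l m : E → E} (h : ContDiffAt ℝ ∞ l x) (g : ContDiffAt ℝ ∞ m x) (j k : Fin 3) :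
    ContDiffAt ℝ ∞ (fun y => vecMulVec (l y) (m y) j k) x :=
  (contDiffAt_pi.1 h j).mul (contDiffAt_pi.1 g k)
theorem cda_oo {l : E → E} (h : ContDiffAt ℝ ∞ l x) (j k : Fin 3) :
    ContDiffAt ℝ ∞ (fun y => oo (l y) j k) x := cda_vv h (cda_starv h) j k
theorem cda_dot {l m : E → E} (h : ContDiffAt ℝ ∞ l x) (g : ContDiffAt ℝ ∞ m x) :
    ContDiffAt ℝ ∞ (fun y => l y ⬝ᵥ m y) x :=
  ContDiffAt.sum fun j _ => (contDiffAt_pi.1 h j).mul (contDiffAt_pi.1 g j)
theorem cda_cross {l m : E → E} (h : ContDiffAt ℝ ∞ l x) (g : ContDiffAt ℝ ∞ m x) :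
    ContDiffAt ℝ ∞ (fun y => l y ⨯₃ m y) x := by
  have n := fun i j => cda_vv h g i j
  refine contDiffAt_pi.2 fun j => ?_
  fin_cases j <;> simp only [cross_apply] <;> exact (n _ _).sub (n _ _)
theorem cda_tt {l : E → E} (h : ContDiffAt ℝ ∞ l x) : ContDiffAt ℝ ∞ (fun y => tt (l y)) x :=
  contDiff_tt.contDiffAt.comp x h

theorem an_hol {A : E → E} (hA : Differentiable ℂ A) (j : Fin 3) (x : E) :
    AnalyticAt ℂ (fun y => A y j) x :=
  MP_caab05_ag.GB.osg E ℂ _ univ isOpen_univ (differentiable_pi.1 hA j).differentiableOn x trivial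
theorem cda_an {F : E → ℂ} (h : AnalyticAt ℂ F x) : ContDiffAt ℝ ∞ F x :=
  h.restrictScalars.contDiffAt
theorem cda_hol {A : E → E} (hA : Differentiable ℂ A) (x : E) : ContDiffAt ℝ ∞ A x :=
  contDiffAt_pi.2 fun j => cda_an (an_hol hA j x)
theorem an_dz {F : E → ℂ} (h : AnalyticAt ℂ F x) (j : Fin 3) : AnalyticAt ℂ (dz F j) x := by
  have a : AnalyticAt ℂ (fun y => fderiv ℂ F y (Pi.single j 1)) x :=
    ((ContinuousLinearMap.apply ℂ ℂ (Pi.single j 1 : E)).analyticAt _).comp h.fderiv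
  exact a.congr (h.eventually_analyticAt.mono fun y hy => (dz_hol hy.differentiableAt j).symm)
theorem an_cu {A : E → E} (hA : Differentiable ℂ A) (j : Fin 3) (x : E) :
    AnalyticAt ℂ (fun y => cu A y j) x := by
  have n := fun i k => an_dz (an_hol hA i x) k
  fin_cases j <;> exact (n _ _).sub (n _ _)
theorem cda_cu {A : E → E} (hA : Differentiable ℂ A) (x : E) : ContDiffAt ℝ ∞ (cu A) x :=
  contDiffAt_pi.2 fun j => cda_an (an_cu hA j x)
theorem cda_YY {A : E → E} (hA : Differentiable ℂ A) (hu : ContDiffAt ℝ ∞ u x) :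
    ContDiffAt ℝ ∞ (YY A u) x :=
  (cda_cu hA x).add ((cda_cross (cda_gr hu) (cda_hol hA x)).const_smul (2 : ℂ))

theorem gr_tt (x : E) : gr tt x = star x := by
  funext j
  have e : cx tt = fun y : E => ∑ i, y i * star (y i) := funext fun y => tt_cast y
  have d : ∀ i, DifferentiableAt ℝ (fun y : E => y i) x := fun i => by fun_prop
  rw [gr, e, dz_sum _ fun i _ => (d i).fun_mul (d i).star]
  simp only [fun i => dz_mul (d i) (d i).star j, dz_star, dz_coord, dzb_coord]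
  simp

theorem HH_tt (x : E) : HH tt x = 1 := by
  rw [HH_eq_MM contDiff_tt.contDiffAt]
  ext j k
  simp only [MM, of_apply, gr_tt, Pi.star_apply, dzb_star, dz_coord, one_apply]
  split_ifs <;> simp

theorem lap_tt (x : E) : lap tt x = 3 := by simp [lap, HH_tt]

theorem cda_U0 (d : ℕ) (h : x ≠ 0) : ContDiffAt ℝ ∞ (U0 d) x :=
  contDiffAt_const.mul (contDiff_tt.contDiffAt.log (tt_pos h).ne')

theorem gr_U0 (d : ℕ) (h : x ≠ 0) :
    gr (U0 d) x = ((-(((d : ℝ) + 1) / 2) / tt x : ℝ) : ℂ) • star x := by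
  rw [← gr_tt]
  exact gr_comp (Φ := fun t => -(((d : ℝ) + 1) / 2) * Real.log t)
    ((Real.hasDerivAt_log (tt_pos h).ne').const_mul _) contDiff_tt.contDiffAt

theorem HH_U0 (d : ℕ) (h : x ≠ 0) : HH (U0 d) x = ((-(((d : ℝ) + 1) / 2) / tt x : ℝ) : ℂ) • 1 +
    (((((d : ℝ) + 1) / 2) / tt x ^ 2 : ℝ) : ℂ) • oo (star x) := by
  have t0 := (tt_pos h).ne'
  rw [← gr_tt, ← HH_tt x]
  refine HH_comp (Φ := fun t => -(((d : ℝ) + 1) / 2) * Real.log t)
    (Φ₁ := fun t => -(((d : ℝ) + 1) / 2) / t) ((eventually_ne_nhds t0).mono fun t ht =>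
      (Real.hasDerivAt_log ht).const_mul _) ?_ contDiff_tt.contDiffAt
  refine ((hasDerivAt_inv t0).const_mul (-(((d : ℝ) + 1) / 2))).congr_deriv ?_
  field_simp

theorem lap_U0 (d : ℕ) (h : x ≠ 0) : lap (U0 d) x = -(((d : ℝ) + 1) / tt x) := by
  have t0 := (tt_pos h).ne'
  simp only [lap, HH_U0 d h, trace_add, trace_smul, trace_oo, trace_one, tt_star, smul_eq_mul]
  norm_cast
  simp; field_simp; ring

theorem DD_U0 (d : ℕ) (h : x ≠ 0) :
    DD (HH (U0 d) x) (HH (U0 d) x) = ((((d : ℝ) + 1) ^ 2 / (2 * tt x ^ 2) : ℝ) : ℂ) := by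
  have t0 : (tt x : ℂ) ≠ 0 := by exact_mod_cast (tt_pos h).ne'
  have e : DD (oo (star x)) (oo (star x)) = 0 := by simp [oo, DD_vv]
  rw [HH_U0 d h]
  simp only [DD_add_left, DD_add_right, DD_smul_left, DD_smul_right, DD_one_right, e,
    DD_comm 1 (oo (star x)), trace_oo, tt_star, trace_add, trace_smul, trace_one, smul_eq_mul]
  push_cast
  simp only [Fintype.card_fin, Nat.cast_ofNat]
  field_simp; ring

/-! ### scaling -/

theorem dz_scale {f : E → ℂ} (c : ℂ) (h : DifferentiableAt ℝ f (c • x)) (j : Fin 3) :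
    dz (fun y => f (c • y)) j x = c * dz f j (c • x) ∧
      dzb (fun y => f (c • y)) j x = star c * dzb f j (c • x) := by
  have e : ∀ w, fderiv ℝ (fun y => f (c • y)) x w = fderiv ℝ f (c • x) (c • w) := fun w => by
    have := (h.hasFDerivAt.comp x ((hasFDerivAt_id x).const_smul c)).fderiv
    exact DFunLike.congr_fun this w
  have s : ∀ z : ℂ, c • (Pi.single j z : E) = Pi.single j (c * z) := fun z => by
    rw [← smul_eq_mul, Pi.single_smul]
  constructor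
  · rw [dz, e, e, s, s, MP_813db1_ag.HS.fderiv_single, MP_813db1_ag.HS.fderiv_single]
    simp; linear_combination (-(c * dz f j (c • x) - (starRingEnd ℂ) c * dzb f j (c • x)) / 2) * I_mul_I
  · rw [dzb, e, e, s, s, MP_813db1_ag.HS.fderiv_single, MP_813db1_ag.HS.fderiv_single]
    simp; linear_combination ((c * dz f j (c • x) - (starRingEnd ℂ) c * dzb f j (c • x)) / 2) * I_mul_I

theorem gr_smul (c : ℂ) (h : ContDiffAt ℝ ∞ u (c • x)) :
    gr (fun y => u (c • y)) x = c • gr u (c • x) :=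
  funext fun j => (dz_scale c (df_cx.2 (cdd h)) j).1

theorem HH_smul (c : ℂ) (h : ContDiffAt ℝ ∞ u (c • x)) :
    HH (fun y => u (c • y)) x = ((‖c‖ ^ 2 : ℝ) : ℂ) • HH u (c • x) := by
  ext i j
  have h2 := cd_cx.2 (cd2 h)
  have k : ContinuousAt (fun y : E => c • y) x := by fun_prop
  have e : dzb (cx fun y => u (c • y)) j =ᶠ[𝓝 x] fun y => star c * dzb (cx u) j (c • y) :=
    (k.eventually (eventually_diff h2)).mono fun y hy => (dz_scale c hy j).2
  have d := differentiableAt_dzb h2 j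
  have d' : DifferentiableAt ℝ (fun y => dzb (cx u) j (c • y)) x := d.comp x (by fun_prop)
  rw [HH, levi_apply, dz_congr e, dz_cmul _ d', (dz_scale c d i).1,
    ← normSq_eq_norm_sq, ← mul_conj]
  simp [HH, levi_apply]; ring

theorem lap_smul (c : ℂ) (h : ContDiffAt ℝ ∞ u (c • x)) :
    lap (fun y => u (c • y)) x = ‖c‖ ^ 2 * lap u (c • x) := by
  rw [lap, HH_smul c h, trace_smul, smul_eq_mul, re_ofReal_mul, lap]

end

end Pool.Agent.Lib.MP_4e4ac8_an.LV
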