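import Pool.Agent.Lib.MP_4e4ac8_an.LV.TOP2a
import Pool.Agent.Lib.MP_4e4ac8_an.LV.W

/-! Pointwise description of the topological term. -/

namespace Pool.Agent.Lib.MP_4e4ac8_an.LV

open Complex Matrix Filter Topology Set
open Pool.Agent.Lib.MP_813db1_ag.HS
open scoped ContDiff

noncomputable section

namespace TOP2

variable {S : Set E} {d : ℕ} {A : E → E} {U u : E → ℝ} {C c l0 L : ℝ} {x : E}

theorem cdd {F : Type} [NormedAddCommGroup F] [NormedSpace ℝ F] {f : E → F}
    (h : ContDiffAt ℝ ∞ f x) : DifferentiableAt ℝ f x := h.differentiableAt (by simp)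

theorem cd_tt : ContDiff ℝ ∞ tt := by
  have : tt = fun x : E => ∑ j, ((x j).re * (x j).re + (x j).im * (x j).im) := by
    funext x; simp [tt, normSq_apply]
  have r : ∀ j, ContDiff ℝ ∞ fun x : E => (x j).re := fun j =>
    reCLM.contDiff.comp (contDiff_apply ℝ ℂ j)
  have i : ∀ j, ContDiff ℝ ∞ fun x : E => (x j).im := fun j =>
    imCLM.contDiff.comp (contDiff_apply ℝ ℂ j)
  rw [this]
  exact ContDiff.sum fun j _ => ((r j).mul (r j)).add ((i j).mul (i j))

theorem cd_gr (hu : ContDiffAt ℝ ∞ u x) : ContDiffAt ℝ ∞ (gr u) x :=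
  contDiffAt_pi.2 fun j => contDiffAt_dz_top (contDiffAt_ofReal.2 hu) j

theorem cd_U0 (h : tt x ≠ 0) : ContDiffAt ℝ ∞ (U0 d) x :=
  contDiffAt_const.mul (cd_tt.contDiffAt.log h)

theorem cd_A (hA : Differentiable ℂ A) : ContDiffAt ℝ ∞ A x :=
  cda_hol hA x

theorem cd_star {v : E → E} (h : ContDiffAt ℝ ∞ v x) : ContDiffAt ℝ ∞ (fun y => star (v y)) x :=
  contDiffAt_pi.2 fun j => conjCLE.contDiff.contDiffAt.comp x (contDiffAt_pi.1 h j)

theorem cd_cross {v w : E → E} (h : ContDiffAt ℝ ∞ v x) (h' : ContDiffAt ℝ ∞ w x) :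
    ContDiffAt ℝ ∞ (fun y => v y ⨯₃ w y) x := by
  have a := contDiffAt_pi.1 h
  have b := contDiffAt_pi.1 h'
  refine contDiffAt_pi.2 fun j => ?_
  fin_cases j
  · simpa [cross_apply] using ((a 1).mul (b 2)).sub ((a 2).mul (b 1))
  · simpa [cross_apply] using ((a 2).mul (b 0)).sub ((a 0).mul (b 2))
  · simpa [cross_apply] using ((a 0).mul (b 1)).sub ((a 1).mul (b 0))

theorem hol_cu (hA : Differentiable ℂ A) : Differentiable ℂ (cu A) :=
  differentiable_pi.2 fun j x => (an_cu hA j x).differentiableAt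

theorem cd_lam (hA : Differentiable ℂ A) (hu : ContDiffAt ℝ ∞ u x) (h : tt (A x) ≠ 0) :
    ContDiffAt ℝ ∞ (lam A u) x := by
  have a : ContDiffAt ℝ ∞ (fun y => 1 / (2 * tt (A y))) x :=
    contDiffAt_const.div (contDiffAt_const.mul (cd_tt.contDiffAt.comp x (cd_A hA)))
      (mul_ne_zero two_ne_zero h)
  exact (contDiffAt_ofReal.2 a).smul (cd_cross (cd_star (cd_A hA))
    ((cd_A (hol_cu hA)).add ((cd_cross (cd_gr hu) (cd_A hA)).const_smul (2 : ℂ))))

theorem lam_cross (h : tt (A x) ≠ 0) (hY : A x ⬝ᵥ YY A u x = 0) :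
    lam A u x ⨯₃ A x = (1 / 2 : ℂ) • YY A u x := by
  have : (tt (A x) : ℂ) ≠ 0 := by exact_mod_cast h
  rw [lam, map_smul, LinearMap.smul_apply, cross_cross_eq_smul_sub_smul, ← tt_eq,
    dotProduct_comm, hY, zero_smul, sub_zero, smul_smul]
  congr 1
  push_cast
  field_simp

theorem dzb_cross (hA : Differentiable ℂ A) {v : E → E} (hv : ContDiffAt ℝ ∞ v x) (k j : Fin 3) :
    dzb (fun y => (v y ⨯₃ A y) j) k x = ((fun j => MM v x j k) ⨯₃ A x) j := by
  have a := fun i => cdd (contDiffAt_pi.1 hv i)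
  have b := fun i => cdd (contDiffAt_pi.1 (cd_A (x := x) hA) i)
  have e : ∀ i l i' l', dzb (fun y => v y i * A y l - v y i' * A y l') k x =
      MM v x i k * A x l - MM v x i' k * A x l' := fun i l i' l' => by
    rw [dzb_sub ((a i).fun_mul (b l)) ((a i').fun_mul (b l')), dzb_mul (a i) (b l), dzb_mul (a i') (b l'),
      dzb_hol (differentiable_pi.1 hA l x), dzb_hol (differentiable_pi.1 hA l' x)]
    simp [MM]
  fin_cases j
  · simpa [cross_apply] using e 1 2 2 1
  · simpa [cross_apply] using e 2 0 0 2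
  · simpa [cross_apply] using e 0 1 1 0

/-- the form which describes the foliation away from its singular set -/
def nu (d : ℕ) (A : E → E) (y : E) : E := gr (U0 d) y - lam A (U0 d) y

theorem cd_nu (hA : Differentiable ℂ A) (h0 : tt x ≠ 0) (h : tt (A x) ≠ 0) :
    ContDiffAt ℝ ∞ (nu d A) x := (cd_gr (cd_U0 h0)).sub (cd_lam hA (cd_U0 h0) h)

theorem ne0 (h : tt x ≠ 0) : x ≠ 0 := fun e => h (by simp [e, tt])

theorem nu_par (h : Ctx S d A U C c l0) (h0 : tt x ≠ 0) (hx : tt (A x) ≠ 0) (k : Fin 3) :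
    (fun j => MM (nu d A) x j k) ⨯₃ A x = 0 := by
  ext j
  have e : (fun y => (nu d A y ⨯₃ A y) j) =ᶠ[𝓝 x] fun y => -(1 / 2) * cu A y j := by
    filter_upwards [cd_tt.continuous.continuousAt.eventually_ne h0,
      (cd_tt.continuous.comp h.hol.continuous).continuousAt.eventually_ne hx] with y a b
    rw [nu, map_sub, LinearMap.sub_apply, lam_cross b (h.aY0 y (ne0 a)), YY]
    simp only [Pi.sub_apply, Pi.smul_apply, Pi.add_apply, smul_eq_mul]
    ring
  rw [← dzb_cross h.hol (cd_nu h.hol h0 hx), dzb_congr e]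
  exact dzb_hol ((differentiable_pi.1 (hol_cu h.hol) j x).const_mul _) k

theorem MM_congr {l m : E → E} (h : l =ᶠ[𝓝 x] m) : MM l x = MM m x :=
  Matrix.ext fun j k => dzb_congr (h.mono fun _ e => congrFun e j) k

theorem MM_gr (hu : ContDiffAt ℝ ∞ u x) : MM (gr u) x = HH u x :=
  (HH_eq_MM hu).symm

theorem gr_el (hU : ContDiffAt ℝ ∞ U x) (h0 : tt x ≠ 0) :
    gr (el d U) x = (-2 : ℂ) • (gr U x - gr (U0 d) x) := by
  ext j
  have a := df_cx.2 (cdd hU)
  have b := df_cx.2 (cdd (cd_U0 (d := d) h0))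
  have : cx (el d U) = fun y => -2 * (cx U y - cx (U0 d) y) := by
    funext y; simp [cx, el]
  rw [gr, this, dz_cmul _ (a.fun_sub b), dz_sub a b]
  rfl

theorem MM_tf (h : Ctx S d A U C c l0) (hx : x ∈ Om S) (h0 : tt x ≠ 0) (hA : tt (A x) ≠ 0) :
    MM (tf S d A U L) x = (ch d U L x : ℂ) • HH U x + (1 - ch d U L x : ℂ) • MM (nu d A) x +
      ((deriv st (el d U x - L) : ℝ) : ℂ) •
        vecMulVec (gr U x - nu d A x) (star (gr (el d U) x)) := by
  have n := h.op.mem_nhds hx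
  have hU := h.sm.contDiffAt n
  have he := h.esm.contDiffAt n
  have sd : Differentiable ℝ st := (Real.smoothTransition.contDiff (n := 1)).differentiable one_ne_zero
  have a : DifferentiableAt ℝ (fun y => (ch d U L y : ℂ)) x :=
    differentiableAt_ofReal.2 ((sd _).comp x ((cdd he).sub_const L))
  have e : tf S d A U L =ᶠ[𝓝 x]
      fun y => (ch d U L y : ℂ) • gr U y + (1 - ch d U L y : ℂ) • nu d A y := by
    filter_upwards [n] with y hy
    rw [tf, indicator_of_mem hy, nu, ofReal_sub, ofReal_one]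
  rw [MM_congr e, ← MM_gr hU]
  ext j k
  have b := cdd (contDiffAt_pi.1 (cd_gr hU) j)
  have b' := cdd (contDiffAt_pi.1 (cd_nu (d := d) h.hol h0 hA) j)
  have g : dzb (fun y => (ch d U L y : ℂ)) k x =
      (deriv st (el d U x - L) : ℝ) * star (gr (el d U) x k) := by
    rw [show star (gr (el d U) x k) = dzb (fun y => (el d U y : ℂ)) k x from
      (dzb_ofReal _ k x).symm]
    exact dzb_real_comp (Φ := fun s => st (s - L))
      (HasDerivAt.comp_sub_const _ L (sd _).hasDerivAt) (cdd he) k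
  have a' := (differentiableAt_const (1 : ℂ)).fun_sub a
  show dzb (fun y => (ch d U L y : ℂ) * gr U y j + (1 - ch d U L y : ℂ) * nu d A y j) k x = _
  rw [dzb_add (a.fun_mul b) (a'.fun_mul b'), dzb_mul a b, dzb_mul a' b',
    dzb_sub (differentiableAt_const _) a, dzb_const, g]
  simp only [Matrix.add_apply, Matrix.smul_apply, smul_eq_mul, vecMulVec_apply, Pi.sub_apply,
    Pi.star_apply, MM, of_apply]
  ring

theorem w_cross (h : Ctx S d A U C c l0) (h0 : tt x ≠ 0) (hA : tt (A x) ≠ 0) :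
    (gr U x - nu d A x) ⨯₃ A x = (1 / 2 : ℂ) • YY A U x := by
  rw [nu, map_sub, map_sub, LinearMap.sub_apply, LinearMap.sub_apply,
    lam_cross hA (h.aY0 x (ne0 h0)), YY, YY]
  module

theorem cpt (h : Ctx S d A U C c l0) : IsCompact {x | x ∈ Ann ∧ c ≤ tt (A x)} := by
  refine (isCompact_closedBall (0 : E) 4).of_isClosed_subset
    (((isClosed_le continuous_const cd_tt.continuous).inter
      (isClosed_le cd_tt.continuous continuous_const)).inter
      (isClosed_le continuous_const (cd_tt.continuous.comp h.hol.continuous))) fun x hx => ?_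
  rw [mem_closedBall_zero_iff, pi_norm_le_iff_of_nonneg (by norm_num)]
  intro j
  have := Finset.single_le_sum (f := fun j => normSq (x j)) (fun _ _ => normSq_nonneg _)
    (Finset.mem_univ j)
  rw [normSq_eq_norm_sq] at this
  exact (pow_le_pow_iff_left₀ (norm_nonneg _) (by norm_num) two_ne_zero).1
    (this.trans (hx.1.2.trans (by norm_num)))

theorem zone (h : Ctx S d A U C c l0) : ∃ C' : ℝ, ∀ L ≤ l0 - 2, ∀ x ∈ Op,
    x ∈ Om S → L ≤ el d U x → el d U x ≤ L + 1 →
      ‖DD (MM (tf S d A U L) x) (MM (tf S d A U L) x)‖ ≤ C' ∧ ‖DD (HH U x) (HH U x)‖ ≤ C' := by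
  let ι := {p : ℝ × E // p.1 ≤ l0 - 2 ∧ p.2 ∈ Op ∧ p.2 ∈ Om S ∧ p.1 ≤ el d U p.2 ∧
    el d U p.2 ≤ p.1 + 1}
  let e : ι → ℝ := fun i => el d U i.1.2
  have om : ∀ i : ι, i.1.2 ∈ Om S := fun i => i.2.2.2.1
  have an : ∀ i : ι, i.1.2 ∈ Ann := fun i => ⟨i.2.2.1.1.le, i.2.2.1.2.le⟩
  have e0 : ∀ i, e i ≤ l0 := fun i => by linarith [i.2.1, i.2.2.2.2.2]
  have al : ∀ i : ι, c ≤ tt (A i.1.2) := fun i => h.al _ (an i) fun _ => e0 i
  have t0 : ∀ i : ι, tt i.1.2 ≠ 0 := fun i => by linarith [(an i).1]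
  have tA : ∀ i : ι, tt (A i.1.2) ≠ 0 := fun i => (h.c0.trans_le (al i)).ne'
  have fr : Fr e fun i => A i.1.2 := ⟨fun i => (e0 i).trans h.l00, OV.of0 fun i => h.an _ (an i),
    O.of0 (K := c⁻¹) fun i => by
      rw [norm_inv, norm_real, Real.norm_of_nonneg (h.c0.le.trans (al i))]
      exact inv_anti₀ h.c0 (al i), fun i => by exact_mod_cast tA i⟩
  have bd : ∀ f : E → ℂ, (∀ x, tt x ≠ 0 → tt (A x) ≠ 0 → ContDiffAt ℝ ∞ f x) →
      O e 0 fun i => f i.1.2 := fun f hf => by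
    obtain ⟨K, hK⟩ := (cpt h).exists_bound_of_continuousOn (f := f) fun x hx =>
      (hf x (by linarith [hx.1.1]) (h.c0.trans_le hx.2).ne').continuousAt.continuousWithinAt
    exact O.of0 fun i => hK _ ⟨an i, al i⟩
  have gH : Good e (fun i => A i.1.2) fun i => HH U i.1.2 :=
    ⟨fun l => OV.of (fun i => (h.est _ (om i) (an i)).d3 l) fun i => by ring,
      ⟨fun i => (Real.exp (2 * U i.1.2) / 4 : ℝ), O.of (K := C) (r := fun i => -e i) (fun i => by
        rw [norm_real, Real.norm_of_nonneg (by positivity)]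
        linarith [h.eu _ (om i) (an i), Real.exp_pos (2 * U i.1.2)]) fun i => by ring,
        fun j l => (O.of0 fun i => (h.est _ (om i) (an i)).d1 j l).mono fr.neg (by norm_num)⟩,
      O.of (fun i => (h.est _ (om i) (an i)).d4) fun i => by ring⟩
  have gN : Good e (fun i => A i.1.2) fun i => MM (nu d A) i.1.2 :=
    Good.par fr (fun j l => bd (fun x => MM (nu d A) x j l) fun x a b =>
      contDiffAt_dzb_top (contDiffAt_pi.1 (cd_nu h.hol a b) j) l) fun i => nu_par h (t0 i) (tA i)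
  have g1 : OV e (-1 / 2) fun i => gr (el d U) i.1.2 :=
    OV.of (fun i => h.ge _ (om i) (an i)) fun i => by ring
  have g2 : OV e (-1 / 2) fun i => lam A (U0 d) i.1.2 := fun j =>
    (bd (fun x => lam A (U0 d) x j) fun x a b =>
      contDiffAt_pi.1 (cd_lam h.hol (cd_U0 a) b) j).mono fr.neg (by norm_num)
  have g3 : OV e (-1 / 2) fun i => gr U i.1.2 - nu d A i.1.2 := by
    refine ((OV.smul (O.const (-1 / 2)) g1 (zero_add _)).add g2).congr fun i => ?_
    rw [gr_el (h.sm.contDiffAt (h.op.mem_nhds (om i))) (t0 i), nu]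
    module
  have g4 : OV e 1 fun i => YY A U i.1.2 :=
    OV.of (fun i => (h.est _ (om i) (an i)).d2) fun i => (one_mul _).symm
  have g5 : OV e 1 fun i => (gr U i.1.2 - nu d A i.1.2) ⨯₃ A i.1.2 :=
    (OV.smul (O.const (1 / 2)) g4 (zero_add 1)).congr fun i => w_cross h (t0 i) (tA i)
  have g6 : OV e 0 fun i => A i.1.2 ⨯₃ gr (el d U) i.1.2 := OV.of0 fun i => h.ax _ (om i) (an i)
  have g7 : OV e 0 fun i => gr (el d U) i.1.2 ⨯₃ A i.1.2 :=
    g6.neg.congr fun i => (cross_anticomm _ _).symm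
  have gV := Good.vv fr g3 g5 g1 g7
  have c1 : O e 0 fun i => (ch d U i.1.1 i.1.2 : ℂ) := O.of0 (K := 1) fun i => by
    rw [norm_real, ch, st, Real.norm_of_nonneg (Real.smoothTransition.nonneg _)]
    exact Real.smoothTransition.le_one _
  have c2 : O e 0 fun i => ((deriv st (el d U i.1.2 - i.1.1) : ℝ) : ℂ) := by
    obtain ⟨K, hK⟩ := (isCompact_Icc (a := (0 : ℝ)) (b := 1)).exists_bound_of_continuousOn
      ((Real.smoothTransition.contDiff (n := 1)).continuous_deriv le_rfl).continuousOn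
    exact O.of0 fun i => by
      rw [norm_real]
      exact hK _ ⟨by linarith [i.2.2.2.2.1], by linarith [i.2.2.2.2.2]⟩
  obtain ⟨K, hK⟩ := ((((gH.smul c1).add (gN.smul ((O.const 1).sub c1))).add
    (gV.smul c2)).bound fr).bdd
  obtain ⟨K', hK'⟩ := (gH.bound fr).bdd
  refine ⟨max K K', fun L hL x hx a b b' => ⟨le_max_of_le_left ?_,
    le_max_of_le_right (hK' ⟨(L, x), hL, hx, a, b, b'⟩)⟩⟩
  rw [MM_tf h a (t0 ⟨(L, x), hL, hx, a, b, b'⟩) (tA ⟨(L, x), hL, hx, a, b, b'⟩)]
  exact hK ⟨(L, x), hL, hx, a, b, b'⟩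

end TOP2

open TOP2 in
theorem top2_pf : StTOP2 := by
  intro S d A U C c l0 h
  obtain ⟨C', hC⟩ := zone h
  refine ⟨C', fun L hL x hx => ⟨fun a => ?_, fun a b => ?_, hC L hL x hx⟩⟩
  · have t0 : tt x ≠ 0 := by linarith [hx.1]
    have tA : tt (A x) ≠ 0 :=
      (h.c0.trans_le (h.al x ⟨hx.1.le, hx.2.le⟩ fun k => by linarith [a k])).ne'
    have ev : ∀ᶠ y in 𝓝 x, y ∈ Om S → el d U y < L := by
      by_cases k : x ∈ Om S
      · exact ((h.esm.contDiffAt (h.op.mem_nhds k)).continuousAt.eventually_lt continuousAt_const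
          (a k)).mono fun _ e _ => e
      · exact (h.lim x ((not_not.1 k).resolve_left (ne0 t0)) L).mono fun y e hy =>
          e fun q => hy (.inr q)
    have e : tf S d A U L =ᶠ[𝓝 x] nu d A := ev.mono fun y hy => by
      have : (Om S).indicator (ch d U L) y = 0 := indicator_apply_eq_zero.2 fun k =>
        Real.smoothTransition.zero_of_nonpos (by linarith [hy k])
      simp [tf, this, nu]
    obtain ⟨n, hn⟩ := par_mx (by exact_mod_cast tA) (nu_par h t0 tA)
    rw [TOP2.MM_congr e, hn, TOP2.DD_par]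
  · have n := h.op.mem_nhds a
    have e : tf S d A U L =ᶠ[𝓝 x] gr U := by
      filter_upwards [n, continuousAt_const.eventually_lt (h.esm.contDiffAt n).continuousAt b]
        with y hy k
      have : (Om S).indicator (ch d U L) y = 1 := (indicator_of_mem hy _).trans
        (Real.smoothTransition.one_of_one_le (by linarith))
      simp [tf, this]
    rw [TOP2.MM_congr e, MM_gr (h.sm.contDiffAt n)]

end

end Pool.Agent.Lib.MP_4e4ac8_an.LV
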