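import Pool.Agent.Lib.MP_4e4ac8_an.LV.St

/-! Orders of magnitude and the algebra of the topological term. -/

namespace Pool.Agent.Lib.MP_4e4ac8_an.LV

open Complex Matrix

noncomputable section

namespace TOP2

theorem tt_eq (a : E) : (tt a : ℂ) = star a ⬝ᵥ a := by
  simp [tt, dotProduct, normSq_eq_conj_mul_self]

def pr (a w : E) : ℂ := (tt a : ℂ)⁻¹ * (star a ⬝ᵥ w)

def pp (a w : E) : E := (tt a : ℂ)⁻¹ • (star a ⨯₃ (w ⨯₃ a))

theorem split {a : E} (h : (tt a : ℂ) ≠ 0) (w : E) : w = pr a w • a + pp a w := by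
  rw [pr, pp, cross_cross_eq_smul_sub_smul', ← tt_eq, smul_sub, smul_smul, inv_mul_cancel₀ h,
    one_smul, smul_smul, dotProduct_comm w]
  abel

theorem DD_vv (a b c d : E) :
    DD (vecMulVec a b) (vecMulVec c d) = (a ⨯₃ c) ⬝ᵥ (b ⨯₃ d) := by
  simp [DD, trace, Fin.sum_univ_three, mul_apply, vecMulVec_apply, cross_apply, dotProduct]
  ring

theorem DD_add (P Q R : Mx) : DD P (Q + R) = DD P Q + DD P R := by
  simp only [DD, Matrix.mul_add, trace_add]
  ring

theorem DD_smul (P Q : Mx) (c : ℂ) : DD P (c • Q) = c * DD P Q := by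
  simp only [DD, Matrix.mul_smul, trace_smul, smul_eq_mul]
  ring

theorem DD_comm (P Q : Mx) : DD P Q = DD Q P := by
  rw [DD, DD, trace_mul_comm, mul_comm]

theorem DD_par (a b d : E) : DD (vecMulVec a b) (vecMulVec a d) = 0 := by
  rw [DD_vv, cross_self, zero_dotProduct]

theorem split_mx {a : E} (h : (tt a : ℂ) ≠ 0) (P : Mx) :
    P = vecMulVec a (fun k => pr a fun j => P j k) + of fun j k => pp a (fun j => P j k) j := by
  ext j k
  have := congrFun (split h fun j => P j k) j
  simpa [vecMulVec_apply, mul_comm] using this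

theorem par_mx {a : E} (h : (tt a : ℂ) ≠ 0) {P : Mx} (hP : ∀ k, (fun j => P j k) ⨯₃ a = 0) :
    ∃ n, P = vecMulVec a n :=
  ⟨_, (split_mx h P).trans (by
    simp only [pp, hP, map_zero, smul_zero]
    exact add_zero _)⟩

theorem DD_key {a : E} (h : (tt a : ℂ) ≠ 0) (P : Mx) (μ : ℂ) :
    DD P P = 2 * (μ * DD (oo a) P +
      DD (vecMulVec a fun k => pr a fun j => (P - μ • oo a) j k)
        (of fun j k => pp a (fun j => P j k) j)) +
      DD (of fun j k => pp a (fun j => P j k) j) (of fun j k => pp a (fun j => P j k) j) := by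
  have e1 := split_mx h P
  have e2 : vecMulVec a (fun k => pr a fun j => P j k) =
      μ • oo a + vecMulVec a fun k => pr a fun j => (P - μ • oo a) j k := by
    ext j k
    have : star a ⬝ᵥ (fun j => (P - μ • oo a) j k) =
        star a ⬝ᵥ (fun j => P j k) - μ * tt a * star (a k) := by
      rw [tt_eq]
      simp [dotProduct, Fin.sum_univ_three, oo, vecMulVec_apply]
      ring
    simp only [pr, Matrix.add_apply, vecMulVec_apply, this]
    simp only [Matrix.smul_apply, oo, vecMulVec_apply, smul_eq_mul, Pi.star_apply]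
    field_simp
    ring
  generalize (of fun j k => pp a (fun j => P j k) j : Mx) = B at e1 ⊢
  generalize (fun k => pr a fun j => (P - μ • oo a) j k) = n' at e2 ⊢
  generalize (fun k => pr a fun j => P j k) = n at e1 e2
  have e3 : DD (oo a) P = DD (oo a) B := by rw [e1, DD_add, oo, DD_par, zero_add]
  have e4 : DD B (vecMulVec a n) = μ * DD (oo a) B + DD (vecMulVec a n') B := by
    rw [e2, DD_add, DD_smul, DD_comm B, DD_comm B]
  rw [e3]
  conv_lhs => rw [e1]
  rw [DD_add, DD_comm _ (vecMulVec a n), DD_comm _ B, DD_add, DD_add, DD_par,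
    DD_comm (vecMulVec a n) B, e4]
  ring

variable {ι : Type} {e : ι → ℝ} {k m n : ℝ} {f g : ι → ℂ} {v w a : ι → E} {P Q : ι → Mx}

/-- `f` has order at least `k` -/
def O (e : ι → ℝ) (k : ℝ) (f : ι → ℂ) : Prop :=
  ∃ K, 0 ≤ K ∧ ∀ i, ‖f i‖ ≤ K * Real.exp (k * e i)

def OV (e : ι → ℝ) (k : ℝ) (v : ι → E) : Prop := ∀ j, O e k fun i => v i j

def OM (e : ι → ℝ) (k : ℝ) (P : ι → Mx) : Prop := ∀ j l, O e k fun i => P i j l

theorem O.of {K : ℝ} {r : ι → ℝ} (h : ∀ i, ‖f i‖ ≤ K * Real.exp (r i)) (hr : ∀ i, r i = k * e i) :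
    O e k f :=
  ⟨max K 0, le_max_right _ _, fun i => (h i).trans (by
    rw [hr]; exact mul_le_mul_of_nonneg_right (le_max_left _ _) (Real.exp_pos _).le)⟩

theorem O.of0 {K : ℝ} (h : ∀ i, ‖f i‖ ≤ K) : O e 0 f :=
  O.of (K := K) (r := fun _ => 0) (by simpa using h) (by simp)

theorem O.congr (h : O e k f) (hg : ∀ i, g i = f i) : O e k g := funext hg ▸ h

theorem O.add (h : O e k f) (h' : O e k g) : O e k fun i => f i + g i := by
  obtain ⟨K, a, b⟩ := h
  obtain ⟨K', a', b'⟩ := h'
  exact ⟨K + K', add_nonneg a a', fun i => (norm_add_le _ _).trans (by linarith [b i, b' i])⟩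

theorem O.neg (h : O e k f) : O e k fun i => -f i := by simpa only [O, norm_neg] using h

theorem O.sub (h : O e k f) (h' : O e k g) : O e k fun i => f i - g i :=
  (h.add h'.neg).congr fun _ => sub_eq_add_neg _ _

theorem O.star (h : O e k f) : O e k fun i => star (f i) := by
  simpa only [O, norm_star] using h

theorem O.mul (h : O e k f) (h' : O e m g) (s : k + m = n) : O e n fun i => f i * g i := by
  obtain ⟨K, a, b⟩ := h
  obtain ⟨K', a', b'⟩ := h'
  refine ⟨K * K', mul_nonneg a a', fun i => ?_⟩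
  rw [norm_mul, ← s, add_mul, Real.exp_add, mul_mul_mul_comm]
  exact mul_le_mul (b i) (b' i) (norm_nonneg _) (by positivity)

theorem O.mono (he : ∀ i, e i ≤ 0) (h : O e k f) (s : m ≤ k) : O e m f := by
  obtain ⟨K, a, b⟩ := h
  exact ⟨K, a, fun i => (b i).trans (mul_le_mul_of_nonneg_left
    (Real.exp_le_exp.2 (mul_le_mul_of_nonpos_right s (he i))) a)⟩

theorem O.zero : O e k fun _ => 0 := ⟨0, le_rfl, by simp⟩

theorem O.const (c : ℂ) : O e 0 fun _ => c := O.of0 fun _ => le_rfl

theorem O.sum {F : Fin 3 → ι → ℂ} (h : ∀ j, O e k (F j)) : O e k fun i => ∑ j, F j i :=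
  (((h 0).add (h 1)).add (h 2)).congr fun _ => Fin.sum_univ_three _

theorem O.bdd (h : O e 0 f) : ∃ K, ∀ i, ‖f i‖ ≤ K := by
  obtain ⟨K, -, b⟩ := h
  exact ⟨K, by simpa using b⟩

theorem OV.of {K : ℝ} {r : ι → ℝ} (h : ∀ i, ‖v i‖ ≤ K * Real.exp (r i)) (hr : ∀ i, r i = k * e i) :
    OV e k v := fun j => O.of (fun i => (norm_le_pi_norm _ j).trans (h i)) hr

theorem OV.of0 {K : ℝ} (h : ∀ i, ‖v i‖ ≤ K) : OV e 0 v :=
  fun j => O.of0 fun i => (norm_le_pi_norm _ j).trans (h i)

theorem OV.congr (h : OV e k v) (hg : ∀ i, w i = v i) : OV e k w := funext hg ▸ h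

theorem OV.add (h : OV e k v) (h' : OV e k w) : OV e k fun i => v i + w i :=
  fun j => (h j).add (h' j)

theorem OV.neg (h : OV e k v) : OV e k fun i => -v i := fun j => (h j).neg

theorem OV.star (h : OV e k v) : OV e k fun i => star (v i) := fun j => (h j).star

theorem OV.smul (h : O e k f) (h' : OV e m v) (s : k + m = n) : OV e n fun i => f i • v i :=
  fun j => h.mul (h' j) s

theorem OV.cross (h : OV e k v) (h' : OV e m w) (s : k + m = n) :
    OV e n fun i => v i ⨯₃ w i := by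
  intro j
  fin_cases j
  · exact (((h 1).mul (h' 2) s).sub ((h 2).mul (h' 1) s)).congr fun _ => by simp [cross_apply]
  · exact (((h 2).mul (h' 0) s).sub ((h 0).mul (h' 2) s)).congr fun _ => by simp [cross_apply]
  · exact (((h 0).mul (h' 1) s).sub ((h 1).mul (h' 0) s)).congr fun _ => by simp [cross_apply]

theorem OV.dot (h : OV e k v) (h' : OV e m w) (s : k + m = n) : O e n fun i => v i ⬝ᵥ w i :=
  O.sum fun j => (h j).mul (h' j) s

theorem OV.vv (h : OV e k v) (h' : OV e m w) (s : k + m = n) :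
    OM e n fun i => vecMulVec (v i) (w i) := fun j l => (h j).mul (h' l) s

theorem OM.congr (h : OM e k P) (hg : ∀ i, Q i = P i) : OM e k Q := funext hg ▸ h

theorem OM.add (h : OM e k P) (h' : OM e k Q) : OM e k fun i => P i + Q i :=
  fun j l => (h j l).add (h' j l)

theorem OM.DD (h : OM e k P) (h' : OM e m Q) (s : k + m = n) : O e n fun i => DD (P i) (Q i) :=
  ((O.sum fun j => h j j).mul (O.sum fun j => h' j j) s).sub
    (O.sum fun j => O.sum fun l => (h j l).mul (h' l j) s)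

/-- a bounded family of vectors which stays away from zero -/
structure Fr (e : ι → ℝ) (a : ι → E) : Prop where
  neg : ∀ i, e i ≤ 0
  bd : OV e 0 a
  inv : O e 0 fun i => (tt (a i) : ℂ)⁻¹
  ne : ∀ i, (tt (a i) : ℂ) ≠ 0

theorem Fr.pr (h : Fr e a) (hv : OV e k v) : O e k fun i => pr (a i) (v i) :=
  h.inv.mul (h.bd.star.dot hv (zero_add k)) (zero_add k)

theorem Fr.pp (h : Fr e a) (hv : OV e k fun i => v i ⨯₃ a i) : OV e k fun i => pp (a i) (v i) :=
  OV.smul h.inv (h.bd.star.cross hv (zero_add k)) (zero_add k)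

/-- matrices which are nearly proportional to `oo a` -/
structure Good (e : ι → ℝ) (a : ι → E) (P : ι → Mx) : Prop where
  col : ∀ l, OV e (1 / 2) fun i => (fun j => P i j l) ⨯₃ a i
  mu : ∃ μ : ι → ℂ, O e (-1) μ ∧ OM e (-1 / 2) fun i => P i - μ i • oo (a i)
  dd : O e 1 fun i => DD (oo (a i)) (P i)

theorem Good.add (h : Good e a P) (h' : Good e a Q) : Good e a fun i => P i + Q i := by
  obtain ⟨μ, a1, a2⟩ := h.mu
  obtain ⟨ν, b1, b2⟩ := h'.mu
  refine ⟨fun l => ((h.col l).add (h'.col l)).congr fun i => ?_,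
    ⟨_, a1.add b1, (a2.add b2).congr fun i => ?_⟩, (h.dd.add h'.dd).congr fun i => DD_add _ _ _⟩
  · rw [← LinearMap.add_apply, ← map_add]
    rfl
  · rw [add_smul]
    abel

theorem Good.smul (hf : O e 0 f) (h : Good e a P) : Good e a fun i => f i • P i := by
  obtain ⟨μ, a1, a2⟩ := h.mu
  refine ⟨fun l => (OV.smul hf (h.col l) (zero_add _)).congr fun i => ?_,
    ⟨_, hf.mul a1 (zero_add _), fun j l => (hf.mul (a2 j l) (zero_add _)).congr fun i => ?_⟩,
    (hf.mul h.dd (zero_add _)).congr fun i => DD_smul _ _ _⟩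
  · rw [← LinearMap.smul_apply, ← map_smul]
    rfl
  · simp only [Matrix.sub_apply, Matrix.smul_apply, smul_eq_mul]
    ring

theorem Good.bound (h : Good e a P) (ha : Fr e a) : O e 0 fun i => DD (P i) (P i) := by
  obtain ⟨μ, a1, a2⟩ := h.mu
  have B : OM e (1 / 2) fun i => of fun j l => pp (a i) (fun j => P i j l) j :=
    fun j l => ha.pp (h.col l) j
  have N : OV e (-1 / 2) fun i l => pr (a i) fun j => (P i - μ i • oo (a i)) j l :=
    fun l => ha.pr fun j => a2 j l
  exact (((O.const 2).mul ((a1.mul h.dd (neg_add_cancel 1)).add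
    ((ha.bd.vv N (zero_add _)).DD B (by norm_num))) (zero_add 0)).add
    ((B.DD B rfl).mono ha.neg (by norm_num))).congr fun i => DD_key (ha.ne i) _ _

theorem Good.par (ha : Fr e a) (h : OM e 0 P) (hP : ∀ i l, (fun j => P i j l) ⨯₃ a i = 0) :
    Good e a P := by
  refine ⟨fun l j => O.zero.congr fun i => congrFun (hP i l) j,
    ⟨fun _ => 0, O.zero, fun j l => ((h j l).mono ha.neg (by norm_num)).congr fun i => by simp⟩,
    O.zero.congr fun i => ?_⟩
  obtain ⟨n, hn⟩ := par_mx (ha.ne i) (hP i)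
  rw [hn, oo, DD_par]

theorem star_cross (x y : E) : star x ⨯₃ star y = star (x ⨯₃ y) := by
  ext j
  fin_cases j <;> simp [cross_apply]

theorem Good.vv (ha : Fr e a) (hw : OV e (-1 / 2) w) (hw' : OV e 1 fun i => w i ⨯₃ a i)
    (hv : OV e (-1 / 2) v) (hv' : OV e 0 fun i => v i ⨯₃ a i) :
    Good e a fun i => vecMulVec (w i) (star (v i)) := by
  refine ⟨fun l => (OV.smul (hv.star l) hw' (by norm_num)).congr fun i => ?_,
    ⟨_, (ha.pr hw).mul (ha.pr hv).star (by norm_num), OM.congr (OM.add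
      (fun j l => ((ha.pp hw').vv hv.star rfl j l).mono ha.neg (by norm_num))
      ((OV.smul (ha.pr hw) ha.bd (add_zero _)).vv (ha.pp hv').star (add_zero _))) fun i => ?_⟩,
    (hw'.dot hv'.star (add_zero _)).congr fun i => ?_⟩
  · rw [← LinearMap.smul_apply, ← map_smul]
    congr 2
    ext j
    simp [vecMulVec_apply, mul_comm]
  · have e1 := split (ha.ne i) (w i)
    have e2 := split (ha.ne i) (v i)
    generalize pr (a i) (w i) = α at e1 ⊢
    generalize pr (a i) (v i) = β at e2 ⊢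
    generalize pp (a i) (w i) = w' at e1 ⊢
    generalize pp (a i) (v i) = v' at e2 ⊢
    rw [e1, e2]
    ext j l
    simp [vecMulVec_apply, oo]
    ring
  · rw [oo, DD_vv, star_cross, ← cross_anticomm (a i) (w i), ← cross_anticomm (a i) (v i),
      star_neg, neg_dotProduct, dotProduct_neg, neg_neg]

end TOP2

end

end Pool.Agent.Lib.MP_4e4ac8_an.LV
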